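import Mathlib

open Set Filter Topology

noncomputable section

namespace Pool.Agent.Helper88.Gap

/-- balanced peaks in a two-dimensional space of functions -/
theorem balanced {u1 u2 : ℝ → ℝ} (h1 : Continuous u1) (h2 : Continuous u2) {x1 x2 : ℝ}
    (hx : x1 ≤ x2) :
    ∃ s t m xL xR P : ℝ, s ^ 2 + t ^ 2 = 1 ∧ x1 ≤ xL ∧ xL ≤ m ∧ m ≤ xR ∧ xR ≤ x2 ∧
      s * u1 m + t * u2 m = 0 ∧ |s * u1 xL + t * u2 xL| = P ∧ |s * u1 xR + t * u2 xR| = P ∧
      ∀ x ∈ Icc x1 x2, |s * u1 x + t * u2 x| ≤ P := by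
  set u : ℝ → ℝ → ℝ := fun θ x => Real.cos θ * u1 x + Real.sin θ * u2 x with hu
  have hK : IsCompact (Icc (0:ℝ) 1) := isCompact_Icc
  set L : ℝ × ℝ → ℝ := fun p => sSup ((fun r => |u p.2 (x1 + r * (p.1 - x1))|) '' Icc 0 1) with hL
  set R : ℝ × ℝ → ℝ := fun p => sSup ((fun r => |u p.2 (p.1 + r * (x2 - p.1))|) '' Icc 0 1) with hR
  have cL : Continuous L := by
    apply hK.continuous_sSup (f := fun p : ℝ × ℝ => fun r => |u p.2 (x1 + r * (p.1 - x1))|)
    rw [hu]
    fun_prop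
  have cR : Continuous R := by
    apply hK.continuous_sSup (f := fun p : ℝ × ℝ => fun r => |u p.2 (p.1 + r * (x2 - p.1))|)
    rw [hu]
    fun_prop
  have cuL : ∀ p : ℝ × ℝ, ContinuousOn (fun r => |u p.2 (x1 + r * (p.1 - x1))|) (Icc 0 1) := by
    intro p
    apply Continuous.continuousOn
    rw [hu]
    fun_prop
  have cuR : ∀ p : ℝ × ℝ, ContinuousOn (fun r => |u p.2 (p.1 + r * (x2 - p.1))|) (Icc 0 1) := by
    intro p
    apply Continuous.continuousOn
    rw [hu]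
    fun_prop
  have Lle : ∀ m θ x, x ∈ Icc x1 m → |u θ x| ≤ L (m, θ) := by
    intro m θ x hx'
    rcases hx'.1.eq_or_lt with h | h
    · have : |u θ x| ∈ (fun r => |u θ (x1 + r * (m - x1))|) '' Icc 0 1 :=
        ⟨0, by simp, by simp [h]⟩
      exact le_csSup (hK.bddAbove_image (cuL (m, θ))) this
    · have hm : 0 < m - x1 := by linarith [hx'.2]
      have : |u θ x| ∈ (fun r => |u θ (x1 + r * (m - x1))|) '' Icc 0 1 := by
        refine ⟨(x - x1) / (m - x1), ⟨by apply div_nonneg _ hm.le; linarith, ?_⟩, ?_⟩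
        · rw [div_le_one hm]; linarith [hx'.2]
        · simp only
          congr 2
          field_simp
          ring
      exact le_csSup (hK.bddAbove_image (cuL (m, θ))) this
  have Rle : ∀ m θ x, x ∈ Icc m x2 → |u θ x| ≤ R (m, θ) := by
    intro m θ x hx'
    rcases hx'.1.eq_or_lt with h | h
    · have : |u θ x| ∈ (fun r => |u θ (m + r * (x2 - m))|) '' Icc 0 1 :=
        ⟨0, by simp, by simp [h]⟩
      exact le_csSup (hK.bddAbove_image (cuR (m, θ))) this
    · have hm : 0 < x2 - m := by linarith [hx'.2]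
      have : |u θ x| ∈ (fun r => |u θ (m + r * (x2 - m))|) '' Icc 0 1 := by
        refine ⟨(x - m) / (x2 - m), ⟨by apply div_nonneg _ hm.le; linarith, ?_⟩, ?_⟩
        · rw [div_le_one hm]; linarith [hx'.2]
        · simp only
          congr 2
          field_simp
          ring
      exact le_csSup (hK.bddAbove_image (cuR (m, θ))) this
  have Latt : ∀ m θ, x1 ≤ m → ∃ x ∈ Icc x1 m, |u θ x| = L (m, θ) := by
    intro m θ hm
    obtain ⟨r, hr, h⟩ := hK.exists_sSup_image_eq ⟨0, by simp⟩ (cuL (m, θ))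
    refine ⟨x1 + r * (m - x1), ⟨?_, ?_⟩, h.symm⟩
    · have := mul_nonneg hr.1 (sub_nonneg.mpr hm)
      linarith
    · have := mul_le_mul_of_nonneg_right hr.2 (sub_nonneg.mpr hm)
      linarith
  have Ratt : ∀ m θ, m ≤ x2 → ∃ x ∈ Icc m x2, |u θ x| = R (m, θ) := by
    intro m θ hm
    obtain ⟨r, hr, h⟩ := hK.exists_sSup_image_eq ⟨0, by simp⟩ (cuR (m, θ))
    refine ⟨m + r * (x2 - m), ⟨?_, ?_⟩, h.symm⟩
    · have := mul_nonneg hr.1 (sub_nonneg.mpr hm)
      linarith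
    · have := mul_le_mul_of_nonneg_right hr.2 (sub_nonneg.mpr hm)
      linarith
  -- it suffices to find a balanced pair
  suffices hs : ∃ m ∈ Icc x1 x2, ∃ θ, u θ m = 0 ∧ L (m, θ) = R (m, θ) by
    obtain ⟨m, hm, θ, hθ0, hLR⟩ := hs
    obtain ⟨xL, hxL, eL⟩ := Latt m θ hm.1
    obtain ⟨xR, hxR, eR⟩ := Ratt m θ hm.2
    refine ⟨Real.cos θ, Real.sin θ, m, xL, xR, L (m, θ), ?_, hxL.1, hxL.2, hxR.1, hxR.2, hθ0,
      eL, ?_, ?_⟩
    · have := Real.sin_sq_add_cos_sq θ
      linarith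
    · rw [hLR]; exact eR
    · intro x hx'
      rcases le_total x m with h | h
      · exact Lle m θ x ⟨hx'.1, h⟩
      · rw [hLR]; exact Rle m θ x ⟨h, hx'.2⟩
  have hzero : ∀ m, ∃ θ ∈ Icc (0:ℝ) Real.pi, u θ m = 0 := by
    intro m
    have hc : ContinuousOn (fun θ => u θ m) (uIcc 0 Real.pi) := by
      apply Continuous.continuousOn
      rw [hu]
      fun_prop
    have h3 := intermediate_value_uIcc hc
    have h0 : (0:ℝ) ∈ uIcc (u 0 m) (u Real.pi m) := by
      have e0 : u 0 m = u1 m := by simp [hu]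
      have e1 : u Real.pi m = -u1 m := by simp [hu]
      rw [e0, e1, mem_uIcc]
      rcases le_total 0 (u1 m) with h | h
      · right; constructor <;> linarith
      · left; constructor <;> linarith
    obtain ⟨θ, hθ, h⟩ := h3 h0
    rw [uIcc_of_le Real.pi_pos.le] at hθ
    exact ⟨θ, hθ, h⟩
  have cu : Continuous (fun p : ℝ × ℝ => u p.2 p.1) := by rw [hu]; fun_prop
  set A : Set ℝ := Prod.fst '' {p : ℝ × ℝ | p ∈ Icc x1 x2 ×ˢ Icc 0 Real.pi ∧ u p.2 p.1 = 0 ∧
    R p ≤ L p} with hA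
  set B : Set ℝ := Prod.fst '' {p : ℝ × ℝ | p ∈ Icc x1 x2 ×ˢ Icc 0 Real.pi ∧ u p.2 p.1 = 0 ∧
    L p ≤ R p} with hB
  have hAc : IsClosed A := by
    have hcomp : IsCompact {p : ℝ × ℝ | p ∈ Icc x1 x2 ×ˢ Icc 0 Real.pi ∧ u p.2 p.1 = 0 ∧
        R p ≤ L p} := by
      apply (isCompact_Icc.prod isCompact_Icc).inter_right
      exact (isClosed_eq cu continuous_const).inter (isClosed_le cR cL)
    exact (hcomp.image continuous_fst).isClosed
  have hBc : IsClosed B := by
    have hcomp : IsCompact {p : ℝ × ℝ | p ∈ Icc x1 x2 ×ˢ Icc 0 Real.pi ∧ u p.2 p.1 = 0 ∧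
        L p ≤ R p} := by
      apply (isCompact_Icc.prod isCompact_Icc).inter_right
      exact (isClosed_eq cu continuous_const).inter (isClosed_le cL cR)
    exact (hcomp.image continuous_fst).isClosed
  have hcov : Icc x1 x2 ⊆ A ∪ B := by
    intro m hm
    obtain ⟨θ, hθ, h0⟩ := hzero m
    rcases le_total (R (m, θ)) (L (m, θ)) with h | h
    · exact Or.inl ⟨(m, θ), ⟨⟨hm, hθ⟩, h0, h⟩, rfl⟩
    · exact Or.inr ⟨(m, θ), ⟨⟨hm, hθ⟩, h0, h⟩, rfl⟩
  have hA1 : (Icc x1 x2 ∩ A).Nonempty := by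
    obtain ⟨θ, hθ, h0⟩ := hzero x2
    refine ⟨x2, ⟨hx, le_rfl⟩, (x2, θ), ⟨⟨⟨hx, le_rfl⟩, hθ⟩, h0, ?_⟩, rfl⟩
    obtain ⟨x, hx', e⟩ := Ratt x2 θ le_rfl
    have : x = x2 := le_antisymm hx'.2 hx'.1
    rw [← e, this, h0, abs_zero]
    exact (abs_nonneg _).trans (Lle x2 θ x2 ⟨hx, le_rfl⟩)
  have hB1 : (Icc x1 x2 ∩ B).Nonempty := by
    obtain ⟨θ, hθ, h0⟩ := hzero x1
    refine ⟨x1, ⟨le_rfl, hx⟩, (x1, θ), ⟨⟨⟨le_rfl, hx⟩, hθ⟩, h0, ?_⟩, rfl⟩
    obtain ⟨x, hx', e⟩ := Latt x1 θ le_rfl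
    have : x = x1 := le_antisymm hx'.2 hx'.1
    rw [← e, this, h0, abs_zero]
    exact (abs_nonneg _).trans (Rle x1 θ x1 ⟨le_rfl, hx⟩)
  have hconn : IsPreconnected (Icc x1 x2) := isPreconnected_Icc
  rw [isPreconnected_closed_iff] at hconn
  obtain ⟨m, hm, ⟨⟨m1, θA⟩, ⟨-, hA0, hA2⟩, e1⟩, ⟨⟨m2, θB⟩, ⟨-, hB0, hB2⟩, e2⟩⟩ :=
    hconn A B hAc hBc hcov hA1 hB1
  simp only at e1 e2
  subst e1
  subst e2
  simp only at hA0 hB0
  refine ⟨m2, hm, ?_⟩
  by_cases hz : u1 m2 = 0 ∧ u2 m2 = 0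
  · have hc : ContinuousOn (fun θ => L (m2, θ) - R (m2, θ)) (uIcc θA θB) :=
      ((cL.comp (Continuous.prodMk_right m2)).sub
        (cR.comp (Continuous.prodMk_right m2))).continuousOn
    have h3 := intermediate_value_uIcc hc
    have h0 : (0:ℝ) ∈ uIcc (L (m2, θA) - R (m2, θA)) (L (m2, θB) - R (m2, θB)) := by
      rw [mem_uIcc]
      right
      constructor <;> linarith
    obtain ⟨θ, -, h⟩ := h3 h0
    refine ⟨θ, ?_, sub_eq_zero.mp h⟩
    rw [hu]
    simp only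
    rw [hz.1, hz.2]
    simp
  · -- proportional
    have hdet : Real.sin (θA - θB) = 0 := by
      rw [Real.sin_sub]
      have k1 : u1 m2 * (Real.sin θA * Real.cos θB - Real.cos θA * Real.sin θB) = 0 := by
        have e3 : Real.cos θA * u1 m2 + Real.sin θA * u2 m2 = 0 := hA0
        have e4 : Real.cos θB * u1 m2 + Real.sin θB * u2 m2 = 0 := hB0
        linear_combination Real.sin θA * e4 - Real.sin θB * e3
      have k2 : u2 m2 * (Real.sin θA * Real.cos θB - Real.cos θA * Real.sin θB) = 0 := by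
        have e3 : Real.cos θA * u1 m2 + Real.sin θA * u2 m2 = 0 := hA0
        have e4 : Real.cos θB * u1 m2 + Real.sin θB * u2 m2 = 0 := hB0
        linear_combination Real.cos θB * e3 - Real.cos θA * e4
      by_contra hne
      exact hz ⟨(mul_eq_zero.mp k1).resolve_right hne, (mul_eq_zero.mp k2).resolve_right hne⟩
    have hcos : Real.cos (θA - θB) = 1 ∨ Real.cos (θA - θB) = -1 := by
      have := Real.sin_sq_add_cos_sq (θA - θB)
      rw [hdet] at this
      have h5 : (Real.cos (θA - θB) - 1) * (Real.cos (θA - θB) + 1) = 0 := by nlinarith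
      rcases mul_eq_zero.mp h5 with h | h
      · left; linarith
      · right; linarith
    have hcA : Real.cos θA = Real.cos (θA - θB) * Real.cos θB := by
      have : θA = (θA - θB) + θB := by ring
      conv_lhs => rw [this, Real.cos_add, hdet]
      ring
    have hsA : Real.sin θA = Real.cos (θA - θB) * Real.sin θB := by
      have : θA = (θA - θB) + θB := by ring
      conv_lhs => rw [this, Real.sin_add, hdet]
      ring
    have habs : ∀ x, |u θA x| = |u θB x| := by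
      intro x
      have e : u θA x = Real.cos (θA - θB) * u θB x := by
        rw [hu]
        simp only
        rw [hcA, hsA]
        ring
      rw [e, abs_mul]
      rcases hcos with h | h <;> rw [h] <;> simp
    have eL : L (m2, θA) = L (m2, θB) := by
      rw [hL]
      simp only [habs]
    have eR : R (m2, θA) = R (m2, θB) := by
      rw [hR]
      simp only [habs]
    refine ⟨θA, hA0, le_antisymm ?_ hA2⟩
    rw [eL, eR]
    exact hB2

end Pool.Agent.Helper88.Gap
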