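import Mathlib

open MeasureTheory Set Metric Filter Topology

noncomputable section

namespace Pool.Agent.Helper88.Gap

abbrev En (n : ℕ) := EuclideanSpace ℝ (Fin n)

variable {n : ℕ}

/-- mass -/
def Nf (μ : Measure (En n)) (v : En n → ℝ) : ℝ := ∫ p, v p ^ 2 ∂μ
/-- Dirichlet energy -/
def Df (μ : Measure (En n)) (v : En n → ℝ) : ℝ := ∫ p, ‖fderiv ℝ v p‖ ^ 2 ∂μ
/-- potential energy -/
def Pf (μ : Measure (En n)) (V v : En n → ℝ) : ℝ := ∫ p, V p * v p ^ 2 ∂μ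
/-- Robin energy with potential -/
def Qf (μ ν : Measure (En n)) (V : En n → ℝ) (α : ℝ) (v : En n → ℝ) : ℝ :=
  (∫ p, (‖fderiv ℝ v p‖ ^ 2 + V p * v p ^ 2) ∂μ) + α * ∫ p, v p ^ 2 ∂ν

/-- the set of values in the min-max -/
def lset (μ ν : Measure (En n)) (V : En n → ℝ) (α : ℝ) (k : ℕ) : Set ℝ :=
  {r : ℝ | ∃ W : Submodule ℝ (En n → ℝ), Module.finrank ℝ W = k ∧ (∀ v ∈ W, ContDiff ℝ 1 v) ∧
    (∀ v ∈ W, v ≠ 0 → 0 < Nf μ v) ∧
    r = sSup {q : ℝ | ∃ v ∈ W, v ≠ 0 ∧ q = Qf μ ν V α v / Nf μ v}}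

def lamf (μ ν : Measure (En n)) (V : En n → ℝ) (α : ℝ) (k : ℕ) : ℝ := sInf (lset μ ν V α k)

/-- continuous functions are integrable -/
def Good (μ : Measure (En n)) : Prop := ∀ F : En n → ℝ, Continuous F → Integrable F μ

lemma Nf_nonneg (μ : Measure (En n)) (v : En n → ℝ) : 0 ≤ Nf μ v :=
  integral_nonneg fun _ => sq_nonneg _
lemma Df_nonneg (μ : Measure (En n)) (v : En n → ℝ) : 0 ≤ Df μ v :=
  integral_nonneg fun _ => sq_nonneg _

/-- admissible potentials -/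
structure Pot (μ : Measure (En n)) (V : En n → ℝ) : Prop where
  c : Continuous V
  nn : ∀ᵐ p ∂μ, 0 ≤ V p

lemma pot_zero (μ : Measure (En n)) : Pot μ (fun _ => (0:ℝ)) :=
  ⟨continuous_const, Eventually.of_forall fun _ => le_rfl⟩

lemma Pf_nonneg {μ : Measure (En n)} {V : En n → ℝ} (hV : Pot μ V) (v : En n → ℝ) :
    0 ≤ Pf μ V v := by
  apply integral_nonneg_of_ae
  filter_upwards [hV.nn] with p hp
  exact mul_nonneg hp (sq_nonneg _)

lemma Qf_eq {μ ν : Measure (En n)} (hμ : Good μ) {V : En n → ℝ} (hV : Pot μ V) (α : ℝ)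
    {v : En n → ℝ} (hv : ContDiff ℝ 1 v) : Qf μ ν V α v = Df μ v + Pf μ V v + α * Nf ν v := by
  have hd : Continuous (fderiv ℝ v) := hv.continuous_fderiv (by norm_num)
  have hc := hv.continuous
  have hVc := hV.c
  unfold Qf Df Pf Nf
  rw [integral_add (hμ _ (by fun_prop)) (hμ _ (by fun_prop))]

lemma Qf_nonneg {μ ν : Measure (En n)} (hμ : Good μ) {V : En n → ℝ} (hV : Pot μ V) {α : ℝ}
    (hα : 0 ≤ α) {v : En n → ℝ} (hv : ContDiff ℝ 1 v) : 0 ≤ Qf μ ν V α v := by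
  rw [Qf_eq hμ hV α hv]
  have := Df_nonneg μ v
  have := Pf_nonneg hV v
  have := mul_nonneg hα (Nf_nonneg ν v)
  linarith

lemma Nf_smul (μ : Measure (En n)) (c : ℝ) (v : En n → ℝ) : Nf μ (c • v) = c ^ 2 * Nf μ v := by
  unfold Nf
  rw [← integral_const_mul]
  congr 1
  funext p
  simp [mul_pow]

lemma Qf_smul (μ ν : Measure (En n)) (V : En n → ℝ) (α c : ℝ) {v : En n → ℝ}
    (hv : ContDiff ℝ 1 v) : Qf μ ν V α (c • v) = c ^ 2 * Qf μ ν V α v := by
  have h1 : ∫ p, (‖fderiv ℝ (c • v) p‖ ^ 2 + V p * (c • v) p ^ 2) ∂μ =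
      c ^ 2 * ∫ p, (‖fderiv ℝ v p‖ ^ 2 + V p * v p ^ 2) ∂μ := by
    rw [← integral_const_mul]
    congr 1
    funext p
    rw [fderiv_const_smul ((hv.differentiable (by norm_num)) p), norm_smul, mul_pow]
    simp
    ring
  have h2 := Nf_smul ν c v
  unfold Nf at h2
  unfold Qf
  rw [h1, h2]
  ring

lemma lset_bdd {μ ν : Measure (En n)} (hμ : Good μ) {V : En n → ℝ} (hV : Pot μ V) {α : ℝ}
    (hα : 0 ≤ α) (k : ℕ) : BddBelow (lset μ ν V α k) := by
  refine ⟨0, ?_⟩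
  rintro r ⟨W, -, hc, -, rfl⟩
  apply Real.sSup_nonneg
  rintro q ⟨v, hv, -, rfl⟩
  exact div_nonneg (Qf_nonneg hμ hV hα (hc v hv)) (Nf_nonneg _ _)

lemma lamf_nonneg {μ ν : Measure (En n)} (hμ : Good μ) {V : En n → ℝ} (hV : Pot μ V) {α : ℝ}
    (hα : 0 ≤ α) (k : ℕ) : 0 ≤ lamf μ ν V α k := by
  apply Real.sInf_nonneg
  rintro r ⟨W, -, hc, -, rfl⟩
  apply Real.sSup_nonneg
  rintro q ⟨v, hv, -, rfl⟩
  exact div_nonneg (Qf_nonneg hμ hV hα (hc v hv)) (Nf_nonneg _ _)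

lemma Nf_zero (μ : Measure (En n)) : Nf μ 0 = 0 := by
  unfold Nf; simp

lemma ne_zero_of_Nf {μ : Measure (En n)} {v : En n → ℝ} (h : 0 < Nf μ v) : v ≠ 0 := by
  rintro rfl
  rw [Nf_zero] at h
  exact lt_irrefl _ h

lemma lset1_mem {μ ν : Measure (En n)} {V : En n → ℝ} {α : ℝ} {v : En n → ℝ}
    (hv : ContDiff ℝ 1 v) (hN : 0 < Nf μ v) : Qf μ ν V α v / Nf μ v ∈ lset μ ν V α 1 := by
  have hv0 := ne_zero_of_Nf hN
  refine ⟨Submodule.span ℝ {v}, finrank_span_singleton hv0, ?_, ?_, ?_⟩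
  · intro w hw
    obtain ⟨c, rfl⟩ := Submodule.mem_span_singleton.mp hw
    exact contDiff_const.smul hv
  · intro w hw hw0
    obtain ⟨c, rfl⟩ := Submodule.mem_span_singleton.mp hw
    have hc : c ≠ 0 := by
      rintro rfl
      exact hw0 (zero_smul _ _)
    rw [Nf_smul]
    positivity
  · have hset : {q : ℝ | ∃ w ∈ Submodule.span ℝ {v}, w ≠ 0 ∧ q = Qf μ ν V α w / Nf μ w}
        = {Qf μ ν V α v / Nf μ v} := by
      ext q
      constructor
      · rintro ⟨w, hw, hw0, rfl⟩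
        obtain ⟨c, rfl⟩ := Submodule.mem_span_singleton.mp hw
        have hc : c ≠ 0 := by
          rintro rfl
          exact hw0 (zero_smul _ _)
        rw [Nf_smul, Qf_smul _ _ _ _ _ hv, mem_singleton_iff]
        field_simp
      · rintro rfl
        exact ⟨v, Submodule.mem_span_singleton_self v, hv0, rfl⟩
    rw [hset, csSup_singleton]

lemma lam1_le' {μ ν : Measure (En n)} (hμ : Good μ) {V : En n → ℝ} (hV : Pot μ V) {α : ℝ}
    (hα : 0 ≤ α) {v : En n → ℝ} (hv : ContDiff ℝ 1 v) :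
    lamf μ ν V α 1 * Nf μ v ≤ Qf μ ν V α v := by
  rcases (Nf_nonneg μ v).eq_or_lt with h | h
  · rw [← h, mul_zero]
    exact Qf_nonneg hμ hV hα hv
  · have : lamf μ ν V α 1 ≤ Qf μ ν V α v / Nf μ v :=
      csInf_le (lset_bdd hμ hV hα 1) (lset1_mem hv h)
    rwa [le_div_iff₀ h] at this

lemma lam1_near {μ ν : Measure (En n)} {V : En n → ℝ} {α η : ℝ} (hη : 0 < η)
    (hex : ∃ v : En n → ℝ, ContDiff ℝ 1 v ∧ 0 < Nf μ v) :
    ∃ v : En n → ℝ, ContDiff ℝ 1 v ∧ 0 < Nf μ v ∧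
      Qf μ ν V α v ≤ (lamf μ ν V α 1 + η) * Nf μ v := by
  obtain ⟨v0, hv0, hN0⟩ := hex
  have hne : (lset μ ν V α 1).Nonempty := ⟨_, lset1_mem hv0 hN0⟩
  obtain ⟨r, ⟨W, hV1, hV2, hV3, rfl⟩, hr⟩ := exists_lt_of_csInf_lt hne
    (lt_add_of_pos_right (sInf (lset μ ν V α 1)) hη)
  have hVne : W ≠ ⊥ := by
    rintro rfl
    simp at hV1
  obtain ⟨v, hvV, hv⟩ := Submodule.exists_mem_ne_zero_of_ne_bot hVne
  have hN := hV3 v hvV hv
  have hall := (finrank_eq_one_iff_of_nonzero' (⟨v, hvV⟩ : W) (by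
    intro h
    exact hv (congrArg Subtype.val h))).mp hV1
  have hset : {q : ℝ | ∃ w ∈ W, w ≠ 0 ∧ q = Qf μ ν V α w / Nf μ w} =
      {Qf μ ν V α v / Nf μ v} := by
    ext q
    constructor
    · rintro ⟨w, hw, hw0, rfl⟩
      obtain ⟨c, hc⟩ := hall ⟨w, hw⟩
      have hcw : c • v = w := congrArg Subtype.val hc
      subst hcw
      have hc : c ≠ 0 := by
        rintro rfl
        exact hw0 (zero_smul _ _)
      rw [Nf_smul, Qf_smul _ _ _ _ _ (hV2 v hvV), mem_singleton_iff]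
      field_simp
    · rintro rfl
      exact ⟨v, hvV, hv, rfl⟩
  rw [hset, csSup_singleton] at hr
  refine ⟨v, hV2 v hvV, hN, ?_⟩
  rw [div_lt_iff₀ hN] at hr
  exact hr.le

/-- a pair of disjointly supported functions with equal energies -/
structure Pair (μ ν : Measure (En n)) (V : En n → ℝ) (α : ℝ) (φ ψ : En n → ℝ) : Prop where
  c1 : ContDiff ℝ 1 φ
  c2 : ContDiff ℝ 1 ψ
  N1 : 0 < Nf μ φ
  N2 : Nf μ ψ = Nf μ φ
  Q2 : Qf μ ν V α ψ = Qf μ ν V α φ
  d0 : ∀ p, φ p = 0 ∨ ψ p = 0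
  d1 : ∀ p, fderiv ℝ φ p = 0 ∨ fderiv ℝ ψ p = 0

lemma Nf_comb {μ : Measure (En n)} (hμ : Good μ) {φ ψ : En n → ℝ} (h1 : Continuous φ)
    (h2 : Continuous ψ) (d0 : ∀ p, φ p = 0 ∨ ψ p = 0) (s t : ℝ) :
    Nf μ (s • φ + t • ψ) = s ^ 2 * Nf μ φ + t ^ 2 * Nf μ ψ := by
  unfold Nf
  rw [← integral_const_mul, ← integral_const_mul,
    ← integral_add ((hμ _ (by fun_prop)).const_mul _) ((hμ _ (by fun_prop)).const_mul _)]
  congr 1
  funext p
  simp only [Pi.add_apply, Pi.smul_apply, smul_eq_mul]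
  rcases d0 p with h | h <;> rw [h] <;> ring

lemma Pf_comb {μ : Measure (En n)} (hμ : Good μ) {V φ ψ : En n → ℝ} (hV : Continuous V)
    (h1 : Continuous φ)
    (h2 : Continuous ψ) (d0 : ∀ p, φ p = 0 ∨ ψ p = 0) (s t : ℝ) :
    Pf μ V (s • φ + t • ψ) = s ^ 2 * Pf μ V φ + t ^ 2 * Pf μ V ψ := by
  unfold Pf
  rw [← integral_const_mul, ← integral_const_mul,
    ← integral_add ((hμ _ (by fun_prop)).const_mul _) ((hμ _ (by fun_prop)).const_mul _)]
  congr 1
  funext p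
  simp only [Pi.add_apply, Pi.smul_apply, smul_eq_mul]
  rcases d0 p with h | h <;> rw [h] <;> ring

lemma Df_comb {μ : Measure (En n)} (hμ : Good μ) {φ ψ : En n → ℝ} (h1 : ContDiff ℝ 1 φ)
    (h2 : ContDiff ℝ 1 ψ) (d1 : ∀ p, fderiv ℝ φ p = 0 ∨ fderiv ℝ ψ p = 0) (s t : ℝ) :
    Df μ (s • φ + t • ψ) = s ^ 2 * Df μ φ + t ^ 2 * Df μ ψ := by
  have e1 : Continuous (fderiv ℝ φ) := h1.continuous_fderiv (by norm_num)
  have e2 : Continuous (fderiv ℝ ψ) := h2.continuous_fderiv (by norm_num)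
  unfold Df
  rw [← integral_const_mul, ← integral_const_mul,
    ← integral_add ((hμ _ (by fun_prop)).const_mul _) ((hμ _ (by fun_prop)).const_mul _)]
  congr 1
  funext p
  have g1 : DifferentiableAt ℝ φ p := (h1.differentiable (by norm_num)) p
  have g2 : DifferentiableAt ℝ ψ p := (h2.differentiable (by norm_num)) p
  have hf : fderiv ℝ (s • φ + t • ψ) p = s • fderiv ℝ φ p + t • fderiv ℝ ψ p := by
    rw [fderiv_add (g1.const_smul s) (g2.const_smul t), fderiv_const_smul g1, fderiv_const_smul g2]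
  rw [hf]
  rcases d1 p with h | h <;> rw [h] <;> simp [norm_smul, mul_pow]

lemma lset2_mem {μ ν : Measure (En n)} (hμ : Good μ) (hν : Good ν) {V : En n → ℝ}
    (hV : Pot μ V) {α : ℝ} {φ ψ : En n → ℝ}
    (h : Pair μ ν V α φ ψ) : Qf μ ν V α φ / Nf μ φ ∈ lset μ ν V α 2 := by
  have hN := h.N1
  have hcomb : ∀ s t : ℝ, ContDiff ℝ 1 (s • φ + t • ψ) := fun s t =>
    (contDiff_const.smul h.c1).add (contDiff_const.smul h.c2)
  have hNN : ∀ s t : ℝ, Nf μ (s • φ + t • ψ) = (s ^ 2 + t ^ 2) * Nf μ φ := by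
    intro s t
    rw [Nf_comb hμ h.c1.continuous h.c2.continuous h.d0, h.N2]
    ring
  have hQQ : ∀ s t : ℝ, Qf μ ν V α (s • φ + t • ψ) = (s ^ 2 + t ^ 2) * Qf μ ν V α φ := by
    intro s t
    have e : Qf μ ν V α (s • φ + t • ψ) = s ^ 2 * Qf μ ν V α φ + t ^ 2 * Qf μ ν V α ψ := by
      rw [Qf_eq hμ hV α (hcomb s t), Qf_eq hμ hV α h.c1, Qf_eq hμ hV α h.c2,
        Nf_comb hν h.c1.continuous h.c2.continuous h.d0, Df_comb hμ h.c1 h.c2 h.d1,
        Pf_comb hμ hV.c h.c1.continuous h.c2.continuous h.d0]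
      ring
    rw [e, h.Q2]
    ring
  have hst : ∀ s t : ℝ, s • φ + t • ψ ≠ 0 → 0 < s ^ 2 + t ^ 2 := by
    intro s t hne
    by_contra hc
    have hs : s = 0 := by nlinarith [sq_nonneg s, sq_nonneg t]
    have ht : t = 0 := by nlinarith [sq_nonneg s, sq_nonneg t]
    apply hne
    rw [hs, ht]
    simp
  have hli : LinearIndependent ℝ ![φ, ψ] := by
    rw [LinearIndependent.pair_iff]
    intro s t hst0
    have h1 := hNN s t
    rw [hst0, Nf_zero] at h1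
    have h2 : s ^ 2 + t ^ 2 = 0 := by
      rcases mul_eq_zero.mp h1.symm with h2 | h2
      · exact h2
      · exact absurd h2 hN.ne'
    constructor
    · nlinarith [sq_nonneg s, sq_nonneg t]
    · nlinarith [sq_nonneg s, sq_nonneg t]
  refine ⟨Submodule.span ℝ {φ, ψ}, ?_, ?_, ?_, ?_⟩
  · have h1 := finrank_span_eq_card hli
    have hr : Set.range ![φ, ψ] = {φ, ψ} := by
      ext w
      simp only [mem_range, Fin.exists_fin_two, Matrix.cons_val_zero, Matrix.cons_val_one,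
        mem_insert_iff, mem_singleton_iff, eq_comm]
    rw [hr] at h1
    rw [h1]
    simp
  · intro w hw
    obtain ⟨s, t, rfl⟩ := Submodule.mem_span_pair.mp hw
    exact hcomb s t
  · intro w hw hw0
    obtain ⟨s, t, rfl⟩ := Submodule.mem_span_pair.mp hw
    rw [hNN]
    exact mul_pos (hst s t hw0) hN
  · have hset : {q : ℝ | ∃ w ∈ Submodule.span ℝ {φ, ψ}, w ≠ 0 ∧
        q = Qf μ ν V α w / Nf μ w} = {Qf μ ν V α φ / Nf μ φ} := by
      ext q
      constructor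
      · rintro ⟨w, hw, hw0, rfl⟩
        obtain ⟨s, t, rfl⟩ := Submodule.mem_span_pair.mp hw
        have := (hst s t hw0).ne'
        rw [hNN, hQQ, mem_singleton_iff]
        field_simp
      · rintro rfl
        exact ⟨φ, Submodule.subset_span (by simp), ne_zero_of_Nf hN, rfl⟩
    rw [hset, csSup_singleton]

lemma Nf_add_le {μ : Measure (En n)} (hμ : Good μ) {u w : En n → ℝ} (hu : Continuous u)
    (hw : Continuous w) : Nf μ (u + w) ≤ 2 * Nf μ u + 2 * Nf μ w := by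
  unfold Nf
  rw [← integral_const_mul, ← integral_const_mul,
    ← integral_add ((hμ _ (by fun_prop)).const_mul _) ((hμ _ (by fun_prop)).const_mul _)]
  apply integral_mono (hμ _ (by fun_prop))
    (((hμ _ (by fun_prop)).const_mul _).add ((hμ _ (by fun_prop)).const_mul _))
  intro p
  simp only [Pi.add_apply]
  nlinarith [sq_nonneg (u p - w p)]

lemma Pf_add_le {μ : Measure (En n)} (hμ : Good μ) {V u w : En n → ℝ} (hV : Pot μ V)
    (hu : Continuous u)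
    (hw : Continuous w) : Pf μ V (u + w) ≤ 2 * Pf μ V u + 2 * Pf μ V w := by
  have hVc := hV.c
  unfold Pf
  rw [← integral_const_mul, ← integral_const_mul,
    ← integral_add ((hμ _ (by fun_prop)).const_mul _) ((hμ _ (by fun_prop)).const_mul _)]
  apply integral_mono_ae (hμ _ (by fun_prop))
    (((hμ _ (by fun_prop)).const_mul _).add ((hμ _ (by fun_prop)).const_mul _))
  filter_upwards [hV.nn] with p hp
  simp only [Pi.add_apply]
  have h1 : (u p + w p) ^ 2 ≤ 2 * u p ^ 2 + 2 * w p ^ 2 := by nlinarith [sq_nonneg (u p - w p)]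
  have h2 := mul_le_mul_of_nonneg_left h1 hp
  linarith

lemma Df_add_le {μ : Measure (En n)} (hμ : Good μ) {u w : En n → ℝ} (hu : ContDiff ℝ 1 u)
    (hw : ContDiff ℝ 1 w) : Df μ (u + w) ≤ 2 * Df μ u + 2 * Df μ w := by
  have e1 : Continuous (fderiv ℝ u) := hu.continuous_fderiv (by norm_num)
  have e2 : Continuous (fderiv ℝ w) := hw.continuous_fderiv (by norm_num)
  have e3 : Continuous (fderiv ℝ (u + w)) := (hu.add hw).continuous_fderiv (by norm_num)
  unfold Df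
  rw [← integral_const_mul, ← integral_const_mul,
    ← integral_add ((hμ _ (by fun_prop)).const_mul _) ((hμ _ (by fun_prop)).const_mul _)]
  apply integral_mono (hμ _ (by fun_prop))
    (((hμ _ (by fun_prop)).const_mul _).add ((hμ _ (by fun_prop)).const_mul _))
  intro p
  simp only [Pi.add_apply]
  rw [fderiv_add ((hu.differentiable (by norm_num)) p) ((hw.differentiable (by norm_num)) p)]
  have h := norm_add_le (fderiv ℝ u p) (fderiv ℝ w p)
  have h2 : ‖fderiv ℝ u p + fderiv ℝ w p‖ ^ 2 ≤ (‖fderiv ℝ u p‖ + ‖fderiv ℝ w p‖) ^ 2 :=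
    pow_le_pow_left₀ (norm_nonneg _) h 2
  nlinarith [sq_nonneg (‖fderiv ℝ u p‖ - ‖fderiv ℝ w p‖)]

lemma Qf_add_le {μ ν : Measure (En n)} (hμ : Good μ) (hν : Good ν) {V : En n → ℝ}
    (hV : Pot μ V) {α : ℝ} (hα : 0 ≤ α)
    {u w : En n → ℝ} (hu : ContDiff ℝ 1 u) (hw : ContDiff ℝ 1 w) :
    Qf μ ν V α (u + w) ≤ 2 * Qf μ ν V α u + 2 * Qf μ ν V α w := by
  have h1 := Df_add_le hμ hu hw
  have h2 := mul_le_mul_of_nonneg_left (Nf_add_le hν hu.continuous hw.continuous) hα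
  have h3 := Pf_add_le hμ hV hu.continuous hw.continuous
  have huw : ContDiff ℝ 1 (u + w) := hu.add hw
  rw [Qf_eq hμ hV α huw, Qf_eq hμ hV α hu, Qf_eq hμ hV α hw]
  linarith

lemma Nf_quad {μ : Measure (En n)} (hμ : Good μ) {u w : En n → ℝ} (hu : Continuous u)
    (hw : Continuous w) (s t : ℝ) : Nf μ (s • u + t • w) =
      s ^ 2 * Nf μ u + 2 * s * t * (∫ p, u p * w p ∂μ) + t ^ 2 * Nf μ w := by
  unfold Nf
  rw [← integral_const_mul, ← integral_const_mul, ← integral_const_mul,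
    ← integral_add ((hμ _ (by fun_prop)).const_mul _) ((hμ _ (by fun_prop)).const_mul _),
    ← integral_add (hμ _ (by fun_prop)) ((hμ _ (by fun_prop)).const_mul _)]
  congr 1
  funext p
  simp only [Pi.add_apply, Pi.smul_apply, smul_eq_mul]
  ring

lemma rq_bdd {μ ν : Measure (En n)} (hμ : Good μ) (hν : Good ν) {V : En n → ℝ}
    (hV : Pot μ V) {α : ℝ} (hα : 0 ≤ α)
    {W : Submodule ℝ (En n → ℝ)} (hW : Module.finrank ℝ W = 2) (hc : ∀ v ∈ W, ContDiff ℝ 1 v)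
    (hp : ∀ v ∈ W, v ≠ 0 → 0 < Nf μ v) :
    BddAbove {q : ℝ | ∃ v ∈ W, v ≠ 0 ∧ q = Qf μ ν V α v / Nf μ v} := by
  have hfd : FiniteDimensional ℝ W := FiniteDimensional.of_finrank_pos (by omega)
  let b := (Module.finBasisOfFinrankEq ℝ W hW)
  set u : En n → ℝ := (b 0 : En n → ℝ) with hu
  set w : En n → ℝ := (b 1 : En n → ℝ) with hw
  have huV : u ∈ W := (b 0).2
  have hwV : w ∈ W := (b 1).2
  have hu1 := hc u huV
  have hw1 := hc w hwV
  have hrep : ∀ v ∈ W, ∃ s t : ℝ, v = s • u + t • w := by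
    intro v hv
    have := b.sum_repr ⟨v, hv⟩
    rw [Fin.sum_univ_two] at this
    refine ⟨b.repr ⟨v, hv⟩ 0, b.repr ⟨v, hv⟩ 1, ?_⟩
    have h2 := congrArg Subtype.val this
    simpa using h2.symm
  have hli : ∀ s t : ℝ, s • u + t • w = 0 → s = 0 ∧ t = 0 := by
    intro s t hst
    have h1 := b.linearIndependent
    have h2 : s • b 0 + t • b 1 = 0 := by
      apply Subtype.ext
      simpa using hst
    rw [Fintype.linearIndependent_iff] at h1
    have h3 := h1 ![s, t] (by rw [Fin.sum_univ_two]; simpa using h2)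
    exact ⟨h3 0, h3 1⟩
  set A := Nf μ u with hA
  set D := Nf μ w with hD
  set B := ∫ p, u p * w p ∂μ with hB
  have hA0 : 0 < A := hp u huV (by
    intro h
    have := hli 1 0 (by rw [h]; simp)
    exact one_ne_zero this.1)
  have hD0 : 0 < D := hp w hwV (by
    intro h
    have := hli 0 1 (by rw [h]; simp)
    exact one_ne_zero this.2)
  have hdet : 0 < A * D - B ^ 2 := by
    have h1 : B • u + (-A) • w ≠ 0 := by
      intro h
      have := (hli _ _ h).2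
      linarith
    have h2 := hp _ (W.add_mem (W.smul_mem B huV) (W.smul_mem (-A) hwV)) h1
    rw [Nf_quad hμ hu1.continuous hw1.continuous, ← hA, ← hD, ← hB] at h2
    have h3 : B ^ 2 * A + 2 * B * -A * B + (-A) ^ 2 * D = A * (A * D - B ^ 2) := by ring
    rw [h3] at h2
    exact (pos_iff_pos_of_mul_pos h2).mp hA0
  set E := 2 * (Qf μ ν V α u + Qf μ ν V α w) with hE
  have hE0 : 0 ≤ E := by
    have := Qf_nonneg (μ := μ) (ν := ν) hμ hV hα hu1
    have := Qf_nonneg (μ := μ) (ν := ν) hμ hV hα hw1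
    positivity
  refine ⟨E * ((A + D) / (A * D - B ^ 2)), ?_⟩
  rintro q ⟨v, hv, hv0, rfl⟩
  obtain ⟨s, t, rfl⟩ := hrep v hv
  have hNp := hp _ hv hv0
  rw [div_le_iff₀ hNp]
  have h1 : Qf μ ν V α (s • u + t • w) ≤ E * (s ^ 2 + t ^ 2) := by
    have h2 := Qf_add_le (ν := ν) hμ hν hV hα (u := s • u) (w := t • w)
      (contDiff_const.smul hu1) (contDiff_const.smul hw1)
    rw [Qf_smul _ _ _ _ _ hu1, Qf_smul _ _ _ _ _ hw1] at h2
    have g1 := Qf_nonneg (μ := μ) (ν := ν) hμ hV hα hu1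
    have g2 := Qf_nonneg (μ := μ) (ν := ν) hμ hV hα hw1
    rw [hE]
    nlinarith [mul_nonneg (sq_nonneg s) g2, mul_nonneg (sq_nonneg t) g1]
  have h2 : s ^ 2 + t ^ 2 ≤ (A + D) / (A * D - B ^ 2) * Nf μ (s • u + t • w) := by
    rw [Nf_quad hμ hu1.continuous hw1.continuous, ← hA, ← hD, ← hB, div_mul_eq_mul_div,
      le_div_iff₀ hdet]
    nlinarith [sq_nonneg (A * s + B * t), sq_nonneg (B * s + D * t)]
  calc Qf μ ν V α (s • u + t • w) ≤ E * (s ^ 2 + t ^ 2) := h1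
    _ ≤ E * ((A + D) / (A * D - B ^ 2) * Nf μ (s • u + t • w)) :=
        mul_le_mul_of_nonneg_left h2 hE0
    _ = _ := by ring

/-- if the gap is below `g`, there is a two-dimensional space with small quotients -/
lemma gap_space {μ ν : Measure (En n)} (hμ : Good μ) (hν : Good ν) {V : En n → ℝ}
    (hV : Pot μ V) {α : ℝ} (hα : 0 ≤ α) {Λ : ℝ} (hne : (lset μ ν V α 2).Nonempty)
    (hgap : lamf μ ν V α 2 < Λ) :
    ∃ u w : En n → ℝ, ContDiff ℝ 1 u ∧ ContDiff ℝ 1 w ∧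
      (∀ s t : ℝ, Qf μ ν V α (s • u + t • w) ≤ Λ * Nf μ (s • u + t • w)) ∧
      (∀ s t : ℝ, s ^ 2 + t ^ 2 ≠ 0 → 0 < Nf μ (s • u + t • w)) := by
  obtain ⟨r, ⟨W, hW, hc, hp, rfl⟩, hr⟩ := exists_lt_of_csInf_lt hne hgap
  have hbdd := rq_bdd (ν := ν) hμ hν hV hα hW hc hp
  have hfd : FiniteDimensional ℝ W := FiniteDimensional.of_finrank_pos (by omega)
  let b := (Module.finBasisOfFinrankEq ℝ W hW)
  set u : En n → ℝ := (b 0 : En n → ℝ) with hu
  set w : En n → ℝ := (b 1 : En n → ℝ) with hw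
  have huV : u ∈ W := (b 0).2
  have hwV : w ∈ W := (b 1).2
  have hli : ∀ s t : ℝ, s • u + t • w = 0 → s = 0 ∧ t = 0 := by
    intro s t hst
    have h1 := b.linearIndependent
    have h2 : s • b 0 + t • b 1 = 0 := by
      apply Subtype.ext
      simpa using hst
    rw [Fintype.linearIndependent_iff] at h1
    have h3 := h1 ![s, t] (by rw [Fin.sum_univ_two]; simpa using h2)
    exact ⟨h3 0, h3 1⟩
  have hmem : ∀ s t : ℝ, s • u + t • w ∈ W := fun s t =>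
    W.add_mem (W.smul_mem s huV) (W.smul_mem t hwV)
  have hpos : ∀ s t : ℝ, s ^ 2 + t ^ 2 ≠ 0 → 0 < Nf μ (s • u + t • w) := by
    intro s t hst
    apply hp _ (hmem s t)
    intro h
    obtain ⟨h1, h2⟩ := hli s t h
    rw [h1, h2] at hst
    simp at hst
  refine ⟨u, w, hc u huV, hc w hwV, ?_, hpos⟩
  intro s t
  by_cases hst : s ^ 2 + t ^ 2 = 0
  · have hs : s = 0 := by nlinarith [sq_nonneg s, sq_nonneg t]
    have ht : t = 0 := by nlinarith [sq_nonneg s, sq_nonneg t]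
    have h0 : s • u + t • w = (0:ℝ) • u := by rw [hs, ht]; simp
    rw [h0, Qf_smul _ _ _ _ _ (hc u huV), Nf_smul]
    simp
  · have hN := hpos s t hst
    have hq : Qf μ ν V α (s • u + t • w) / Nf μ (s • u + t • w) ≤
        sSup {q : ℝ | ∃ v ∈ W, v ≠ 0 ∧ q = Qf μ ν V α v / Nf μ v} :=
      le_csSup hbdd ⟨_, hmem s t, ne_zero_of_Nf hN, rfl⟩
    rw [div_le_iff₀ hN] at hq
    exact hq.trans (mul_le_mul_of_nonneg_right hr.le hN.le)

end Pool.Agent.Helper88.Gap
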