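import Mathlib
import Pool.Agent.Helper88.Gap.Gen

open MeasureTheory Set Metric Filter Topology

noncomputable section

namespace Pool.Agent.Helper88.Gap

variable {n : ℕ}

/-- rigid motion `p ↦ L (p - P)` -/
def tg (L : En n ≃ₗᵢ[ℝ] En n) (P : En n) : En n ≃ᵢ En n :=
  (IsometryEquiv.subRight P).trans L.toIsometryEquiv

lemma tg_apply (L : En n ≃ₗᵢ[ℝ] En n) (P p : En n) : tg L P p = L (p - P) := rfl

lemma tg_symm (L : En n ≃ₗᵢ[ℝ] En n) (P : En n) :
    ((tg L P).symm : En n → En n) = tg L.symm (-(L P)) := by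
  funext q
  apply (tg L P).injective
  rw [IsometryEquiv.apply_symm_apply, tg_apply, tg_apply]
  simp

lemma tg_fderiv (L : En n ≃ₗᵢ[ℝ] En n) (P p : En n) :
    HasFDerivAt (tg L P) ((L : En n ≃L[ℝ] En n) : En n →L[ℝ] En n) p := by
  have h1 : HasFDerivAt (fun q : En n => q - P) (ContinuousLinearMap.id ℝ (En n)) p :=
    (hasFDerivAt_id p).sub_const P
  have h2 : HasFDerivAt (L : En n → En n) ((L : En n ≃L[ℝ] En n) : En n →L[ℝ] En n) (p - P) :=
    (L : En n ≃L[ℝ] En n).hasFDerivAt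
  exact h2.comp p h1

lemma tg_smooth (L : En n ≃ₗᵢ[ℝ] En n) (P : En n) : ContDiff ℝ 1 (tg L P) := by
  have h1 : ContDiff ℝ 1 (fun q : En n => q - P) := contDiff_id.sub contDiff_const
  exact (L : En n ≃L[ℝ] En n).contDiff.comp h1

lemma tg_norm (L : En n ≃ₗᵢ[ℝ] En n) (P : En n) {v : En n → ℝ} (hv : ContDiff ℝ 1 v) (p : En n) :
    ‖fderiv ℝ (v ∘ tg L P) p‖ = ‖fderiv ℝ v (tg L P p)‖ := by
  have h1 := ((hv.differentiable (by norm_num)) (tg L P p)).hasFDerivAt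
  have h3 := (h1.comp p (tg_fderiv L P p)).fderiv
  rw [h3]
  exact ContinuousLinearMap.opNorm_comp_linearIsometryEquiv _ _

lemma tg_vol (L : En n ≃ₗᵢ[ℝ] En n) (P : En n) :
    MeasurePreserving (tg L P) (volume : Measure (En n)) volume :=
  L.measurePreserving.comp (measurePreserving_sub_right volume P)

lemma Nf_tg {μ μ' : Measure (En n)} {L : En n ≃ₗᵢ[ℝ] En n} {P : En n}
    (h : MeasurePreserving (tg L P) μ μ') (v : En n → ℝ) : Nf μ (v ∘ tg L P) = Nf μ' v :=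
  h.integral_comp (tg L P).toHomeomorph.measurableEmbedding (fun p => v p ^ 2)

lemma Qf_tg {μ μ' ν ν' : Measure (En n)} {L : En n ≃ₗᵢ[ℝ] En n} {P : En n}
    (h : MeasurePreserving (tg L P) μ μ') (h' : MeasurePreserving (tg L P) ν ν')
    (V : En n → ℝ) (α : ℝ) {v : En n → ℝ} (hv : ContDiff ℝ 1 v) :
    Qf μ ν (V ∘ tg L P) α (v ∘ tg L P) = Qf μ' ν' V α v := by
  have e2 := Nf_tg h' v
  unfold Nf at e2
  unfold Qf
  rw [e2]
  congr 1
  have e1 : ∀ p, ‖fderiv ℝ (v ∘ tg L P) p‖ ^ 2 + (V ∘ tg L P) p * (v ∘ tg L P) p ^ 2 =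
      (fun q => ‖fderiv ℝ v q‖ ^ 2 + V q * v q ^ 2) (tg L P p) := by
    intro p
    rw [tg_norm L P hv p]
    rfl
  simp_rw [e1]
  exact h.integral_comp (tg L P).toHomeomorph.measurableEmbedding
    (fun q => ‖fderiv ℝ v q‖ ^ 2 + V q * v q ^ 2)

lemma lset_tg_sub {μ μ' ν ν' : Measure (En n)} {L : En n ≃ₗᵢ[ℝ] En n} {P : En n}
    (h : MeasurePreserving (tg L P) μ μ') (h' : MeasurePreserving (tg L P) ν ν')
    (V : En n → ℝ) (α : ℝ) (k : ℕ) :
    lset μ' ν' V α k ⊆ lset μ ν (V ∘ tg L P) α k := by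
  rintro r ⟨W, hk, hc, hp, rfl⟩
  set E : (En n → ℝ) ≃ₗ[ℝ] (En n → ℝ) := LinearEquiv.funCongrLeft ℝ ℝ (tg L P).toEquiv with hE
  have hEa : ∀ v, E v = v ∘ tg L P := fun v => rfl
  refine ⟨W.map (E : (En n → ℝ) →ₗ[ℝ] (En n → ℝ)), ?_, ?_, ?_, ?_⟩
  · rw [LinearEquiv.finrank_map_eq, hk]
  · rintro _ ⟨v, hv, rfl⟩
    exact (hc v hv).comp (tg_smooth L P)
  · rintro _ ⟨v, hv, rfl⟩ hne
    have : Nf μ (v ∘ tg L P) = Nf μ' v := Nf_tg h v
    refine lt_of_lt_of_eq (hp v hv ?_) this.symm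
    rintro rfl
    exact hne (map_zero _)
  · congr 1
    ext q
    constructor
    · rintro ⟨v, hv, hv0, rfl⟩
      refine ⟨E v, ⟨v, hv, rfl⟩, ?_, ?_⟩
      · intro h0
        exact hv0 (E.injective (h0.trans (map_zero _).symm))
      · rw [hEa, Nf_tg h, Qf_tg h h' V α (hc v hv)]
    · rintro ⟨_, ⟨v, hv, rfl⟩, hv0, rfl⟩
      refine ⟨v, hv, ?_, ?_⟩
      · rintro rfl
        exact hv0 (map_zero _)
      · have e1 : Nf μ (v ∘ tg L P) = Nf μ' v := Nf_tg h v
        have e2 := Qf_tg h h' V α (hc v hv)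
        change Qf μ ν (V ∘ tg L P) α (v ∘ tg L P) / Nf μ (v ∘ tg L P) = _
        rw [e1, e2]

lemma mp_symm {μ μ' : Measure (En n)} {L : En n ≃ₗᵢ[ℝ] En n} {P : En n}
    (h : MeasurePreserving (tg L P) μ μ') : MeasurePreserving (tg L.symm (-(L P))) μ' μ := by
  have := MeasurePreserving.symm (tg L P).toHomeomorph.toMeasurableEquiv h
  have e : (((tg L P).toHomeomorph.toMeasurableEquiv).symm : En n → En n) =
    tg L.symm (-(L P)) := tg_symm L P
  rw [e] at this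
  exact this

lemma lset_tg {μ μ' ν ν' : Measure (En n)} {L : En n ≃ₗᵢ[ℝ] En n} {P : En n}
    (h : MeasurePreserving (tg L P) μ μ') (h' : MeasurePreserving (tg L P) ν ν')
    (V : En n → ℝ) (α : ℝ) (k : ℕ) :
    lset μ ν (V ∘ tg L P) α k = lset μ' ν' V α k := by
  apply Subset.antisymm _ (lset_tg_sub h h' V α k)
  have := lset_tg_sub (mp_symm h) (mp_symm h') (V ∘ tg L P) α k
  have e : (V ∘ tg L P) ∘ tg L.symm (-(L P)) = V := by
    funext q
    simp only [Function.comp_apply, tg_apply]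
    congr 1
    simp
  rw [e] at this
  exact this

lemma lamf_tg {μ μ' ν ν' : Measure (En n)} {L : En n ≃ₗᵢ[ℝ] En n} {P : En n}
    (h : MeasurePreserving (tg L P) μ μ') (h' : MeasurePreserving (tg L P) ν ν')
    (V : En n → ℝ) (α : ℝ) (k : ℕ) :
    lamf μ ν (V ∘ tg L P) α k = lamf μ' ν' V α k := by
  unfold lamf
  rw [lset_tg h h']

/-- existence of a rigid motion -/
lemma exists_rigid {u w : En n} (h : ‖u‖ = ‖w‖) : ∃ L : En n ≃ₗᵢ[ℝ] En n, L u = w :=
  ⟨Submodule.reflection (Submodule.span ℝ {u - w})ᗮ, Submodule.reflection_sub h⟩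

lemma restrict_tg (L : En n ≃ₗᵢ[ℝ] En n) (P : En n) (Ω : Set (En n)) :
    MeasurePreserving (tg L P) ((volume : Measure (En n)).restrict Ω)
      ((volume : Measure (En n)).restrict (tg L P '' Ω)) :=
  (tg_vol L P).restrict_image_emb (tg L P).toHomeomorph.measurableEmbedding Ω

lemma restrict_tg_haus (L : En n ≃ₗᵢ[ℝ] En n) (P : En n) (Ω : Set (En n)) (d : ℝ) :
    MeasurePreserving (tg L P) ((μH[d] : Measure (En n)).restrict (frontier Ω))
      ((μH[d] : Measure (En n)).restrict (frontier (tg L P '' Ω))) := by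
  have h := ((tg L P).measurePreserving_hausdorffMeasure d).restrict_image_emb
    (tg L P).toHomeomorph.measurableEmbedding (frontier Ω)
  have e : tg L P '' frontier Ω = frontier (tg L P '' Ω) := (tg L P).toHomeomorph.image_frontier Ω
  rw [e] at h
  exact h

end Pool.Agent.Helper88.Gap
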