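import Mathlib
import Pool.Agent.Helper88.Gap.Gen

open MeasureTheory Set Metric Filter Topology

noncomputable section

namespace Pool.Agent.Helper88.Gap

/-- points of the plane from coordinates -/
def P2 (x y : ℝ) : En 2 := !₂[x, y]

@[simp] lemma P2_0 (x y : ℝ) : P2 x y 0 = x := rfl
@[simp] lemma P2_1 (x y : ℝ) : P2 x y 1 = y := rfl

lemma P2_eta (p : En 2) : P2 (p 0) (p 1) = p := by
  ext i; fin_cases i <;> rfl

/-- coordinates -/
def e2 : En 2 ≃ᵐ ℝ × ℝ := (MeasurableEquiv.toLp 2 _).symm.trans MeasurableEquiv.finTwoArrow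

lemma e2_apply (p : En 2) : e2 p = (p 0, p 1) := rfl

lemma e2_symm (q : ℝ × ℝ) : e2.symm q = P2 q.1 q.2 := by
  apply e2.injective
  rw [MeasurableEquiv.apply_symm_apply, e2_apply]
  simp

lemma e2_mp : MeasurePreserving e2 := by
  have h1 := EuclideanSpace.volume_preserving_symm_measurableEquiv_toLp (Fin 2)
  have h2 := volume_preserving_finTwoArrow ℝ
  exact h2.comp h1

lemma P2_cont : Continuous (fun q : ℝ × ℝ => P2 q.1 q.2) := by
  unfold P2
  fun_prop

lemma P2_cont' {X : Type*} [TopologicalSpace X] {f g : X → ℝ} (hf : Continuous f)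
    (hg : Continuous g) : Continuous (fun x => P2 (f x) (g x)) :=
  P2_cont.comp (hf.prodMk hg)

lemma P2_dist (x y x' y' : ℝ) : dist (P2 x y) (P2 x' y') ^ 2
    = (x - x') ^ 2 + (y - y') ^ 2 := by
  rw [EuclideanSpace.dist_eq, Real.sq_sqrt (by positivity)]
  simp [Fin.sum_univ_two, Real.dist_eq, sq_abs]

lemma dist2 (q q' : En 2) : dist q q' ^ 2 = (q 0 - q' 0) ^ 2 + (q 1 - q' 1) ^ 2 := by
  conv_lhs => rw [← P2_eta q, ← P2_eta q']
  rw [P2_dist]

lemma coord_cont (i : Fin 2) : Continuous (fun p : En 2 => p i) :=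
  (EuclideanSpace.proj i : En 2 →L[ℝ] ℝ).continuous

/-- slicing a set integral over a product along the first coordinate -/
lemma slice_integral {Z : Type*} [MeasurableSpace Z] {ν : Measure Z} [SFinite ν]
    {S : Set (ℝ × Z)} (hS : MeasurableSet S) {I : Set ℝ} (hI : MeasurableSet I)
    (hSI : ∀ p ∈ S, p.1 ∈ I) {F : ℝ × Z → ℝ}
    (hF : IntegrableOn F S ((volume : Measure ℝ).prod ν)) :
    (∫ p in S, F p ∂((volume : Measure ℝ).prod ν) =
      ∫ x in I, ∫ q in {q | (x, q) ∈ S}, F (x, q) ∂ν) ∧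
    IntegrableOn (fun x => ∫ q in {q | (x, q) ∈ S}, F (x, q) ∂ν) I := by
  have hi : Integrable (S.indicator F) ((volume : Measure ℝ).prod ν) := hF.integrable_indicator hS
  have hsl : ∀ x, MeasurableSet {q | (x, q) ∈ S} := fun x => measurable_prodMk_left hS
  have he : ∀ x, ∫ q, S.indicator F (x, q) ∂ν = ∫ q in {q | (x, q) ∈ S}, F (x, q) ∂ν := by
    intro x
    rw [← integral_indicator (hsl x)]
    rfl
  constructor
  · rw [← integral_indicator hS, integral_prod _ hi, ← integral_indicator hI]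
    apply integral_congr_ae
    filter_upwards with x
    rw [he x]
    by_cases hx : x ∈ I
    · rw [indicator_of_mem hx]
    · rw [indicator_of_notMem hx]
      have : {q | (x, q) ∈ S} = ∅ := by
        ext q
        simp only [mem_empty_iff_false, iff_false]
        intro hq
        exact hx (hSI _ hq)
      rw [this]
      simp
  · have := hi.integral_prod_left
    simp_rw [he] at this
    exact this.integrableOn

/-- thin convex domain in normal position -/
structure Thin (Ω : Set (En 2)) (a b : ℝ → ℝ) (M : ℝ) : Prop where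
  ca : Continuous a
  cb : Continuous b
  mem : ∀ p : En 2, p ∈ Ω ↔ p 0 ∈ Ioo (0:ℝ) 1 ∧ p 1 ∈ Ioo (a (p 0)) (b (p 0))
  lt : ∀ x ∈ Ioo (0:ℝ) 1, a x < b x
  az : ∀ x, x ∉ Ioo (0:ℝ) 1 → a x = 0
  bz : ∀ x, x ∉ Ioo (0:ℝ) 1 → b x = 0
  a0 : ∀ x, a x ≤ 0
  b0 : ∀ x, 0 ≤ b x
  cva : ConvexOn ℝ (Icc 0 1) a
  cvb : ConcaveOn ℝ (Icc 0 1) b
  hM : ∀ x, b x - a x ≤ M
  sq : ∀ x ∈ Ioo (0:ℝ) 1, (b x - a x) ^ 2 ≤ 8 * x ∧ (b x - a x) ^ 2 ≤ 8 * (1 - x)

namespace Thin

variable {Ω : Set (En 2)} {a b : ℝ → ℝ} {M : ℝ}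

lemma h0 (T : Thin Ω a b M) (x : ℝ) : 0 ≤ b x - a x := by
  linarith [T.a0 x, T.b0 x]

lemma M0 (T : Thin Ω a b M) : 0 ≤ M := (T.h0 0).trans (T.hM 0)

lemma bM (T : Thin Ω a b M) (x : ℝ) : b x ≤ M := by linarith [T.hM x, T.a0 x]
lemma aM (T : Thin Ω a b M) (x : ℝ) : -M ≤ a x := by linarith [T.hM x, T.b0 x]

lemma isOpen (T : Thin Ω a b M) : IsOpen Ω := by
  have c0 := coord_cont 0
  have c1 := coord_cont 1
  have ca := T.ca
  have cb := T.cb
  have : Ω = {p | 0 < p 0} ∩ ({p | p 0 < 1} ∩ ({p | a (p 0) < p 1} ∩ {p | p 1 < b (p 0)})) := by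
    ext p
    rw [T.mem]
    simp [mem_Ioo, and_assoc]
  rw [this]
  refine (isOpen_lt (by fun_prop) (by fun_prop)).inter
    ((isOpen_lt (by fun_prop) (by fun_prop)).inter
    ((isOpen_lt (by fun_prop) (by fun_prop)).inter (isOpen_lt (by fun_prop) (by fun_prop))))

lemma box (T : Thin Ω a b M) {p : En 2} (hp : p ∈ Ω) : p 0 ∈ Icc (0:ℝ) 1 ∧ p 1 ∈ Icc (-M) M := by
  rw [T.mem] at hp
  exact ⟨⟨hp.1.1.le, hp.1.2.le⟩, by linarith [T.aM (p 0), hp.2.1], by linarith [T.bM (p 0), hp.2.2]⟩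

lemma bounded (T : Thin Ω a b M) : Bornology.IsBounded Ω := by
  have hb : Bornology.IsBounded
      ((fun q : ℝ × ℝ => P2 q.1 q.2) '' (Icc (0:ℝ) 1 ×ˢ Icc (-M) M)) :=
    ((isCompact_Icc.prod isCompact_Icc).image P2_cont).isBounded
  apply hb.subset
  intro p hp
  obtain ⟨h0, h1⟩ := T.box hp
  exact ⟨(p 0, p 1), ⟨h0, h1⟩, P2_eta p⟩

lemma good (T : Thin Ω a b M) : Good (volume.restrict Ω) := by
  intro F hF
  exact (hF.continuousOn.integrableOn_compact T.bounded.isCompact_closure).mono_set subset_closure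

/-- iterated integrals over the domain -/
lemma int (T : Thin Ω a b M) {F : En 2 → ℝ} (hF : Continuous F) :
    (∫ p in Ω, F p = ∫ x in Ioo (0:ℝ) 1,
      (b x - a x) * ∫ t in (0:ℝ)..1, F (P2 x (a x + (b x - a x) * t))) := by
  have hFi : IntegrableOn F Ω := T.good F hF
  have hmp : MeasurePreserving e2.symm := e2_mp.symm
  set S : Set (ℝ × ℝ) := e2.symm ⁻¹' Ω with hS
  have hSm : MeasurableSet S := e2.symm.measurable T.isOpen.measurableSet
  have h1 : ∫ p in S, F (e2.symm p) = ∫ p in Ω, F p :=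
    hmp.setIntegral_preimage_emb e2.symm.measurableEmbedding F Ω
  have h2 : IntegrableOn (F ∘ e2.symm) S := by
    rw [hS, hmp.integrableOn_comp_preimage e2.symm.measurableEmbedding]
    exact hFi
  have hmem : ∀ x y, (x, y) ∈ S ↔ x ∈ Ioo (0:ℝ) 1 ∧ y ∈ Ioo (a x) (b x) := by
    intro x y
    rw [hS, mem_preimage, e2_symm, T.mem]
    simp
  have h3 := slice_integral (ν := (volume : Measure ℝ)) hSm (I := Ioo (0:ℝ) 1)
    measurableSet_Ioo (by
      rintro ⟨x, y⟩ hp
      exact ((hmem x y).mp hp).1) (F := F ∘ e2.symm) h2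
  rw [← h1]
  refine h3.1.trans ?_
  apply setIntegral_congr_fun measurableSet_Ioo
  intro x hx
  have hsl : {y : ℝ | (x, y) ∈ S} = Ioo (a x) (b x) := by
    ext y
    rw [mem_ofPred_eq, hmem]
    exact ⟨fun h => h.2, fun h => ⟨hx, h⟩⟩
  have hlt := T.lt x hx
  simp only [hsl, Function.comp_apply, e2_symm]
  rw [← integral_Ioc_eq_integral_Ioo, ← intervalIntegral.integral_of_le hlt.le]
  have hne : b x - a x ≠ 0 := by linarith [hlt]
  rw [intervalIntegral.integral_comp_add_mul (fun y => F (P2 x y)) hne (a x)]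
  simp only [mul_zero, add_zero, mul_one, add_sub_cancel, smul_eq_mul]
  field_simp

end Thin

/-- the surface measure -/
def surf (Ω : Set (En 2)) : Measure (En 2) := (μH[(1:ℝ)] : Measure (En 2)).restrict (frontier Ω)

lemma proj_lip : LipschitzWith 1 (fun p : En 2 => p 0) := by
  apply LipschitzWith.of_dist_le_mul
  intro p q
  rw [NNReal.coe_one, one_mul, Real.dist_eq]
  have h := dist2 p q
  have h2 : |p 0 - q 0| ^ 2 ≤ dist p q ^ 2 := by
    rw [h, sq_abs]
    nlinarith [sq_nonneg (p 1 - q 1)]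
  exact le_of_sq_le_sq h2 dist_nonneg

/-- lower bound for the Hausdorff measure of a section -/
lemma section_ge {s : ℝ → En 2} (hs : Measurable s) (h : ∀ x, (s x) 0 = x) (D : Set ℝ) :
    Measure.map s ((volume : Measure ℝ).restrict D) ≤
      (μH[(1:ℝ)] : Measure (En 2)).restrict (s '' D) := by
  rw [Measure.le_iff]
  intro S hS
  rw [Measure.map_apply hs hS, Measure.restrict_apply (hs hS), Measure.restrict_apply hS]
  have h1 : s ⁻¹' S ∩ D ⊆ (fun p : En 2 => p 0) '' (S ∩ s '' D) := by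
    rintro q ⟨hq1, hq2⟩
    exact ⟨s q, ⟨hq1, ⟨q, hq2, rfl⟩⟩, h q⟩
  rw [← hausdorffMeasure_real]
  calc μH[(1:ℝ)] (s ⁻¹' S ∩ D) ≤ μH[(1:ℝ)] ((fun p : En 2 => p 0) '' (S ∩ s '' D)) :=
        measure_mono h1
    _ ≤ ((1 : NNReal) : ENNReal) ^ (1:ℝ) * μH[(1:ℝ)] (S ∩ s '' D) :=
        proj_lip.hausdorffMeasure_image_le (by norm_num) _
    _ = μH[(1:ℝ)] (S ∩ s '' D) := by simp

namespace Thin

variable {Ω : Set (En 2)} {a b : ℝ → ℝ} {M : ℝ}

lemma top_sub (T : Thin Ω a b M) : (fun x => P2 x (b x)) '' Ioo (0:ℝ) 1 ⊆ frontier Ω := by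
  rintro _ ⟨x, hx, rfl⟩
  have hlt := T.lt x hx
  rw [T.isOpen.frontier_eq]
  constructor
  · have ht : Tendsto (fun y : ℝ => P2 x y) (𝓝[<] (b x)) (𝓝 (P2 x (b x))) := by
      have hc : Continuous (fun y : ℝ => P2 x y) := P2_cont' continuous_const continuous_id
      exact (hc.tendsto _).mono_left nhdsWithin_le_nhds
    refine mem_closure_of_tendsto ht ?_
    filter_upwards [Ioo_mem_nhdsLT hlt] with z hz
    rw [T.mem]
    exact ⟨hx, hz⟩
  · intro h
    rw [T.mem] at h
    simpa using h.2.2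

lemma bot_sub (T : Thin Ω a b M) : (fun x => P2 x (a x)) '' Ioo (0:ℝ) 1 ⊆ frontier Ω := by
  rintro _ ⟨x, hx, rfl⟩
  have hlt := T.lt x hx
  rw [T.isOpen.frontier_eq]
  constructor
  · have ht : Tendsto (fun y : ℝ => P2 x y) (𝓝[>] (a x)) (𝓝 (P2 x (a x))) := by
      have hc : Continuous (fun y : ℝ => P2 x y) := P2_cont' continuous_const continuous_id
      exact (hc.tendsto _).mono_left nhdsWithin_le_nhds
    refine mem_closure_of_tendsto ht ?_
    filter_upwards [Ioo_mem_nhdsGT hlt] with z hz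
    rw [T.mem]
    exact ⟨hx, hz⟩
  · intro h
    rw [T.mem] at h
    simpa using h.2.1

lemma surf_ge (T : Thin Ω a b M) :
    Measure.map (fun x => P2 x (a x)) ((volume : Measure ℝ).restrict (Ioo 0 1)) +
      Measure.map (fun x => P2 x (b x)) ((volume : Measure ℝ).restrict (Ioo 0 1)) ≤ surf Ω := by
  have sa : Continuous (fun x => P2 x (a x)) := P2_cont' continuous_id T.ca
  have sb : Continuous (fun x => P2 x (b x)) := P2_cont' continuous_id T.cb
  have h0 := section_ge sa.measurable (fun x => rfl) (Ioo 0 1)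
  have h1 := section_ge sb.measurable (fun x => rfl) (Ioo 0 1)
  refine (add_le_add h0 h1).trans ?_
  have hdisj : Disjoint ((fun x => P2 x (a x)) '' Ioo (0:ℝ) 1) ((fun x => P2 x (b x)) '' Ioo (0:ℝ) 1) := by
    rw [Set.disjoint_left]
    rintro _ ⟨x, hx, rfl⟩ ⟨y, hy, h⟩
    have e0 : y = x := by
      have := congrArg (fun p : En 2 => p 0) h
      simpa using this
    have e1 : b y = a x := by
      have := congrArg (fun p : En 2 => p 1) h
      simpa using this
    rw [e0] at e1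
    exact absurd e1 (T.lt x hx).ne'
  have hm : MeasurableSet ((fun x => P2 x (a x)) '' Ioo (0:ℝ) 1) := by
    have : (fun x => P2 x (a x)) '' Ioo (0:ℝ) 1 =
        (fun p : En 2 => p 0) ⁻¹' (Ioo 0 1) ∩ {p | p 1 = a (p 0)} := by
      ext p
      constructor
      · rintro ⟨x, hx, rfl⟩
        exact ⟨hx, rfl⟩
      · rintro ⟨h1, h2⟩
        have h2' : p 1 = a (p 0) := h2
        refine ⟨p 0, h1, ?_⟩
        simp only
        rw [← h2', P2_eta]
    rw [this]
    have c0 := coord_cont 0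
    have c1 := coord_cont 1
    have ca := T.ca
    exact (c0.measurable measurableSet_Ioo).inter
      (isClosed_eq (by fun_prop) (by fun_prop)).measurableSet
  rw [← Measure.restrict_union' hdisj hm]
  exact Measure.restrict_mono (union_subset T.bot_sub T.top_sub) le_rfl

end Thin

end Pool.Agent.Helper88.Gap
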