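import Mathlib
import Pool.Agent.Helper88.Gap.Thin

open MeasureTheory Set Metric Filter Topology

noncomputable section

namespace Pool.Agent.Helper88.Gap

/-- nearest points to a closed convex set are unique and depend 1-Lipschitz on the point -/
lemma near_lip {p q x y : En 2} {K : Set (En 2)} (hx : x ∈ K) (hy : y ∈ K)
    (h1 : ∀ w ∈ K, inner ℝ (p - x) (w - x) ≤ 0) (h2 : ∀ w ∈ K, inner ℝ (q - y) (w - y) ≤ 0) :
    dist x y ≤ dist p q := by
  have a1 := h1 y hy
  have a2 := h2 x hx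
  have key : inner ℝ (x - y) (x - y) ≤ inner ℝ (p - q) (x - y) := by
    have e1 : inner ℝ (p - x) (y - x) = - inner ℝ (p - x) (x - y) := by
      rw [← inner_neg_right, neg_sub]
    have e2 : inner ℝ (p - q) (x - y) - inner ℝ (x - y) (x - y) =
        inner ℝ (p - x) (x - y) - inner ℝ (q - y) (x - y) := by
      rw [← inner_sub_left, ← inner_sub_left]
      congr 1
      abel
    rw [e1] at a1
    linarith
  have hcs := real_inner_le_norm (p - q) (x - y)
  rw [real_inner_self_eq_norm_sq] at key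
  rw [dist_eq_norm, dist_eq_norm]
  rcases (norm_nonneg (x - y)).eq_or_lt with h | h
  · rw [← h]; exact norm_nonneg _
  · have : ‖x - y‖ * ‖x - y‖ ≤ ‖p - q‖ * ‖x - y‖ := by
      rw [← sq]; linarith
    exact le_of_mul_le_mul_right this h

/-- the frontier of an open convex set inside a closed bounded set `R` is a Lipschitz image
of the frontier of `R` -/
lemma frontier_haus_le {Ω R : Set (En 2)} (ho : IsOpen Ω) (hc : Convex ℝ Ω) (hne : Ω.Nonempty)
    (hR : IsCompact R) (hsub : Ω ⊆ R) :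
    μH[(1:ℝ)] (frontier Ω) ≤ μH[(1:ℝ)] (frontier R) := by
  set K := closure Ω with hK
  have hKR : K ⊆ R := closure_minimal hsub hR.isClosed
  have hKne : K.Nonempty := hne.closure
  have hKc : Convex ℝ K := hc.closure
  have hKcomp : IsComplete K := isClosed_closure.isComplete
  have hex : ∀ p : En 2, ∃ x ∈ K, ∀ w ∈ K, inner ℝ (p - x) (w - x) ≤ 0 := by
    intro p
    obtain ⟨x, hx, hmin⟩ := exists_norm_eq_iInf_of_complete_convex hKne hKcomp hKc p
    exact ⟨x, hx, (norm_eq_iInf_iff_real_inner_le_zero hKc hx).mp hmin⟩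
  choose π hπK hπ using hex
  have hlip : LipschitzWith 1 π := by
    apply LipschitzWith.of_dist_le_mul
    intro p q
    rw [NNReal.coe_one, one_mul]
    exact near_lip (hπK p) (hπK q) (hπ p) (hπ q)
  have hcover : frontier Ω ⊆ π '' frontier R := by
    intro z hz
    rw [ho.frontier_eq] at hz
    obtain ⟨hzK, hzn⟩ := hz
    obtain ⟨f, hf⟩ := geometric_hahn_banach_open_point hc ho hzn
    set ν := (InnerProductSpace.toDual ℝ (En 2)).symm f with hν
    have hνf : ∀ x, inner ℝ ν x = f x := fun x => InnerProductSpace.toDual_symm_apply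
    have hfK : ∀ w ∈ K, f w ≤ f z := by
      intro w hw
      have hcl : IsClosed {w : En 2 | f w ≤ f z} := isClosed_le f.continuous continuous_const
      have : K ⊆ {w : En 2 | f w ≤ f z} := closure_minimal (fun w hw => (hf w hw).le) hcl
      exact this hw
    have hν0 : ν ≠ 0 := by
      intro h0
      obtain ⟨w, hw⟩ := hne
      have := hf w hw
      rw [← hνf, ← hνf, h0] at this
      simp at this
    -- the ray
    set S : Set ℝ := {t | 0 ≤ t ∧ z + t • ν ∈ R} with hS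
    have hS0 : (0:ℝ) ∈ S := ⟨le_rfl, by simpa using hKR hzK⟩
    have hScl : IsClosed S := by
      have h1 : IsClosed {t : ℝ | 0 ≤ t} := isClosed_Ici
      have h2 : IsClosed {t : ℝ | z + t • ν ∈ R} := hR.isClosed.preimage (by fun_prop)
      exact h1.inter h2
    have hSb : Bornology.IsBounded S := by
      obtain ⟨C, hC⟩ := hR.isBounded.exists_norm_le
      have hνn : 0 < ‖ν‖ := norm_pos_iff.mpr hν0
      refine (isBounded_Icc (0:ℝ) ((C + ‖z‖) / ‖ν‖)).subset ?_
      rintro t ⟨ht0, htR⟩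
      refine ⟨ht0, ?_⟩
      rw [le_div_iff₀ hνn]
      have h1 := hC _ htR
      have h2 : ‖t • ν‖ = t * ‖ν‖ := by rw [norm_smul, Real.norm_eq_abs, abs_of_nonneg ht0]
      have h3 : ‖t • ν‖ ≤ ‖z + t • ν‖ + ‖z‖ := by
        calc ‖t • ν‖ = ‖(z + t • ν) - z‖ := by congr 1; abel
          _ ≤ _ := norm_sub_le _ _
      linarith
    have hScomp : IsCompact S := Metric.isCompact_of_isClosed_isBounded hScl hSb
    obtain ⟨t, ht, htmax⟩ := hScomp.exists_isGreatest ⟨0, hS0⟩
    have hfr : z + t • ν ∈ frontier R := by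
      rw [hR.isClosed.frontier_eq]
      refine ⟨ht.2, ?_⟩
      intro hint
      rw [mem_interior_iff_mem_nhds] at hint
      have hcont : Tendsto (fun s : ℝ => z + s • ν) (𝓝 t) (𝓝 (z + t • ν)) := by
        have : Continuous (fun s : ℝ => z + s • ν) := by fun_prop
        exact this.tendsto t
      have hev := hcont.eventually hint
      obtain ⟨δ, hδ, hball⟩ := Metric.eventually_nhds_iff.mp hev
      have h1 := hball (y := t + δ / 2) (by
        rw [Real.dist_eq]
        have : t + δ / 2 - t = δ / 2 := by ring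
        rw [this, abs_of_pos (by positivity)]
        linarith)
      have h2 : t + δ / 2 ∈ S := ⟨by linarith [ht.1], h1⟩
      have := htmax h2
      linarith
    refine ⟨z + t • ν, hfr, ?_⟩
    have hz1 : ∀ w ∈ K, inner ℝ ((z + t • ν) - z) (w - z) ≤ 0 := by
      intro w hw
      rw [add_sub_cancel_left, inner_smul_left, inner_sub_right, hνf, hνf]
      have := hfK w hw
      have h0 := ht.1
      simp only [conj_trivial]
      nlinarith
    have := near_lip (hπK (z + t • ν)) hzK (hπ (z + t • ν)) hz1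
    rw [dist_self] at this
    exact dist_le_zero.mp this
  calc μH[(1:ℝ)] (frontier Ω) ≤ μH[(1:ℝ)] (π '' frontier R) := measure_mono hcover
    _ ≤ ((1 : NNReal) : ENNReal) ^ (1:ℝ) * μH[(1:ℝ)] (frontier R) :=
        hlip.hausdorffMeasure_image_le (by norm_num) _
    _ = μH[(1:ℝ)] (frontier R) := by simp

lemma seg_le {s : ℝ → En 2} (hs : LipschitzWith 1 s) (l r : ℝ) :
    μH[(1:ℝ)] (s '' Icc l r) ≤ ENNReal.ofReal (r - l) := by
  calc μH[(1:ℝ)] (s '' Icc l r) ≤ ((1 : NNReal) : ENNReal) ^ (1:ℝ) * μH[(1:ℝ)] (Icc l r) :=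
        hs.hausdorffMeasure_image_le (by norm_num) _
    _ = ENNReal.ofReal (r - l) := by
        rw [hausdorffMeasure_real]
        simp

lemma hor_lip (c : ℝ) : LipschitzWith 1 (fun x : ℝ => P2 x c) := by
  apply LipschitzWith.of_dist_le_mul
  intro p q
  rw [NNReal.coe_one, one_mul, Real.dist_eq]
  have h := P2_dist p c q c
  have h2 : dist (P2 p c) (P2 q c) ^ 2 ≤ |p - q| ^ 2 := by
    rw [h, sq_abs]
    simp
  exact le_of_sq_le_sq h2 (abs_nonneg _)

lemma ver_lip (c : ℝ) : LipschitzWith 1 (fun x : ℝ => P2 c x) := by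
  apply LipschitzWith.of_dist_le_mul
  intro p q
  rw [NNReal.coe_one, one_mul, Real.dist_eq]
  have h := P2_dist c p c q
  have h2 : dist (P2 c p) (P2 c q) ^ 2 ≤ |p - q| ^ 2 := by
    rw [h, sq_abs]
    simp
  exact le_of_sq_le_sq h2 (abs_nonneg _)

/-- the closed rectangle -/
def Rect (M : ℝ) : Set (En 2) := {p | p 0 ∈ Icc (0:ℝ) 1 ∧ p 1 ∈ Icc (-M) M}

lemma Rect_compact (M : ℝ) : IsCompact (Rect M) := by
  have : Rect M = (fun q : ℝ × ℝ => P2 q.1 q.2) '' (Icc (0:ℝ) 1 ×ˢ Icc (-M) M) := by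
    ext p
    constructor
    · intro hp
      exact ⟨(p 0, p 1), hp, P2_eta p⟩
    · rintro ⟨q, hq, rfl⟩
      exact hq
  rw [this]
  exact (isCompact_Icc.prod isCompact_Icc).image P2_cont

lemma Rect_frontier {M : ℝ} (hM : 0 ≤ M) : μH[(1:ℝ)] (frontier (Rect M)) ≤
    ENNReal.ofReal (2 + 4 * M) := by
  have c0 := coord_cont 0
  have c1 := coord_cont 1
  have hsub : frontier (Rect M) ⊆ ((fun x : ℝ => P2 x M) '' Icc 0 1) ∪
      (((fun x : ℝ => P2 x (-M)) '' Icc 0 1) ∪ (((fun x : ℝ => P2 0 x) '' Icc (-M) M) ∪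
        ((fun x : ℝ => P2 1 x) '' Icc (-M) M))) := by
    intro p hp
    rw [(Rect_compact M).isClosed.frontier_eq] at hp
    obtain ⟨hpR, hpn⟩ := hp
    obtain ⟨h0, h1⟩ := hpR
    by_cases e1 : p 1 = M
    · left
      refine ⟨p 0, h0, ?_⟩
      simp only
      rw [← e1, P2_eta]
    by_cases e2 : p 1 = -M
    · right; left
      refine ⟨p 0, h0, ?_⟩
      simp only
      rw [← e2, P2_eta]
    by_cases e3 : p 0 = 0
    · right; right; left
      refine ⟨p 1, h1, ?_⟩
      simp only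
      rw [← e3, P2_eta]
    by_cases e4 : p 0 = 1
    · right; right; right
      refine ⟨p 1, h1, ?_⟩
      simp only
      rw [← e4, P2_eta]
    exfalso
    apply hpn
    have hop : IsOpen ({p : En 2 | 0 < p 0} ∩ ({p | p 0 < 1} ∩ ({p | -M < p 1} ∩ {p | p 1 < M}))) :=
      (isOpen_lt (by fun_prop) (by fun_prop)).inter
      ((isOpen_lt (by fun_prop) (by fun_prop)).inter
      ((isOpen_lt (by fun_prop) (by fun_prop)).inter (isOpen_lt (by fun_prop) (by fun_prop))))
    refine mem_interior.mpr ⟨_, ?_, hop, ?_⟩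
    · rintro q ⟨q1, q2, q3, q4⟩
      exact ⟨⟨le_of_lt q1, le_of_lt q2⟩, ⟨le_of_lt q3, le_of_lt q4⟩⟩
    · exact ⟨lt_of_le_of_ne h0.1 (Ne.symm e3), lt_of_le_of_ne h0.2 e4,
        lt_of_le_of_ne h1.1 (Ne.symm e2), lt_of_le_of_ne h1.2 e1⟩
  have m1 := seg_le (hor_lip M) 0 1
  have m2 := seg_le (hor_lip (-M)) 0 1
  have m3 := seg_le (ver_lip 0) (-M) M
  have m4 := seg_le (ver_lip 1) (-M) M
  calc μH[(1:ℝ)] (frontier (Rect M)) ≤ _ := measure_mono hsub
    _ ≤ μH[(1:ℝ)] ((fun x : ℝ => P2 x M) '' Icc 0 1) + (μH[(1:ℝ)] ((fun x : ℝ => P2 x (-M)) '' Icc 0 1)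
        + (μH[(1:ℝ)] ((fun x : ℝ => P2 0 x) '' Icc (-M) M)
          + μH[(1:ℝ)] ((fun x : ℝ => P2 1 x) '' Icc (-M) M))) := by
        refine (measure_union_le _ _).trans (add_le_add le_rfl ?_)
        refine (measure_union_le _ _).trans (add_le_add le_rfl ?_)
        exact measure_union_le _ _
    _ ≤ ENNReal.ofReal (1 - 0) + (ENNReal.ofReal (1 - 0) + (ENNReal.ofReal (M - -M) +
        ENNReal.ofReal (M - -M))) := add_le_add m1 (add_le_add m2 (add_le_add m3 m4))
    _ = ENNReal.ofReal (2 + 4 * M) := by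
        rw [← ENNReal.ofReal_add (by linarith) (by linarith),
          ← ENNReal.ofReal_add (by linarith) (by linarith),
          ← ENNReal.ofReal_add (by linarith) (by linarith)]
        congr 1
        ring

namespace Thin

variable {Ω : Set (En 2)} {a b : ℝ → ℝ} {M : ℝ}

lemma convex (T : Thin Ω a b M) : Convex ℝ Ω := by
  intro p hp q hq s t hs ht hst
  rw [T.mem] at hp hq ⊢
  have e0 : (s • p + t • q) 0 = s * p 0 + t * q 0 := by simp
  have e1 : (s • p + t • q) 1 = s * p 1 + t * q 1 := by simp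
  have key : ∀ {u v : ℝ}, 0 < u → 0 < v → 0 < s * u + t * v := by
    intro u v hu hv
    rcases hs.eq_or_lt with h | h
    · have : t = 1 := by linarith
      rw [← h, this]; simpa using hv
    · have := mul_pos h hu
      have := mul_nonneg ht hv.le
      linarith
  have hp0 : p 0 ∈ Icc (0:ℝ) 1 := ⟨hp.1.1.le, hp.1.2.le⟩
  have hq0 : q 0 ∈ Icc (0:ℝ) 1 := ⟨hq.1.1.le, hq.1.2.le⟩
  have ka := T.cva.2 hp0 hq0 hs ht hst
  have kb := T.cvb.2 hp0 hq0 hs ht hst
  simp only [smul_eq_mul] at ka kb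
  rw [e0, e1]
  refine ⟨⟨key hp.1.1 hq.1.1, ?_⟩, ?_, ?_⟩
  · have := key (sub_pos.mpr hp.1.2) (sub_pos.mpr hq.1.2)
    nlinarith
  · have := key (sub_pos.mpr hp.2.1) (sub_pos.mpr hq.2.1)
    nlinarith
  · have := key (sub_pos.mpr hp.2.2) (sub_pos.mpr hq.2.2)
    nlinarith

lemma nonempty (T : Thin Ω a b M) : Ω.Nonempty := by
  have hx : (1/2:ℝ) ∈ Ioo (0:ℝ) 1 := by norm_num
  have := T.lt _ hx
  refine ⟨P2 (1/2) ((a (1/2) + b (1/2)) / 2), ?_⟩
  rw [T.mem]
  simp only [P2_0, P2_1]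
  exact ⟨hx, by linarith, by linarith⟩

lemma perim (T : Thin Ω a b M) : μH[(1:ℝ)] (frontier Ω) ≤ ENNReal.ofReal (2 + 4 * M) :=
  (frontier_haus_le T.isOpen T.convex T.nonempty (Rect_compact M) (fun _ hp => T.box hp)).trans
    (Rect_frontier T.M0)

lemma surf_fin (T : Thin Ω a b M) : IsFiniteMeasure (surf Ω) :=
  ⟨by rw [surf, Measure.restrict_apply_univ]; exact lt_of_le_of_lt T.perim ENNReal.ofReal_lt_top⟩

lemma surf_real (T : Thin Ω a b M) : (surf Ω).real univ ≤ 2 + 4 * M := by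
  rw [surf, measureReal_restrict_apply_univ, Measure.real]
  have := ENNReal.toReal_mono ENNReal.ofReal_ne_top T.perim
  rwa [ENNReal.toReal_ofReal (by linarith [T.M0])] at this

lemma surf_good (T : Thin Ω a b M) : Good (surf Ω) := by
  intro F hF
  have := T.surf_fin
  obtain ⟨C, hC⟩ := T.bounded.isCompact_closure.exists_bound_of_continuousOn hF.continuousOn
  refine Measure.integrableOn_of_bounded (M := C)
    (lt_of_le_of_lt T.perim ENNReal.ofReal_lt_top).ne hF.aestronglyMeasurable ?_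
  rw [ae_restrict_iff' isClosed_frontier.measurableSet]
  filter_upwards with x hx
  exact hC x (frontier_subset_closure hx)

/-- lower bound for boundary integrals -/
lemma bdry_ge (T : Thin Ω a b M) {F : En 2 → ℝ} (hF : Continuous F) (h0 : ∀ p, 0 ≤ F p) :
    ∫ x in Ioo (0:ℝ) 1, (F (P2 x (a x)) + F (P2 x (b x))) ≤ ∫ p, F p ∂(surf Ω) := by
  have sa : Continuous (fun x => P2 x (a x)) := P2_cont' continuous_id T.ca
  have sb : Continuous (fun x => P2 x (b x)) := P2_cont' continuous_id T.cb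
  have hgood := T.surf_good F hF
  have hle := T.surf_ge
  have hi := hgood.mono_measure hle
  have hmono := integral_mono_measure hle (Eventually.of_forall h0) hgood
  refine le_trans (le_of_eq ?_) hmono
  rw [integrable_add_measure] at hi
  rw [integral_add_measure hi.1 hi.2, integral_map sa.measurable.aemeasurable
    hF.aestronglyMeasurable, integral_map sb.measurable.aemeasurable
    hF.aestronglyMeasurable]
  have hic : ∀ f : ℝ → ℝ, Continuous f → IntegrableOn f (Ioo (0:ℝ) 1) := fun f hf =>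
    (hf.continuousOn.integrableOn_compact isCompact_Icc).mono_set Ioo_subset_Icc_self
  exact integral_add (hic _ (hF.comp sa)) (hic _ (hF.comp sb))

/-- upper bound for boundary integrals of functions of the first coordinate -/
lemma bdry_le (T : Thin Ω a b M) {ψ : ℝ → ℝ} (hψ : Continuous ψ) {P : ℝ}
    (hP : ∀ x, |ψ x| ≤ P) :
    ∫ p, ψ (p 0) ^ 2 ∂(surf Ω) ≤ 2 * (∫ x in Ioo (0:ℝ) 1, ψ x ^ 2) + 4 * M * P ^ 2 := by
  have c0 := coord_cont 0
  have hsq : ∀ x, ψ x ^ 2 ≤ P ^ 2 := by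
    intro x
    rw [← sq_abs (ψ x)]
    exact pow_le_pow_left₀ (abs_nonneg _) (hP x) 2
  have hfin := T.surf_fin
  have h1 := T.bdry_ge (F := fun p => P ^ 2 - ψ (p 0) ^ 2) (by fun_prop)
    (fun p => sub_nonneg.mpr (hsq _))
  simp only [P2_0] at h1
  have hic : ∀ f : ℝ → ℝ, Continuous f → IntegrableOn f (Ioo (0:ℝ) 1) := fun f hf =>
    (hf.continuousOn.integrableOn_compact isCompact_Icc).mono_set Ioo_subset_Icc_self
  have h2 : ∫ p, (P ^ 2 - ψ (p 0) ^ 2) ∂(surf Ω) =
      P ^ 2 * (surf Ω).real univ - ∫ p, ψ (p 0) ^ 2 ∂(surf Ω) := by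
    rw [integral_sub (T.surf_good _ (by fun_prop)) (T.surf_good _ (by fun_prop)), integral_const,
      smul_eq_mul, mul_comm]
  have h3 : ∫ x in Ioo (0:ℝ) 1, (P ^ 2 - ψ x ^ 2 + (P ^ 2 - ψ x ^ 2)) =
      2 * P ^ 2 - 2 * ∫ x in Ioo (0:ℝ) 1, ψ x ^ 2 := by
    have e : ∀ x, (P ^ 2 - ψ x ^ 2 + (P ^ 2 - ψ x ^ 2)) = 2 * P ^ 2 - 2 * ψ x ^ 2 := by
      intro x; ring
    simp_rw [e]
    have e5 : ∫ _x in Ioo (0:ℝ) 1, 2 * P ^ 2 = 2 * P ^ 2 := by
      rw [setIntegral_const]; simp
    rw [integral_sub (hic _ (by fun_prop)) (hic _ (by fun_prop)), e5, integral_const_mul]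
  rw [h2, h3] at h1
  have h4 := mul_le_mul_of_nonneg_left T.surf_real (sq_nonneg P)
  linarith

end Thin

end Pool.Agent.Helper88.Gap
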