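import Mathlib

open MeasureTheory Set Filter Topology

noncomputable section

namespace Pool.Agent.Helper88.Gap

/-- choice of the end zone -/
lemma left_zone {E : ℝ → ℝ} (Ec : Continuous E) (E0 : ∀ x, 0 ≤ E x) {K M : ℝ} (hK : 0 ≤ K)
    (hM : 0 < M) (hM4 : M ≤ 1 / 4) :
    ∃ s : ℝ, M ≤ s ∧ s ≤ 1 / 2 ∧ K * s ≤ (∫ x in (0:ℝ)..s, E x) + K * M ∧
      ∫ x in s..(1 / 2), E x / x ^ 2 ≤ 2 * K / M := by
  have hcum : ∀ s, HasDerivAt (fun s => ∫ x in (0:ℝ)..s, E x) (E s) s := fun s =>
    intervalIntegral.integral_hasDerivAt_right (Ec.intervalIntegrable _ _)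
      (Ec.stronglyMeasurableAtFilter _ _) Ec.continuousAt
  have hcumc : Continuous (fun s => ∫ x in (0:ℝ)..s, E x) :=
    continuous_iff_continuousAt.mpr fun s => (hcum s).continuousAt
  set C : ℝ → ℝ := fun s => ∫ x in (0:ℝ)..s, E x with hC
  obtain ⟨s1, hs1, hmax⟩ := (isCompact_Icc (a := (0:ℝ)) (b := 1/2)).exists_isMaxOn
    ⟨0, by norm_num⟩ (f := fun s => C s - K * s) (by fun_prop)
  have hmax' : ∀ s ∈ Icc (0:ℝ) (1/2), C s - K * s ≤ C s1 - K * s1 := fun s hs => hmax hs
  set s := max s1 M with hs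
  have hsM : M ≤ s := le_max_right _ _
  have hss1 : s1 ≤ s := le_max_left _ _
  have hs2 : s ≤ 1 / 2 := max_le hs1.2 (by linarith)
  have hs0 : 0 < s := lt_of_lt_of_le hM hsM
  have hmono : ∀ a b : ℝ, a ≤ b → C a ≤ C b := by
    intro a b hab
    have : C b - C a = ∫ x in a..b, E x := by
      rw [hC]
      exact intervalIntegral.integral_interval_sub_left (Ec.intervalIntegrable _ _)
        (Ec.intervalIntegrable _ _)
    have h2 : 0 ≤ ∫ x in a..b, E x := intervalIntegral.integral_nonneg hab (fun _ _ => E0 _)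
    linarith
  have hC0 : C 0 = 0 := by rw [hC]; simp
  refine ⟨s, hsM, hs2, ?_, ?_⟩
  · have h1 := hmax' 0 (by norm_num)
    rw [hC0] at h1
    have h2 := hmono s1 s hss1
    rcases max_choice s1 M with h | h
    · rw [hs, h]
      have h3 : C s1 = ∫ x in (0:ℝ)..s1, E x := rfl
      rw [← h3]
      have : 0 ≤ K * M := by positivity
      linarith
    · rw [hs, h]
      have h3 : 0 ≤ ∫ x in (0:ℝ)..M, E x :=
        intervalIntegral.integral_nonneg hM.le (fun _ _ => E0 _)
      linarith
  · -- W(x) = (C x - C s1 - K x) / x^2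
    set W : ℝ → ℝ := fun x => (C x - C s1 - K * x) / x ^ 2 with hW
    have hWd : ∀ x ∈ uIcc s (1/2), HasDerivAt W
        (((E x - K) * x ^ 2 - (C x - C s1 - K * x) * (2 * x)) / (x ^ 2) ^ 2) x := by
      intro x hx
      rw [uIcc_of_le hs2] at hx
      have hx0 : 0 < x := lt_of_lt_of_le hs0 hx.1
      have h1 : HasDerivAt (fun x => C x - C s1 - K * x) (E x - K) x := by
        have h2 := ((hcum x).sub_const (C s1)).fun_sub ((hasDerivAt_id x).const_mul K)
        simpa using h2
      have h2 : HasDerivAt (fun x : ℝ => x ^ 2) (2 * x) x := by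
        simpa using hasDerivAt_pow 2 x
      exact h1.div h2 (by positivity)
    have hcont : ContinuousOn (fun x => ((E x - K) * x ^ 2 - (C x - C s1 - K * x) * (2 * x)) /
        (x ^ 2) ^ 2) (uIcc s (1/2)) := by
      apply ContinuousOn.div
      · fun_prop
      · fun_prop
      · intro x hx
        rw [uIcc_of_le hs2] at hx
        have hx0 : 0 < x := lt_of_lt_of_le hs0 hx.1
        positivity
    have hftc := intervalIntegral.integral_eq_sub_of_hasDerivAt hWd hcont.intervalIntegrable
    have hcE : ContinuousOn (fun x => E x / x ^ 2) (uIcc s (1/2)) := by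
      apply ContinuousOn.div
      · fun_prop
      · fun_prop
      · intro x hx
        rw [uIcc_of_le hs2] at hx
        have hx0 : 0 < x := lt_of_lt_of_le hs0 hx.1
        positivity
    have hcK : ContinuousOn (fun x : ℝ => K * (1 / x ^ 2)) (uIcc s (1/2)) := by
      apply ContinuousOn.mul continuousOn_const
      apply ContinuousOn.div
      · fun_prop
      · fun_prop
      · intro x hx
        rw [uIcc_of_le hs2] at hx
        have hx0 : 0 < x := lt_of_lt_of_le hs0 hx.1
        positivity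
    have hle : ∫ x in s..(1/2), (E x / x ^ 2 - K * (1 / x ^ 2)) ≤ W (1/2) - W s := by
      rw [← hftc]
      apply intervalIntegral.integral_mono_on hs2 (hcE.sub hcK).intervalIntegrable
        hcont.intervalIntegrable
      intro x hx
      have hx0 : 0 < x := lt_of_lt_of_le hs0 hx.1
      have h1 : C x - C s1 - K * x ≤ 0 := by
        have := hmax' x ⟨hx0.le, hx.2⟩
        have h2 : 0 ≤ K * s1 := mul_nonneg hK hs1.1
        linarith
      simp only [Pi.sub_apply]
      rw [le_div_iff₀ (by positivity)]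
      have e : (E x / x ^ 2 - K * (1 / x ^ 2)) * (x ^ 2) ^ 2 = (E x - K) * x ^ 2 := by
        field_simp
      rw [e]
      nlinarith
    have hinv : ∫ x in s..(1/2), K * (1 / x ^ 2) = K * (1 / s - 2) := by
      have hd : ∀ x ∈ uIcc s (1/2), HasDerivAt (fun x : ℝ => K * (-(1 / x))) (K * (1 / x ^ 2)) x := by
        intro x hx
        rw [uIcc_of_le hs2] at hx
        have hx0 : 0 < x := lt_of_lt_of_le hs0 hx.1
        have := ((hasDerivAt_inv hx0.ne').neg).const_mul K
        simpa [one_div] using this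
      rw [intervalIntegral.integral_eq_sub_of_hasDerivAt hd hcK.intervalIntegrable]
      ring
    rw [intervalIntegral.integral_sub hcE.intervalIntegrable hcK.intervalIntegrable, hinv] at hle
    have hW1 : W (1/2) ≤ 0 := by
      rw [hW]
      apply div_nonpos_of_nonpos_of_nonneg _ (by positivity)
      have := hmax' (1/2) (by norm_num)
      have h2 : 0 ≤ K * s1 := mul_nonneg hK hs1.1
      linarith
    have hW2 : -(W s) ≤ K / s := by
      rw [hW]
      have h3 := hmono s1 s hss1
      have e : -((C s - C s1 - K * s) / s ^ 2) = (K * s - (C s - C s1)) / s ^ 2 := by ring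
      rw [e, div_le_div_iff₀ (by positivity) hs0]
      nlinarith
    have h4 : K * (1 / s - 2) ≤ K / s := by
      have : K * (1 / s - 2) = K / s - 2 * K := by ring
      linarith
    have h5 : K / s ≤ K / M := div_le_div_of_nonneg_left hK hM hsM
    have h6 : 2 * K / M = K / M + K / M := by ring
    linarith

/-- the increments of `φ` are controlled by `Γ` on `[a,b]` -/
def Ctl (φ Γ : ℝ → ℝ) (a b : ℝ) : Prop :=
  ∀ x y, a ≤ x → x ≤ y → y ≤ b → |φ y - φ x| ≤ ∫ t in x..y, Γ t

lemma Ctl.glue {φ Γ : ℝ → ℝ} {a b c : ℝ} (hΓ : ∀ x y, IntervalIntegrable Γ volume x y)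
    (h1 : Ctl φ Γ a b) (h2 : Ctl φ Γ b c) : Ctl φ Γ a c := by
  intro x y hx hxy hy
  rcases le_total y b with hyb | hyb
  · exact h1 x y hx hxy hyb
  · rcases le_total b x with hxb | hxb
    · exact h2 x y hxb hxy hy
    · have e : (∫ t in x..y, Γ t) = (∫ t in x..b, Γ t) + ∫ t in b..y, Γ t :=
        (intervalIntegral.integral_add_adjacent_intervals (hΓ _ _) (hΓ _ _)).symm
      have k1 := h1 x b hx hxb le_rfl
      have k2 := h2 b y le_rfl hyb hy
      rw [e]
      calc |φ y - φ x| = |(φ y - φ b) + (φ b - φ x)| := by ring_nf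
        _ ≤ |φ y - φ b| + |φ b - φ x| := abs_add_le _ _
        _ ≤ _ := by linarith

/-- valley energy -/
lemma valley_energy {G E w : ℝ → ℝ} {a b P W : ℝ} (hab : a ≤ b) (hP : 0 < P) (hW : 0 < W)
    (hu : P ≤ ∫ t in a..b, G t) (hGi : IntervalIntegrable G volume a b)
    (hEi : IntervalIntegrable E volume a b) (hwi : IntervalIntegrable w volume a b)
    (hG : ∀ t ∈ Icc a b, G t = Real.sqrt (w t * E t)) (hw0 : ∀ t ∈ Icc a b, 0 ≤ w t)
    (hE0 : ∀ t ∈ Icc a b, 0 ≤ E t) (hw : ∫ t in a..b, w t ≤ W) :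
    P ^ 2 / W ≤ ∫ t in a..b, E t := by
  set θ := P / W with hθ
  have hθ0 : 0 < θ := by positivity
  have h1 : ∫ t in a..b, G t ≤ ∫ t in a..b, (θ / 2 * w t + 1 / (2 * θ) * E t) := by
    apply intervalIntegral.integral_mono_on hab hGi ((hwi.const_mul _).add (hEi.const_mul _))
    intro t ht
    rw [hG t ht]
    have hw' := hw0 t ht
    have hE' := hE0 t ht
    apply Real.sqrt_le_iff.mpr
    constructor
    · positivity
    · have e : (θ / 2 * w t + 1 / (2 * θ) * E t) ^ 2 =
          w t * E t + (θ / 2 * w t - 1 / (2 * θ) * E t) ^ 2 := by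
        field_simp
        ring
      rw [e]
      nlinarith [sq_nonneg (θ / 2 * w t - 1 / (2 * θ) * E t)]
  rw [intervalIntegral.integral_add (hwi.const_mul _) (hEi.const_mul _),
    intervalIntegral.integral_const_mul, intervalIntegral.integral_const_mul] at h1
  have h2 : P ≤ θ / 2 * W + 1 / (2 * θ) * ∫ t in a..b, E t := by
    have := mul_le_mul_of_nonneg_left hw (show 0 ≤ θ / 2 by positivity)
    linarith
  have h3 : θ / 2 * W = P / 2 := by rw [hθ]; field_simp
  rw [h3] at h2
  have h4 : 1 / (2 * θ) * ∫ t in a..b, E t = (W * ∫ t in a..b, E t) / (2 * P) := by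
    rw [hθ]; field_simp
  rw [h4] at h2
  have h5 : P / 2 ≤ (W * ∫ t in a..b, E t) / (2 * P) := by linarith
  rw [le_div_iff₀ (by positivity)] at h5
  rw [div_le_iff₀ hW]
  nlinarith

end Pool.Agent.Helper88.Gap
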