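import Mathlib
import Pool.Agent.Helper88.Gap.V1

open MeasureTheory Set Filter Topology

noncomputable section

namespace Pool.Agent.Helper88.Gap

lemma right_zone {E : ℝ → ℝ} (Ec : Continuous E) (E0 : ∀ x, 0 ≤ E x) {K M : ℝ} (hK : 0 ≤ K)
    (hM : 0 < M) (hM4 : M ≤ 1 / 4) :
    ∃ s : ℝ, M ≤ s ∧ s ≤ 1 / 2 ∧ K * s ≤ (∫ x in (1 - s)..1, E x) + K * M ∧
      ∫ x in (1 / 2)..(1 - s), E x / (1 - x) ^ 2 ≤ 2 * K / M := by
  obtain ⟨s, h1, h2, h3, h4⟩ := left_zone (E := fun x => E (1 - x)) (by fun_prop)
    (fun x => E0 _) hK hM hM4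
  refine ⟨s, h1, h2, ?_, ?_⟩
  · have : ∫ x in (0:ℝ)..s, E (1 - x) = ∫ x in (1 - s)..1, E x := by
      rw [intervalIntegral.integral_comp_sub_left (fun x => E x) 1]
      simp
    rw [← this]
    exact h3
  · have h5 : ∫ x in s..(1 / 2), E (1 - x) / x ^ 2
        = ∫ x in (1 / 2)..(1 - s), E x / (1 - x) ^ 2 := by
      have := intervalIntegral.integral_comp_sub_left (a := s) (b := 1 / 2)
        (fun x => E x / (1 - x) ^ 2) 1
      have e : (1:ℝ) - 1 / 2 = 1 / 2 := by norm_num
      rw [e] at this
      rw [← this]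
      congr 1
      funext x
      congr 1
      ring
    rw [← h5]
    exact h4

/-- slope bound -/
def TT (M t : ℝ) : ℝ := M ^ 2 / t ^ 2 + M ^ 2 / (1 - t) ^ 2

lemma TT_nonneg (M t : ℝ) : 0 ≤ TT M t := by unfold TT; positivity

lemma TT_cont {M : ℝ} : ContinuousOn (TT M) (Ioo 0 1) := by
  unfold TT
  apply ContinuousOn.add
  · apply ContinuousOn.div continuousOn_const (by fun_prop)
    intro x hx
    have := hx.1
    positivity
  · apply ContinuousOn.div continuousOn_const (by fun_prop)
    intro x hx
    have : 0 < 1 - x := by linarith [hx.2]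
    positivity

/-- integral of the weight over the valley -/
lemma weight_int {M a b : ℝ} (hM : 0 < M) (ha : M ^ 2 / 36 ≤ a) (hb : M ^ 2 / 36 ≤ 1 - b)
    (hab : a ≤ b) : ∫ t in a..b, (1 + 2 * TT M t) ≤ 145 := by
  have ha0 : 0 < a := lt_of_lt_of_le (by positivity) ha
  have hb1 : b < 1 := by
    have : 0 < 1 - b := lt_of_lt_of_le (by positivity) hb
    linarith
  have hd : ∀ x ∈ uIcc a b, HasDerivAt
      (fun x : ℝ => x + 2 * (M ^ 2 * (-(1 / x)) + M ^ 2 * (1 / (1 - x)))) (1 + 2 * TT M x) x := by
    intro x hx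
    rw [uIcc_of_le hab] at hx
    have hx0 : x ≠ 0 := (lt_of_lt_of_le ha0 hx.1).ne'
    have hx1 : (1 - x) ≠ 0 := by
      have : 0 < 1 - x := by linarith [hx.2]
      exact this.ne'
    have h1 : HasDerivAt (fun x : ℝ => -(1 / x)) (1 / x ^ 2) x := by
      have := (hasDerivAt_inv hx0).fun_neg
      simpa [one_div] using this
    have h2 : HasDerivAt (fun x : ℝ => 1 / (1 - x)) (1 / (1 - x) ^ 2) x := by
      have h3 : HasDerivAt (fun x : ℝ => 1 - x) (-1) x := by
        simpa using (hasDerivAt_id x).const_sub 1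
      have := h3.fun_inv hx1
      simpa [one_div] using this
    have h4 := (hasDerivAt_id x).add (((h1.const_mul (M ^ 2)).add (h2.const_mul (M ^ 2))).const_mul 2)
    convert! h4 using 1
    unfold TT
    ring
  have hcont : ContinuousOn (fun t => 1 + 2 * TT M t) (uIcc a b) := by
    rw [uIcc_of_le hab]
    have : ContinuousOn (TT M) (Icc a b) := TT_cont.mono (fun x hx =>
      ⟨lt_of_lt_of_le ha0 hx.1, lt_of_le_of_lt hx.2 hb1⟩)
    fun_prop
  rw [intervalIntegral.integral_eq_sub_of_hasDerivAt hd hcont.intervalIntegrable]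
  have k1 : M ^ 2 * (1 / a) ≤ 36 := by
    rw [mul_one_div, div_le_iff₀ ha0]
    linarith
  have k2 : M ^ 2 * (1 / (1 - b)) ≤ 36 := by
    rw [mul_one_div, div_le_iff₀ (by linarith)]
    linarith
  have k3 : 0 ≤ M ^ 2 * (1 / b) := by
    have : 0 < b := lt_of_lt_of_le ha0 hab
    positivity
  have k4 : 0 ≤ M ^ 2 * (1 / (1 - a)) := by
    have : 0 < 1 - a := by linarith
    positivity
  linarith

/-- the one-dimensional valley-filling theorem -/
theorem valley {α M μ lam P : ℝ} {h E u : ℝ → ℝ}
    (hα : 0 < α) (hM : 0 < M) (hM4 : M ≤ 1 / 4)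
    (hc : Continuous h) (hpos : ∀ x ∈ Ioo (0:ℝ) 1, 0 < h x) (hle : ∀ x, h x ≤ M)
    (hnn : ∀ x, 0 ≤ h x)
    (Ec : Continuous E) (E0 : ∀ x, 0 ≤ E x) (uc : Continuous u)
    (hG : ∀ x y, 0 < x → x ≤ y → y < 1 →
      |u y - u x| ≤ ∫ t in x..y, Real.sqrt ((1 + 2 * TT M t) / h t * E t))
    (he : (∫ x in Ioo (0:ℝ) 1, E x) + ∫ x in Ioo (0:ℝ) 1, (2 * α - μ * h x) * u x ^ 2 ≤ 0)
    (hμ : μ * M ≤ 21 / 5 * α) (hlam : lam ≤ μ) (hμ0 : 0 < μ)
    (hconv : ∀ x y z, 0 < x → x ≤ y → y ≤ z → z < 1 → 2 * α ≤ μ * h x → 2 * α ≤ μ * h z →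
      2 * α ≤ μ * h y)
    (hend : ∀ x ∈ Ioo (0:ℝ) 1, 2 * α ≤ μ * h x → M ^ 2 / 36 ≤ x ∧ M ^ 2 / 36 ≤ 1 - x)
    {xL m xR : ℝ} (hxL : 0 < xL) (hLm : xL ≤ m) (hmR : m ≤ xR) (hxR : xR < 1)
    (hqL : 2 * α ≤ μ * h xL) (hqR : 2 * α ≤ μ * h xR) (um : u m = 0) (huL : |u xL| = P)
    (huR : |u xR| = P) (hP : 0 < P)
    (hPle : ∀ x ∈ Ioo (0:ℝ) 1, 2 * α ≤ μ * h x → |u x| ≤ P)
    (htest : ∀ (φ Γ : ℝ → ℝ) (s t : ℝ), 0 < s → s ≤ t → t < 1 → (∀ x, 0 ≤ Γ x) →
      (∀ x, x ∉ Icc s t → Γ x = 0) → (∃ B, ∀ x, Γ x ≤ B) → Measurable Γ →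
      (∀ x y, x ≤ y → |φ y - φ x| ≤ ∫ r in x..y, Γ r) → (∀ x, |φ x| ≤ P) →
      lam * (∫ x in Ioo (0:ℝ) 1, h x * φ x ^ 2) ≤
        (∫ x in Ioo (0:ℝ) 1, h x * Γ x ^ 2) + 2 * α * (∫ x in Ioo (0:ℝ) 1, φ x ^ 2)
          + 4 * α * M * P ^ 2) :
    1 / 678 ≤ (μ - lam) + 73 * α := by
  set K := 4 * α * P ^ 2 with hK
  have hK0 : 0 ≤ K := by positivity
  obtain ⟨sL, hsLM, hsL2, hsLK, hsLm⟩ := left_zone Ec E0 hK0 hM hM4
  obtain ⟨sR, hsRM, hsR2, hsRK, hsRm⟩ := right_zone Ec E0 hK0 hM hM4
  set tR := 1 - sR with htR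
  have hsL0 : 0 < sL := by linarith
  have htR1 : tR < 1 := by linarith
  have hst : sL ≤ tR := by linarith
  -- the gradient bound function
  set G : ℝ → ℝ := fun t => Real.sqrt ((1 + 2 * TT M t) / h t * E t) with hGdef
  have hG0 : ∀ t, 0 ≤ G t := fun t => Real.sqrt_nonneg _
  have hwc : ContinuousOn (fun t => (1 + 2 * TT M t) / h t) (Ioo 0 1) := by
    apply ContinuousOn.div
    · have := TT_cont (M := M)
      fun_prop
    · exact hc.continuousOn
    · intro x hx
      exact (hpos x hx).ne'
  have hGc : ContinuousOn G (Ioo 0 1) := by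
    have := Ec.continuousOn (s := Ioo (0:ℝ) 1)
    exact (hwc.mul this).sqrt
  have hGsq : ∀ x ∈ Ioo (0:ℝ) 1, h x * G x ^ 2 = (1 + 2 * TT M x) * E x := by
    intro x hx
    have h1 := hpos x hx
    have h2 := TT_nonneg M x
    have h3 := E0 x
    rw [hGdef]
    simp only
    rw [Real.sq_sqrt (by positivity)]
    field_simp
  set V : Set ℝ := Icc xL xR with hV
  set J : Set ℝ := Icc sL tR with hJ
  have hVm : MeasurableSet V := measurableSet_Icc
  have hJm : MeasurableSet J := measurableSet_Icc
  have hJsub : J ⊆ Ioo 0 1 := fun x hx => ⟨lt_of_lt_of_le hsL0 hx.1, lt_of_le_of_lt hx.2 htR1⟩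
  have hVsub : V ⊆ Ioo 0 1 := fun x hx => ⟨lt_of_lt_of_le hxL hx.1, lt_of_le_of_lt hx.2 hxR⟩
  have hVq : ∀ x ∈ V, 2 * α ≤ μ * h x := fun x hx => hconv xL x xR hxL hx.1 hx.2 hxR hqL hqR
  set Γ : ℝ → ℝ := (J \ V).indicator G with hΓ
  have hΓ0 : ∀ x, 0 ≤ Γ x := fun x => indicator_nonneg (fun _ _ => hG0 _) _
  have hΓout : ∀ x, x ∉ Icc sL tR → Γ x = 0 := by
    intro x hx
    rw [hΓ, indicator_of_notMem]
    exact fun h => hx h.1
  obtain ⟨B, hB⟩ := isCompact_Icc.exists_bound_of_continuousOn (s := J) (hGc.mono hJsub)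
  have hB0 : 0 ≤ B := (norm_nonneg _).trans (hB sL ⟨le_rfl, hst⟩)
  have hΓB : ∀ x, Γ x ≤ B := by
    intro x
    by_cases hx : x ∈ J \ V
    · rw [hΓ, indicator_of_mem hx]
      exact (le_abs_self _).trans (hB x hx.1)
    · rw [hΓ, indicator_of_notMem hx]
      exact hB0
  have hΓm : Measurable Γ := by
    have h1 : Measurable ((Ioo (0:ℝ) 1).indicator G) := by
      classical
      have := hGc.measurable_piecewise (g := fun _ => (0:ℝ)) continuousOn_const measurableSet_Ioo
      convert! this using 1
      funext x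
      by_cases hx : x ∈ Ioo (0:ℝ) 1
      · rw [indicator_of_mem hx, piecewise_eq_of_mem _ _ _ hx]
      · rw [indicator_of_notMem hx, piecewise_eq_of_notMem _ _ _ hx]
    have h2 : Γ = (J \ V).indicator ((Ioo (0:ℝ) 1).indicator G) := by
      rw [hΓ, indicator_indicator]
      congr 1
      rw [left_eq_inter]
      exact fun x hx => hJsub hx.1
    rw [h2]
    exact h1.indicator (hJm.diff hVm)
  have hΓi : ∀ x y, IntervalIntegrable Γ volume x y := by
    intro x y
    rw [intervalIntegrable_iff]
    apply Measure.integrableOn_of_bounded (M := B)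
    · exact (measure_Ioc_lt_top).ne
    · exact hΓm.aestronglyMeasurable
    · filter_upwards with z
      rw [Real.norm_eq_abs, abs_of_nonneg (hΓ0 z)]
      exact hΓB z
  -- truncation
  set w : ℝ → ℝ := fun x => min |u x| P with hw
  have hw0 : ∀ x, 0 ≤ w x := fun x => le_min (abs_nonneg _) hP.le
  have hwP : ∀ x, w x ≤ P := fun x => min_le_right _ _
  have hwl : ∀ x y, |w y - w x| ≤ |u y - u x| := by
    intro x y
    calc |w y - w x| = |min |u y| P - min |u x| P| := rfl
      _ ≤ |(|u y| - |u x|)| := by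
          have := abs_min_sub_min_le_max |u y| P |u x| P
          simpa using this
      _ ≤ |u y - u x| := abs_abs_sub_abs_le_abs_sub _ _
  have hwL : w xL = P := by simp only [hw, huL, min_self]
  have hwR : w xR = P := by simp only [hw, huR, min_self]
  classical
  -- filled function on (0,1)
  set F : ℝ → ℝ := fun x => if x ∈ V then P else w x with hF
  have hF0 : ∀ x, 0 ≤ F x := by
    intro x
    rw [hF]
    simp only
    split_ifs
    · exact hP.le
    · exact hw0 x
  have hFP : ∀ x, F x ≤ P := by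
    intro x
    rw [hF]
    simp only
    split_ifs
    · exact le_rfl
    · exact hwP x
  set φ : ℝ → ℝ := fun x => F (max sL (min x tR)) with hφ
  have hφP : ∀ x, |φ x| ≤ P := by
    intro x
    rw [abs_of_nonneg (hF0 _)]
    exact hFP _
  -- control of F on J
  have hLR : xL ≤ xR := hLm.trans hmR
  have hseg : ∀ x y, sL ≤ x → x ≤ y → y ≤ tR → (∀ z ∈ Ioo x y, z ∉ V) →
      ∫ t in x..y, G t = ∫ t in x..y, Γ t := by
    intro x y hx hxy hy hz
    rw [intervalIntegral.integral_of_le hxy, intervalIntegral.integral_of_le hxy,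
      integral_Ioc_eq_integral_Ioo, integral_Ioc_eq_integral_Ioo]
    apply setIntegral_congr_fun measurableSet_Ioo
    intro z hz'
    rw [hΓ, indicator_of_mem]
    exact ⟨⟨hx.trans hz'.1.le, hz'.2.le.trans hy⟩, hz z hz'⟩
  have hFw : ∀ x, x ≤ xL → F x = w x := by
    intro x hx
    rw [hF]
    simp only
    split_ifs with hxV
    · have : x = xL := le_antisymm hx hxV.1
      rw [this, hwL]
    · rfl
  have hFw' : ∀ x, xR ≤ x → F x = w x := by
    intro x hx
    rw [hF]
    simp only
    split_ifs with hxV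
    · have : x = xR := le_antisymm hxV.2 hx
      rw [this, hwR]
    · rfl
  have hctlJ : Ctl F Γ sL tR := by
    -- pieces relative to xL and xR
    have p1 : ∀ x y, sL ≤ x → x ≤ y → y ≤ tR → y ≤ xL → |F y - F x| ≤ ∫ t in x..y, Γ t := by
      intro x y hx hxy hy hyL
      rw [hFw y hyL, hFw x (hxy.trans hyL), ← hseg x y hx hxy hy (by
        intro z hz hzV
        exact absurd hzV.1 (not_le.mpr (lt_of_lt_of_le hz.2 hyL)))]
      exact (hwl x y).trans (hG x y (lt_of_lt_of_le hsL0 hx) hxy (lt_of_le_of_lt hy htR1))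
    have p2 : ∀ x y, sL ≤ x → x ≤ y → y ≤ tR → xL ≤ x → y ≤ xR →
        |F y - F x| ≤ ∫ t in x..y, Γ t := by
      intro x y hx hxy hy hxL' hyR
      have e1 : F y = P := by
        rw [hF]; simp only
        rw [if_pos ⟨hxL'.trans hxy, hyR⟩]
      have e2 : F x = P := by
        rw [hF]; simp only
        rw [if_pos ⟨hxL', hxy.trans hyR⟩]
      rw [e1, e2, sub_self, abs_zero]
      exact intervalIntegral.integral_nonneg hxy (fun _ _ => hΓ0 _)
    have p3 : ∀ x y, sL ≤ x → x ≤ y → y ≤ tR → xR ≤ x → |F y - F x| ≤ ∫ t in x..y, Γ t := by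
      intro x y hx hxy hy hxR'
      rw [hFw' y (hxR'.trans hxy), hFw' x hxR', ← hseg x y hx hxy hy (by
        intro z hz hzV
        exact absurd hzV.2 (not_le.mpr (lt_of_le_of_lt hxR' hz.1)))]
      exact (hwl x y).trans (hG x y (lt_of_lt_of_le hsL0 hx) hxy (lt_of_le_of_lt hy htR1))
    set b1 := max sL (min xL tR) with hb1
    set b2 := max sL (min xR tR) with hb2
    have c1 : Ctl F Γ sL b1 := by
      intro x y hx hxy hy
      rcases le_total sL xL with hc | hc
      · have : b1 ≤ xL ∧ b1 ≤ tR := ⟨max_le hc (min_le_left _ _), max_le hst (min_le_right _ _)⟩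
        exact p1 x y hx hxy (hy.trans this.2) (hy.trans this.1)
      · have : b1 = sL := max_eq_left ((min_le_left _ _).trans hc)
        have hyx : y = x := le_antisymm (by rw [this] at hy; linarith) hxy
        rw [hyx, sub_self, abs_zero, intervalIntegral.integral_same]
    have c2 : Ctl F Γ b1 b2 := by
      intro x y hx hxy hy
      have hx' : sL ≤ x := (le_max_left _ _).trans hx
      have hy' : y ≤ tR := hy.trans (max_le hst (min_le_right _ _))
      rcases le_total xL tR with hc | hc
      · have hxx : xL ≤ x := by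
          have : min xL tR = xL := min_eq_left hc
          rw [hb1, this] at hx
          exact (le_max_right _ _).trans hx
        rcases le_total sL xR with hd | hd
        · have hyy : y ≤ xR := hy.trans (max_le hd (min_le_left _ _))
          exact p2 x y hx' hxy hy' hxx hyy
        · have : b2 = sL := max_eq_left ((min_le_left _ _).trans hd)
          have hyx : y = x := le_antisymm (by rw [this] at hy; linarith) hxy
          rw [hyx, sub_self, abs_zero, intervalIntegral.integral_same]
      · have h1 : b1 = tR := by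
          rw [hb1, min_eq_right hc, max_eq_right hst]
        have hyx : y = x := le_antisymm (by rw [h1] at hx; linarith) hxy
        rw [hyx, sub_self, abs_zero, intervalIntegral.integral_same]
    have c3 : Ctl F Γ b2 tR := by
      intro x y hx hxy hy
      have hx' : sL ≤ x := (le_max_left _ _).trans hx
      rcases le_total xR tR with hc | hc
      · have hxx : xR ≤ x := by
          have : min xR tR = xR := min_eq_left hc
          rw [hb2, this] at hx
          exact (le_max_right _ _).trans hx
        exact p3 x y hx' hxy hy hxx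
      · have h1 : b2 = tR := by
          rw [hb2, min_eq_right hc, max_eq_right hst]
        have hyx : y = x := le_antisymm (by rw [h1] at hx; linarith) hxy
        rw [hyx, sub_self, abs_zero, intervalIntegral.integral_same]
    exact (c1.glue hΓi c2).glue hΓi c3
  have hctl : ∀ x y, x ≤ y → |φ y - φ x| ≤ ∫ r in x..y, Γ r := by
    intro x y hxy
    set x' := max sL (min x tR) with hx'
    set y' := max sL (min y tR) with hy'
    have hxy' : x' ≤ y' := max_le_max le_rfl (min_le_min hxy le_rfl)
    have h1 : |φ y - φ x| ≤ ∫ r in x'..y', Γ r :=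
      hctlJ x' y' (le_max_left _ _) hxy' (max_le hst (min_le_right _ _))
    refine h1.trans ?_
    -- compare the integrals
    have hsub : ∀ z ∈ Ioc x' y', Γ z ≠ 0 → z ∈ Ioc x y := by
      intro z hz _
      refine ⟨?_, ?_⟩
      · rcases le_total x tR with hc | hc
        · have : x ≤ x' := by
            rw [hx', min_eq_left hc]
            exact le_max_right _ _
          exact lt_of_le_of_lt this hz.1
        · exfalso
          have h2 : x' = tR := by rw [hx', min_eq_right hc, max_eq_right hst]
          have h3 : y' ≤ tR := max_le hst (min_le_right _ _)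
          rw [h2] at hz
          linarith [hz.1, hz.2]
      · rcases le_total sL y with hc | hc
        · have : y' ≤ y := max_le hc (min_le_left _ _)
          exact hz.2.trans this
        · exfalso
          have h2 : y' = sL := max_eq_left ((min_le_left _ _).trans hc)
          have h3 : sL ≤ x' := le_max_left _ _
          rw [h2] at hz
          linarith [hz.1, hz.2]
    rw [intervalIntegral.integral_of_le hxy', intervalIntegral.integral_of_le hxy,
      ← integral_indicator measurableSet_Ioc, ← integral_indicator measurableSet_Ioc]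
    apply integral_mono
    · have := (hΓi x' y')
      rw [intervalIntegrable_iff_integrableOn_Ioc_of_le hxy'] at this
      exact this.integrable_indicator measurableSet_Ioc
    · have := (hΓi x y)
      rw [intervalIntegrable_iff_integrableOn_Ioc_of_le hxy] at this
      exact this.integrable_indicator measurableSet_Ioc
    · intro z
      by_cases hz : z ∈ Ioc x' y'
      · simp only [indicator_of_mem hz]
        by_cases hz0 : Γ z = 0
        · rw [hz0]
          exact indicator_nonneg (fun _ _ => hΓ0 _) _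
        · rw [indicator_of_mem (hsub z hz hz0)]
      · simp only [indicator_of_notMem hz]
        exact indicator_nonneg (fun _ _ => hΓ0 _) _
  have hφc : Continuous φ := by
    have : LipschitzWith (Real.toNNReal B) φ := by
      apply LipschitzWith.of_dist_le_mul
      intro x y
      have key : ∀ x y, x ≤ y → |φ y - φ x| ≤ B * (y - x) := by
        intro x y hxy
        refine (hctl x y hxy).trans ?_
        have : ∫ r in x..y, Γ r ≤ ∫ _r in x..y, B :=
          intervalIntegral.integral_mono_on hxy (hΓi x y) (by simp) (fun z _ => hΓB z)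
        refine this.trans (le_of_eq ?_)
        simp
        ring
      rw [Real.dist_eq, Real.dist_eq, Real.coe_toNNReal _ hB0]
      rcases le_total x y with h1 | h1
      · rw [abs_sub_comm, abs_sub_comm x y, abs_of_nonneg (sub_nonneg.mpr h1)]
        exact key x y h1
      · rw [abs_of_nonneg (sub_nonneg.mpr h1)]
        exact key y x h1
    exact this.continuous
  have hT := htest φ Γ sL tR hsL0 hst htR1 hΓ0 hΓout ⟨B, hΓB⟩ hΓm hctl hφP
  -- zones
  set ZL : Set ℝ := Ioo 0 sL with hZL
  set ZR : Set ℝ := Ioo tR 1 with hZR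
  set q : ℝ → ℝ := fun x => 2 * α - μ * h x with hq
  have hqc : Continuous q := by fun_prop
  have hq1 : ∀ x, q x ≤ 2 * α := by
    intro x
    have : 0 ≤ μ * h x := mul_nonneg hμ0.le (hnn x)
    rw [hq]; simp only; linarith
  have hq2 : ∀ x, -(11 / 5 * α) ≤ q x := by
    intro x
    have : μ * h x ≤ μ * M := mul_le_mul_of_nonneg_left (hle x) hμ0.le
    rw [hq]; simp only; linarith
  have hPP : ∀ x, φ x ^ 2 ≤ P ^ 2 := by
    intro x
    rw [← sq_abs (φ x)]
    exact pow_le_pow_left₀ (abs_nonneg _) (hφP x) 2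
  -- pointwise inequality
  have hpt : ∀ x ∈ Ioo (0:ℝ) 1, h x * Γ x ^ 2 + q x * φ x ^ 2 ≤
      E x + q x * u x ^ 2 - 11 / 20 * (ZL.indicator E x + ZR.indicator E x)
        - 9 / 20 * V.indicator E x + J.indicator (fun x => 2 * TT M x * E x) x
        + 11 / 5 * α * P ^ 2 * (ZL.indicator (fun _ => (1:ℝ)) x
          + ZR.indicator (fun _ => (1:ℝ)) x) := by
    intro x hx
    have hEx := E0 x
    have hVle : V.indicator E x ≤ E x := indicator_le_self' (fun _ _ => hEx) x
    -- zone estimate of the potential part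
    have hzone : q x * (φ x ^ 2 - u x ^ 2) ≤ 11 / 5 * α * P ^ 2 := by
      rcases le_total (q x) 0 with hqx | hqx
      · have h1 : |u x| ≤ P := hPle x hx (by rw [hq] at hqx; simp only at hqx; linarith)
        have h2 : u x ^ 2 ≤ P ^ 2 := by
          rw [← sq_abs (u x)]
          exact pow_le_pow_left₀ (abs_nonneg _) h1 2
        have h3 := hq2 x
        nlinarith [sq_nonneg (φ x), sq_nonneg (u x), mul_nonneg (neg_nonneg.mpr hqx) (sq_nonneg (φ x)),
          mul_nonneg (neg_nonneg.mpr hqx) (sub_nonneg.mpr h2),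
          mul_nonneg (sub_nonneg.mpr h3) (sq_nonneg P)]
      · have h1 := hq1 x
        have h2 := hPP x
        nlinarith [mul_nonneg hqx (sq_nonneg (u x)), mul_nonneg hqx (sub_nonneg.mpr h2),
          mul_nonneg (sub_nonneg.mpr h1) (sq_nonneg P), mul_pos hα (pow_pos hP 2)]
    rcases lt_or_ge x sL with hxs | hxs
    · -- left zone
      have m1 : x ∈ ZL := ⟨hx.1, hxs⟩
      have m2 : x ∉ ZR := fun hm => by linarith [hm.1]
      have m3 : x ∉ J := fun hm => by linarith [hm.1]
      have m4 : Γ x = 0 := hΓout x m3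
      rw [indicator_of_mem m1, indicator_of_notMem m2, indicator_of_notMem m3,
        indicator_of_mem m1, indicator_of_notMem m2, m4]
      nlinarith
    · rcases lt_or_ge tR x with hxt | hxt
      · have m1 : x ∉ ZL := fun hm => by linarith [hm.2]
        have m2 : x ∈ ZR := ⟨hxt, hx.2⟩
        have m3 : x ∉ J := fun hm => by linarith [hm.2]
        have m4 : Γ x = 0 := hΓout x m3
        rw [indicator_of_mem m2, indicator_of_notMem m1, indicator_of_notMem m3,
          indicator_of_mem m2, indicator_of_notMem m1, m4]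
        nlinarith
      · have m1 : x ∉ ZL := fun hm => by linarith [hm.2]
        have m2 : x ∉ ZR := fun hm => by linarith [hm.1]
        have m3 : x ∈ J := ⟨hxs, hxt⟩
        have hφx : φ x = F x := by
          rw [hφ]; simp only
          rw [min_eq_left hxt, max_eq_right hxs]
        rw [indicator_of_notMem m1, indicator_of_notMem m2, indicator_of_mem m3,
          indicator_of_notMem m1, indicator_of_notMem m2, hφx]
        have hTE : 0 ≤ 2 * TT M x * E x := by
          have := TT_nonneg M x
          positivity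
        by_cases hxV : x ∈ V
        · have m4 : Γ x = 0 := by
            rw [hΓ, indicator_of_notMem]
            exact fun hm => hm.2 hxV
          have m5 : F x = P := by rw [hF]; simp only; rw [if_pos hxV]
          have m6 := hVq x hxV
          have m7 : |u x| ≤ P := hPle x hx m6
          have m8 : u x ^ 2 ≤ P ^ 2 := by
            rw [← sq_abs (u x)]
            exact pow_le_pow_left₀ (abs_nonneg _) m7 2
          have m9 : q x ≤ 0 := by rw [hq]; simp only; linarith
          rw [m4, m5, indicator_of_mem hxV]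
          nlinarith [mul_nonneg (neg_nonneg.mpr m9) (sub_nonneg.mpr m8)]
        · have m4 : Γ x = G x := by
            rw [hΓ, indicator_of_mem]
            exact ⟨m3, hxV⟩
          have m5 : F x = w x := by rw [hF]; simp only; rw [if_neg hxV]
          rw [m4, m5, indicator_of_notMem hxV, hGsq x hx]
          have m6 : q x * w x ^ 2 ≤ q x * u x ^ 2 := by
            rcases le_total |u x| P with hc | hc
            · have : w x = |u x| := by rw [hw]; exact min_eq_left hc
              rw [this, sq_abs]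
            · rcases hc.eq_or_lt with hc' | hc'
              · have : w x = |u x| := by rw [hw]; simp only; rw [hc', min_self]
                rw [this, sq_abs]
              · have : w x = P := by rw [hw]; exact min_eq_right hc
                have hq0 : 0 ≤ q x := by
                  by_contra hneg
                  have : |u x| ≤ P := hPle x hx (by
                    rw [hq] at hneg; simp only at hneg; linarith)
                  linarith
                rw [this]
                apply mul_le_mul_of_nonneg_left _ hq0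
                rw [← sq_abs (u x)]
                exact pow_le_pow_left₀ hP.le hc 2
          linarith
  -- integrability helper
  have hic : ∀ f : ℝ → ℝ, Continuous f → IntegrableOn f (Ioo (0:ℝ) 1) := fun f hf =>
    (hf.continuousOn.integrableOn_compact isCompact_Icc).mono_set Ioo_subset_Icc_self
  have i1 : IntegrableOn (fun x => h x * Γ x ^ 2) (Ioo (0:ℝ) 1) := by
    refine Measure.integrableOn_of_bounded (M := M * B ^ 2) measure_Ioo_lt_top.ne
      (hc.measurable.mul (hΓm.pow_const 2)).aestronglyMeasurable ?_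
    · filter_upwards with z
      rw [Real.norm_eq_abs, abs_of_nonneg (mul_nonneg (hnn z) (sq_nonneg _))]
      exact mul_le_mul (hle z) (pow_le_pow_left₀ (hΓ0 z) (hΓB z) 2) (sq_nonneg _) hM.le
  have i2 : IntegrableOn (fun x => q x * φ x ^ 2) (Ioo (0:ℝ) 1) := hic _ (by fun_prop)
  have i3 : IntegrableOn E (Ioo (0:ℝ) 1) := hic _ Ec
  have i4 : IntegrableOn (fun x => q x * u x ^ 2) (Ioo (0:ℝ) 1) := hic _ (by fun_prop)
  have i5 : IntegrableOn (ZL.indicator E) (Ioo (0:ℝ) 1) := i3.indicator measurableSet_Ioo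
  have i6 : IntegrableOn (ZR.indicator E) (Ioo (0:ℝ) 1) := i3.indicator measurableSet_Ioo
  have i7 : IntegrableOn (V.indicator E) (Ioo (0:ℝ) 1) := i3.indicator hVm
  have hTEc : ContinuousOn (fun x => 2 * TT M x * E x) J := by
    have := (TT_cont (M := M)).mono hJsub
    have := Ec.continuousOn (s := J)
    fun_prop
  have i8 : IntegrableOn (J.indicator (fun x => 2 * TT M x * E x)) (Ioo (0:ℝ) 1) :=
    ((hTEc.integrableOn_compact isCompact_Icc).integrable_indicator hJm).integrableOn
  have i9 : IntegrableOn (ZL.indicator (fun _ => (1:ℝ))) (Ioo (0:ℝ) 1) :=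
    (hic _ continuous_const).indicator measurableSet_Ioo
  have i10 : IntegrableOn (ZR.indicator (fun _ => (1:ℝ))) (Ioo (0:ℝ) 1) :=
    (hic _ continuous_const).indicator measurableSet_Ioo
  have j1 : IntegrableOn (fun x => E x + q x * u x ^ 2
        - 11 / 20 * (ZL.indicator E x + ZR.indicator E x)
        - 9 / 20 * V.indicator E x + J.indicator (fun x => 2 * TT M x * E x) x
        + 11 / 5 * α * P ^ 2 * (ZL.indicator (fun _ => (1:ℝ)) x
          + ZR.indicator (fun _ => (1:ℝ)) x)) (Ioo (0:ℝ) 1) :=
    ((((i3.add i4).sub ((i5.add i6).const_mul _)).sub (i7.const_mul _)).add i8).add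
      ((i9.add i10).const_mul _)
  have hint := setIntegral_mono_on (i1.add i2) j1 measurableSet_Ioo hpt
  -- evaluate both sides
  have e1 : ∫ x in Ioo (0:ℝ) 1, (h x * Γ x ^ 2 + q x * φ x ^ 2) =
      (∫ x in Ioo (0:ℝ) 1, h x * Γ x ^ 2) + ∫ x in Ioo (0:ℝ) 1, q x * φ x ^ 2 :=
    integral_add i1 i2
  have e2 : ∫ x in Ioo (0:ℝ) 1, (E x + q x * u x ^ 2
        - 11 / 20 * (ZL.indicator E x + ZR.indicator E x)
        - 9 / 20 * V.indicator E x + J.indicator (fun x => 2 * TT M x * E x) x
        + 11 / 5 * α * P ^ 2 * (ZL.indicator (fun _ => (1:ℝ)) x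
          + ZR.indicator (fun _ => (1:ℝ)) x)) =
      (∫ x in Ioo (0:ℝ) 1, E x) + (∫ x in Ioo (0:ℝ) 1, q x * u x ^ 2)
        - 11 / 20 * ((∫ x in Ioo (0:ℝ) 1, ZL.indicator E x) + ∫ x in Ioo (0:ℝ) 1, ZR.indicator E x)
        - 9 / 20 * (∫ x in Ioo (0:ℝ) 1, V.indicator E x)
        + (∫ x in Ioo (0:ℝ) 1, J.indicator (fun x => 2 * TT M x * E x) x)
        + 11 / 5 * α * P ^ 2 * ((∫ x in Ioo (0:ℝ) 1, ZL.indicator (fun _ => (1:ℝ)) x)
          + ∫ x in Ioo (0:ℝ) 1, ZR.indicator (fun _ => (1:ℝ)) x) := by
    have k1 := integral_add ((((i3.add i4).sub ((i5.add i6).const_mul (11/20))).sub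
      (i7.const_mul (9/20))).add i8) ((i9.add i10).const_mul (11 / 5 * α * P ^ 2))
    have k2 := integral_add (((i3.add i4).sub ((i5.add i6).const_mul (11/20))).sub
      (i7.const_mul (9/20))) i8
    have k3 := integral_sub ((i3.add i4).sub ((i5.add i6).const_mul (11/20))) (i7.const_mul (9/20))
    have k4 := integral_sub (i3.add i4) ((i5.add i6).const_mul (11/20))
    have k5 := integral_add i3 i4
    have k6 := integral_add i5 i6
    have k7 := integral_add i9 i10
    simp only [Pi.add_apply, Pi.sub_apply, integral_const_mul] at k1 k2 k3 k4 k5 k6 k7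
    rw [k1, k2, k3, k4, k5, k6, k7]
  rw [show (∫ x in Ioo (0:ℝ) 1, ((fun x => h x * Γ x ^ 2) + fun x => q x * φ x ^ 2) x) =
    ∫ x in Ioo (0:ℝ) 1, (h x * Γ x ^ 2 + q x * φ x ^ 2) from rfl, e1, e2] at hint
  have f1 : ∫ x in Ioo (0:ℝ) 1, ZL.indicator E x = ∫ x in (0:ℝ)..sL, E x := by
    rw [setIntegral_indicator measurableSet_Ioo, intervalIntegral.integral_of_le hsL0.le,
      integral_Ioc_eq_integral_Ioo]
    congr 2
    rw [inter_eq_right]
    exact Ioo_subset_Ioo le_rfl (by linarith)
  have f2 : ∫ x in Ioo (0:ℝ) 1, ZR.indicator E x = ∫ x in tR..1, E x := by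
    rw [setIntegral_indicator measurableSet_Ioo, intervalIntegral.integral_of_le htR1.le,
      integral_Ioc_eq_integral_Ioo]
    congr 2
    rw [inter_eq_right]
    exact Ioo_subset_Ioo (by linarith) le_rfl
  have f3 : ∫ x in Ioo (0:ℝ) 1, V.indicator E x = ∫ x in xL..xR, E x := by
    rw [setIntegral_indicator hVm, intervalIntegral.integral_of_le hLR,
      ← integral_Icc_eq_integral_Ioc]
    congr 2
    rw [inter_eq_right]
    exact hVsub
  have f4 : ∫ x in Ioo (0:ℝ) 1, ZL.indicator (fun _ => (1:ℝ)) x = sL := by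
    rw [setIntegral_indicator measurableSet_Ioo, inter_eq_right.mpr
      (Ioo_subset_Ioo le_rfl (by linarith)), setIntegral_const]
    simp [hsL0.le]
  have f5 : ∫ x in Ioo (0:ℝ) 1, ZR.indicator (fun _ => (1:ℝ)) x = sR := by
    rw [setIntegral_indicator measurableSet_Ioo, inter_eq_right.mpr
      (Ioo_subset_Ioo (by linarith) le_rfl), setIntegral_const]
    have : 0 ≤ 1 - tR := by linarith
    simp [this, htR]
    linarith
  have f6 : ∫ x in Ioo (0:ℝ) 1, J.indicator (fun x => 2 * TT M x * E x) x ≤ 64 * α * M * P ^ 2 := by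
    rw [setIntegral_indicator hJm, inter_eq_right.mpr hJsub, integral_Icc_eq_integral_Ioc,
      ← intervalIntegral.integral_of_le hst]
    have hsplit : (∫ x in sL..tR, 2 * TT M x * E x) =
        (∫ x in sL..(1/2), 2 * TT M x * E x) + ∫ x in (1/2)..tR, 2 * TT M x * E x := by
      refine (intervalIntegral.integral_add_adjacent_intervals ?_ ?_).symm
      · apply ContinuousOn.intervalIntegrable
        rw [uIcc_of_le hsL2]
        exact hTEc.mono (Icc_subset_Icc le_rfl (by linarith))
      · apply ContinuousOn.intervalIntegrable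
        rw [uIcc_of_le (by linarith)]
        exact hTEc.mono (Icc_subset_Icc (by linarith) le_rfl)
    rw [hsplit]
    have g1 : ∫ x in sL..(1/2), 2 * TT M x * E x ≤ 32 * α * M * P ^ 2 := by
      have : ∫ x in sL..(1/2), 2 * TT M x * E x ≤ ∫ x in sL..(1/2), 4 * M ^ 2 * (E x / x ^ 2) := by
        apply intervalIntegral.integral_mono_on hsL2
        · apply ContinuousOn.intervalIntegrable
          rw [uIcc_of_le hsL2]
          exact hTEc.mono (Icc_subset_Icc le_rfl (by linarith))
        · apply ContinuousOn.intervalIntegrable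
          rw [uIcc_of_le hsL2]
          apply ContinuousOn.mul continuousOn_const
          apply ContinuousOn.div Ec.continuousOn (by fun_prop)
          intro x hx
          have : 0 < x := lt_of_lt_of_le hsL0 hx.1
          positivity
        · intro x hx
          have hx0 : 0 < x := lt_of_lt_of_le hsL0 hx.1
          have h1 : M ^ 2 / (1 - x) ^ 2 ≤ M ^ 2 / x ^ 2 := by
            apply div_le_div_of_nonneg_left (by positivity) (by positivity)
            apply pow_le_pow_left₀ hx0.le
            linarith [hx.2]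
          have h2 : 2 * TT M x ≤ 4 * M ^ 2 / x ^ 2 := by
            unfold TT
            have : 4 * M ^ 2 / x ^ 2 = 4 * (M ^ 2 / x ^ 2) := by ring
            rw [this]
            linarith
          calc 2 * TT M x * E x ≤ 4 * M ^ 2 / x ^ 2 * E x := mul_le_mul_of_nonneg_right h2 (E0 x)
            _ = _ := by ring
      refine this.trans ?_
      rw [intervalIntegral.integral_const_mul]
      have h3 := mul_le_mul_of_nonneg_left hsLm (show 0 ≤ 4 * M ^ 2 by positivity)
      refine h3.trans (le_of_eq ?_)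
      rw [hK]
      field_simp
      ring
    have g2 : ∫ x in (1/2)..tR, 2 * TT M x * E x ≤ 32 * α * M * P ^ 2 := by
      have hle' : (1:ℝ)/2 ≤ tR := by linarith
      have : ∫ x in (1/2)..tR, 2 * TT M x * E x ≤
          ∫ x in (1/2)..tR, 4 * M ^ 2 * (E x / (1 - x) ^ 2) := by
        apply intervalIntegral.integral_mono_on hle'
        · apply ContinuousOn.intervalIntegrable
          rw [uIcc_of_le hle']
          exact hTEc.mono (Icc_subset_Icc (by linarith) le_rfl)
        · apply ContinuousOn.intervalIntegrable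
          rw [uIcc_of_le hle']
          apply ContinuousOn.mul continuousOn_const
          apply ContinuousOn.div Ec.continuousOn (by fun_prop)
          intro x hx
          have : 0 < 1 - x := by linarith [hx.2]
          positivity
        · intro x hx
          have hx0 : 0 < 1 - x := by linarith [hx.2]
          have h1 : M ^ 2 / x ^ 2 ≤ M ^ 2 / (1 - x) ^ 2 := by
            apply div_le_div_of_nonneg_left (by positivity) (by positivity)
            apply pow_le_pow_left₀ hx0.le
            linarith [hx.1]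
          have h2 : 2 * TT M x ≤ 4 * M ^ 2 / (1 - x) ^ 2 := by
            unfold TT
            have : 4 * M ^ 2 / (1 - x) ^ 2 = 4 * (M ^ 2 / (1 - x) ^ 2) := by ring
            rw [this]
            linarith
          calc 2 * TT M x * E x ≤ 4 * M ^ 2 / (1 - x) ^ 2 * E x :=
                mul_le_mul_of_nonneg_right h2 (E0 x)
            _ = _ := by ring
      refine this.trans ?_
      rw [intervalIntegral.integral_const_mul]
      have h3 := mul_le_mul_of_nonneg_left hsRm (show 0 ≤ 4 * M ^ 2 by positivity)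
      refine h3.trans (le_of_eq ?_)
      rw [hK]
      field_simp
      ring
    linarith
  rw [f1, f2, f3, f4, f5] at hint
  -- valley energy
  have hLM : M ^ 2 / 36 ≤ xL := (hend xL (hVsub ⟨le_rfl, hLR⟩) hqL).1
  have hRM : M ^ 2 / 36 ≤ 1 - xR := (hend xR (hVsub ⟨hLR, le_rfl⟩) hqR).2
  have hval : P ^ 2 / (305 / M) ≤ ∫ x in xL..xR, E x := by
    have hm1 : m < 1 := lt_of_le_of_lt hmR hxR
    have hsubm : Icc xL m ⊆ Ioo (0:ℝ) 1 := fun x hx =>
      ⟨lt_of_lt_of_le hxL hx.1, lt_of_le_of_lt hx.2 hm1⟩
    have h1 : P ^ 2 / (305 / M) ≤ ∫ x in xL..m, E x := by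
      refine valley_energy (G := G) (w := fun t => (1 + 2 * TT M t) / h t) hLm hP (by positivity)
        ?_ ?_ (Ec.intervalIntegrable _ _) ?_ (fun t _ => rfl) ?_ (fun t _ => E0 t) ?_
      · have := hG xL m hxL hLm hm1
        rw [um, zero_sub, abs_neg, huL] at this
        exact this
      · apply ContinuousOn.intervalIntegrable
        rw [uIcc_of_le hLm]
        exact hGc.mono hsubm
      · apply ContinuousOn.intervalIntegrable
        rw [uIcc_of_le hLm]
        exact hwc.mono hsubm
      · intro t ht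
        have := TT_nonneg M t
        have := hpos t (hsubm ht)
        positivity
      · have h2 : ∫ t in xL..m, (1 + 2 * TT M t) / h t ≤
            ∫ t in xL..m, (21 / 10 / M) * (1 + 2 * TT M t) := by
          apply intervalIntegral.integral_mono_on hLm
          · apply ContinuousOn.intervalIntegrable
            rw [uIcc_of_le hLm]
            exact hwc.mono hsubm
          · apply ContinuousOn.intervalIntegrable
            rw [uIcc_of_le hLm]
            have := (TT_cont (M := M)).mono hsubm
            fun_prop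
          · intro t ht
            have hh := hVq t ⟨ht.1, ht.2.trans hmR⟩
            have hhp := hpos t (hsubm ht)
            have hTn := TT_nonneg M t
            have h3 : 1 / h t ≤ 21 / 10 / M := by
              rw [div_div, div_le_div_iff₀ hhp (by positivity)]
              -- 10 M ≤ 21 h t
              have h4 : μ * M * (2 * α) ≤ 21 / 5 * α * (μ * h t) := by
                have h5 : μ * M * (2 * α) ≤ 21 / 5 * α * (2 * α) :=
                  mul_le_mul_of_nonneg_right hμ (by positivity)
                have h6 : 21 / 5 * α * (2 * α) ≤ 21 / 5 * α * (μ * h t) :=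
                  mul_le_mul_of_nonneg_left hh (by positivity)
                linarith
              have h7 : (μ * α) * (2 * M) ≤ (μ * α) * (21 / 5 * h t) := by
                calc (μ * α) * (2 * M) = μ * M * (2 * α) := by ring
                  _ ≤ 21 / 5 * α * (μ * h t) := h4
                  _ = _ := by ring
              have h8 := le_of_mul_le_mul_left h7 (by positivity)
              linarith
            calc (1 + 2 * TT M t) / h t = 1 / h t * (1 + 2 * TT M t) := by ring
              _ ≤ _ := mul_le_mul_of_nonneg_right h3 (by positivity)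
        refine h2.trans ?_
        rw [intervalIntegral.integral_const_mul]
        have h3 := weight_int hM hLM (hRM.trans (by linarith)) hLm
        have h4 := mul_le_mul_of_nonneg_left h3 (show 0 ≤ 21 / 10 / M by positivity)
        refine h4.trans ?_
        rw [div_mul_eq_mul_div]
        gcongr
        norm_num
    have h2 : 0 ≤ ∫ x in m..xR, E x := intervalIntegral.integral_nonneg hmR (fun _ _ => E0 _)
    have h3 := intervalIntegral.integral_add_adjacent_intervals
      (Ec.intervalIntegrable (μ := volume) xL m) (Ec.intervalIntegrable (μ := volume) m xR)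
    linarith
  -- the test inequality
  have hb1 : (∫ x in Ioo (0:ℝ) 1, q x * φ x ^ 2) =
      2 * α * (∫ x in Ioo (0:ℝ) 1, φ x ^ 2) - μ * ∫ x in Ioo (0:ℝ) 1, h x * φ x ^ 2 := by
    rw [← integral_const_mul, ← integral_const_mul, ← integral_sub (hic _ (by fun_prop))
      (hic _ (by fun_prop))]
    congr 1
    funext x
    rw [hq]
    ring
  have hb2 : ∫ x in Ioo (0:ℝ) 1, h x * φ x ^ 2 ≤ M * P ^ 2 := by
    have : ∫ x in Ioo (0:ℝ) 1, h x * φ x ^ 2 ≤ ∫ _x in Ioo (0:ℝ) 1, M * P ^ 2 := by
      apply setIntegral_mono_on (hic _ (by fun_prop)) (hic _ continuous_const) measurableSet_Ioo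
      intro x _
      exact mul_le_mul (hle x) (hPP x) (sq_nonneg _) hM.le
    refine this.trans (le_of_eq ?_)
    rw [setIntegral_const]
    simp
  have hb3 : 0 ≤ ∫ x in Ioo (0:ℝ) 1, h x * φ x ^ 2 :=
    integral_nonneg fun x => mul_nonneg (hnn x) (sq_nonneg _)
  have hb4 : (μ - lam) * (∫ x in Ioo (0:ℝ) 1, h x * φ x ^ 2) ≤ (μ - lam) * (M * P ^ 2) :=
    mul_le_mul_of_nonneg_left hb2 (by linarith)
  have hval' : M * P ^ 2 / 305 ≤ ∫ x in xL..xR, E x := by
    refine le_trans (le_of_eq ?_) hval
    field_simp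
  have hz1 : 11 / 5 * α * P ^ 2 * sL ≤ 11 / 20 * (∫ x in (0:ℝ)..sL, E x)
      + 11 / 5 * α * M * P ^ 2 := by
    have : 11 / 20 * (K * sL) ≤ 11 / 20 * ((∫ x in (0:ℝ)..sL, E x) + K * M) :=
      mul_le_mul_of_nonneg_left hsLK (by norm_num)
    rw [hK] at this
    linarith
  have hz2 : 11 / 5 * α * P ^ 2 * sR ≤ 11 / 20 * (∫ x in tR..1, E x)
      + 11 / 5 * α * M * P ^ 2 := by
    have : 11 / 20 * (K * sR) ≤ 11 / 20 * ((∫ x in tR..1, E x) + K * M) :=
      mul_le_mul_of_nonneg_left hsRK (by norm_num)
    rw [hK] at this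
    linarith
  have hfin : M * P ^ 2 * (9 / 20 / 305) ≤ (μ - lam) * (M * P ^ 2)
      + (72 + 2 / 5) * α * (M * P ^ 2) := by
    have he' : (∫ x in Ioo (0:ℝ) 1, E x) + ∫ x in Ioo (0:ℝ) 1, q x * u x ^ 2 ≤ 0 := he
    nlinarith [hT, hint, hb1, hb4, hval', hz1, hz2, f6, he']
  have hMP : 0 < M * P ^ 2 := by positivity
  have h9 : (M * P ^ 2) * (9 / 20 / 305) ≤ (M * P ^ 2) * ((μ - lam) + (72 + 2 / 5) * α) := by
    linarith
  have h10 := le_of_mul_le_mul_left h9 hMP
  have h11 : (1:ℝ) / 678 ≤ 9 / 20 / 305 := by norm_num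
  linarith

end Pool.Agent.Helper88.Gap
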