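import Mathlib
import Pool.Agent.Helper88.Gap.V1

open MeasureTheory Set Filter Topology

noncomputable section

namespace Pool.Agent.Helper88.Gap

lemma jensen_unit {f : ℝ → ℝ} (hf : IntervalIntegrable f volume 0 1)
    (hf2 : IntervalIntegrable (fun x => f x ^ 2) volume 0 1) :
    (∫ t in (0:ℝ)..1, f t) ^ 2 ≤ ∫ t in (0:ℝ)..1, f t ^ 2 := by
  set c := ∫ t in (0:ℝ)..1, f t with hc
  have h : 0 ≤ ∫ t in (0:ℝ)..1, (f t - c) ^ 2 :=
    intervalIntegral.integral_nonneg (by norm_num) (fun _ _ => sq_nonneg _)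
  have e : ∫ t in (0:ℝ)..1, (f t - c) ^ 2 = (∫ t in (0:ℝ)..1, f t ^ 2) - c ^ 2 := by
    have : ∀ t, (f t - c) ^ 2 = f t ^ 2 - 2 * c * f t + c ^ 2 := by intro t; ring
    simp_rw [this]
    rw [intervalIntegral.integral_add (hf2.sub (hf.const_mul _)) (by simp),
      intervalIntegral.integral_sub hf2 (hf.const_mul _),
      intervalIntegral.integral_const_mul, ← hc]
    simp
    ring
  rw [e] at h
  linarith

/-- passing from smooth test functions to functions with controlled increments -/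
theorem steklov {h φ Γ : ℝ → ℝ} {lam α M P B s t : ℝ} (hc : Continuous h) (hnn : ∀ x, 0 ≤ h x)
    (hle : ∀ x, h x ≤ M) (hlam : 0 ≤ lam) (hα : 0 ≤ α) (hP : 0 ≤ P)
    (hs : 0 < s) (ht : t < 1) (hΓ0 : ∀ x, 0 ≤ Γ x)
    (hΓs : ∀ x, x ∉ Icc s t → Γ x = 0) (hΓB : ∀ x, Γ x ≤ B) (hΓm : Measurable Γ)
    (hctl : ∀ x y, x ≤ y → |φ y - φ x| ≤ ∫ r in x..y, Γ r) (hφP : ∀ x, |φ x| ≤ P)
    (htest : ∀ ψ : ℝ → ℝ, ContDiff ℝ 1 ψ → (∀ x, |ψ x| ≤ P) →
      lam * (∫ x in Ioo (0:ℝ) 1, h x * ψ x ^ 2) ≤
        (∫ x in Ioo (0:ℝ) 1, h x * deriv ψ x ^ 2) + 2 * α * (∫ x in Ioo (0:ℝ) 1, ψ x ^ 2)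
          + 4 * α * M * P ^ 2) :
    lam * (∫ x in Ioo (0:ℝ) 1, h x * φ x ^ 2) ≤
        (∫ x in Ioo (0:ℝ) 1, h x * Γ x ^ 2) + 2 * α * (∫ x in Ioo (0:ℝ) 1, φ x ^ 2)
          + 4 * α * M * P ^ 2 := by
  have hB0 : 0 ≤ B := (hΓ0 0).trans (hΓB 0)
  have hM0 : 0 ≤ M := (hnn 0).trans (hle 0)
  have hΓi : ∀ x y, IntervalIntegrable Γ volume x y := by
    intro x y
    rw [intervalIntegrable_iff]
    refine Measure.integrableOn_of_bounded (M := B) measure_Ioc_lt_top.ne
      hΓm.aestronglyMeasurable ?_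
    filter_upwards with z
    rw [Real.norm_eq_abs, abs_of_nonneg (hΓ0 z)]
    exact hΓB z
  have key : ∀ x y, x ≤ y → |φ y - φ x| ≤ B * (y - x) := by
    intro x y hxy
    refine (hctl x y hxy).trans ?_
    have : ∫ r in x..y, Γ r ≤ ∫ _r in x..y, B :=
      intervalIntegral.integral_mono_on hxy (hΓi x y) (by simp) (fun z _ => hΓB z)
    refine this.trans (le_of_eq ?_)
    simp
    ring
  have hφc : Continuous φ := by
    have : LipschitzWith (Real.toNNReal B) φ := by
      apply LipschitzWith.of_dist_le_mul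
      intro x y
      rw [Real.dist_eq, Real.dist_eq, Real.coe_toNNReal _ hB0]
      rcases le_total x y with h1 | h1
      · rw [abs_sub_comm, abs_sub_comm x y, abs_of_nonneg (sub_nonneg.mpr h1)]
        exact key x y h1
      · rw [abs_of_nonneg (sub_nonneg.mpr h1)]
        exact key y x h1
    exact this.continuous
  have hic : ∀ f : ℝ → ℝ, Continuous f → IntegrableOn f (Ioo (0:ℝ) 1) := fun f hf =>
    (hf.continuousOn.integrableOn_compact isCompact_Icc).mono_set Ioo_subset_Icc_self
  have hΓ2m : Measurable (fun x => Γ x ^ 2) := hΓm.pow_const 2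
  have hΓ2i : Integrable (fun x => Γ x ^ 2) := by
    have h1 : IntegrableOn (fun x => Γ x ^ 2) (Icc s t) := by
      refine Measure.integrableOn_of_bounded (M := B ^ 2) measure_Icc_lt_top.ne
        hΓ2m.aestronglyMeasurable ?_
      filter_upwards with z
      rw [Real.norm_eq_abs, abs_of_nonneg (sq_nonneg _)]
      exact pow_le_pow_left₀ (hΓ0 z) (hΓB z) 2
    rw [← integrable_indicator_iff measurableSet_Icc] at h1
    convert! h1 using 1
    funext x
    by_cases hx : x ∈ Icc s t
    · rw [indicator_of_mem hx]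
    · rw [indicator_of_notMem hx, hΓs x hx]
      simp
  have hhΓi : Integrable (fun x => h x * Γ x ^ 2) := by
    refine hΓ2i.bdd_mul (c := M) hc.aestronglyMeasurable ?_
    filter_upwards with x
    rw [Real.norm_eq_abs, abs_of_nonneg (hnn x)]
    exact hle x
  set I2 := ∫ x, Γ x ^ 2 with hI2
  have hI20 : 0 ≤ I2 := integral_nonneg fun _ => sq_nonneg _
  -- the main estimate for every small step
  have main : ∀ η : ℝ, 0 < η → ∀ ε : ℝ, 0 < ε → ε < s →
      (∀ z ∈ Icc s t, ∀ r ∈ Icc (0:ℝ) 1, h (z - ε * r) ≤ h z + η) →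
      lam * (∫ x in Ioo (0:ℝ) 1, h x * φ x ^ 2) ≤
        (∫ x in Ioo (0:ℝ) 1, h x * Γ x ^ 2) + 2 * α * (∫ x in Ioo (0:ℝ) 1, φ x ^ 2)
          + 4 * α * M * P ^ 2 + (η * I2 + (lam * M + 2 * α) * (2 * P * B) * ε) := by
    intro η hη ε hε hεs hunif
    set ψ : ℝ → ℝ := fun x => (∫ r in x..(x + ε), φ r) / ε with hψ
    have hφi : ∀ a b, IntervalIntegrable φ volume a b := fun a b => hφc.intervalIntegrable a b
    have hprim : ∀ x, HasDerivAt (fun x => ∫ r in (0:ℝ)..x, φ r) (φ x) x := fun x =>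
      intervalIntegral.integral_hasDerivAt_right (hφi _ _)
        (hφc.stronglyMeasurableAtFilter _ _) hφc.continuousAt
    have hψe : ψ = fun x => ((∫ r in (0:ℝ)..(x + ε), φ r) - ∫ r in (0:ℝ)..x, φ r) / ε := by
      funext x
      rw [hψ]
      simp only
      rw [intervalIntegral.integral_interval_sub_left (hφi _ _) (hφi _ _)]
    have hψd : ∀ x, HasDerivAt ψ ((φ (x + ε) - φ x) / ε) x := by
      intro x
      rw [hψe]
      have h1 : HasDerivAt (fun x => ∫ r in (0:ℝ)..(x + ε), φ r) (φ (x + ε)) x := by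
        have := (hprim (x + ε)).comp_add_const x ε
        exact this
      exact (h1.fun_sub (hprim x)).div_const ε
    have hψderiv : deriv ψ = fun x => (φ (x + ε) - φ x) / ε := by
      funext x
      exact (hψd x).deriv
    have hψ1 : ContDiff ℝ 1 ψ := by
      rw [contDiff_one_iff_deriv]
      refine ⟨fun x => (hψd x).differentiableAt, ?_⟩
      rw [hψderiv]
      fun_prop
    have hψP : ∀ x, |ψ x| ≤ P := by
      intro x
      rw [hψ]
      simp only
      rw [abs_div, abs_of_pos hε, div_le_iff₀ hε]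
      have := intervalIntegral.norm_integral_le_of_norm_le_const (a := x) (b := x + ε) (C := P)
        (f := φ) (fun y _ => by rw [Real.norm_eq_abs]; exact hφP y)
      rw [Real.norm_eq_abs] at this
      simpa [abs_of_pos hε] using this
    have hψφ : ∀ x, |ψ x - φ x| ≤ B * ε := by
      intro x
      have e : ψ x - φ x = (∫ r in x..(x + ε), (φ r - φ x)) / ε := by
        rw [intervalIntegral.integral_sub (hφi _ _) (by simp), intervalIntegral.integral_const]
        rw [hψ]
        simp only [smul_eq_mul, add_sub_cancel_left]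
        field_simp
      rw [e, abs_div, abs_of_pos hε, div_le_iff₀ hε]
      have := intervalIntegral.norm_integral_le_of_norm_le_const (a := x) (b := x + ε)
        (C := B * ε) (f := fun r => φ r - φ x) (fun y hy => by
          rw [uIoc_of_le (by linarith)] at hy
          rw [Real.norm_eq_abs]
          refine (key x y hy.1.le).trans ?_
          apply mul_le_mul_of_nonneg_left _ hB0
          linarith [hy.2])
      rw [Real.norm_eq_abs] at this
      simpa [abs_of_pos hε] using this
    have hsq : ∀ x, |ψ x ^ 2 - φ x ^ 2| ≤ 2 * P * B * ε := by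
      intro x
      have e : ψ x ^ 2 - φ x ^ 2 = (ψ x + φ x) * (ψ x - φ x) := by ring
      rw [e, abs_mul]
      have h1 : |ψ x + φ x| ≤ 2 * P := (abs_add_le _ _).trans (by linarith [hψP x, hφP x])
      calc |ψ x + φ x| * |ψ x - φ x| ≤ (2 * P) * (B * ε) :=
            mul_le_mul h1 (hψφ x) (abs_nonneg _) (by positivity)
        _ = _ := by ring
    -- derivative estimate
    have hder : ∀ x, deriv ψ x ^ 2 ≤ ∫ r in (0:ℝ)..1, Γ (x + ε * r) ^ 2 := by
      intro x
      rw [hψderiv]
      simp only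
      have h1 : |(φ (x + ε) - φ x) / ε| ≤ ∫ r in (0:ℝ)..1, Γ (x + ε * r) := by
        have h2 : ∫ r in (0:ℝ)..1, Γ (x + ε * r) = (∫ r in x..(x + ε), Γ r) / ε := by
          rw [intervalIntegral.integral_comp_add_mul (fun y => Γ y) hε.ne' x]
          simp
          ring
        rw [h2, abs_div, abs_of_pos hε]
        exact div_le_div_of_nonneg_right (hctl x (x + ε) (by linarith)) hε.le
      have m1 : Measurable (fun r => Γ (x + ε * r)) := hΓm.comp (by fun_prop)
      have h3 : IntervalIntegrable (fun r => Γ (x + ε * r)) volume 0 1 := by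
        rw [intervalIntegrable_iff]
        refine Measure.integrableOn_of_bounded (M := B) measure_Ioc_lt_top.ne
          m1.aestronglyMeasurable ?_
        filter_upwards with z
        rw [Real.norm_eq_abs, abs_of_nonneg (hΓ0 _)]
        exact hΓB _
      have h4 : IntervalIntegrable (fun r => Γ (x + ε * r) ^ 2) volume 0 1 := by
        rw [intervalIntegrable_iff]
        refine Measure.integrableOn_of_bounded (M := B ^ 2) measure_Ioc_lt_top.ne
          (m1.pow_const 2).aestronglyMeasurable ?_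
        filter_upwards with z
        rw [Real.norm_eq_abs, abs_of_nonneg (sq_nonneg _)]
        exact pow_le_pow_left₀ (hΓ0 _) (hΓB _) 2
      calc ((φ (x + ε) - φ x) / ε) ^ 2 = |(φ (x + ε) - φ x) / ε| ^ 2 := (sq_abs _).symm
        _ ≤ (∫ r in (0:ℝ)..1, Γ (x + ε * r)) ^ 2 := pow_le_pow_left₀ (abs_nonneg _) h1 2
        _ ≤ _ := jensen_unit h3 h4
    -- Fubini
    have hjm : Measurable (fun p : ℝ × ℝ => h p.1 * Γ (p.1 + ε * p.2) ^ 2) := by
      have m1 : Measurable (fun p : ℝ × ℝ => Γ (p.1 + ε * p.2)) := hΓm.comp (by fun_prop)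
      have m2 : Measurable (fun p : ℝ × ℝ => h p.1) := hc.measurable.comp measurable_fst
      exact m2.mul (m1.pow_const 2)
    have hji : Integrable (Function.uncurry fun x r => h x * Γ (x + ε * r) ^ 2)
        ((volume.restrict (Ioo (0:ℝ) 1)).prod (volume.restrict (Ioc (0:ℝ) 1))) := by
      have f1 : IsFiniteMeasure (volume.restrict (Ioo (0:ℝ) 1)) :=
        ⟨by rw [Measure.restrict_apply_univ]; exact measure_Ioo_lt_top⟩
      have f2 : IsFiniteMeasure (volume.restrict (Ioc (0:ℝ) 1)) :=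
        ⟨by rw [Measure.restrict_apply_univ]; exact measure_Ioc_lt_top⟩
      refine Integrable.of_bound (C := M * B ^ 2) hjm.aestronglyMeasurable ?_
      filter_upwards with p
      rw [Real.norm_eq_abs, Function.uncurry, abs_of_nonneg (mul_nonneg (hnn _) (sq_nonneg _))]
      exact mul_le_mul (hle _) (pow_le_pow_left₀ (hΓ0 _) (hΓB _) 2) (sq_nonneg _) hM0
    have hkin : ∫ x in Ioo (0:ℝ) 1, h x * deriv ψ x ^ 2 ≤
        (∫ x in Ioo (0:ℝ) 1, h x * Γ x ^ 2) + η * I2 := by
      have s1 : ∫ x in Ioo (0:ℝ) 1, h x * deriv ψ x ^ 2 ≤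
          ∫ x in Ioo (0:ℝ) 1, ∫ r in Ioc (0:ℝ) 1, h x * Γ (x + ε * r) ^ 2 := by
        have hdc : Continuous (deriv ψ) := by rw [hψderiv]; fun_prop
        apply setIntegral_mono_on (hic _ (by fun_prop)) hji.integral_prod_left measurableSet_Ioo
        intro x _
        simp only [Function.uncurry_apply_pair]
        rw [integral_const_mul, ← intervalIntegral.integral_of_le (by norm_num)]
        exact mul_le_mul_of_nonneg_left (hder x) (hnn x)
      have s2 : ∫ x in Ioo (0:ℝ) 1, ∫ r in Ioc (0:ℝ) 1, h x * Γ (x + ε * r) ^ 2 =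
          ∫ r in Ioc (0:ℝ) 1, ∫ x in Ioo (0:ℝ) 1, h x * Γ (x + ε * r) ^ 2 :=
        integral_integral_swap hji
      have s3 : ∀ r ∈ Ioc (0:ℝ) 1, ∫ x in Ioo (0:ℝ) 1, h x * Γ (x + ε * r) ^ 2 ≤
          (∫ x in Ioo (0:ℝ) 1, h x * Γ x ^ 2) + η * I2 := by
        intro r hr
        have hti : Integrable (fun x => h x * Γ (x + ε * r) ^ 2) := by
          refine (hΓ2i.comp_add_right (ε * r)).bdd_mul (c := M) hc.aestronglyMeasurable ?_
          filter_upwards with x
          rw [Real.norm_eq_abs, abs_of_nonneg (hnn x)]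
          exact hle x
        have t1 : ∫ x in Ioo (0:ℝ) 1, h x * Γ (x + ε * r) ^ 2 ≤ ∫ x, h x * Γ (x + ε * r) ^ 2 :=
          setIntegral_le_integral hti (Eventually.of_forall fun x =>
            mul_nonneg (hnn _) (sq_nonneg _))
        have t2 : ∫ x, h x * Γ (x + ε * r) ^ 2 = ∫ z, h (z - ε * r) * Γ z ^ 2 := by
          rw [← integral_add_right_eq_self (fun z => h (z - ε * r) * Γ z ^ 2) (ε * r)]
          congr 1
          funext x
          simp
        have t3 : ∫ z, h (z - ε * r) * Γ z ^ 2 ≤ ∫ z, (h z * Γ z ^ 2 + η * Γ z ^ 2) := by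
          have hti2 : Integrable (fun z => h (z - ε * r) * Γ z ^ 2) := by
            have hc' : Continuous (fun z => h (z - ε * r)) := by fun_prop
            refine hΓ2i.bdd_mul (c := M) hc'.aestronglyMeasurable ?_
            filter_upwards with x
            rw [Real.norm_eq_abs, abs_of_nonneg (hnn _)]
            exact hle _
          apply integral_mono hti2 (hhΓi.add (hΓ2i.const_mul η))
          intro z
          simp only [Pi.add_apply]
          by_cases hz : z ∈ Icc s t
          · have := hunif z hz r ⟨hr.1.le, hr.2⟩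
            nlinarith [sq_nonneg (Γ z)]
          · rw [hΓs z hz]
            simp
        have t4 : ∫ z, (h z * Γ z ^ 2 + η * Γ z ^ 2) = (∫ z, h z * Γ z ^ 2) + η * I2 := by
          rw [integral_add hhΓi (hΓ2i.const_mul η), integral_const_mul]
        have t5 : ∫ z, h z * Γ z ^ 2 = ∫ z in Ioo (0:ℝ) 1, h z * Γ z ^ 2 := by
          rw [setIntegral_eq_integral_of_forall_compl_eq_zero]
          intro z hz
          have : z ∉ Icc s t := fun h1 => hz ⟨lt_of_lt_of_le hs h1.1, lt_of_le_of_lt h1.2 ht⟩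
          rw [hΓs z this]
          simp
        rw [t2] at t1
        rw [t4, t5] at t3
        exact t1.trans t3
      have s4 : ∫ r in Ioc (0:ℝ) 1, ∫ x in Ioo (0:ℝ) 1, h x * Γ (x + ε * r) ^ 2 ≤
          ∫ _r in Ioc (0:ℝ) 1, ((∫ x in Ioo (0:ℝ) 1, h x * Γ x ^ 2) + η * I2) := by
        apply setIntegral_mono_on hji.integral_prod_right _ measurableSet_Ioc s3
        exact integrableOn_const measure_Ioc_lt_top.ne
      have s5 : ∫ _r in Ioc (0:ℝ) 1, ((∫ x in Ioo (0:ℝ) 1, h x * Γ x ^ 2) + η * I2) =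
          (∫ x in Ioo (0:ℝ) 1, h x * Γ x ^ 2) + η * I2 := by
        rw [setIntegral_const]
        simp
      rw [s2] at s1
      rw [s5] at s4
      exact s1.trans s4
    have hψc : Continuous ψ := hψ1.continuous
    have hT := htest ψ hψ1 hψP
    have d1 : ∫ x in Ioo (0:ℝ) 1, h x * φ x ^ 2 ≤
        (∫ x in Ioo (0:ℝ) 1, h x * ψ x ^ 2) + M * (2 * P * B * ε) := by
      have : ∫ x in Ioo (0:ℝ) 1, h x * φ x ^ 2 ≤
          ∫ x in Ioo (0:ℝ) 1, (h x * ψ x ^ 2 + M * (2 * P * B * ε)) := by
        apply setIntegral_mono_on (hic _ (by fun_prop)) (hic _ (by fun_prop)) measurableSet_Ioo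
        intro x _
        have h1 := abs_le.mp (hsq x)
        have h2 : 0 ≤ 2 * P * B * ε := by positivity
        have h3 : h x * (φ x ^ 2 - ψ x ^ 2) ≤ M * (2 * P * B * ε) := by
          calc h x * (φ x ^ 2 - ψ x ^ 2) ≤ h x * (2 * P * B * ε) :=
                mul_le_mul_of_nonneg_left (by linarith) (hnn x)
            _ ≤ _ := mul_le_mul_of_nonneg_right (hle x) h2
        nlinarith
      refine this.trans (le_of_eq ?_)
      rw [integral_add (hic _ (by fun_prop)) (hic _ (by fun_prop)), setIntegral_const]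
      simp
    have d2 : ∫ x in Ioo (0:ℝ) 1, ψ x ^ 2 ≤
        (∫ x in Ioo (0:ℝ) 1, φ x ^ 2) + 2 * P * B * ε := by
      have : ∫ x in Ioo (0:ℝ) 1, ψ x ^ 2 ≤
          ∫ x in Ioo (0:ℝ) 1, (φ x ^ 2 + 2 * P * B * ε) := by
        apply setIntegral_mono_on (hic _ (by fun_prop)) (hic _ (by fun_prop)) measurableSet_Ioo
        intro x _
        have h1 := abs_le.mp (hsq x)
        linarith [h1.2]
      refine this.trans (le_of_eq ?_)
      rw [integral_add (hic _ (by fun_prop)) (hic _ (by fun_prop)), setIntegral_const]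
      simp
    have d3 := mul_le_mul_of_nonneg_left d1 hlam
    have d4 := mul_le_mul_of_nonneg_left d2 (show 0 ≤ 2 * α by positivity)
    linarith
  -- limit
  apply le_of_forall_pos_le_add
  intro κ hκ
  set C := (lam * M + 2 * α) * (2 * P * B) with hC
  have hC0 : 0 ≤ C := by positivity
  set η := κ / (2 * (I2 + 1)) with hη
  have hη0 : 0 < η := by positivity
  have huc : UniformContinuousOn h (Icc (-1) 2) :=
    isCompact_Icc.uniformContinuousOn_of_continuous hc.continuousOn
  rw [Metric.uniformContinuousOn_iff] at huc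
  obtain ⟨δ, hδ0, hδ⟩ := huc η hη0
  set ε := min (s / 2) (min (δ / 2) (min 1 (κ / (2 * (C + 1))))) with hε
  have hε0 : 0 < ε := by
    rw [hε]
    refine lt_min (by positivity) (lt_min (by positivity) (lt_min one_pos (by positivity)))
  have e1 : ε ≤ s / 2 := min_le_left _ _
  have e2 : ε ≤ δ / 2 := (min_le_right _ _).trans (min_le_left _ _)
  have e3 : ε ≤ 1 := (min_le_right _ _).trans ((min_le_right _ _).trans (min_le_left _ _))
  have e4 : ε ≤ κ / (2 * (C + 1)) :=
    (min_le_right _ _).trans ((min_le_right _ _).trans (min_le_right _ _))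
  have := main η hη0 ε hε0 (by linarith) (by
    intro z hz r hr
    have hr1 : 0 ≤ ε * r := mul_nonneg hε0.le hr.1
    have hr2 : ε * r ≤ ε := by
      have := mul_le_mul_of_nonneg_left hr.2 hε0.le
      linarith
    have := hδ (z - ε * r) ⟨by linarith [hz.1], by linarith [hz.2]⟩ z
      ⟨by linarith [hz.1], by linarith [hz.2]⟩ (by
        rw [Real.dist_eq]
        have : z - ε * r - z = -(ε * r) := by ring
        rw [this, abs_neg, abs_of_nonneg hr1]
        linarith)
    rw [Real.dist_eq] at this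
    have := (abs_lt.mp this).2
    linarith)
  refine this.trans ?_
  have g1 : η * I2 ≤ κ / 2 := by
    rw [hη, div_mul_eq_mul_div, div_le_div_iff₀ (by positivity) (by norm_num)]
    nlinarith
  have g2 : C * ε ≤ κ / 2 := by
    have h1 := mul_le_mul_of_nonneg_left e4 hC0
    refine h1.trans ?_
    rw [mul_div_assoc', div_le_div_iff₀ (by positivity) (by norm_num)]
    nlinarith
  linarith

end Pool.Agent.Helper88.Gap
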