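import Mathlib
import Pool.Agent.Helper88.Gap.Perim
import Pool.Agent.Helper88.Gap.V2
import Pool.Agent.Helper88.Gap.V1b

open MeasureTheory Set Metric Filter Topology

noncomputable section

namespace Pool.Agent.Helper88.Gap

lemma jensen_cont {f : ℝ → ℝ} (hf : Continuous f) :
    (∫ t in (0:ℝ)..1, f t) ^ 2 ≤ ∫ t in (0:ℝ)..1, f t ^ 2 :=
  jensen_unit (hf.intervalIntegrable _ _) (Continuous.intervalIntegrable (by fun_prop) _ _)

/-- one slice -/
lemma slice1 {g g' : ℝ → ℝ} (hg : ∀ t, HasDerivAt g (g' t) t) (hg' : Continuous g')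
    {h α Λ : ℝ} (hh : 0 < h) (hα : 0 ≤ α) (hΛ : 0 ≤ Λ) :
    (2 * α - (Λ + 16 * α ^ 2) * h) * (∫ t in (0:ℝ)..1, g t) ^ 2 +
      (1 / 4 - Λ * h ^ 2) * ((∫ t in (0:ℝ)..1, g' t ^ 2) / h) ≤
      (∫ t in (0:ℝ)..1, g' t ^ 2) / (2 * h) + α * (g 0 ^ 2 + g 1 ^ 2) -
        Λ * h * ∫ t in (0:ℝ)..1, g t ^ 2 := by
  have gc : Continuous g := continuous_iff_continuousAt.mpr fun t => (hg t).continuousAt
  set u := ∫ t in (0:ℝ)..1, g t with hu
  set K := ∫ t in (0:ℝ)..1, g' t ^ 2 with hK
  set L := ∫ t in (0:ℝ)..1, |g' t| with hL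
  have hL0 : 0 ≤ L := intervalIntegral.integral_nonneg (by norm_num) (fun _ _ => abs_nonneg _)
  have hLK : L ^ 2 ≤ K := by
    have := jensen_cont (f := fun t => |g' t|) (by fun_prop)
    simpa [sq_abs] using this
  have habs : ∀ a b : ℝ, 0 ≤ a → a ≤ b → b ≤ 1 → |g b - g a| ≤ L := by
    intro a b ha hab hb
    have h1 := intervalIntegral.integral_eq_sub_of_hasDerivAt (a := a) (b := b)
      (fun t _ => hg t) (hg'.intervalIntegrable _ _)
    rw [← h1]
    have h2 : |∫ t in a..b, g' t| ≤ ∫ t in a..b, |g' t| :=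
      intervalIntegral.abs_integral_le_integral_abs hab
    refine h2.trans ?_
    apply intervalIntegral.integral_mono_interval ha hab hb
    · exact Eventually.of_forall fun _ => abs_nonneg _
    · exact Continuous.intervalIntegrable (by fun_prop) _ _
  have habs2 : ∀ s t : ℝ, s ∈ Icc (0:ℝ) 1 → t ∈ Icc (0:ℝ) 1 → |g s - g t| ≤ L := by
    intro s t hs ht
    rcases le_total s t with h | h
    · rw [abs_sub_comm]
      exact habs s t hs.1 h ht.2
    · exact habs t s ht.1 h hs.2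
  have hdev : ∀ s ∈ Icc (0:ℝ) 1, |g s - u| ≤ L := by
    intro s hs
    have e : g s - u = ∫ t in (0:ℝ)..1, (g s - g t) := by
      rw [intervalIntegral.integral_sub (by simp) (gc.intervalIntegrable _ _)]
      simp [hu]
    rw [e]
    have h1 : |∫ t in (0:ℝ)..1, (g s - g t)| ≤ ∫ t in (0:ℝ)..1, |g s - g t| :=
      intervalIntegral.abs_integral_le_integral_abs (by norm_num)
    have h2 : ∫ t in (0:ℝ)..1, |g s - g t| ≤ ∫ _t in (0:ℝ)..1, L := by
      apply intervalIntegral.integral_mono_on (by norm_num)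
        (Continuous.intervalIntegrable (by fun_prop) _ _) (by simp)
      intro t ht
      exact habs2 s t hs ht
    refine h1.trans (h2.trans (le_of_eq ?_))
    simp
  have hint : ∫ t in (0:ℝ)..1, g t ^ 2 ≤ L ^ 2 + u ^ 2 := by
    have e : ∫ t in (0:ℝ)..1, g t ^ 2 = (∫ t in (0:ℝ)..1, (g t - u) ^ 2) + u ^ 2 := by
      have : ∀ t, (g t - u) ^ 2 = g t ^ 2 - 2 * u * g t + u ^ 2 := by intro t; ring
      simp_rw [this]
      rw [intervalIntegral.integral_add (Continuous.intervalIntegrable (by fun_prop) _ _)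
        (by simp), intervalIntegral.integral_sub (Continuous.intervalIntegrable (by fun_prop) _ _)
        (Continuous.intervalIntegrable (by fun_prop) _ _), intervalIntegral.integral_const_mul,
        ← hu]
      simp
      ring
    have h2 : ∫ t in (0:ℝ)..1, (g t - u) ^ 2 ≤ ∫ _t in (0:ℝ)..1, L ^ 2 := by
      apply intervalIntegral.integral_mono_on (by norm_num)
        (Continuous.intervalIntegrable (by fun_prop) _ _) (by simp)
      intro t ht
      rw [← sq_abs]
      exact pow_le_pow_left₀ (abs_nonneg _) (hdev t ht) 2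
    rw [e]
    have h3 : ∫ _t in (0:ℝ)..1, L ^ 2 = L ^ 2 := by simp
    linarith
  have hend : ∀ s ∈ Icc (0:ℝ) 1, u ^ 2 - 2 * |u| * L ≤ g s ^ 2 := by
    intro s hs
    have h1 := hdev s hs
    have e : g s ^ 2 = u ^ 2 + 2 * u * (g s - u) + (g s - u) ^ 2 := by ring
    have h2 : -(2 * |u| * L) ≤ 2 * u * (g s - u) := by
      have h3 : |2 * u * (g s - u)| ≤ 2 * |u| * L := by
        rw [abs_mul, abs_mul, abs_of_pos (by norm_num : (0:ℝ) < 2)]
        exact mul_le_mul_of_nonneg_left h1 (by positivity)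
      exact (abs_le.mp h3).1
    nlinarith [sq_nonneg (g s - u)]
  have h0 := hend 0 (by simp)
  have h1 := hend 1 (by simp)
  -- AM-GM
  have hamgm : 4 * α * |u| * L ≤ 16 * α ^ 2 * h * u ^ 2 + L ^ 2 / (4 * h) := by
    have e : 16 * α ^ 2 * h * u ^ 2 + L ^ 2 / (4 * h) - 4 * α * |u| * L =
        (8 * α * h * |u| - L) ^ 2 / (4 * h) := by
      field_simp
      rw [← sq_abs u]
      ring
    have : 0 ≤ (8 * α * h * |u| - L) ^ 2 / (4 * h) := by positivity
    linarith
  have hKh : L ^ 2 / (4 * h) ≤ K / (4 * h) := by gcongr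
  have e1 : (1 / 4 - Λ * h ^ 2) * (K / h) = K / (4 * h) - Λ * h * K := by
    field_simp
  have e2 : K / (2 * h) = K / (4 * h) + K / (4 * h) := by
    field_simp
    ring
  have h5 : Λ * h * (∫ t in (0:ℝ)..1, g t ^ 2) ≤ Λ * h * (K + u ^ 2) :=
    mul_le_mul_of_nonneg_left (by linarith) (by positivity)
  have h6 := mul_le_mul_of_nonneg_left (add_le_add h0 h1) hα
  rw [e1, e2]
  nlinarith

/-- directions -/
def bb (i : Fin 2) : En 2 := EuclideanSpace.single i 1

lemma normsq (L : En 2 →L[ℝ] ℝ) : ‖L‖ ^ 2 = L (bb 0) ^ 2 + L (bb 1) ^ 2 := by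
  set g := (InnerProductSpace.toDual ℝ (En 2)).symm L with hg
  have h1 : ‖g‖ = ‖L‖ := LinearIsometryEquiv.norm_map _ _
  have h2 : ∀ i, L (bb i) = g i := by
    intro i
    have := InnerProductSpace.toDual_symm_apply (𝕜 := ℝ) (E := En 2) (x := bb i) (y := L)
    rw [← this, ← hg, bb, EuclideanSpace.inner_single_right]
    simp
  rw [← h1, EuclideanSpace.norm_sq_eq, Fin.sum_univ_two, h2, h2]
  simp [sq_abs]

lemma P2_lin (x y : ℝ) : P2 x y = x • bb 0 + y • bb 1 := by
  ext i
  fin_cases i <;> simp [P2, bb]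

/-- slice quantities -/
def hh (a b : ℝ → ℝ) (x : ℝ) : ℝ := b x - a x
def pt (a b : ℝ → ℝ) (x t : ℝ) : En 2 := P2 x (a x + hh a b x * t)
def uu (a b : ℝ → ℝ) (f : En 2 → ℝ) (x : ℝ) : ℝ := ∫ t in (0:ℝ)..1, f (pt a b x t)
def XX (a b : ℝ → ℝ) (f : En 2 → ℝ) (x : ℝ) : ℝ :=
  ∫ t in (0:ℝ)..1, (fderiv ℝ f (pt a b x t) (bb 0)) ^ 2
def YY (a b : ℝ → ℝ) (f : En 2 → ℝ) (x : ℝ) : ℝ :=
  ∫ t in (0:ℝ)..1, (fderiv ℝ f (pt a b x t) (bb 1)) ^ 2
def EE (a b : ℝ → ℝ) (f : En 2 → ℝ) (x : ℝ) : ℝ := hh a b x * (XX a b f x + YY a b f x / 2)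

lemma par_cont {F : ℝ × ℝ → ℝ} (hF : Continuous F) :
    Continuous (fun x => ∫ t in (0:ℝ)..1, F (x, t)) :=
  intervalIntegral.continuous_parametric_intervalIntegral_of_continuous'
    (f := fun x t => F (x, t)) hF 0 1

namespace Thin

variable {Ω : Set (En 2)} {a b : ℝ → ℝ} {M : ℝ}

lemma hh_cont (T : Thin Ω a b M) : Continuous (hh a b) := T.cb.sub T.ca

lemma pt_cont (T : Thin Ω a b M) : Continuous (fun q : ℝ × ℝ => pt a b q.1 q.2) := by
  have h1 := T.hh_cont
  have h2 := T.ca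
  unfold pt
  exact P2_cont' continuous_fst (by fun_prop)

lemma uu_cont (T : Thin Ω a b M) {f : En 2 → ℝ} (hf : Continuous f) : Continuous (uu a b f) :=
  par_cont (F := fun q => f (pt a b q.1 q.2)) (hf.comp T.pt_cont)

lemma XX_cont (T : Thin Ω a b M) {f : En 2 → ℝ} (hf : ContDiff ℝ 1 f) :
    Continuous (XX a b f) := by
  have hd : Continuous (fderiv ℝ f) := hf.continuous_fderiv (by norm_num)
  have hp := T.pt_cont
  exact par_cont (F := fun q => (fderiv ℝ f (pt a b q.1 q.2) (bb 0)) ^ 2) (by fun_prop)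

lemma YY_cont (T : Thin Ω a b M) {f : En 2 → ℝ} (hf : ContDiff ℝ 1 f) :
    Continuous (YY a b f) := by
  have hd : Continuous (fderiv ℝ f) := hf.continuous_fderiv (by norm_num)
  have hp := T.pt_cont
  exact par_cont (F := fun q => (fderiv ℝ f (pt a b q.1 q.2) (bb 1)) ^ 2) (by fun_prop)

lemma EE_cont (T : Thin Ω a b M) {f : En 2 → ℝ} (hf : ContDiff ℝ 1 f) :
    Continuous (EE a b f) := by
  have h1 := T.XX_cont hf
  have h2 := T.YY_cont hf
  have h3 := T.hh_cont
  unfold EE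
  fun_prop

lemma XX_nonneg (f : En 2 → ℝ) (x : ℝ) : 0 ≤ XX a b f x :=
  intervalIntegral.integral_nonneg (by norm_num) (fun _ _ => sq_nonneg _)
lemma YY_nonneg (f : En 2 → ℝ) (x : ℝ) : 0 ≤ YY a b f x :=
  intervalIntegral.integral_nonneg (by norm_num) (fun _ _ => sq_nonneg _)
lemma EE_nonneg (T : Thin Ω a b M) (f : En 2 → ℝ) (x : ℝ) : 0 ≤ EE a b f x := by
  have h1 := XX_nonneg (a := a) (b := b) f x
  have h2 := YY_nonneg (a := a) (b := b) f x
  have h3 : 0 ≤ hh a b x := T.h0 x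
  unfold EE
  positivity

lemma ioo_int {f : ℝ → ℝ} (hf : Continuous f) : IntegrableOn f (Ioo (0:ℝ) 1) :=
  (hf.continuousOn.integrableOn_compact isCompact_Icc).mono_set Ioo_subset_Icc_self

/-- lower bound for the shifted form -/
theorem lower (T : Thin Ω a b M) {f : En 2 → ℝ} (hf : ContDiff ℝ 1 f) {α Λ : ℝ} (hα : 0 ≤ α)
    (hΛ : 0 ≤ Λ) (hΛM : Λ * M ^ 2 ≤ 1 / 8) :
    (∫ x in Ioo (0:ℝ) 1, EE a b f x) +
      (∫ x in Ioo (0:ℝ) 1, (2 * α - (Λ + 16 * α ^ 2) * hh a b x) * uu a b f x ^ 2) +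
      1 / 8 * (∫ x in Ioo (0:ℝ) 1, hh a b x * YY a b f x) ≤
      Df (volume.restrict Ω) f + α * Nf (surf Ω) f - Λ * Nf (volume.restrict Ω) f := by
  have hd : Continuous (fderiv ℝ f) := hf.continuous_fderiv (by norm_num)
  have hfc := hf.continuous
  have hp := T.pt_cont
  have ca := T.ca
  have cb := T.cb
  have hhc := T.hh_cont
  have cu := T.uu_cont hfc
  have cX := T.XX_cont hf
  have cY := T.YY_cont hf
  have cE := T.EE_cont hf
  have eD : Df (volume.restrict Ω) f =
      ∫ x in Ioo (0:ℝ) 1, hh a b x * (XX a b f x + YY a b f x) := by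
    unfold Df
    rw [T.int (F := fun p => ‖fderiv ℝ f p‖ ^ 2) (by fun_prop)]
    congr 1
    funext x
    have : ∫ t in (0:ℝ)..1, ‖fderiv ℝ f (P2 x (a x + (b x - a x) * t))‖ ^ 2 =
        XX a b f x + YY a b f x := by
      unfold XX YY
      have c1 : Continuous (fun t => pt a b x t) := hp.comp (Continuous.prodMk_right x)
      have k0 : Continuous (fun t => (fderiv ℝ f (pt a b x t) (bb 0)) ^ 2) := by fun_prop
      have k1 : Continuous (fun t => (fderiv ℝ f (pt a b x t) (bb 1)) ^ 2) := by fun_prop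
      rw [← intervalIntegral.integral_add (k0.intervalIntegrable _ _) (k1.intervalIntegrable _ _)]
      congr 1
      funext t
      rw [← normsq]
      rfl
    rw [this]
    rfl
  have eN : Nf (volume.restrict Ω) f =
      ∫ x in Ioo (0:ℝ) 1, hh a b x * ∫ t in (0:ℝ)..1, f (pt a b x t) ^ 2 := by
    unfold Nf
    rw [T.int (F := fun p => f p ^ 2) (by fun_prop)]
    rfl
  have eB : ∫ x in Ioo (0:ℝ) 1, (f (pt a b x 0) ^ 2 + f (pt a b x 1) ^ 2) ≤ Nf (surf Ω) f := by
    unfold Nf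
    have := T.bdry_ge (F := fun p => f p ^ 2) (by fun_prop) (fun p => sq_nonneg _)
    refine le_trans (le_of_eq ?_) this
    congr 1
    funext x
    simp only [pt, hh, mul_zero, add_zero, mul_one, add_sub_cancel]
  have cN : Continuous (fun x => ∫ t in (0:ℝ)..1, f (pt a b x t) ^ 2) :=
    par_cont (F := fun q => f (pt a b q.1 q.2) ^ 2) (by fun_prop)
  have c0 : Continuous (fun x => pt a b x 0) := hp.comp (Continuous.prodMk_left 0)
  have c1 : Continuous (fun x => pt a b x 1) := hp.comp (Continuous.prodMk_left 1)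
  have hB := mul_le_mul_of_nonneg_left eB hα
  refine le_trans ?_ (sub_le_sub_right (add_le_add_right hB _) _)
  have m1 : Continuous (fun x => (2 * α - (Λ + 16 * α ^ 2) * hh a b x) * uu a b f x ^ 2) := by
    fun_prop
  have m2 : Continuous (fun x => 1 / 8 * (hh a b x * YY a b f x)) := by fun_prop
  have m3 : Continuous (fun x => hh a b x * (XX a b f x + YY a b f x)) := by fun_prop
  have m4 : Continuous (fun x => α * (f (pt a b x 0) ^ 2 + f (pt a b x 1) ^ 2)) := by fun_prop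
  have m5 : Continuous (fun x => Λ * (hh a b x * ∫ t in (0:ℝ)..1, f (pt a b x t) ^ 2)) := by
    fun_prop
  have m12 : Continuous (fun x => EE a b f x +
      (2 * α - (Λ + 16 * α ^ 2) * hh a b x) * uu a b f x ^ 2) := by fun_prop
  have m34 : Continuous (fun x => hh a b x * (XX a b f x + YY a b f x) +
      α * (f (pt a b x 0) ^ 2 + f (pt a b x 1) ^ 2)) := by fun_prop
  rw [eD, eN, ← integral_const_mul, ← integral_const_mul, ← integral_const_mul,
    ← integral_add (ioo_int cE) (ioo_int m1),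
    ← integral_add (ioo_int m12) (ioo_int m2),
    ← integral_add (ioo_int m3) (ioo_int m4),
    ← integral_sub (ioo_int m34) (ioo_int m5)]
  apply setIntegral_mono_on (ioo_int (m12.add m2)) (ioo_int (m34.sub m5))
    measurableSet_Ioo
  intro x hx
  have hpos : 0 < hh a b x := by
    have := T.lt x hx
    unfold hh
    linarith
  have hdiff : Differentiable ℝ f := hf.differentiable (by norm_num)
  have hder : ∀ t, HasDerivAt (fun t => f (pt a b x t))
      (hh a b x * fderiv ℝ f (pt a b x t) (bb 1)) t := by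
    intro t
    have h1 := (hdiff (pt a b x t)).hasFDerivAt
    have h2 : HasDerivAt (fun t => pt a b x t) (hh a b x • bb 1) t := by
      have e : (fun t => pt a b x t) = fun t => (x • bb 0 + a x • bb 1) + t • (hh a b x • bb 1) := by
        funext t
        rw [pt, P2_lin]
        module
      rw [e]
      have := ((hasDerivAt_id t).smul_const (hh a b x • bb 1)).const_add (x • bb 0 + a x • bb 1)
      simpa using this
    have h3 := h1.comp_hasDerivAt t h2
    rw [map_smul, smul_eq_mul] at h3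
    exact h3
  have c2 : Continuous (fun t => pt a b x t) := hp.comp (Continuous.prodMk_right x)
  have hs := slice1 hder (by fun_prop) (Λ := Λ) hpos hα hΛ
  have eK : ∫ t in (0:ℝ)..1, (hh a b x * fderiv ℝ f (pt a b x t) (bb 1)) ^ 2 =
      hh a b x ^ 2 * YY a b f x := by
    unfold YY
    rw [← intervalIntegral.integral_const_mul]
    congr 1
    funext t
    ring
  rw [eK] at hs
  have eu : ∫ t in (0:ℝ)..1, f (pt a b x t) = uu a b f x := rfl
  rw [eu] at hs
  have e1 : hh a b x ^ 2 * YY a b f x / hh a b x = hh a b x * YY a b f x := by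
    field_simp
  have e2 : hh a b x ^ 2 * YY a b f x / (2 * hh a b x) = hh a b x * YY a b f x / 2 := by
    field_simp
  rw [e1, e2] at hs
  have hYn := YY_nonneg (a := a) (b := b) f x
  have hhM : hh a b x ^ 2 ≤ M ^ 2 := pow_le_pow_left₀ hpos.le (T.hM x) 2
  have h8 : 1 / 8 ≤ 1 / 4 - Λ * hh a b x ^ 2 := by
    have := mul_le_mul_of_nonneg_left hhM hΛ
    linarith
  have h9 : 1 / 8 * (hh a b x * YY a b f x) ≤ (1 / 4 - Λ * hh a b x ^ 2) * (hh a b x * YY a b f x) :=
    mul_le_mul_of_nonneg_right h8 (by positivity)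
  simp only [Pi.add_apply, Pi.sub_apply]
  unfold EE
  have e3 : ∀ c : ℝ, Λ * (hh a b x * c) = Λ * hh a b x * c := by intro c; ring
  rw [e3]
  nlinarith

end Thin

end Pool.Agent.Helper88.Gap
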