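import Mathlib
import Pool.Agent.Helper88.Gap.Slice
import Pool.Agent.Helper88.Gap.Iso

open MeasureTheory Set Metric Filter Topology

noncomputable section

namespace Pool.Agent.Helper88.Gap

/-- cutoffs -/
def rho (x : ℝ) : ℝ := Real.smoothTransition (24 * x - 1)
def chi (x : ℝ) : ℝ := Real.sin (Real.pi / 2 * rho x)
def chm (x : ℝ) : ℝ := chi (-x)
def xi (x : ℝ) : ℝ := Real.cos (Real.pi / 2 * (rho x + rho (-x)))

lemma rho_zero {x : ℝ} (h : x ≤ 1 / 24) : rho x = 0 :=
  Real.smoothTransition.zero_of_nonpos (by linarith)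
lemma rho_one {x : ℝ} (h : 1 / 12 ≤ x) : rho x = 1 :=
  Real.smoothTransition.one_of_one_le (by linarith)

lemma rho_smooth : ContDiff ℝ 1 rho := by
  have h : ContDiff ℝ 1 Real.smoothTransition := Real.smoothTransition.contDiff
  exact h.comp (by fun_prop)
lemma chi_smooth : ContDiff ℝ 1 chi :=
  Real.contDiff_sin.comp (contDiff_const.mul rho_smooth)
lemma chm_smooth : ContDiff ℝ 1 chm := chi_smooth.comp contDiff_neg
lemma xi_smooth : ContDiff ℝ 1 xi :=
  Real.contDiff_cos.comp (contDiff_const.mul (rho_smooth.add (rho_smooth.comp contDiff_neg)))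

lemma chi_zero {x : ℝ} (h : x ≤ 1 / 24) : chi x = 0 := by
  rw [chi, rho_zero h]; simp
lemma chi_one {x : ℝ} (h : 1 / 12 ≤ x) : chi x = 1 := by
  rw [chi, rho_one h]; simp
lemma chm_zero {x : ℝ} (h : -(1 / 24) ≤ x) : chm x = 0 := chi_zero (by linarith)
lemma chm_one {x : ℝ} (h : x ≤ -(1 / 12)) : chm x = 1 := chi_one (by linarith)
lemma xi_zero {x : ℝ} (h : 1 / 12 ≤ x) : xi x = 0 := by
  rw [xi, rho_one h, rho_zero (by linarith)]; simp
lemma xi_zero' {x : ℝ} (h : x ≤ -(1 / 12)) : xi x = 0 := by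
  rw [xi, rho_one (x := -x) (by linarith), rho_zero (x := x) (by linarith)]; simp

lemma cut_sum (x : ℝ) : chi x ^ 2 + chm x ^ 2 + xi x ^ 2 = 1 := by
  rcases le_total x 0 with h | h
  · rw [chi_zero (by linarith), chm, chi, xi, rho_zero (x := x) (by linarith), zero_add]
    have := Real.sin_sq_add_cos_sq (Real.pi / 2 * rho (-x))
    linarith
  · rw [chm_zero (by linarith), chi, xi, rho_zero (x := -x) (by linarith), add_zero]
    have := Real.sin_sq_add_cos_sq (Real.pi / 2 * rho x)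
    linarith

lemma cut_deriv (x : ℝ) : chi x * deriv chi x + chm x * deriv chm x + xi x * deriv xi x = 0 := by
  have d1 := ((chi_smooth.differentiable (by norm_num)) x).hasDerivAt
  have d2 := ((chm_smooth.differentiable (by norm_num)) x).hasDerivAt
  have d3 := ((xi_smooth.differentiable (by norm_num)) x).hasDerivAt
  have h : HasDerivAt (fun x => chi x ^ 2 + chm x ^ 2 + xi x ^ 2)
      (2 * chi x * deriv chi x + 2 * chm x * deriv chm x + 2 * xi x * deriv xi x) x := by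
    have := ((d1.pow 2).add (d2.pow 2)).add (d3.pow 2)
    convert! this using 1
    simp
  have h0 : (fun x => chi x ^ 2 + chm x ^ 2 + xi x ^ 2) = fun _ => (1:ℝ) := funext cut_sum
  rw [h0] at h
  have := h.unique (hasDerivAt_const x 1)
  linarith

lemma cut_bound : ∃ K : ℝ, 0 ≤ K ∧ ∀ x, deriv chi x ^ 2 + deriv chm x ^ 2 + deriv xi x ^ 2 ≤
    if |x| < 1 / 8 then K else 0 := by
  have c1 : Continuous (deriv chi) := chi_smooth.continuous_deriv (by norm_num)
  have c2 : Continuous (deriv chm) := chm_smooth.continuous_deriv (by norm_num)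
  have c3 : Continuous (deriv xi) := xi_smooth.continuous_deriv (by norm_num)
  have hc : Continuous (fun x => deriv chi x ^ 2 + deriv chm x ^ 2 + deriv xi x ^ 2) := by fun_prop
  obtain ⟨K, hK⟩ := isCompact_Icc.exists_bound_of_continuousOn (s := Icc (-1:ℝ) 1) hc.continuousOn
  refine ⟨K, (norm_nonneg _).trans (hK 0 (by simp)), ?_⟩
  intro x
  split_ifs with h
  · have := hK x ⟨by linarith [(abs_lt.mp h).1], by linarith [(abs_lt.mp h).2]⟩
    exact (le_abs_self _).trans this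
  · rw [not_lt, le_abs] at h
    rcases h with h | h
    · have hn : Ioi (1/12 : ℝ) ∈ 𝓝 x := Ioi_mem_nhds (by linarith)
      have e1 : chi =ᶠ[𝓝 x] fun _ => 1 := by
        filter_upwards [hn] with y hy
        exact chi_one (le_of_lt hy)
      have e2 : chm =ᶠ[𝓝 x] fun _ => 0 := by
        filter_upwards [hn] with y hy
        have : (1/12:ℝ) < y := hy
        exact chm_zero (by linarith)
      have e3 : xi =ᶠ[𝓝 x] fun _ => 0 := by
        filter_upwards [hn] with y hy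
        exact xi_zero (le_of_lt hy)
      rw [e1.deriv_eq, e2.deriv_eq, e3.deriv_eq]
      simp
    · have hn : Iio (-(1/12) : ℝ) ∈ 𝓝 x := Iio_mem_nhds (by linarith)
      have e1 : chi =ᶠ[𝓝 x] fun _ => 0 := by
        filter_upwards [hn] with y hy
        have : y < -(1/12:ℝ) := hy
        exact chi_zero (by linarith)
      have e2 : chm =ᶠ[𝓝 x] fun _ => 1 := by
        filter_upwards [hn] with y hy
        exact chm_one (le_of_lt hy)
      have e3 : xi =ᶠ[𝓝 x] fun _ => 0 := by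
        filter_upwards [hn] with y hy
        exact xi_zero' (le_of_lt hy)
      rw [e1.deriv_eq, e2.deriv_eq, e3.deriv_eq]
      simp

/-- product with a function of the first coordinate -/
def cm (c : ℝ → ℝ) (v : En 2 → ℝ) : En 2 → ℝ := fun p => c (p 0) * v p

lemma x0_contDiff : ContDiff ℝ 1 (fun p : En 2 => p 0) :=
  (EuclideanSpace.proj 0 : En 2 →L[ℝ] ℝ).contDiff

lemma cm_smooth {c : ℝ → ℝ} (hc : ContDiff ℝ 1 c) {v : En 2 → ℝ} (hv : ContDiff ℝ 1 v) :
    ContDiff ℝ 1 (cm c v) := (hc.comp x0_contDiff).mul hv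

lemma fderiv_cm {c : ℝ → ℝ} (hc : ContDiff ℝ 1 c) {v : En 2 → ℝ} (hv : ContDiff ℝ 1 v)
    (p : En 2) :
    fderiv ℝ (cm c v) p = c (p 0) • fderiv ℝ v p +
      v p • (deriv c (p 0) • (EuclideanSpace.proj 0 : En 2 →L[ℝ] ℝ)) := by
  have h1 : HasFDerivAt (fun p : En 2 => p 0) (EuclideanSpace.proj 0 : En 2 →L[ℝ] ℝ) p :=
    (EuclideanSpace.proj 0 : En 2 →L[ℝ] ℝ).hasFDerivAt
  have h2 := ((hc.differentiable (by norm_num)) (p 0)).hasDerivAt
  have h3 := h2.comp_hasFDerivAt p h1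
  have h4 := ((hv.differentiable (by norm_num)) p).hasFDerivAt
  exact (h3.mul h4).fderiv

lemma normsq_cm {c : ℝ → ℝ} (hc : ContDiff ℝ 1 c) {v : En 2 → ℝ} (hv : ContDiff ℝ 1 v)
    (p : En 2) :
    ‖fderiv ℝ (cm c v) p‖ ^ 2 = (c (p 0) * fderiv ℝ v p (bb 0) + deriv c (p 0) * v p) ^ 2 +
      (c (p 0) * fderiv ℝ v p (bb 1)) ^ 2 := by
  rw [normsq, fderiv_cm hc hv]
  simp [bb, mul_comm]

lemma ims_pt {v : En 2 → ℝ} (hv : ContDiff ℝ 1 v) (p : En 2) :
    ‖fderiv ℝ (cm chi v) p‖ ^ 2 + ‖fderiv ℝ (cm chm v) p‖ ^ 2 + ‖fderiv ℝ (cm xi v) p‖ ^ 2 =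
    ‖fderiv ℝ v p‖ ^ 2 +
      (deriv chi (p 0) ^ 2 + deriv chm (p 0) ^ 2 + deriv xi (p 0) ^ 2) * v p ^ 2 := by
  rw [normsq_cm chi_smooth hv, normsq_cm chm_smooth hv, normsq_cm xi_smooth hv, normsq]
  have h1 := cut_sum (p 0)
  have h2 := cut_deriv (p 0)
  generalize fderiv ℝ v p (bb 0) = a0
  generalize fderiv ℝ v p (bb 1) = a1
  linear_combination (a0 ^ 2 + a1 ^ 2) * h1 + 2 * a0 * v p * h2

/-- the central region -/
def Cc : Set (En 2) := {p | |p 0| < 1 / 8}

lemma Cc_meas : MeasurableSet Cc := by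
  have := coord_cont 0
  exact (isOpen_lt (by fun_prop) (by fun_prop)).measurableSet

/-- reflection invariance of the data -/
structure SymM (μ ν : Measure (En 2)) (V : En 2 → ℝ) (σ : En 2 ≃ₗᵢ[ℝ] En 2) : Prop where
  mμ : MeasurePreserving σ μ μ
  mν : MeasurePreserving σ ν ν
  s0 : ∀ p, (σ p) 0 = - p 0
  sV : ∀ p, V (σ p) = V p

lemma Nf_refl {μ : Measure (En 2)} {σ : En 2 ≃ₗᵢ[ℝ] En 2} (h : MeasurePreserving σ μ μ)
    (φ : En 2 → ℝ) :
    Nf μ (φ ∘ σ) = Nf μ φ :=
  h.integral_comp σ.toHomeomorph.measurableEmbedding (fun p => φ p ^ 2)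

lemma Qf_refl {μ ν : Measure (En 2)} {V : En 2 → ℝ} {σ : En 2 ≃ₗᵢ[ℝ] En 2} (h : SymM μ ν V σ)
    (α : ℝ) {φ : En 2 → ℝ}
    (hφ : ContDiff ℝ 1 φ) : Qf μ ν V α (φ ∘ σ) = Qf μ ν V α φ := by
  have e : ∀ p, ‖fderiv ℝ (φ ∘ σ) p‖ ^ 2 + V p * (φ ∘ σ) p ^ 2 =
      (fun q => ‖fderiv ℝ φ q‖ ^ 2 + V q * φ q ^ 2) (σ p) := by
    intro p
    have h1 := ((hφ.differentiable (by norm_num)) (σ p)).hasFDerivAt
    have h2 : HasFDerivAt (σ : En 2 → En 2) ((σ : En 2 ≃L[ℝ] En 2) : En 2 →L[ℝ] En 2) p :=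
      (σ : En 2 ≃L[ℝ] En 2).hasFDerivAt
    have h3 := (h1.comp p h2).fderiv
    have h4 : ‖fderiv ℝ (φ ∘ σ) p‖ = ‖fderiv ℝ φ (σ p)‖ := by
      rw [h3]
      exact ContinuousLinearMap.opNorm_comp_linearIsometryEquiv _ _
    simp only [Function.comp_apply]
    rw [h4, h.sV]
  have e2 := Nf_refl h.mν φ
  unfold Nf at e2
  unfold Qf
  rw [e2]
  congr 1
  simp_rw [e]
  exact h.mμ.integral_comp σ.toHomeomorph.measurableEmbedding
    (fun q => ‖fderiv ℝ φ q‖ ^ 2 + V q * φ q ^ 2)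

lemma pair_of {μ ν : Measure (En 2)} {V : En 2 → ℝ} {σ : En 2 ≃ₗᵢ[ℝ] En 2} (hs : SymM μ ν V σ)
    {α : ℝ} {φ : En 2 → ℝ}
    (hφ : ContDiff ℝ 1 φ) (hN : 0 < Nf μ φ) (s : ℝ) (hz : ∀ p, s * p 0 ≤ 1 / 24 → φ p = 0) :
    Pair μ ν V α φ (φ ∘ σ) := by
  have hσ : ContDiff ℝ 1 (φ ∘ σ) := hφ.comp (σ : En 2 ≃L[ℝ] En 2).contDiff
  refine ⟨hφ, hσ, hN, Nf_refl hs.mμ φ, Qf_refl hs α hφ, ?_, ?_⟩
  · intro p
    rcases le_or_gt (s * p 0) (1 / 24) with h | h
    · exact Or.inl (hz p h)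
    · right
      rw [Function.comp_apply]
      apply hz
      rw [hs.s0]
      linarith
  · intro p
    have c0 := coord_cont 0
    rcases lt_or_ge (s * p 0) (1 / 24) with h | h
    · left
      have hn : {q : En 2 | s * q 0 < 1 / 24} ∈ 𝓝 p :=
        (isOpen_lt (by fun_prop) (by fun_prop)).mem_nhds h
      have he : φ =ᶠ[𝓝 p] fun _ => 0 := by
        filter_upwards [hn] with q hq
        exact hz q (le_of_lt hq)
      rw [he.fderiv_eq]
      simp
    · right
      have hsc : Continuous (fun q : En 2 => (σ q) 0) := (coord_cont 0).comp σ.continuous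
      have hn : {q : En 2 | s * (σ q) 0 < 1 / 24} ∈ 𝓝 p := by
        refine (isOpen_lt (by fun_prop) (by fun_prop)).mem_nhds ?_
        simp only [mem_ofPred_eq, hs.s0]
        linarith
      have he : (φ ∘ σ) =ᶠ[𝓝 p] fun _ => 0 := by
        filter_upwards [hn] with q hq
        exact hz _ (le_of_lt hq)
      rw [he.fderiv_eq]
      simp

lemma Nf_cut {μ : Measure (En 2)} (hμ : Good μ) {v : En 2 → ℝ} (hv : Continuous v) :
    Nf μ (cm chi v) + Nf μ (cm chm v) + Nf μ (cm xi v) = Nf μ v := by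
  have c0 := coord_cont 0
  have c1 : Continuous chi := chi_smooth.continuous
  have c2 : Continuous chm := chm_smooth.continuous
  have c3 : Continuous xi := xi_smooth.continuous
  unfold Nf cm
  rw [← integral_add (hμ _ (by fun_prop)) (hμ _ (by fun_prop)),
    ← integral_add (hμ _ (by fun_prop)) (hμ _ (by fun_prop))]
  congr 1
  funext p
  have := cut_sum (p 0)
  linear_combination (v p ^ 2) * this

lemma Pf_cut {μ : Measure (En 2)} (hμ : Good μ) {V v : En 2 → ℝ} (hV : Continuous V)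
    (hv : Continuous v) :
    Pf μ V (cm chi v) + Pf μ V (cm chm v) + Pf μ V (cm xi v) = Pf μ V v := by
  have c0 := coord_cont 0
  have c1 : Continuous chi := chi_smooth.continuous
  have c2 : Continuous chm := chm_smooth.continuous
  have c3 : Continuous xi := xi_smooth.continuous
  unfold Pf cm
  rw [← integral_add (hμ _ (by fun_prop)) (hμ _ (by fun_prop)),
    ← integral_add (hμ _ (by fun_prop)) (hμ _ (by fun_prop))]
  congr 1
  funext p
  have := cut_sum (p 0)
  linear_combination (V p * v p ^ 2) * this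

lemma Df_cut {μ : Measure (En 2)} (hμ : Good μ) {v : En 2 → ℝ} (hv : ContDiff ℝ 1 v) :
    Df μ (cm chi v) + Df μ (cm chm v) + Df μ (cm xi v) = Df μ v +
      ∫ p, (deriv chi (p 0) ^ 2 + deriv chm (p 0) ^ 2 + deriv xi (p 0) ^ 2) * v p ^ 2 ∂μ := by
  have c0 := coord_cont 0
  have c1 : Continuous (deriv chi) := chi_smooth.continuous_deriv (by norm_num)
  have c2 : Continuous (deriv chm) := chm_smooth.continuous_deriv (by norm_num)
  have c3 : Continuous (deriv xi) := xi_smooth.continuous_deriv (by norm_num)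
  have cv := hv.continuous
  have f0 : Continuous (fderiv ℝ v) := hv.continuous_fderiv (by norm_num)
  have f1 : Continuous (fderiv ℝ (cm chi v)) :=
    (cm_smooth chi_smooth hv).continuous_fderiv (by norm_num)
  have f2 : Continuous (fderiv ℝ (cm chm v)) :=
    (cm_smooth chm_smooth hv).continuous_fderiv (by norm_num)
  have f3 : Continuous (fderiv ℝ (cm xi v)) :=
    (cm_smooth xi_smooth hv).continuous_fderiv (by norm_num)
  unfold Df
  rw [← integral_add (hμ _ (by fun_prop)) (hμ _ (by fun_prop)),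
    ← integral_add (hμ _ (by fun_prop)) (hμ _ (by fun_prop)),
    ← integral_add (hμ _ (by fun_prop)) (hμ _ (by fun_prop))]
  congr 1
  funext p
  exact ims_pt hv p

/-- splitting a near minimiser which is small in the centre -/
lemma split_bound {μ ν : Measure (En 2)} (hμ : Good μ) (hν : Good ν) {V : En 2 → ℝ}
    (hV : Pot μ V) {σ : En 2 ≃ₗᵢ[ℝ] En 2}
    (hs : SymM μ ν V σ) {α : ℝ} (hα : 0 ≤ α) {v : En 2 → ℝ} (hv : ContDiff ℝ 1 v)
    (hN : 0 < Nf μ v) {η δ K : ℝ} (hη : 0 ≤ η) (hK : 0 ≤ K)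
    (hKb : ∀ x, deriv chi x ^ 2 + deriv chm x ^ 2 + deriv xi x ^ 2 ≤
      if |x| < 1 / 8 then K else 0) (hδ0 : 0 ≤ δ) (hδ : δ < 1)
    (h1 : Qf μ ν V α v ≤ (lamf μ ν V α 1 + η) * Nf μ v)
    (h2 : ∫ p, Cc.indicator (fun p => v p ^ 2) p ∂μ ≤ δ * Nf μ v) :
    ∃ φ ψ, Pair μ ν V α φ ψ ∧
      Qf μ ν V α φ ≤ (lamf μ ν V α 1 + (η + K * δ) / (1 - δ)) * Nf μ φ := by
  have c0 := coord_cont 0
  have cv := hv.continuous
  set lam := lamf μ ν V α 1 with hlam
  have k1 := Nf_cut hμ cv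
  have k2 := Nf_cut hν cv
  have k2' := Pf_cut hμ hV.c cv
  have k3 := Df_cut hμ hv
  have hci : Integrable (Cc.indicator (fun p => v p ^ 2)) μ :=
    (hμ _ (by fun_prop)).indicator Cc_meas
  have c1 : Continuous (deriv chi) := chi_smooth.continuous_deriv (by norm_num)
  have c2 : Continuous (deriv chm) := chm_smooth.continuous_deriv (by norm_num)
  have c3 : Continuous (deriv xi) := xi_smooth.continuous_deriv (by norm_num)
  have c4 : Continuous xi := xi_smooth.continuous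
  have k4 : ∫ p, (deriv chi (p 0) ^ 2 + deriv chm (p 0) ^ 2 + deriv xi (p 0) ^ 2) * v p ^ 2 ∂μ
      ≤ K * ∫ p, Cc.indicator (fun p => v p ^ 2) p ∂μ := by
    rw [← integral_const_mul]
    apply integral_mono (hμ _ (by fun_prop)) (hci.const_mul K)
    intro p
    have hb := hKb (p 0)
    by_cases hp : |p 0| < 1 / 8
    · rw [if_pos hp] at hb
      have : p ∈ Cc := hp
      simp only [indicator_of_mem this]
      exact mul_le_mul_of_nonneg_right hb (sq_nonneg _)
    · rw [if_neg hp] at hb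
      have : p ∉ Cc := hp
      simp only [indicator_of_notMem this, mul_zero]
      exact mul_nonpos_of_nonpos_of_nonneg hb (sq_nonneg _)
  have k5 : Nf μ (cm xi v) ≤ ∫ p, Cc.indicator (fun p => v p ^ 2) p ∂μ := by
    unfold Nf cm
    apply integral_mono (hμ _ (by fun_prop)) hci
    intro p
    by_cases hp : |p 0| < 1 / 8
    · have : p ∈ Cc := hp
      simp only [indicator_of_mem this]
      have := cut_sum (p 0)
      have h3 : xi (p 0) ^ 2 ≤ 1 := by nlinarith [sq_nonneg (chi (p 0)), sq_nonneg (chm (p 0))]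
      rw [mul_pow]
      nlinarith [sq_nonneg (v p)]
    · have : p ∉ Cc := hp
      simp only [indicator_of_notMem this]
      rw [not_lt, le_abs] at hp
      have : xi (p 0) = 0 := by
        rcases hp with hp | hp
        · exact xi_zero (by linarith)
        · exact xi_zero' (by linarith)
      rw [this]
      simp
  have k6 := lam1_le' (μ := μ) (ν := ν) hμ hV hα (cm_smooth xi_smooth hv)
  rw [← hlam] at k6
  have n1 := Nf_nonneg μ (cm chi v)
  have n2 := Nf_nonneg μ (cm chm v)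
  have n3 := Nf_nonneg μ (cm xi v)
  have q1 := Qf_nonneg (μ := μ) (ν := ν) hμ hV hα (cm_smooth chi_smooth hv)
  have q2 := Qf_nonneg (μ := μ) (ν := ν) hμ hV hα (cm_smooth chm_smooth hv)
  have hQ : Qf μ ν V α (cm chi v) + Qf μ ν V α (cm chm v) + Qf μ ν V α (cm xi v) =
      Qf μ ν V α v +
      ∫ p, (deriv chi (p 0) ^ 2 + deriv chm (p 0) ^ 2 + deriv xi (p 0) ^ 2) * v p ^ 2 ∂μ := by
    rw [Qf_eq hμ hV α (cm_smooth chi_smooth hv), Qf_eq hμ hV α (cm_smooth chm_smooth hv),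
      Qf_eq hμ hV α (cm_smooth xi_smooth hv), Qf_eq hμ hV α hv]
    linear_combination k3 + k2' + α * k2
  set I := ∫ p, Cc.indicator (fun p => v p ^ 2) p ∂μ with hI
  set κ := (η + K * δ) / (1 - δ) with hκ
  have hδ' : 0 < 1 - δ := by linarith
  have hκ0 : 0 ≤ κ := by positivity
  set M := Nf μ (cm chi v) + Nf μ (cm chm v) with hM
  have hMge : (1 - δ) * Nf μ v ≤ M := by
    have : M = Nf μ v - Nf μ (cm xi v) := by linarith
    nlinarith
  have hMpos : 0 < M := lt_of_lt_of_le (mul_pos hδ' hN) hMge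
  have hlamnn : 0 ≤ lam := lamf_nonneg hμ hV hα 1
  have hκM : (η + K * δ) * Nf μ v ≤ κ * M := by
    have : κ * ((1 - δ) * Nf μ v) = (η + K * δ) * Nf μ v := by
      rw [hκ]
      field_simp
    rw [← this]
    exact mul_le_mul_of_nonneg_left hMge hκ0
  have hmain : Qf μ ν V α (cm chi v) + Qf μ ν V α (cm chm v) ≤ (lam + κ) * M := by
    have e1 : K * I ≤ K * (δ * Nf μ v) := mul_le_mul_of_nonneg_left h2 hK
    have e2 : lam * M + lam * Nf μ (cm xi v) = lam * Nf μ v := by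
      rw [hM, ← k1]; ring
    nlinarith
  have cases : (0 < Nf μ (cm chi v) ∧ Qf μ ν V α (cm chi v) ≤ (lam + κ) * Nf μ (cm chi v)) ∨
      (0 < Nf μ (cm chm v) ∧ Qf μ ν V α (cm chm v) ≤ (lam + κ) * Nf μ (cm chm v)) := by
    rcases n1.eq_or_lt with z1 | z1
    · right
      rw [← z1, zero_add] at hM
      rw [← hM]
      exact ⟨hMpos, by linarith⟩
    · rcases n2.eq_or_lt with z2 | z2
      · left
        rw [← z2, add_zero] at hM
        rw [← hM]
        exact ⟨hMpos, by linarith⟩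
      · by_cases hc : Qf μ ν V α (cm chi v) ≤ (lam + κ) * Nf μ (cm chi v)
        · exact Or.inl ⟨z1, hc⟩
        · right
          refine ⟨z2, ?_⟩
          rw [hM, mul_add] at hmain
          linarith [not_le.mp hc]
  rcases cases with ⟨hp, hq⟩ | ⟨hp, hq⟩
  · refine ⟨_, _, pair_of hs (cm_smooth chi_smooth hv) hp 1 ?_, hq⟩
    intro p h
    rw [one_mul] at h
    rw [cm, chi_zero h, zero_mul]
  · refine ⟨_, _, pair_of hs (cm_smooth chm_smooth hv) hp (-1) ?_, hq⟩
    intro p h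
    rw [cm, chm_zero (by linarith), zero_mul]

end Pool.Agent.Helper88.Gap
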