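import Mathlib
import Pool.Agent.Helper88.Gap.Cut
import Pool.Agent.Helper88.Gap.Perim

open MeasureTheory Set Metric Filter Topology

noncomputable section

namespace Pool.Agent.Helper88.Gap

/-- height function of the house -/
def hb (L ε κ x : ℝ) : ℝ := ε + κ * (L - |x|)

/-- the house -/
def Hs (L ε κ : ℝ) : Set (En 2) := {p | |p 0| < L ∧ 0 < p 1 ∧ p 1 < hb L ε κ (p 0)}

lemma hb_cont (L ε κ : ℝ) : Continuous (hb L ε κ) := by
  unfold hb; fun_prop

lemma hb_ge {L ε κ x : ℝ} (hκ : 0 ≤ κ) (hx : |x| ≤ L) : ε ≤ hb L ε κ x := by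
  unfold hb
  have := mul_nonneg hκ (sub_nonneg.mpr hx)
  linarith

lemma hb_le {L ε κ x : ℝ} (hκ : 0 ≤ κ) : hb L ε κ x ≤ ε + κ * L := by
  unfold hb
  have := mul_nonneg hκ (abs_nonneg x)
  nlinarith

/-- admissible parameters -/
structure HP (L ε κ : ℝ) : Prop where
  L0 : 0 < L
  ε0 : 0 < ε
  κ0 : 0 ≤ κ
  κL : κ * L ≤ ε

variable {L ε κ : ℝ}

lemma HP.hb_pos (h : HP L ε κ) {x : ℝ} (hx : |x| ≤ L) : 0 < hb L ε κ x :=
  lt_of_lt_of_le h.ε0 (hb_ge h.κ0 hx)

lemma HP.hb_le2 (h : HP L ε κ) (x : ℝ) : hb L ε κ x ≤ 2 * ε := by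
  have := hb_le (x := x) (L := L) (ε := ε) h.κ0
  linarith [h.κL]

lemma Hs_isOpen (L ε κ : ℝ) : IsOpen (Hs L ε κ) := by
  have c0 := coord_cont 0
  have c1 := coord_cont 1
  have cb := hb_cont L ε κ
  have : Hs L ε κ = {p | |p 0| < L} ∩ ({p | 0 < p 1} ∩ {p | p 1 < hb L ε κ (p 0)}) := by
    ext p
    simp [Hs]
  rw [this]
  exact (isOpen_lt (by fun_prop) (by fun_prop)).inter
    ((isOpen_lt (by fun_prop) (by fun_prop)).inter (isOpen_lt (by fun_prop) (by fun_prop)))

lemma HP.convex (h : HP L ε κ) : Convex ℝ (Hs L ε κ) := by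
  intro p hp q hq s t hs ht hst
  obtain ⟨p1, p2, p3⟩ := hp
  obtain ⟨q1, q2, q3⟩ := hq
  have e0 : (s • p + t • q) 0 = s * p 0 + t * q 0 := by simp
  have e1 : (s • p + t • q) 1 = s * p 1 + t * q 1 := by simp
  have habs : |s * p 0 + t * q 0| ≤ s * |p 0| + t * |q 0| := by
    refine (abs_add_le _ _).trans ?_
    rw [abs_mul, abs_mul, abs_of_nonneg hs, abs_of_nonneg ht]
  have hst2 : (0 < s ∧ 0 ≤ t) ∨ (0 ≤ s ∧ 0 < t) := by
    rcases hs.eq_or_lt with h1 | h1
    · right; exact ⟨hs, by linarith⟩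
    · left; exact ⟨h1, ht⟩
  have key : ∀ {A B C : ℝ}, A < C → B < C → s * A + t * B < C := by
    intro A B C h1 h2
    rcases hst2 with ⟨h3, h4⟩ | ⟨h3, h4⟩
    · have := mul_lt_mul_of_pos_left h1 h3
      have := mul_le_mul_of_nonneg_left h2.le h4
      calc s * A + t * B < s * C + t * C := by linarith
        _ = C := by rw [← add_mul, hst, one_mul]
    · have := mul_le_mul_of_nonneg_left h1.le h3
      have := mul_lt_mul_of_pos_left h2 h4
      calc s * A + t * B < s * C + t * C := by linarith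
        _ = C := by rw [← add_mul, hst, one_mul]
  refine ⟨?_, ?_, ?_⟩
  · rw [e0]
    exact lt_of_le_of_lt habs (key p1 q1)
  · rw [e1]
    rcases hst2 with ⟨h3, h4⟩ | ⟨h3, h4⟩
    · have := mul_pos h3 p2
      have := mul_nonneg h4 q2.le
      linarith
    · have := mul_nonneg h3 p2.le
      have := mul_pos h4 q2
      linarith
  · rw [e0, e1]
    have h1 : hb L ε κ (s * p 0 + t * q 0) ≥ s * hb L ε κ (p 0) + t * hb L ε κ (q 0) := by
      unfold hb
      have h2 := mul_le_mul_of_nonneg_left habs h.κ0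
      have h3 : s * (ε + κ * (L - |p 0|)) + t * (ε + κ * (L - |q 0|)) =
        (s + t) * (ε + κ * L) - κ * (s * |p 0| + t * |q 0|) := by ring
      rw [h3, hst]
      linarith
    refine lt_of_lt_of_le ?_ h1
    rcases hst2 with ⟨h3, h4⟩ | ⟨h3, h4⟩
    · have := mul_lt_mul_of_pos_left p3 h3
      have := mul_le_mul_of_nonneg_left q3.le h4
      linarith
    · have := mul_le_mul_of_nonneg_left p3.le h3
      have := mul_lt_mul_of_pos_left q3 h4
      linarith

lemma HP.nonempty (h : HP L ε κ) : (Hs L ε κ).Nonempty := by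
  refine ⟨P2 0 (ε / 2), ?_, ?_, ?_⟩
  · simp [h.L0]
  · simp [h.ε0]
  · rw [P2_0, P2_1]
    have := hb_ge (L := L) (ε := ε) (x := 0) h.κ0 (by simp [h.L0.le])
    linarith [h.ε0]

lemma HP.box (h : HP L ε κ) {p : En 2} (hp : p ∈ Hs L ε κ) :
    p 0 ∈ Icc (-L) L ∧ p 1 ∈ Icc 0 (2 * ε) := by
  obtain ⟨p1, p2, p3⟩ := hp
  have := abs_le.mp p1.le
  exact ⟨this, p2.le, p3.le.trans (h.hb_le2 _)⟩

lemma HP.bounded (h : HP L ε κ) : Bornology.IsBounded (Hs L ε κ) := by
  have hb : Bornology.IsBounded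
      ((fun q : ℝ × ℝ => P2 q.1 q.2) '' (Icc (-L) L ×ˢ Icc 0 (2 * ε))) :=
    ((isCompact_Icc.prod isCompact_Icc).image P2_cont).isBounded
  apply hb.subset
  intro p hp
  obtain ⟨h0, h1⟩ := h.box hp
  exact ⟨(p 0, p 1), ⟨h0, h1⟩, P2_eta p⟩

/-- the measures -/
def muH (L ε κ : ℝ) : Measure (En 2) := volume.restrict (Hs L ε κ)

lemma HP.good (h : HP L ε κ) : Good (muH L ε κ) := by
  intro F hF
  exact (hF.continuousOn.integrableOn_compact h.bounded.isCompact_closure).mono_set subset_closure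

/-- iterated integrals over the house -/
lemma HP.int (h : HP L ε κ) {F : En 2 → ℝ} (hFi : IntegrableOn F (Hs L ε κ)) :
    (∫ p in Hs L ε κ, F p = ∫ x in Ioo (-L) L, ∫ y in (0:ℝ)..(hb L ε κ x), F (P2 x y)) ∧
    IntegrableOn (fun x => ∫ y in (0:ℝ)..(hb L ε κ x), F (P2 x y)) (Ioo (-L) L) := by
  have hmp : MeasurePreserving e2.symm := e2_mp.symm
  set S : Set (ℝ × ℝ) := e2.symm ⁻¹' (Hs L ε κ) with hS
  have hSm : MeasurableSet S := e2.symm.measurable (Hs_isOpen L ε κ).measurableSet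
  have h1 : ∫ p in S, F (e2.symm p) = ∫ p in Hs L ε κ, F p :=
    hmp.setIntegral_preimage_emb e2.symm.measurableEmbedding F (Hs L ε κ)
  have h2 : IntegrableOn (F ∘ e2.symm) S := by
    rw [hS, hmp.integrableOn_comp_preimage e2.symm.measurableEmbedding]
    exact hFi
  have hmem : ∀ x y, (x, y) ∈ S ↔ x ∈ Ioo (-L) L ∧ y ∈ Ioo 0 (hb L ε κ x) := by
    intro x y
    rw [hS, mem_preimage, e2_symm]
    unfold Hs
    simp only [mem_ofPred_eq, P2_0, P2_1, abs_lt, mem_Ioo]
  have h3 := slice_integral (ν := (volume : Measure ℝ)) hSm (I := Ioo (-L) L)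
    measurableSet_Ioo (by
      rintro ⟨x, y⟩ hp
      exact ((hmem x y).mp hp).1) (F := F ∘ e2.symm) h2
  have key : ∀ x ∈ Ioo (-L) L, ∫ q in {q | (x, q) ∈ S}, (F ∘ e2.symm) (x, q) =
      ∫ y in (0:ℝ)..(hb L ε κ x), F (P2 x y) := by
    intro x hx
    have hsl : {y : ℝ | (x, y) ∈ S} = Ioo 0 (hb L ε κ x) := by
      ext y
      rw [mem_ofPred_eq, hmem]
      exact ⟨fun h => h.2, fun h => ⟨hx, h⟩⟩
    have hpos := h.hb_pos (abs_lt.mpr hx).le
    simp only [hsl, Function.comp_apply, e2_symm]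
    rw [← integral_Ioc_eq_integral_Ioo, ← intervalIntegral.integral_of_le hpos.le]
  rw [← h1]
  constructor
  · refine h3.1.trans ?_
    exact setIntegral_congr_fun measurableSet_Ioo key
  · exact h3.2.congr_fun key measurableSet_Ioo

/-- upper bound for the Hausdorff measure of a Lipschitz image -/
lemma haus_image_le {s : ℝ → En 2} {K : NNReal} (hs : Measurable s) (D : Set ℝ)
    (hK : LipschitzWith K s) :
    (μH[(1:ℝ)] : Measure (En 2)).restrict (s '' D) ≤
      (K : NNReal) • Measure.map s ((volume : Measure ℝ).restrict D) := by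
  rw [Measure.le_iff]
  intro S hS
  rw [Measure.restrict_apply hS, Measure.smul_apply, Measure.map_apply hs hS,
    Measure.restrict_apply (hs hS)]
  have h1 : S ∩ s '' D ⊆ s '' (s ⁻¹' S ∩ D) := by
    rintro p ⟨hp, q, hq, rfl⟩
    exact ⟨q, ⟨hp, hq⟩, rfl⟩
  calc μH[(1:ℝ)] (S ∩ s '' D) ≤ μH[(1:ℝ)] (s '' (s ⁻¹' S ∩ D)) := measure_mono h1
    _ ≤ (K : ENNReal) ^ (1:ℝ) * μH[(1:ℝ)] (s ⁻¹' S ∩ D) :=
        hK.hausdorffMeasure_image_le (by norm_num) _
    _ = _ := by
        rw [ENNReal.smul_def, smul_eq_mul, ENNReal.rpow_one, hausdorffMeasure_real]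

def topf (L ε κ : ℝ) (x : ℝ) : En 2 := P2 x (hb L ε κ x)

lemma topf_cont (L ε κ : ℝ) : Continuous (topf L ε κ) := P2_cont' continuous_id (hb_cont L ε κ)

def Kt (κ : ℝ) : NNReal := ⟨1 + κ ^ 2 / 2, by positivity⟩

lemma topf_lip (L ε κ : ℝ) : LipschitzWith (Kt κ) (topf L ε κ) := by
  apply LipschitzWith.of_dist_le_mul
  intro p q
  rw [Real.dist_eq]
  have h := P2_dist p (hb L ε κ p) q (hb L ε κ q)
  have hK : ((Kt κ : NNReal) : ℝ) = 1 + κ ^ 2 / 2 := rfl
  have h1 : (hb L ε κ p - hb L ε κ q) ^ 2 ≤ κ ^ 2 * (p - q) ^ 2 := by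
    have e : hb L ε κ p - hb L ε κ q = -(κ * (|p| - |q|)) := by unfold hb; ring
    rw [e, neg_sq, mul_pow]
    apply mul_le_mul_of_nonneg_left _ (sq_nonneg κ)
    rw [← sq_abs (|p| - |q|), ← sq_abs (p - q)]
    exact pow_le_pow_left₀ (abs_nonneg _) (abs_abs_sub_abs_le_abs_sub p q) 2
  have h2 : dist (P2 p (hb L ε κ p)) (P2 q (hb L ε κ q)) ^ 2 ≤
      ((1 + κ ^ 2 / 2) * |p - q|) ^ 2 := by
    rw [h, mul_pow, sq_abs]
    nlinarith [sq_nonneg (p - q), mul_nonneg (sq_nonneg (κ ^ 2)) (sq_nonneg (p - q))]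
  rw [hK]
  exact le_of_sq_le_sq h2 (by positivity)

lemma closure_Hs (L ε κ : ℝ) : closure (Hs L ε κ) ⊆
    {p | |p 0| ≤ L ∧ 0 ≤ p 1 ∧ p 1 ≤ hb L ε κ (p 0)} := by
  apply closure_minimal
  · rintro p ⟨h0, h1, h2⟩
    exact ⟨h0.le, h1.le, h2.le⟩
  · have h0 := coord_cont 0
    have h1 := coord_cont 1
    have hm := hb_cont L ε κ
    simp only [ofPred_and]
    exact (isClosed_le (by fun_prop) (by fun_prop)).inter
      ((isClosed_le (by fun_prop) (by fun_prop)).inter
      (isClosed_le (by fun_prop) (by fun_prop)))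

lemma frontier_Hs : frontier (Hs L ε κ) ⊆
    ((fun x : ℝ => P2 x 0) '' Icc (-L) L) ∪ ((topf L ε κ '' Icc (-L) L) ∪
      (((fun y : ℝ => P2 L y) '' Icc 0 ε) ∪ ((fun y : ℝ => P2 (-L) y) '' Icc 0 ε))) := by
  intro p hp
  rw [(Hs_isOpen L ε κ).frontier_eq] at hp
  obtain ⟨hc, hn⟩ := hp
  obtain ⟨h0, h1, h2⟩ := closure_Hs L ε κ hc
  have h0' := abs_le.mp h0
  by_cases g0 : |p 0| < L
  · by_cases g1 : 0 < p 1
    · have g2 : ¬ p 1 < hb L ε κ (p 0) := fun g2 => hn ⟨g0, g1, g2⟩
      right; left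
      refine ⟨p 0, h0', ?_⟩
      rw [topf, ← le_antisymm h2 (not_lt.mp g2), P2_eta]
    · left
      refine ⟨p 0, h0', ?_⟩
      have : p 1 = 0 := le_antisymm (not_lt.mp g1) h1
      simp only
      rw [← this, P2_eta]
  · have h3 : |p 0| = L := le_antisymm h0 (not_lt.mp g0)
    have h4 : p 1 ≤ ε := by
      unfold hb at h2
      rw [h3] at h2
      simpa using h2
    have hL : 0 ≤ L := h3 ▸ abs_nonneg _
    rcases eq_or_eq_neg_of_abs_eq h3 with h5 | h5
    · right; right; left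
      refine ⟨p 1, ⟨h1, h4⟩, ?_⟩
      simp only
      rw [← h5, P2_eta]
    · right; right; right
      refine ⟨p 1, ⟨h1, h4⟩, ?_⟩
      simp only
      rw [← h5, P2_eta]

/-- dominating measure -/
def Mup (L ε κ : ℝ) : Measure (En 2) :=
  (1 : NNReal) • Measure.map (fun x : ℝ => P2 x 0) ((volume : Measure ℝ).restrict (Icc (-L) L)) +
  ((Kt κ : NNReal) • Measure.map (topf L ε κ) ((volume : Measure ℝ).restrict (Icc (-L) L)) +
  ((1 : NNReal) • Measure.map (fun y : ℝ => P2 L y) ((volume : Measure ℝ).restrict (Icc 0 ε)) +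
  (1 : NNReal) • Measure.map (fun y : ℝ => P2 (-L) y) ((volume : Measure ℝ).restrict (Icc 0 ε))))

lemma surf_le (L ε κ : ℝ) : surf (Hs L ε κ) ≤ Mup L ε κ := by
  unfold surf Mup
  refine (Measure.restrict_mono frontier_Hs le_rfl).trans ?_
  refine (Measure.restrict_union_le _ _).trans (add_le_add
    (haus_image_le (hor_lip 0).continuous.measurable _ (hor_lip 0)) ?_)
  refine (Measure.restrict_union_le _ _).trans (add_le_add
    (haus_image_le (topf_cont L ε κ).measurable _ (topf_lip L ε κ)) ?_)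
  refine (Measure.restrict_union_le _ _).trans (add_le_add
    (haus_image_le (ver_lip L).continuous.measurable _ (ver_lip L))
    (haus_image_le (ver_lip (-L)).continuous.measurable _ (ver_lip (-L))))

lemma Mup_fin (L ε κ : ℝ) : IsFiniteMeasure (Mup L ε κ) := by
  have i1 : IsFiniteMeasure ((volume : Measure ℝ).restrict (Icc (-L) L)) :=
    ⟨by rw [Measure.restrict_apply_univ]; exact measure_Icc_lt_top⟩
  have i2 : IsFiniteMeasure ((volume : Measure ℝ).restrict (Icc 0 ε)) :=
    ⟨by rw [Measure.restrict_apply_univ]; exact measure_Icc_lt_top⟩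
  unfold Mup
  infer_instance

lemma HP.surf_good (h : HP L ε κ) : Good (surf (Hs L ε κ)) := by
  intro F hF
  have hfin : IsFiniteMeasure (surf (Hs L ε κ)) :=
    have := Mup_fin L ε κ
    isFiniteMeasure_of_le _ (surf_le L ε κ)
  obtain ⟨M, hM⟩ := h.bounded.isCompact_closure.exists_bound_of_continuousOn hF.continuousOn
  have hfin2 : μH[(1:ℝ)] (frontier (Hs L ε κ)) ≠ ⊤ := by
    have := measure_ne_top (surf (Hs L ε κ)) univ
    rwa [surf, Measure.restrict_apply_univ] at this
  refine Measure.integrableOn_of_bounded (M := M) hfin2 hF.aestronglyMeasurable ?_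
  rw [ae_restrict_iff' isClosed_frontier.measurableSet]
  filter_upwards with x hx
  exact hM x (frontier_subset_closure hx)

lemma HP.top_sub (h : HP L ε κ) : topf L ε κ '' Ioo (-L) L ⊆ frontier (Hs L ε κ) := by
  rintro _ ⟨x, hx, rfl⟩
  have hx' : |x| < L := abs_lt.mpr hx
  have hlt := h.hb_pos hx'.le
  rw [(Hs_isOpen L ε κ).frontier_eq]
  constructor
  · have ht : Tendsto (fun y : ℝ => P2 x y) (𝓝[<] (hb L ε κ x)) (𝓝 (topf L ε κ x)) := by
      have hc : Continuous (fun y : ℝ => P2 x y) := P2_cont' continuous_const continuous_id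
      exact (hc.tendsto _).mono_left nhdsWithin_le_nhds
    refine mem_closure_of_tendsto ht ?_
    filter_upwards [Ioo_mem_nhdsLT hlt] with z hz
    exact ⟨hx', hz.1, hz.2⟩
  · intro h
    exact absurd h.2.2 (lt_irrefl _)

lemma HP.bot_sub (h : HP L ε κ) : (fun x => P2 x 0) '' Ioo (-L) L ⊆ frontier (Hs L ε κ) := by
  rintro _ ⟨x, hx, rfl⟩
  have hx' : |x| < L := abs_lt.mpr hx
  have hlt := h.hb_pos hx'.le
  rw [(Hs_isOpen L ε κ).frontier_eq]
  constructor
  · have ht : Tendsto (fun y : ℝ => P2 x y) (𝓝[>] 0) (𝓝 (P2 x 0)) := by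
      have hc : Continuous (fun y : ℝ => P2 x y) := P2_cont' continuous_const continuous_id
      exact (hc.tendsto _).mono_left nhdsWithin_le_nhds
    refine mem_closure_of_tendsto ht ?_
    filter_upwards [Ioo_mem_nhdsGT hlt] with z hz
    exact ⟨hx', hz.1, hz.2⟩
  · intro h
    exact absurd h.2.1 (lt_irrefl _)

lemma HP.surf_ge (h : HP L ε κ) :
    Measure.map (fun x => P2 x 0) ((volume : Measure ℝ).restrict (Ioo (-L) L)) +
      Measure.map (topf L ε κ) ((volume : Measure ℝ).restrict (Ioo (-L) L)) ≤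
        surf (Hs L ε κ) := by
  have sa : Continuous (fun x : ℝ => P2 x 0) := P2_cont' continuous_id continuous_const
  have sb := topf_cont L ε κ
  have h0 := section_ge sa.measurable (fun x => rfl) (Ioo (-L) L)
  have h1 := section_ge sb.measurable (fun x => rfl) (Ioo (-L) L)
  refine (add_le_add h0 h1).trans ?_
  have hdisj : Disjoint ((fun x => P2 x 0) '' Ioo (-L) L) (topf L ε κ '' Ioo (-L) L) := by
    rw [Set.disjoint_left]
    rintro _ ⟨x, hx, rfl⟩ ⟨y, hy, h2⟩
    have e1 : hb L ε κ y = 0 := by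
      have := congrArg (fun p : En 2 => p 1) h2
      simpa [topf] using this
    exact absurd e1 (h.hb_pos (abs_lt.mpr hy).le).ne'
  have hm : MeasurableSet ((fun x => P2 x 0) '' Ioo (-L) L) := by
    have : (fun x => P2 x 0) '' Ioo (-L) L =
        (fun p : En 2 => p 0) ⁻¹' (Ioo (-L) L) ∩ {p | p 1 = 0} := by
      ext p
      constructor
      · rintro ⟨x, hx, rfl⟩
        exact ⟨hx, rfl⟩
      · rintro ⟨h1, h2⟩
        have h2' : p 1 = 0 := h2
        refine ⟨p 0, h1, ?_⟩
        simp only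
        rw [← h2', P2_eta]
    rw [this]
    exact ((coord_cont 0).measurable measurableSet_Ioo).inter
      (isClosed_eq (coord_cont 1) continuous_const).measurableSet
  rw [← Measure.restrict_union' hdisj hm]
  exact Measure.restrict_mono (union_subset h.bot_sub h.top_sub) le_rfl

/-- lower bound for boundary integrals -/
lemma HP.bdry_ge (h : HP L ε κ) {F : En 2 → ℝ} (hF : Continuous F) (h0 : ∀ p, 0 ≤ F p) :
    ∫ x in Ioo (-L) L, (F (P2 x 0) + F (topf L ε κ x)) ≤ ∫ p, F p ∂(surf (Hs L ε κ)) := by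
  have hgood := h.surf_good F hF
  have hle := h.surf_ge
  have hi := hgood.mono_measure hle
  have hmono := integral_mono_measure hle (Eventually.of_forall fun p => h0 p) hgood
  refine le_trans (le_of_eq ?_) hmono
  have sa : Continuous (fun x : ℝ => P2 x 0) := P2_cont' continuous_id continuous_const
  have sb := topf_cont L ε κ
  rw [integrable_add_measure] at hi
  rw [integral_add_measure hi.1 hi.2, integral_map sa.measurable.aemeasurable
    hF.aestronglyMeasurable, integral_map sb.measurable.aemeasurable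
    hF.aestronglyMeasurable]
  apply integral_add
  · exact ((hF.comp sa).continuousOn.integrableOn_Icc (a := -L) (b := L)).mono_set
      Ioo_subset_Icc_self
  · exact ((hF.comp sb).continuousOn.integrableOn_Icc (a := -L) (b := L)).mono_set
      Ioo_subset_Icc_self

/-- upper bound for boundary integrals of functions of the first coordinate -/
lemma HP.bdry_le (h : HP L ε κ) {f : ℝ → ℝ} (hf : Continuous f) :
    ∫ p, f (p 0) ^ 2 ∂(surf (Hs L ε κ)) ≤
      (2 + κ ^ 2 / 2) * (∫ x in Icc (-L) L, f x ^ 2) + ε * (f L ^ 2 + f (-L) ^ 2) := by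
  have hc : Continuous (fun p : En 2 => f (p 0) ^ 2) := by
    have := coord_cont 0
    fun_prop
  have hfin := Mup_fin L ε κ
  have hle := surf_le L ε κ
  have s0c : Continuous (fun x : ℝ => P2 x 0) := (hor_lip 0).continuous
  have s1c := topf_cont L ε κ
  have s2c : ∀ c : ℝ, Continuous (fun y : ℝ => P2 c y) := fun c => (ver_lip c).continuous
  have hfc : Continuous (fun x : ℝ => f x ^ 2) := by fun_prop
  have r1 : Integrable (fun x : ℝ => f x ^ 2) ((volume : Measure ℝ).restrict (Icc (-L) L)) :=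
    hfc.continuousOn.integrableOn_Icc
  have m0 : Integrable (fun p : En 2 => f (p 0) ^ 2)
      (Measure.map (fun x : ℝ => P2 x 0) ((volume : Measure ℝ).restrict (Icc (-L) L))) := by
    rw [integrable_map_measure hc.aestronglyMeasurable s0c.measurable.aemeasurable]
    exact r1
  have m1 : Integrable (fun p : En 2 => f (p 0) ^ 2)
      (Measure.map (topf L ε κ) ((volume : Measure ℝ).restrict (Icc (-L) L))) := by
    rw [integrable_map_measure hc.aestronglyMeasurable s1c.measurable.aemeasurable]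
    exact r1
  have m2 : ∀ c : ℝ, Integrable (fun p : En 2 => f (p 0) ^ 2)
      (Measure.map (fun y : ℝ => P2 c y) ((volume : Measure ℝ).restrict (Icc 0 ε))) := by
    intro c
    rw [integrable_map_measure hc.aestronglyMeasurable (s2c c).measurable.aemeasurable]
    have i2 : IsFiniteMeasure ((volume : Measure ℝ).restrict (Icc 0 ε)) :=
      ⟨by rw [Measure.restrict_apply_univ]; exact measure_Icc_lt_top⟩
    have : Integrable (fun _ : ℝ => f c ^ 2) ((volume : Measure ℝ).restrict (Icc 0 ε)) :=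
      integrable_const _
    exact this
  have n0 : Integrable (fun p : En 2 => f (p 0) ^ 2)
      ((1 : NNReal) • Measure.map (fun x : ℝ => P2 x 0)
        ((volume : Measure ℝ).restrict (Icc (-L) L))) := m0.smul_measure_nnreal
  have n1 : Integrable (fun p : En 2 => f (p 0) ^ 2)
      ((Kt κ : NNReal) • Measure.map (topf L ε κ)
        ((volume : Measure ℝ).restrict (Icc (-L) L))) := m1.smul_measure_nnreal
  have n2 : ∀ c : ℝ, Integrable (fun p : En 2 => f (p 0) ^ 2)
      ((1 : NNReal) • Measure.map (fun y : ℝ => P2 c y)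
        ((volume : Measure ℝ).restrict (Icc 0 ε))) := fun c => (m2 c).smul_measure_nnreal
  have j2 := (n2 L).add_measure (n2 (-L))
  have j1 := n1.add_measure j2
  have hMup : Integrable (fun p : En 2 => f (p 0) ^ 2) (Mup L ε κ) := n0.add_measure j1
  have hmono : ∫ p, f (p 0) ^ 2 ∂(surf (Hs L ε κ)) ≤ ∫ p, f (p 0) ^ 2 ∂(Mup L ε κ) :=
    integral_mono_measure hle (Eventually.of_forall fun p => sq_nonneg _) hMup
  refine hmono.trans (le_of_eq ?_)
  unfold Mup
  rw [integral_add_measure n0 j1, integral_add_measure n1 j2,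
    integral_add_measure (n2 L) (n2 (-L))]
  simp only [integral_smul_nnreal_measure]
  rw [integral_map s0c.measurable.aemeasurable hc.aestronglyMeasurable,
    integral_map s1c.measurable.aemeasurable hc.aestronglyMeasurable,
    integral_map (s2c L).measurable.aemeasurable hc.aestronglyMeasurable,
    integral_map (s2c (-L)).measurable.aemeasurable hc.aestronglyMeasurable]
  simp only [topf, P2_0]
  have hK : ((Kt κ : NNReal) : ℝ) = 1 + κ ^ 2 / 2 := rfl
  rw [setIntegral_const, setIntegral_const]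
  simp only [NNReal.smul_def, smul_eq_mul, hK, NNReal.coe_one, Measure.real, Real.volume_Icc,
    sub_zero, ENNReal.toReal_ofReal h.ε0.le]
  ring

end Pool.Agent.Helper88.Gap
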