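import Mathlib
import Pool.Agent.Helper88.Gap.House

open MeasureTheory Set Metric Filter Topology

noncomputable section

namespace Pool.Agent.Helper88.Gap

/-- one dimensional field inequality with linear potential -/
lemma cross {α K b : ℝ} (hα : 0 ≤ α) (hK : 0 ≤ K) (hb : 0 < b) {g g' : ℝ → ℝ}
    (hg : ∀ y, HasDerivAt g (g' y) y) (hg' : Continuous g') :
    (2 * α / b + K * b / 2 - (α + K * b ^ 2 / 2) ^ 2) * ∫ y in (0:ℝ)..b, g y ^ 2 ≤
      (∫ y in (0:ℝ)..b, (g' y ^ 2 + K * y * g y ^ 2)) + α * (g 0 ^ 2 + g b ^ 2) := by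
  have gc : Continuous g := continuous_iff_continuousAt.mpr fun t => (hg t).continuousAt
  set W := 2 * α / b + K * b / 2 with hW
  set F : ℝ → ℝ := fun y => -α + W * y - K * y ^ 2 / 2 with hF
  have hWb : W * b = 2 * α + K * b ^ 2 / 2 := by rw [hW]; field_simp
  have hW0 : 0 ≤ W := by positivity
  have hFd : ∀ y, HasDerivAt F (W - K * y) y := by
    intro y
    have h1 : HasDerivAt (fun y : ℝ => -α + W * y - K * y ^ 2 / 2)
        (0 + W * 1 - K * (2 * y ^ (2 - 1) * 1) / 2) y :=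
      ((hasDerivAt_const y (-α)).add ((hasDerivAt_id y).const_mul W)).sub
        ((((hasDerivAt_id y).pow 2).const_mul K).div_const 2)
    refine h1.congr_deriv ?_
    norm_num
    ring
  have hGd : ∀ y, HasDerivAt (fun y => F y * g y ^ 2)
      ((W - K * y) * g y ^ 2 + F y * (2 * g y * g' y)) y := by
    intro y
    have h1 := (hFd y).mul ((hg y).pow 2)
    refine h1.congr_deriv ?_
    norm_num
  have hFc : Continuous F := by fun_prop
  have hint := intervalIntegral.integral_eq_sub_of_hasDerivAt (a := 0) (b := b)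
    (fun y _ => hGd y) (Continuous.intervalIntegrable (by fun_prop) _ _)
  have e0 : F 0 = -α := by rw [hF]; simp
  have eb : F b = α := by rw [hF]; simp only; rw [hWb]; ring
  rw [e0, eb] at hint
  have e1 : α * (g 0 ^ 2 + g b ^ 2) =
      ∫ y in (0:ℝ)..b, ((W - K * y) * g y ^ 2 + F y * (2 * g y * g' y)) := by
    rw [hint]; ring
  rw [e1, ← intervalIntegral.integral_add (Continuous.intervalIntegrable (by fun_prop) _ _)
    (Continuous.intervalIntegrable (by fun_prop) _ _), ← intervalIntegral.integral_const_mul]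
  apply intervalIntegral.integral_mono_on hb.le
    (Continuous.intervalIntegrable (by fun_prop) _ _)
    (Continuous.intervalIntegrable (by fun_prop) _ _)
  intro y hy
  have hFabs : |F y| ≤ α + K * b ^ 2 / 2 := by
    have h1 : W * y ≤ 2 * α + K * b ^ 2 / 2 := by
      rw [← hWb]; exact mul_le_mul_of_nonneg_left hy.2 hW0
    have h2 : 0 ≤ W * y := mul_nonneg hW0 hy.1
    have h3 : K * y ^ 2 / 2 ≤ K * b ^ 2 / 2 := by
      have : y ^ 2 ≤ b ^ 2 := pow_le_pow_left₀ hy.1 hy.2 2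
      have := mul_le_mul_of_nonneg_left this hK
      linarith
    have h4 : 0 ≤ K * y ^ 2 / 2 := by positivity
    rw [abs_le]
    simp only [hF]
    constructor <;> linarith
  have hF2 : F y ^ 2 ≤ (α + K * b ^ 2 / 2) ^ 2 := by
    rw [← sq_abs]
    exact pow_le_pow_left₀ (abs_nonneg _) hFabs 2
  have key : (W - F y ^ 2) * g y ^ 2 ≤ g' y ^ 2 + K * y * g y ^ 2 +
      ((W - K * y) * g y ^ 2 + F y * (2 * g y * g' y)) := by
    nlinarith [sq_nonneg (g' y + F y * g y)]
  refine le_trans ?_ key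
  apply mul_le_mul_of_nonneg_right _ (sq_nonneg _)
  linarith

/-- the linear potential -/
def vp (α ε : ℝ) (p : En 2) : ℝ := 8 * α / ε ^ 2 * p 1

lemma vp_cont (α ε : ℝ) : Continuous (vp α ε) := by
  have := coord_cont 1
  unfold vp
  fun_prop

variable {L ε κ : ℝ}

lemma HP.pot (_h : HP L ε κ) {α : ℝ} (hα : 0 ≤ α) : Pot (muH L ε κ) (vp α ε) := by
  refine ⟨vp_cont α ε, ?_⟩
  rw [muH, ae_restrict_iff' (Hs_isOpen L ε κ).measurableSet]
  filter_upwards with p hp
  have : 0 < p 1 := hp.2.1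
  unfold vp
  positivity

/-- effective potential -/
lemma eff_ge {α τ b : ℝ} (hα : 0 ≤ α) (hε : 0 < ε) (hb : 0 < b) (hbe : b = ε + ε ^ 2 * τ) :
    6 * α / ε + 2 * α * τ ≤ 2 * α / b + 8 * α / ε ^ 2 * b / 2 := by
  have e : 2 * α / b + 8 * α / ε ^ 2 * b / 2 - (6 * α / ε + 2 * α * τ) =
      2 * α * (b - ε) ^ 2 / (b * ε ^ 2) := by
    have hτ : τ = (b - ε) / ε ^ 2 := by rw [hbe]; field_simp; ring
    rw [hτ]
    field_simp
    ring
  have : 0 ≤ 2 * α * (b - ε) ^ 2 / (b * ε ^ 2) := by positivity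
  linarith

lemma eff_le {α τ b : ℝ} (hα : 0 ≤ α) (hε : 0 < ε) (hεb : ε ≤ b) (hbe : b = ε + ε ^ 2 * τ) :
    2 * α / b + 8 * α / ε ^ 2 * b / 2 ≤ 6 * α / ε + 4 * α * τ := by
  have h1 : 2 * α / b ≤ 2 * α / ε := div_le_div_of_nonneg_left (by positivity) hε hεb
  have h2 : 8 * α / ε ^ 2 * b / 2 = 4 * α / ε + 4 * α * τ := by
    rw [hbe]; field_simp; ring
  rw [h2]
  have h3 : 6 * α / ε = 2 * α / ε + 4 * α / ε := by ring
  linarith

lemma P2_line (x y : ℝ) : HasDerivAt (fun s => P2 x s) (bb 1) y := by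
  have h : (fun s => P2 x s) = fun s => P2 x 0 + s • bb 1 := by
    funext s
    ext i
    fin_cases i <;> simp [P2, bb]
  rw [h]
  have := ((hasDerivAt_id y).smul_const (bb 1)).const_add (P2 x 0)
  simpa using this

/-- lower bound for the quadratic form -/
lemma HP.lower (h : HP L ε κ) {α τ : ℝ} (hα : 0 ≤ α) (hτ : κ = ε ^ 2 * τ) (hτ0 : 0 ≤ τ)
    {v : En 2 → ℝ}
    (hv : ContDiff ℝ 1 v) :
    (6 * α / ε - 289 * α ^ 2) * Nf (muH L ε κ) v +
      (2 * α * (τ * (L - 1 / 8))) * (∫ p, Cc.indicator (fun p => v p ^ 2) p ∂(muH L ε κ)) ≤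
      Qf (muH L ε κ) (surf (Hs L ε κ)) (vp α ε) α v := by
  have hvc := hv.continuous
  have hVc := vp_cont α ε
  have hd : Continuous (fderiv ℝ v) := hv.continuous_fderiv (by norm_num)
  have d1 : Continuous (fun p => fderiv ℝ v p (bb 1)) := hd.clm_apply continuous_const
  set F : En 2 → ℝ := fun p => (fderiv ℝ v p (bb 1)) ^ 2 + vp α ε p * v p ^ 2 with hF
  have hFc : Continuous F := by fun_prop
  have hFle : ∫ p, F p ∂(muH L ε κ) ≤ ∫ p, (‖fderiv ℝ v p‖ ^ 2 + vp α ε p * v p ^ 2) ∂(muH L ε κ) := by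
    apply integral_mono (h.good _ hFc) (h.good _ (by fun_prop))
    intro p
    simp only [hF, normsq]
    nlinarith [sq_nonneg (fderiv ℝ v p (bb 0))]
  have hv2 : Continuous (fun p => v p ^ 2) := by fun_prop
  have iF := h.int (h.good _ hFc)
  have iN := h.int (h.good _ hv2)
  have iC := h.int ((h.good _ hv2).indicator Cc_meas)
  have hB := h.bdry_ge hv2 (fun p => sq_nonneg (v p))
  have sa : Continuous (fun x : ℝ => P2 x 0) := P2_cont' continuous_id continuous_const
  have sb := topf_cont L ε κ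
  have hBi : IntegrableOn (fun x => α * (v (P2 x 0) ^ 2 + v (topf L ε κ x) ^ 2)) (Ioo (-L) L) := by
    have : Continuous (fun x => α * (v (P2 x 0) ^ 2 + v (topf L ε κ x) ^ 2)) := by
      have k1 := hvc.comp sa
      have k2 := hvc.comp sb
      exact continuous_const.mul ((k1.pow 2).add (k2.pow 2))
    exact (this.continuousOn.integrableOn_Icc (a := -L) (b := L)).mono_set Ioo_subset_Icc_self
  have hB' := mul_le_mul_of_nonneg_left hB hα
  have e1 : Nf (muH L ε κ) v = _ := iN.1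
  have e2 : ∫ p, Cc.indicator (fun p => v p ^ 2) p ∂(muH L ε κ) = _ := iC.1
  have e3 : ∫ p, F p ∂(muH L ε κ) = _ := iF.1
  unfold Qf
  refine le_trans ?_ (add_le_add hFle hB')
  rw [e1, e2, e3, ← integral_const_mul, ← integral_const_mul, ← integral_const_mul,
    ← integral_add (iN.2.const_mul _) (iC.2.const_mul _), ← integral_add iF.2 hBi]
  apply setIntegral_mono_on ((iN.2.const_mul _).add (iC.2.const_mul _))
    (iF.2.add hBi) measurableSet_Ioo
  intro x hx
  have hx1 : |x| < L := abs_lt.mpr hx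
  have hb0 := h.hb_pos hx1.le
  have hb2 := h.hb_le2 x
  set b := hb L ε κ x with hbdef
  have hε := h.ε0
  have hK : 0 ≤ 8 * α / ε ^ 2 := by positivity
  have hcross := cross (α := α) (K := 8 * α / ε ^ 2) (b := b) hα hK hb0
    (g := fun y => v (P2 x y)) (g' := fun y => fderiv ℝ v (P2 x y) (bb 1))
    (fun y => ((hv.differentiable (by norm_num)) (P2 x y)).hasFDerivAt.comp_hasDerivAt y
      (P2_line x y)) (d1.comp (P2_cont' continuous_const continuous_id))
  have hsl : Continuous (fun y => v (P2 x y) ^ 2) :=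
    hv2.comp (P2_cont' continuous_const continuous_id)
  have hN0 : 0 ≤ ∫ y in (0:ℝ)..b, v (P2 x y) ^ 2 :=
    intervalIntegral.integral_nonneg hb0.le (fun _ _ => sq_nonneg _)
  have hbe : b = ε + ε ^ 2 * (τ * (L - |x|)) := by
    rw [hbdef, hb, hτ]; ring
  have heff := eff_ge hα hε hb0 hbe
  have h17 : (α + 8 * α / ε ^ 2 * b ^ 2 / 2) ^ 2 ≤ 289 * α ^ 2 := by
    have h1 : 8 * α / ε ^ 2 * b ^ 2 / 2 ≤ 16 * α := by
      have h2 : b ^ 2 ≤ 4 * ε ^ 2 := by nlinarith
      calc 8 * α / ε ^ 2 * b ^ 2 / 2 = 4 * α / ε ^ 2 * b ^ 2 := by ring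
        _ ≤ 4 * α / ε ^ 2 * (4 * ε ^ 2) := mul_le_mul_of_nonneg_left h2 (by positivity)
        _ = 16 * α := by field_simp; ring
    have h0 : 0 ≤ α + 8 * α / ε ^ 2 * b ^ 2 / 2 := by positivity
    calc (α + 8 * α / ε ^ 2 * b ^ 2 / 2) ^ 2 ≤ (17 * α) ^ 2 :=
          pow_le_pow_left₀ h0 (by linarith) 2
      _ = 289 * α ^ 2 := by ring
  have eF : ∀ y, F (P2 x y) = (fderiv ℝ v (P2 x y) (bb 1)) ^ 2 +
      8 * α / ε ^ 2 * y * v (P2 x y) ^ 2 := by
    intro y
    simp only [hF, vp, P2_1]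
  simp only [Pi.add_apply]
  simp_rw [eF]
  have etop : topf L ε κ x = P2 x b := rfl
  rw [etop]
  refine le_trans ?_ hcross
  by_cases hxc : |x| < 1 / 8
  · have ind : ∀ y : ℝ, Cc.indicator (fun p => v p ^ 2) (P2 x y) = v (P2 x y) ^ 2 := by
      intro y
      rw [indicator_of_mem]
      simpa [Cc] using hxc
    simp only [ind]
    rw [← add_mul]
    apply mul_le_mul_of_nonneg_right _ hN0
    have h1 : 2 * α * (τ * (L - 1 / 8)) ≤ 2 * α * (τ * (L - |x|)) := by
      apply mul_le_mul_of_nonneg_left _ (by positivity)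
      apply mul_le_mul_of_nonneg_left _ hτ0
      linarith
    linarith
  · have ind : ∀ y : ℝ, Cc.indicator (fun p => v p ^ 2) (P2 x y) = 0 := by
      intro y
      rw [indicator_of_notMem]
      simpa [Cc] using hxc
    simp only [ind, intervalIntegral.integral_zero, mul_zero, add_zero]
    apply mul_le_mul_of_nonneg_right _ hN0
    have h1 : 0 ≤ 2 * α * (τ * (L - |x|)) := by
      have : 0 ≤ L - |x| := by linarith
      positivity
    linarith

/-- test function inequality for functions of the first coordinate -/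
lemma HP.test (h : HP L ε κ) {α : ℝ} (hα : 0 ≤ α) {f : ℝ → ℝ} (hf : ContDiff ℝ 1 f) :
    lamf (muH L ε κ) (surf (Hs L ε κ)) (vp α ε) α 1 *
        (∫ x in Ioo (-L) L, hb L ε κ x * f x ^ 2) ≤
      (∫ x in Ioo (-L) L, hb L ε κ x * deriv f x ^ 2) +
      (∫ x in Ioo (-L) L, 8 * α / ε ^ 2 * hb L ε κ x ^ 2 / 2 * f x ^ 2) +
      α * ((2 + κ ^ 2 / 2) * (∫ x in Icc (-L) L, f x ^ 2) + ε * (f L ^ 2 + f (-L) ^ 2)) := by
  have c0 := coord_cont 0
  have hfc := hf.continuous
  have hVc := vp_cont α ε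
  have cd : Continuous (deriv f) := hf.continuous_deriv (by norm_num)
  have hsm : ContDiff ℝ 1 (fun p : En 2 => f (p 0)) := hf.comp x0_contDiff
  have h1 := lam1_le' (ν := surf (Hs L ε κ)) h.good (h.pot hα) hα hsm
  rw [Qf_eq h.good (h.pot hα) α hsm] at h1
  have eN : Nf (muH L ε κ) (fun p => f (p 0)) = ∫ x in Ioo (-L) L, hb L ε κ x * f x ^ 2 := by
    unfold Nf muH
    rw [(h.int (F := fun p => f (p 0) ^ 2) (h.good _ (by fun_prop))).1]
    congr 1
    funext x
    simp
  have e : ∀ p : En 2, ‖fderiv ℝ (fun p : En 2 => f (p 0)) p‖ ^ 2 = deriv f (p 0) ^ 2 := by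
    intro p
    have h1 : HasFDerivAt (fun p : En 2 => p 0) (EuclideanSpace.proj 0 : En 2 →L[ℝ] ℝ) p :=
      (EuclideanSpace.proj 0 : En 2 →L[ℝ] ℝ).hasFDerivAt
    have h2 := ((hf.differentiable (by norm_num)) (p 0)).hasDerivAt
    have h3 := (h2.comp_hasFDerivAt p h1).fderiv
    have h4 : fderiv ℝ (fun p : En 2 => f (p 0)) p =
      deriv f (p 0) • (EuclideanSpace.proj 0 : En 2 →L[ℝ] ℝ) := h3
    rw [h4, normsq]
    simp [bb]
  have eD : Df (muH L ε κ) (fun p => f (p 0)) =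
      ∫ x in Ioo (-L) L, hb L ε κ x * deriv f x ^ 2 := by
    unfold Df muH
    simp_rw [e]
    rw [(h.int (F := fun p => deriv f (p 0) ^ 2) (h.good _ (by fun_prop))).1]
    congr 1
    funext x
    simp
  have eP : Pf (muH L ε κ) (vp α ε) (fun p => f (p 0)) =
      ∫ x in Ioo (-L) L, 8 * α / ε ^ 2 * hb L ε κ x ^ 2 / 2 * f x ^ 2 := by
    unfold Pf muH
    rw [(h.int (F := fun p => vp α ε p * f (p 0) ^ 2) (h.good _ (by fun_prop))).1]
    congr 1
    funext x
    simp only [vp, P2_0, P2_1]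
    have : ∀ y : ℝ, 8 * α / ε ^ 2 * y * f x ^ 2 = (8 * α / ε ^ 2 * f x ^ 2) * y := by
      intro y; ring
    simp_rw [this]
    rw [intervalIntegral.integral_const_mul, integral_id]
    ring
  have h3 := h.bdry_le hfc
  have h4 := mul_le_mul_of_nonneg_left h3 hα
  rw [eN, eD, eP] at h1
  have h5 : Nf (surf (Hs L ε κ)) (fun p : En 2 => f (p 0)) =
    ∫ p, f (p 0) ^ 2 ∂(surf (Hs L ε κ)) := rfl
  rw [h5] at h1
  linarith

/-- reflection -/
def sg : En 2 ≃ₗᵢ[ℝ] En 2 :=
  LinearIsometryEquiv.piLpCongrRight 2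
    (fun i : Fin 2 => if i = 0 then LinearIsometryEquiv.neg ℝ else LinearIsometryEquiv.refl ℝ ℝ)

lemma sg_0 (p : En 2) : (sg p) 0 = - p 0 := by
  simp [sg, LinearIsometryEquiv.piLpCongrRight_apply]
lemma sg_1 (p : En 2) : (sg p) 1 = p 1 := by
  simp [sg, LinearIsometryEquiv.piLpCongrRight_apply]

lemma sg_pre (L ε κ : ℝ) : sg ⁻¹' (Hs L ε κ) = Hs L ε κ := by
  ext p
  rw [mem_preimage]
  unfold Hs hb
  simp only [mem_ofPred_eq, sg_0, sg_1, abs_neg]

lemma sg_symm (L ε κ α : ℝ) : SymM (muH L ε κ) (surf (Hs L ε κ)) (vp α ε) sg := by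
  refine ⟨?_, ?_, sg_0, ?_⟩
  · have h := sg.measurePreserving.restrict_preimage (Hs_isOpen L ε κ).measurableSet
    rw [sg_pre] at h
    exact h
  · have h0 : MeasurePreserving sg (μH[(1:ℝ)] : Measure (En 2)) (μH[(1:ℝ)] : Measure (En 2)) :=
      sg.toIsometryEquiv.measurePreserving_hausdorffMeasure 1
    have h := h0.restrict_preimage (isClosed_frontier (s := Hs L ε κ)).measurableSet
    have e : sg ⁻¹' (frontier (Hs L ε κ)) = frontier (Hs L ε κ) := by
      have := sg.toHomeomorph.preimage_frontier (Hs L ε κ)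
      have h2 : sg.toHomeomorph ⁻¹' (Hs L ε κ) = Hs L ε κ := sg_pre L ε κ
      rw [h2] at this
      exact this
    rw [e] at h
    exact h
  · intro p
    unfold vp
    rw [sg_1]

/-- the diameter of the house -/
lemma HP.diam (h : HP L ε κ) (hεL : ε ≤ L) (h1 : 4 * L ^ 2 + ε ^ 2 = 1) :
    Metric.diam (Hs L ε κ) = 1 := by
  have hL := h.L0
  have hε := h.ε0
  have hκ := h.κ0
  have key : ∀ t : ℝ, 0 ≤ t → t ≤ L → (2 * L - t) ^ 2 + (ε + κ * t) ^ 2 ≤ 1 := by
    intro t ht0 htL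
    have a1 : κ * t ≤ ε := (mul_le_mul_of_nonneg_left htL hκ).trans h.κL
    have a2 : ε * κ ≤ L := by
      have : κ * L ≤ 1 * L := by linarith [h.κL]
      have hκ1 : κ ≤ 1 := le_of_mul_le_mul_right this hL
      nlinarith
    have a3 : κ ^ 2 * t ≤ L := by
      calc κ ^ 2 * t = κ * (κ * t) := by ring
        _ ≤ κ * ε := mul_le_mul_of_nonneg_left a1 hκ
        _ ≤ L := by linarith
    have : t * (-4 * L + t + 2 * (ε * κ) + κ ^ 2 * t) ≤ 0 :=
      mul_nonpos_of_nonneg_of_nonpos ht0 (by linarith)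
    nlinarith
  have key2 : ∀ p ∈ Hs L ε κ, ∀ q ∈ Hs L ε κ, q 1 ≤ p 1 → dist p q ≤ 1 := by
    intro p hp q hq hqp
    obtain ⟨p1, p2, p3⟩ := hp
    obtain ⟨q1, q2, q3⟩ := hq
    have h2 := dist2 p q
    have h3 : (p 1 - q 1) ^ 2 ≤ (ε + κ * (L - |p 0|)) ^ 2 := by
      apply pow_le_pow_left₀ (by linarith)
      have : p 1 ≤ ε + κ * (L - |p 0|) := p3.le
      linarith
    have h4 : (p 0 - q 0) ^ 2 ≤ (2 * L - (L - |p 0|)) ^ 2 := by
      rw [← sq_abs]
      apply pow_le_pow_left₀ (abs_nonneg _)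
      have := abs_sub (p 0) (q 0)
      linarith
    have h5 := key (L - |p 0|) (by linarith) (by linarith [abs_nonneg (p 0)])
    have h6 : dist p q ^ 2 ≤ 1 ^ 2 := by rw [h2]; linarith
    exact le_of_sq_le_sq h6 (by norm_num)
  apply le_antisymm
  · apply diam_le_of_forall_dist_le (by norm_num)
    intro p hp q hq
    rcases le_total (q 1) (p 1) with hpq | hpq
    · exact key2 p hp q hq hpq
    · rw [dist_comm]
      exact key2 q hq p hp hpq
  · have m1 : P2 (-L) 0 ∈ closure (Hs L ε κ) := by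
      have ht : Tendsto (fun t : ℝ => P2 (-(L * (1 - t))) (t * ε / 2)) (𝓝[>] 0)
          (𝓝 (P2 (-L) 0)) := by
        have hc : Continuous (fun t : ℝ => P2 (-(L * (1 - t))) (t * ε / 2)) :=
          P2_cont' (by fun_prop) (by fun_prop)
        have := (hc.tendsto 0).mono_left (nhdsWithin_le_nhds (s := Ioi 0))
        simpa using this
      refine mem_closure_of_tendsto ht ?_
      filter_upwards [Ioo_mem_nhdsGT (show (0:ℝ) < 1 by norm_num)] with t ht
      refine ⟨?_, ?_, ?_⟩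
      · rw [P2_0, abs_neg, abs_of_nonneg (mul_nonneg hL.le (by linarith [ht.2]))]
        nlinarith [ht.1]
      · rw [P2_1]
        have := ht.1
        positivity
      · rw [P2_1, P2_0]
        have : ε ≤ hb L ε κ (-(L * (1 - t))) := by
          apply hb_ge hκ
          rw [abs_neg, abs_of_nonneg (mul_nonneg hL.le (by linarith [ht.2]))]
          nlinarith [ht.1]
        nlinarith [ht.2]
    have m2 : P2 L ε ∈ closure (Hs L ε κ) := by
      have ht : Tendsto (fun t : ℝ => P2 (L * (1 - t)) (ε * (1 - t))) (𝓝[>] 0)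
          (𝓝 (P2 L ε)) := by
        have hc : Continuous (fun t : ℝ => P2 (L * (1 - t)) (ε * (1 - t))) :=
          P2_cont' (by fun_prop) (by fun_prop)
        have := (hc.tendsto 0).mono_left (nhdsWithin_le_nhds (s := Ioi 0))
        simpa using this
      refine mem_closure_of_tendsto ht ?_
      filter_upwards [Ioo_mem_nhdsGT (show (0:ℝ) < 1 by norm_num)] with t ht
      refine ⟨?_, ?_, ?_⟩
      · rw [P2_0, abs_of_nonneg (mul_nonneg hL.le (by linarith [ht.2]))]
        nlinarith [ht.1]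
      · rw [P2_1]
        exact mul_pos hε (by linarith [ht.2])
      · rw [P2_1, P2_0]
        have : ε ≤ hb L ε κ (L * (1 - t)) := by
          apply hb_ge hκ
          rw [abs_of_nonneg (mul_nonneg hL.le (by linarith [ht.2]))]
          nlinarith [ht.1]
        nlinarith [ht.1]
    have h2 : dist (P2 (-L) 0) (P2 L ε) = 1 := by
      have h3 := P2_dist (-L) 0 L ε
      have h4 : dist (P2 (-L) 0) (P2 L ε) ^ 2 = 1 ^ 2 := by
        rw [h3]; linarith
      exact (sq_eq_sq₀ dist_nonneg (by norm_num)).mp h4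
    rw [← h2, ← diam_closure]
    exact dist_le_diam_of_mem h.bounded.closure m1 m2

end Pool.Agent.Helper88.Gap
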