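import Mathlib
import Pool.Agent.Helper88.Gap.Well

open MeasureTheory Set Metric Filter Topology

noncomputable section

namespace Pool.Agent.Helper88.Gap

/-- trial profile -/
def ft (L l x : ℝ) : ℝ := Real.smoothTransition ((x - L) / l + 1)

lemma ft_smooth (L l : ℝ) : ContDiff ℝ 1 (ft L l) := by
  have h : ContDiff ℝ 1 Real.smoothTransition := Real.smoothTransition.contDiff
  exact h.comp (by fun_prop)

lemma ft_zero {L l x : ℝ} (hl : 0 < l) (h : x ≤ L - l) : ft L l x = 0 := by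
  apply Real.smoothTransition.zero_of_nonpos
  have : (x - L) / l ≤ -1 := by rw [div_le_iff₀ hl]; linarith
  linarith

lemma ft_one (L l : ℝ) : ft L l L = 1 := by
  unfold ft
  exact Real.smoothTransition.one_of_one_le (by simp)

def m0 : ℝ := ∫ s in (0:ℝ)..1, Real.smoothTransition s ^ 2

lemma st_cont : Continuous Real.smoothTransition := Real.smoothTransition.continuous

lemma m0_pos : 0 < m0 := by
  have c := st_cont
  apply intervalIntegral.integral_pos (by norm_num) (by fun_prop)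
  · intro x _
    exact sq_nonneg _
  · exact ⟨1, by simp, by rw [Real.smoothTransition.one_of_one_le le_rfl]; norm_num⟩

lemma ft_mass {L l : ℝ} (hl : 0 < l) (hlL : l ≤ 2 * L) :
    l * m0 ≤ ∫ x in Ioo (-L) L, ft L l x ^ 2 := by
  have hL : -L ≤ L := by linarith
  have c := st_cont
  have e1 : ∫ x in Ioo (-L) L, ft L l x ^ 2 = ∫ x in (-L)..L, ft L l x ^ 2 := by
    rw [intervalIntegral.integral_of_le hL, integral_Ioc_eq_integral_Ioo]
  have e2 : ∫ x in (-L)..L, ft L l x ^ 2 =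
      l * ∫ s in ((-L - L) / l + 1)..1, Real.smoothTransition s ^ 2 := by
    have h := intervalIntegral.integral_comp_div_add (a := -L) (b := L)
      (fun s => Real.smoothTransition s ^ 2) hl.ne' (1 - L / l)
    have e3 : ∀ x : ℝ, ft L l x ^ 2 = Real.smoothTransition (x / l + (1 - L / l)) ^ 2 := by
      intro x
      unfold ft
      congr 2
      field_simp
      ring
    simp_rw [e3]
    rw [h, smul_eq_mul]
    congr 2
    · field_simp; ring
    · field_simp; ring
  rw [e1, e2, m0]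
  apply mul_le_mul_of_nonneg_left _ hl.le
  have hneg : (-L - L) / l + 1 ≤ 0 := by
    have : (-L - L) / l ≤ -1 := by rw [div_le_iff₀ hl]; linarith
    linarith
  apply intervalIntegral.integral_mono_interval hneg (by norm_num) le_rfl
  · exact Eventually.of_forall fun _ => sq_nonneg _
  · exact Continuous.intervalIntegrable (by fun_prop) _ _

lemma st_deriv_bound : ∃ C : ℝ, 0 ≤ C ∧ ∀ s, deriv Real.smoothTransition s ^ 2 ≤ C := by
  have h : ContDiff ℝ 1 Real.smoothTransition := Real.smoothTransition.contDiff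
  have c1 : Continuous (deriv Real.smoothTransition) := h.continuous_deriv (by norm_num)
  have hc : Continuous (fun x => deriv Real.smoothTransition x ^ 2) := by fun_prop
  obtain ⟨K, hK⟩ := isCompact_Icc.exists_bound_of_continuousOn (s := Icc (0:ℝ) 1) hc.continuousOn
  have hK0 : 0 ≤ K := (norm_nonneg _).trans (hK 0 (by simp))
  refine ⟨K, hK0, ?_⟩
  intro s
  rcases lt_or_ge s 0 with h1 | h1
  · have e : Real.smoothTransition =ᶠ[𝓝 s] fun _ => 0 := by
      filter_upwards [Iio_mem_nhds h1] with y hy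
      exact Real.smoothTransition.zero_of_nonpos (le_of_lt hy)
    rw [e.deriv_eq]
    simpa using hK0
  · rcases lt_or_ge 1 s with h2 | h2
    · have e : Real.smoothTransition =ᶠ[𝓝 s] fun _ => 1 := by
        filter_upwards [Ioi_mem_nhds h2] with y hy
        exact Real.smoothTransition.one_of_one_le (le_of_lt hy)
      rw [e.deriv_eq]
      simpa using hK0
    · exact (le_abs_self _).trans (hK s ⟨h1, h2⟩)

lemma ft_deriv {L l : ℝ} (x : ℝ) :
    deriv (ft L l) x = deriv Real.smoothTransition ((x - L) / l + 1) * (1 / l) := by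
  have h : ContDiff ℝ 1 Real.smoothTransition := Real.smoothTransition.contDiff
  have h1 := ((h.differentiable (by norm_num)) ((x - L) / l + 1)).hasDerivAt
  have h2 : HasDerivAt (fun x : ℝ => (x - L) / l + 1) (1 / l) x :=
    (((hasDerivAt_id x).sub_const L).div_const l).add_const 1
  exact (h1.comp x h2).deriv

lemma ft_energy {L l C : ℝ} (hl : 0 < l) (hL : 0 ≤ L) (hL1 : 2 * L ≤ 1) (hC : 0 ≤ C)
    (hCb : ∀ s, deriv Real.smoothTransition s ^ 2 ≤ C) :
    ∫ x in Ioo (-L) L, deriv (ft L l) x ^ 2 ≤ C / l ^ 2 := by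
  have cd : Continuous (deriv (ft L l)) := (ft_smooth L l).continuous_deriv (by norm_num)
  have h1 : ∫ x in Ioo (-L) L, deriv (ft L l) x ^ 2 ≤ ∫ _x in Ioo (-L) L, C / l ^ 2 := by
    apply setIntegral_mono_on _ _ measurableSet_Ioo
    · intro x _
      rw [ft_deriv, mul_pow, one_div, inv_pow, ← div_eq_mul_inv]
      exact div_le_div_of_nonneg_right (hCb _) (by positivity)
    · have : Continuous (fun x => deriv (ft L l) x ^ 2) := by fun_prop
      exact (this.continuousOn.integrableOn_Icc (a := -L) (b := L)).mono_set Ioo_subset_Icc_self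
    · have : Continuous (fun _ : ℝ => C / l ^ 2) := continuous_const
      exact (this.continuousOn.integrableOn_Icc (a := -L) (b := L)).mono_set Ioo_subset_Icc_self
  refine h1.trans ?_
  rw [setIntegral_const, smul_eq_mul, Measure.real, Real.volume_Ioo,
    ENNReal.toReal_ofReal (by linarith)]
  have : 0 ≤ C / l ^ 2 := by positivity
  nlinarith

/-- upper bound for the first eigenvalue -/
lemma HP.upper {L ε κ : ℝ} (h : HP L ε κ) {α τ l C : ℝ} (hα : 0 < α) (hτ : κ = ε ^ 2 * τ)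
    (hτ0 : 0 ≤ τ) (hl : 0 < l) (hlL : l ≤ L) (hL1 : 2 * L ≤ 1) (hC : 0 ≤ C)
    (hCb : ∀ s, deriv Real.smoothTransition s ^ 2 ≤ C) (hs : α * (ε ^ 3 * τ ^ 2) / 2 ≤ 1) :
    lamf (muH L ε κ) (surf (Hs L ε κ)) (vp α ε) α 1 ≤
      6 * α / ε + 4 * α * (τ * l) + (2 * (C / l ^ 2) + α) / (l * m0) + 1 := by
  have hL := h.L0
  have hε := h.ε0
  have hm0 := m0_pos
  have fc : Continuous (ft L l) := (ft_smooth L l).continuous
  have cd : Continuous (deriv (ft L l)) := (ft_smooth L l).continuous_deriv (by norm_num)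
  have cb := hb_cont L ε κ
  have ht := h.test hα.le (ft_smooth L l)
  have hm := ft_mass hl (by linarith : l ≤ 2 * L)
  have hk := ft_energy hl hL.le hL1 hC hCb
  set lam := lamf (muH L ε κ) (surf (Hs L ε κ)) (vp α ε) α 1 with hlam
  set m := ∫ x in Ioo (-L) L, ft L l x ^ 2 with hmdef
  set k := ∫ x in Ioo (-L) L, deriv (ft L l) x ^ 2 with hkdef
  set N := ∫ x in Ioo (-L) L, hb L ε κ x * ft L l x ^ 2 with hN
  set D := ∫ x in Ioo (-L) L, hb L ε κ x * deriv (ft L l) x ^ 2 with hD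
  set P := ∫ x in Ioo (-L) L, 8 * α / ε ^ 2 * hb L ε κ x ^ 2 / 2 * ft L l x ^ 2 with hP
  have hio : ∀ {F : ℝ → ℝ}, Continuous F → IntegrableOn F (Ioo (-L) L) := fun hF =>
    (hF.continuousOn.integrableOn_Icc (a := -L) (b := L)).mono_set Ioo_subset_Icc_self
  rw [integral_Icc_eq_integral_Ioc, integral_Ioc_eq_integral_Ioo, ← hmdef, ft_one,
    ft_zero hl (by linarith : -L ≤ L - l)] at ht
  have hmpos : 0 < m := lt_of_lt_of_le (mul_pos hl hm0) hm
  have hk0 : 0 ≤ k := integral_nonneg fun _ => sq_nonneg _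
  have hNm : ε * m ≤ N := by
    rw [hmdef, ← integral_const_mul]
    apply setIntegral_mono_on (hio (by fun_prop)) (hio (by fun_prop)) measurableSet_Ioo
    intro x hx
    exact mul_le_mul_of_nonneg_right (hb_ge h.κ0 (abs_lt.mpr hx).le) (sq_nonneg _)
  have hDk : D ≤ 2 * ε * k := by
    rw [hkdef, ← integral_const_mul]
    apply setIntegral_mono_on (hio (by fun_prop)) (hio (by fun_prop)) measurableSet_Ioo
    intro x hx
    exact mul_le_mul_of_nonneg_right (h.hb_le2 x) (sq_nonneg _)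
  have hPm : P + 2 * α * m ≤ (6 * α / ε + 4 * α * (τ * l)) * N := by
    rw [hmdef, hN, hP, ← integral_const_mul, ← integral_const_mul,
      ← integral_add (hio (by fun_prop)) (hio (by fun_prop))]
    apply setIntegral_mono_on (hio (by fun_prop)) (hio (by fun_prop)) measurableSet_Ioo
    intro x hx
    rcases le_or_gt x (L - l) with hxl | hxl
    · rw [ft_zero hl hxl]; simp
    · have hx0 : 0 < x := by linarith
      have hxb := h.hb_pos (abs_lt.mpr hx).le
      have hge := hb_ge (ε := ε) h.κ0 (abs_lt.mpr hx).le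
      have hbe : hb L ε κ x = ε + ε ^ 2 * (τ * (L - x)) := by
        unfold hb; rw [abs_of_pos hx0, hτ]; ring
      have heff := eff_le (τ := τ * (L - x)) hα.le hε hge hbe
      have h1 : 4 * α * (τ * (L - x)) ≤ 4 * α * (τ * l) := by
        apply mul_le_mul_of_nonneg_left _ (by positivity)
        apply mul_le_mul_of_nonneg_left _ hτ0
        linarith
      have h2 := mul_le_mul_of_nonneg_left (heff.trans (add_le_add le_rfl h1)) hxb.le
      have e : hb L ε κ x * (2 * α / hb L ε κ x + 8 * α / ε ^ 2 * hb L ε κ x / 2) =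
          8 * α / ε ^ 2 * hb L ε κ x ^ 2 / 2 + 2 * α := by
        field_simp
        ring
      rw [e] at h2
      have h3 := mul_le_mul_of_nonneg_right h2 (sq_nonneg (ft L l x))
      refine le_trans (le_of_eq ?_) (h3.trans (le_of_eq ?_))
      · ring
      · ring
  have hNpos : 0 < N := lt_of_lt_of_le (mul_pos hε hmpos) hNm
  have hlm : 0 < l * m0 := mul_pos hl hm0
  have r1 : 2 * ε * k + α * ε ≤ (2 * (C / l ^ 2) + α) / (l * m0) * N := by
    have h1 : 2 * ε * k + α * ε ≤ (2 * (C / l ^ 2) + α) * ε := by nlinarith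
    have h2 : ε * (l * m0) ≤ N := (mul_le_mul_of_nonneg_left hm hε.le).trans hNm
    have h3 : 0 ≤ (2 * (C / l ^ 2) + α) / (l * m0) := by positivity
    calc 2 * ε * k + α * ε ≤ (2 * (C / l ^ 2) + α) * ε := h1
      _ = (2 * (C / l ^ 2) + α) / (l * m0) * (ε * (l * m0)) := by field_simp
      _ ≤ _ := mul_le_mul_of_nonneg_left h2 h3
  have r2 : α * (κ ^ 2 / 2) * m ≤ 1 * N := by
    have h1 : α * (κ ^ 2 / 2) = α * (ε ^ 3 * τ ^ 2) / 2 * ε := by rw [hτ]; ring
    have h2 : α * (ε ^ 3 * τ ^ 2) / 2 * (ε * m) ≤ 1 * (ε * m) :=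
      mul_le_mul_of_nonneg_right hs (by positivity)
    calc α * (κ ^ 2 / 2) * m = α * (ε ^ 3 * τ ^ 2) / 2 * (ε * m) := by rw [h1]; ring
      _ ≤ 1 * (ε * m) := h2
      _ ≤ 1 * N := by linarith
  have hfin : lam * N ≤ (6 * α / ε + 4 * α * (τ * l) + (2 * (C / l ^ 2) + α) / (l * m0) + 1) * N := by
    have e : α * ((2 + κ ^ 2 / 2) * m + ε * ((1:ℝ) ^ 2 + 0 ^ 2)) =
      2 * α * m + α * (κ ^ 2 / 2) * m + α * ε := by ring
    rw [e] at ht
    rw [add_mul, add_mul]
    linarith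
  exact le_of_mul_le_mul_right hfin hNpos

theorem deep {α : ℝ} (hα : 0 < α) {η : ℝ} (hη : 0 < η) : ∃ L ε κ : ℝ, HP L ε κ ∧
    Metric.diam (Hs L ε κ) = 1 ∧
    lamf (muH L ε κ) (surf (Hs L ε κ)) (vp α ε) α 2 ≤
      lamf (muH L ε κ) (surf (Hs L ε κ)) (vp α ε) α 1 + η := by
  obtain ⟨K, hK0, hK⟩ := cut_bound
  obtain ⟨C, hC0, hC⟩ := st_deriv_bound
  have hm0 := m0_pos
  have hK1 : 0 < 1 + K := by linarith
  set δ : ℝ := min (1 / 2) (η / (4 * (1 + K))) with hδ
  have hδ0 : 0 < δ := lt_min (by norm_num) (by positivity)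
  have hδ1 : δ ≤ 1 / 2 := min_le_left _ _
  have hδη : δ * (4 * (1 + K)) ≤ η := by
    have : δ ≤ η / (4 * (1 + K)) := min_le_right _ _
    rwa [le_div_iff₀ (by positivity)] at this
  set l : ℝ := δ / 16 with hl
  have hl0 : 0 < l := by positivity
  set A : ℝ := (2 * (C / l ^ 2) + α) / (l * m0) with hA
  have hA0 : 0 ≤ A := by positivity
  set τ : ℝ := 4 * (A + 2 + 289 * α ^ 2) / (δ * α) with hτ
  have hτ0 : 0 < τ := by positivity
  have hδατ : δ * α * τ = 4 * (A + 2 + 289 * α ^ 2) := by rw [hτ]; field_simp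
  set ε : ℝ := 1 / (3 + τ + α) with hε
  have hR : 0 < 3 + τ + α := by positivity
  have hε0 : 0 < ε := by positivity
  have hεR : ε * (3 + τ + α) = 1 := by rw [hε]; field_simp
  have hε3 : ε * 3 ≤ 1 := by nlinarith [mul_pos hε0 hτ0, mul_pos hε0 hα]
  have hετ : ε * τ ≤ 1 := by nlinarith [mul_pos hε0 hτ0, mul_pos hε0 hα]
  have hεα : ε * α ≤ 1 := by nlinarith [mul_pos hε0 hτ0, mul_pos hε0 hα]
  set L : ℝ := √(1 - ε ^ 2) / 2 with hL
  have hε2 : ε ^ 2 ≤ 1 / 9 := by nlinarith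
  have hsq : √(1 - ε ^ 2) ^ 2 = 1 - ε ^ 2 := Real.sq_sqrt (by linarith)
  have hs0 : 0 ≤ √(1 - ε ^ 2) := Real.sqrt_nonneg _
  have hs1 : √(1 - ε ^ 2) ≤ 1 := by
    rw [Real.sqrt_le_one]
    linarith [sq_nonneg ε]
  have hs2 : 3 / 4 ≤ √(1 - ε ^ 2) := by
    apply Real.le_sqrt_of_sq_le
    linarith
  have hL1 : 2 * L ≤ 1 := by linarith
  have hL38 : 3 / 8 ≤ L := by linarith
  have hLd : 4 * L ^ 2 + ε ^ 2 = 1 := by
    have : 4 * L ^ 2 = √(1 - ε ^ 2) ^ 2 := by rw [hL]; ring
    rw [this, hsq]; ring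
  have hεL : ε ≤ L := by linarith
  set κ : ℝ := ε ^ 2 * τ with hκ
  have hκ0 : 0 ≤ κ := by positivity
  have hκL : κ * L ≤ ε := by
    have h1 : κ = ε * (ε * τ) := by rw [hκ]; ring
    have h2 : κ ≤ ε := by rw [h1]; nlinarith
    nlinarith
  have h : HP L ε κ := ⟨by linarith, hε0, hκ0, hκL⟩
  have hsm : α * (ε ^ 3 * τ ^ 2) / 2 ≤ 1 := by
    have h1 : α * (ε ^ 3 * τ ^ 2) / 2 = (ε * α) * (ε * τ) ^ 2 / 2 := by ring
    rw [h1]
    have h2 : (ε * τ) ^ 2 ≤ 1 := pow_le_one₀ (by positivity) hετ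
    have h3 : (ε * α) * (ε * τ) ^ 2 ≤ 1 * 1 := mul_le_mul hεα h2 (by positivity) (by norm_num)
    linarith
  have hup := h.upper hα hκ hτ0.le hl0 (by linarith) hL1 hC0 hC hsm
  refine ⟨L, ε, κ, h, h.diam hεL hLd, ?_⟩
  set μ := muH L ε κ with hμ
  set ν := surf (Hs L ε κ) with hν
  set V := vp α ε with hV
  set lam := lamf μ ν V α 1 with hlam
  have hgood : Good μ := h.good
  have hgood' : Good ν := h.surf_good
  have hpot : Pot μ V := h.pot hα.le
  have hone : ContDiff ℝ 1 (fun _ : En 2 => (1:ℝ)) := contDiff_const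
  have hvol : 0 < Nf μ (fun _ => (1:ℝ)) := by
    unfold Nf
    simp only [one_pow, integral_const, smul_eq_mul, mul_one]
    rw [hμ, muH, measureReal_restrict_apply_univ]
    exact ENNReal.toReal_pos ((Hs_isOpen L ε κ).measure_pos _ h.nonempty).ne'
      h.bounded.measure_lt_top.ne
  obtain ⟨v, hv, hN, hQ⟩ := lam1_near (μ := μ) (ν := ν) (V := V) (α := α) hδ0 ⟨_, hone, hvol⟩
  have hlow := h.lower hα.le hκ hτ0.le hv
  rw [← hμ, ← hν, ← hV] at hlow
  have hcen : ∫ p, Cc.indicator (fun p => v p ^ 2) p ∂μ ≤ δ * Nf μ v := by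
    set I := ∫ p, Cc.indicator (fun p => v p ^ 2) p ∂μ with hI
    have hI0 : 0 ≤ I := integral_nonneg fun p => indicator_nonneg (fun _ _ => sq_nonneg _) p
    have h1 : α * τ / 2 * I ≤ 2 * α * (τ * (L - 1 / 8)) * I := by
      apply mul_le_mul_of_nonneg_right _ hI0
      have : α * τ * (1 / 4) ≤ α * τ * (L - 1 / 8) :=
        mul_le_mul_of_nonneg_left (by linarith) (by positivity)
      linarith
    have h2 : lam + δ - (6 * α / ε - 289 * α ^ 2) ≤ δ * (α * τ / 2) := by
      have e1 : 4 * α * (τ * l) = δ * α * τ / 4 := by rw [hl]; ring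
      have e2 : δ * (α * τ / 2) = δ * α * τ / 4 + δ * α * τ / 4 := by ring
      rw [e1] at hup
      rw [e2]
      nth_rewrite 2 [hδατ]
      linarith
    have h3 := mul_le_mul_of_nonneg_right h2 hN.le
    have h4 : α * τ / 2 * I ≤ α * τ / 2 * (δ * Nf μ v) := by
      have : (lam + δ - (6 * α / ε - 289 * α ^ 2)) * Nf μ v =
        (lam + δ) * Nf μ v - (6 * α / ε - 289 * α ^ 2) * Nf μ v := by ring
      rw [this] at h3
      have e : δ * (α * τ / 2) * Nf μ v = α * τ / 2 * (δ * Nf μ v) := by ring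
      rw [e] at h3
      linarith
    exact le_of_mul_le_mul_left h4 (by positivity)
  obtain ⟨φ, ψ, hpair, hφ⟩ := split_bound hgood hgood' hpot (sg_symm L ε κ α) hα.le hv hN
    hδ0.le hK0 hK hδ0.le (by linarith) hQ hcen
  have hκη : (δ + K * δ) / (1 - δ) ≤ η := by
    rw [div_le_iff₀ (by linarith)]
    nlinarith
  have hmem := lset2_mem hgood hgood' hpot hpair
  have h3 : lamf μ ν V α 2 ≤ Qf μ ν V α φ / Nf μ φ :=
    csInf_le (lset_bdd hgood hpot hα.le 2) hmem
  refine h3.trans ?_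
  rw [div_le_iff₀ hpair.N1]
  exact hφ.trans (mul_le_mul_of_nonneg_right (by linarith) hpair.N1.le)

end Pool.Agent.Helper88.Gap
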