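import Mathlib
import Pool.Agent.Helper88.Gap.Slice

open MeasureTheory Set Metric Filter Topology

noncomputable section

namespace Pool.Agent.Helper88.Gap

lemma dini_ctl {u G : ℝ → ℝ} {x0 x1 : ℝ} (h0 : 0 < x0) (h01 : x0 ≤ x1) (h1 : x1 < 1)
    (hu : Continuous u) (hG : ContinuousOn G (Ioo 0 1))
    (hd : ∀ x ∈ Ioo (0:ℝ) 1, ∀ r, G x < r → ∀ᶠ z in 𝓝[>] x, |u z - u x| ≤ r * (z - x)) :
    |u x1 - u x0| ≤ ∫ t in x0..x1, G t := by
  have hsub : Icc x0 x1 ⊆ Ioo (0:ℝ) 1 := fun x hx =>
    ⟨lt_of_lt_of_le h0 hx.1, lt_of_le_of_lt hx.2 h1⟩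
  have hGi : ∀ x ∈ Icc x0 x1, IntervalIntegrable G volume x0 x := by
    intro x hx
    apply ContinuousOn.intervalIntegrable
    rw [uIcc_of_le hx.1]
    exact hG.mono ((Icc_subset_Icc le_rfl hx.2).trans hsub)
  have hB' : ∀ x ∈ Ico x0 x1, HasDerivAt (fun x => ∫ t in x0..x, G t) (G x) x := by
    intro x hx
    have hx' : x ∈ Icc x0 x1 := ⟨hx.1, hx.2.le⟩
    exact intervalIntegral.integral_hasDerivAt_right (hGi x hx')
      (hG.stronglyMeasurableAtFilter isOpen_Ioo x (hsub hx'))
      (hG.continuousAt (isOpen_Ioo.mem_nhds (hsub hx')))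
  have hB : ContinuousOn (fun x => ∫ t in x0..x, G t) (Icc x0 x1) := by
    have : IntegrableOn G (uIcc x0 x1) := by
      rw [uIcc_of_le h01]
      exact (hG.mono hsub).integrableOn_compact isCompact_Icc
    have := intervalIntegral.continuousOn_primitive_interval this
    rwa [uIcc_of_le h01] at this
  have key := image_le_of_liminf_slope_right_le_deriv_boundary (f := fun x => |u x - u x0|)
    (B := fun x => ∫ t in x0..x, G t) (B' := G) (a := x0) (b := x1) (by fun_prop) (by simp) hB
    (fun x hx => (hB' x hx).hasDerivWithinAt) (by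
      intro x hx r hr
      have hx' : x ∈ Icc x0 x1 := ⟨hx.1, hx.2.le⟩
      obtain ⟨r', hr1, hr2⟩ := exists_between hr
      have hev := hd x (hsub hx') r' hr1
      apply Eventually.frequently
      filter_upwards [hev, self_mem_nhdsWithin] with z hz hzx
      have hzx' : 0 < z - x := sub_pos.mpr hzx
      rw [slope_def_field, div_lt_iff₀ hzx']
      have h3 : |u z - u x0| - |u x - u x0| ≤ |u z - u x| := by
        have := abs_sub_abs_le_abs_sub (u z - u x0) (u x - u x0)
        have e : u z - u x0 - (u x - u x0) = u z - u x := by ring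
        rwa [e] at this
      calc |u z - u x0| - |u x - u x0| ≤ |u z - u x| := h3
        _ ≤ r' * (z - x) := hz
        _ < r * (z - x) := mul_lt_mul_of_pos_right hr2 hzx')
  exact key ⟨h01, le_rfl⟩

/-- uniform first-order expansion -/
lemma unif_diff {f : En 2 → ℝ} (hf : ContDiff ℝ 1 f) {K : Set (En 2)} (hK : IsCompact K) {ε : ℝ}
    (hε : 0 < ε) : ∃ δ > 0, ∀ p ∈ K, ∀ q : En 2, ‖q - p‖ ≤ δ →
      |f q - f p - fderiv ℝ f p (q - p)| ≤ ε * ‖q - p‖ := by
  have hd : Continuous (fderiv ℝ f) := hf.continuous_fderiv (by norm_num)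
  have hdiff : Differentiable ℝ f := hf.differentiable (by norm_num)
  have hK1 : IsCompact (cthickening 1 K) := hK.cthickening
  have huc := hK1.uniformContinuousOn_of_continuous hd.continuousOn
  rw [Metric.uniformContinuousOn_iff] at huc
  obtain ⟨δ, hδ, hδ'⟩ := huc ε hε
  refine ⟨min (δ / 2) 1, by positivity, ?_⟩
  intro p hp q hq
  have hball : ∀ z ∈ closedBall p (min (δ / 2) 1), ‖fderiv ℝ f z - fderiv ℝ f p‖ ≤ ε := by
    intro z hz
    have hz1 : z ∈ cthickening 1 K := by
      apply mem_cthickening_of_dist_le z p 1 K hp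
      exact (mem_closedBall.mp hz).trans (min_le_right _ _)
    have hp1 : p ∈ cthickening 1 K := self_subset_cthickening K hp
    have hz2 : dist z p < δ := by
      have := (mem_closedBall.mp hz).trans (min_le_left _ _)
      linarith
    have := hδ' z hz1 p hp1 hz2
    rw [dist_eq_norm] at this
    exact this.le
  have h1 := (convex_closedBall p (min (δ / 2) 1)).norm_image_sub_le_of_norm_fderiv_le'
    (𝕜 := ℝ) (f := f) (φ := fderiv ℝ f p) (C := ε) (fun z _ => hdiff z) hball
    (mem_closedBall_self (by positivity)) (y := q) (by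
      rw [mem_closedBall, dist_eq_norm]; exact hq)
  rw [Real.norm_eq_abs] at h1
  exact h1

namespace Thin

variable {Ω : Set (En 2)} {a b : ℝ → ℝ} {M : ℝ}

lemma end0 (T : Thin Ω a b M) : a 0 = 0 ∧ b 0 = 0 :=
  ⟨T.az 0 (by simp), T.bz 0 (by simp)⟩
lemma end1 (T : Thin Ω a b M) : a 1 = 0 ∧ b 1 = 0 :=
  ⟨T.az 1 (by simp), T.bz 1 (by simp)⟩

/-- slope bounds for the upper function -/
lemma slope_b (T : Thin Ω a b M) {x z : ℝ} (hx : 0 < x) (hxz : x < z) (hz : z < 1) :
    -(b x / (1 - x)) * (z - x) ≤ b z - b x ∧ b z - b x ≤ b x / x * (z - x) := by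
  have hx1 : 0 < 1 - x := by linarith
  constructor
  · -- z is a convex combination of x and 1
    have h := T.cvb.2 (show x ∈ Icc (0:ℝ) 1 from ⟨hx.le, by linarith⟩)
      (show (1:ℝ) ∈ Icc (0:ℝ) 1 from ⟨by norm_num, le_rfl⟩)
      (show 0 ≤ (1 - z) / (1 - x) by
        apply div_nonneg _ hx1.le; linarith)
      (show 0 ≤ (z - x) / (1 - x) by apply div_nonneg _ hx1.le; linarith)
      (show (1 - z) / (1 - x) + (z - x) / (1 - x) = 1 by
        field_simp; ring)
    simp only [smul_eq_mul, T.end1.2, mul_zero, add_zero, mul_one] at h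
    have e : (1 - z) / (1 - x) * x + (z - x) / (1 - x) = z := by field_simp; ring
    rw [e] at h
    have e2 : (1 - z) / (1 - x) * b x = b x - b x / (1 - x) * (z - x) := by field_simp; ring
    rw [e2] at h
    linarith
  · have hz0 : 0 < z := by linarith
    have h := T.cvb.2 (show (0:ℝ) ∈ Icc (0:ℝ) 1 from ⟨le_rfl, by norm_num⟩)
      (show z ∈ Icc (0:ℝ) 1 from ⟨hz0.le, hz.le⟩)
      (show 0 ≤ (z - x) / z by
        apply div_nonneg _ hz0.le; linarith) (show 0 ≤ x / z by positivity)
      (show (z - x) / z + x / z = 1 by field_simp; ring)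
    simp only [smul_eq_mul, T.end0.2, mul_zero, zero_add] at h
    have e : x / z * z = x := by field_simp
    rw [e] at h
    have e2 : b z ≤ b x * z / x := by
      rw [le_div_iff₀ hx]
      rw [div_mul_eq_mul_div, div_le_iff₀ hz0] at h
      linarith
    have e3 : b x * z / x = b x + b x / x * (z - x) := by field_simp; ring
    rw [e3] at e2
    linarith

lemma slope_a (T : Thin Ω a b M) {x z : ℝ} (hx : 0 < x) (hxz : x < z) (hz : z < 1) :
    -(-a x / x) * (z - x) ≤ a z - a x ∧ a z - a x ≤ (-a x) / (1 - x) * (z - x) := by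
  have hx1 : 0 < 1 - x := by linarith
  constructor
  · have hz0 : 0 < z := by linarith
    have h := T.cva.2 (show (0:ℝ) ∈ Icc (0:ℝ) 1 from ⟨le_rfl, by norm_num⟩)
      (show z ∈ Icc (0:ℝ) 1 from ⟨hz0.le, hz.le⟩)
      (show 0 ≤ (z - x) / z by
        apply div_nonneg _ hz0.le; linarith) (show 0 ≤ x / z by positivity)
      (show (z - x) / z + x / z = 1 by field_simp; ring)
    simp only [smul_eq_mul, T.end0.1, mul_zero, zero_add] at h
    have e : x / z * z = x := by field_simp
    rw [e] at h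
    have e2 : a x * z / x ≤ a z := by
      rw [div_le_iff₀ hx]
      rw [div_mul_eq_mul_div, le_div_iff₀ hz0] at h
      linarith
    have e3 : a x * z / x = a x - (-a x) / x * (z - x) := by field_simp; ring
    rw [e3] at e2
    linarith
  · have h := T.cva.2 (show x ∈ Icc (0:ℝ) 1 from ⟨hx.le, by linarith⟩)
      (show (1:ℝ) ∈ Icc (0:ℝ) 1 from ⟨by norm_num, le_rfl⟩)
      (show 0 ≤ (1 - z) / (1 - x) by
        apply div_nonneg _ hx1.le; linarith)
      (show 0 ≤ (z - x) / (1 - x) by apply div_nonneg _ hx1.le; linarith)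
      (show (1 - z) / (1 - x) + (z - x) / (1 - x) = 1 by
        field_simp; ring)
    simp only [smul_eq_mul, T.end1.1, mul_zero, add_zero, mul_one] at h
    have e : (1 - z) / (1 - x) * x + (z - x) / (1 - x) = z := by field_simp; ring
    rw [e] at h
    have e2 : (1 - z) / (1 - x) * a x = a x + (-a x) / (1 - x) * (z - x) := by field_simp; ring
    rw [e2] at h
    linarith

lemma slope_sum (T : Thin Ω a b M) {x z : ℝ} (hx : 0 < x) (hxz : x < z) (hz : z < 1) :
    |a z - a x| + |b z - b x| ≤ Real.sqrt (TT M x) * (z - x) := by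
  have hx1 : 0 < 1 - x := by linarith
  have hzx : 0 < z - x := by linarith
  obtain ⟨b1, b2⟩ := T.slope_b hx hxz hz
  obtain ⟨a1, a2⟩ := T.slope_a hx hxz hz
  set m := max (1 / x) (1 / (1 - x)) with hm
  have m1 : 1 / x ≤ m := le_max_left _ _
  have m2 : 1 / (1 - x) ≤ m := le_max_right _ _
  have hb0 := T.b0 x
  have ha0 := T.a0 x
  have hb : |b z - b x| ≤ b x * m * (z - x) := by
    rw [abs_le]
    have k1 : b x / (1 - x) ≤ b x * m := by
      rw [div_eq_mul_one_div]; exact mul_le_mul_of_nonneg_left m2 hb0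
    have k2 : b x / x ≤ b x * m := by
      rw [div_eq_mul_one_div]; exact mul_le_mul_of_nonneg_left m1 hb0
    have k3 := mul_le_mul_of_nonneg_right k1 hzx.le
    have k4 := mul_le_mul_of_nonneg_right k2 hzx.le
    constructor <;> nlinarith
  have ha : |a z - a x| ≤ (-a x) * m * (z - x) := by
    rw [abs_le]
    have k1 : (-a x) / (1 - x) ≤ (-a x) * m := by
      rw [div_eq_mul_one_div]; exact mul_le_mul_of_nonneg_left m2 (by linarith)
    have k2 : (-a x) / x ≤ (-a x) * m := by
      rw [div_eq_mul_one_div]; exact mul_le_mul_of_nonneg_left m1 (by linarith)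
    have k3 := mul_le_mul_of_nonneg_right k1 hzx.le
    have k4 := mul_le_mul_of_nonneg_right k2 hzx.le
    constructor <;> nlinarith
  have hm0 : 0 < m := lt_of_lt_of_le (by positivity) m1
  have hMm : (b x - a x) * m ≤ Real.sqrt (TT M x) := by
    have h1 : (b x - a x) * m ≤ M * m := mul_le_mul_of_nonneg_right (T.hM x) hm0.le
    refine h1.trans ?_
    apply Real.le_sqrt_of_sq_le
    unfold TT
    rcases max_choice (1 / x) (1 / (1 - x)) with h | h
    · rw [hm, h]
      have : (M * (1 / x)) ^ 2 = M ^ 2 / x ^ 2 := by ring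
      rw [this]
      have : 0 ≤ M ^ 2 / (1 - x) ^ 2 := by positivity
      linarith
    · rw [hm, h]
      have : (M * (1 / (1 - x))) ^ 2 = M ^ 2 / (1 - x) ^ 2 := by
        rw [mul_one_div, div_pow]
      rw [this]
      have : 0 ≤ M ^ 2 / x ^ 2 := by positivity
      linarith
  calc |a z - a x| + |b z - b x| ≤ (-a x) * m * (z - x) + b x * m * (z - x) := add_le_add ha hb
    _ = (b x - a x) * m * (z - x) := by ring
    _ ≤ _ := mul_le_mul_of_nonneg_right hMm hzx.le

/-- the gradient bound for averages -/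
theorem avg_ctl (T : Thin Ω a b M) {f : En 2 → ℝ} (hf : ContDiff ℝ 1 f) {x0 x1 : ℝ}
    (h0 : 0 < x0) (h01 : x0 ≤ x1) (h1 : x1 < 1) :
    |uu a b f x1 - uu a b f x0| ≤
      ∫ t in x0..x1, Real.sqrt ((1 + 2 * TT M t) / hh a b t * EE a b f t) := by
  have hd : Continuous (fderiv ℝ f) := hf.continuous_fderiv (by norm_num)
  have hfc := hf.continuous
  have hp := T.pt_cont
  have cX := T.XX_cont hf
  have cY := T.YY_cont hf
  have cE := T.EE_cont hf
  have chh := T.hh_cont
  have cTT := TT_cont (M := M)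
  have hposh : ∀ x ∈ Ioo (0:ℝ) 1, 0 < hh a b x := by
    intro x hx
    have := T.lt x hx
    unfold hh; linarith
  have hGc : ContinuousOn (fun t => Real.sqrt ((1 + 2 * TT M t) / hh a b t * EE a b f t))
      (Ioo 0 1) := by
    apply ContinuousOn.sqrt
    apply ContinuousOn.mul _ cE.continuousOn
    apply ContinuousOn.div (by fun_prop) chh.continuousOn
    intro x hx
    exact (hposh x hx).ne'
  apply dini_ctl h0 h01 h1 (T.uu_cont hfc) hGc
  intro x hx r hr
  have hhx := hposh x hx
  set S := Real.sqrt (TT M x) with hS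
  have hS0 : 0 ≤ S := Real.sqrt_nonneg _
  have hTT0 := TT_nonneg M x
  have hS2 : S ^ 2 = TT M x := Real.sq_sqrt hTT0
  set G := Real.sqrt ((1 + 2 * TT M x) / hh a b x * EE a b f x) with hG
  set ε := (r - G) / (1 + S) with hε
  have hε0 : 0 < ε := by
    apply div_pos (by linarith) (by linarith)
  have hK : IsCompact ((fun t => pt a b x t) '' Icc 0 1) :=
    isCompact_Icc.image (hp.comp (Continuous.prodMk_right x))
  obtain ⟨δ, hδ, hexp⟩ := unif_diff hf hK hε0
  -- neighbourhood of x
  have hev1 : ∀ᶠ z in 𝓝[>] x, z < 1 := by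
    filter_upwards [Ioo_mem_nhdsGT hx.2] with z hz
    exact hz.2
  have hev2 : ∀ᶠ z in 𝓝[>] x, (z - x) * (1 + S) ≤ δ := by
    have hδ' : 0 < δ / (1 + S) := by positivity
    filter_upwards [Ioo_mem_nhdsGT (show x < x + δ / (1 + S) by linarith)] with z hz
    have : z - x < δ / (1 + S) := by linarith [hz.2]
    rw [lt_div_iff₀ (by linarith)] at this
    exact this.le
  filter_upwards [hev1, hev2, self_mem_nhdsWithin] with z hz1 hz2 hzx
  have hzx' : x < z := hzx
  have hpos : 0 < z - x := by linarith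
  have hsl := T.slope_sum hx.1 hzx' hz1
  -- displacement
  have hdisp : ∀ t ∈ Icc (0:ℝ) 1, ∃ σ : ℝ, |σ| ≤ S * (z - x) ∧
      pt a b z t - pt a b x t = (z - x) • bb 0 + σ • bb 1 := by
    intro t ht
    refine ⟨(1 - t) * (a z - a x) + t * (b z - b x), ?_, ?_⟩
    · have k1 : |(1 - t) * (a z - a x) + t * (b z - b x)| ≤ |a z - a x| + |b z - b x| := by
        calc |(1 - t) * (a z - a x) + t * (b z - b x)| ≤
              |(1 - t) * (a z - a x)| + |t * (b z - b x)| := abs_add_le _ _
          _ = (1 - t) * |a z - a x| + t * |b z - b x| := by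
              rw [abs_mul, abs_mul, abs_of_nonneg (by linarith [ht.2] : 0 ≤ 1 - t),
                abs_of_nonneg ht.1]
          _ ≤ _ := by
              have := abs_nonneg (a z - a x)
              have := abs_nonneg (b z - b x)
              nlinarith [ht.1, ht.2]
      exact k1.trans hsl
    · unfold pt hh
      rw [P2_lin, P2_lin]
      module
  have hbn0 : ‖(bb 0 : En 2)‖ = 1 := by simp [bb]
  have hbn1 : ‖(bb 1 : En 2)‖ = 1 := by simp [bb]
  have hpt : ∀ t ∈ Icc (0:ℝ) 1, |f (pt a b z t) - f (pt a b x t)| ≤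
      (z - x) * (|fderiv ℝ f (pt a b x t) (bb 0)| + S * |fderiv ℝ f (pt a b x t) (bb 1)|
        + ε * (1 + S)) := by
    intro t ht
    obtain ⟨σ, hσ, hdp⟩ := hdisp t ht
    have hn : ‖pt a b z t - pt a b x t‖ ≤ (z - x) * (1 + S) := by
      rw [hdp]
      calc ‖(z - x) • (bb 0 : En 2) + σ • bb 1‖ ≤ ‖(z - x) • (bb 0 : En 2)‖ + ‖σ • (bb 1 : En 2)‖ :=
            norm_add_le _ _
        _ = |z - x| + |σ| := by
            rw [norm_smul, norm_smul, hbn0, hbn1, Real.norm_eq_abs, Real.norm_eq_abs]; ring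
        _ ≤ (z - x) * (1 + S) := by rw [abs_of_pos hpos]; linarith
    have h3 := hexp (pt a b x t) ⟨t, ht, rfl⟩ (pt a b z t) (hn.trans hz2)
    have h4 : fderiv ℝ f (pt a b x t) (pt a b z t - pt a b x t) =
        (z - x) * fderiv ℝ f (pt a b x t) (bb 0) + σ * fderiv ℝ f (pt a b x t) (bb 1) := by
      rw [hdp]; simp
    have h5 : |fderiv ℝ f (pt a b x t) (pt a b z t - pt a b x t)| ≤
        (z - x) * (|fderiv ℝ f (pt a b x t) (bb 0)| + S * |fderiv ℝ f (pt a b x t) (bb 1)|) := by
      rw [h4]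
      calc _ ≤ |(z - x) * fderiv ℝ f (pt a b x t) (bb 0)| + |σ * fderiv ℝ f (pt a b x t) (bb 1)| :=
            abs_add_le _ _
        _ = (z - x) * |fderiv ℝ f (pt a b x t) (bb 0)| + |σ| * |fderiv ℝ f (pt a b x t) (bb 1)| := by
            rw [abs_mul, abs_mul, abs_of_pos hpos]
        _ ≤ _ := by
            have := mul_le_mul_of_nonneg_right hσ (abs_nonneg (fderiv ℝ f (pt a b x t) (bb 1)))
            linarith
    have h6 : |f (pt a b z t) - f (pt a b x t)| ≤
        |fderiv ℝ f (pt a b x t) (pt a b z t - pt a b x t)| + ε * ‖pt a b z t - pt a b x t‖ := by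
      have e := abs_add_le (fderiv ℝ f (pt a b x t) (pt a b z t - pt a b x t))
        (f (pt a b z t) - f (pt a b x t) - fderiv ℝ f (pt a b x t) (pt a b z t - pt a b x t))
      rw [add_sub_cancel] at e
      linarith
    have h7 : ε * ‖pt a b z t - pt a b x t‖ ≤ ε * ((z - x) * (1 + S)) :=
      mul_le_mul_of_nonneg_left hn hε0.le
    linarith
  have cx : Continuous (fun t => pt a b x t) := hp.comp (Continuous.prodMk_right x)
  have cz : Continuous (fun t => pt a b z t) := hp.comp (Continuous.prodMk_right z)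
  have k0 : Continuous (fun t => |fderiv ℝ f (pt a b x t) (bb 0)|) := by fun_prop
  have k1 : Continuous (fun t => |fderiv ℝ f (pt a b x t) (bb 1)|) := by fun_prop
  have hI : |uu a b f z - uu a b f x| ≤ (z - x) * ((∫ t in (0:ℝ)..1, |fderiv ℝ f (pt a b x t) (bb 0)|)
      + S * (∫ t in (0:ℝ)..1, |fderiv ℝ f (pt a b x t) (bb 1)|) + ε * (1 + S)) := by
    have e : uu a b f z - uu a b f x = ∫ t in (0:ℝ)..1, (f (pt a b z t) - f (pt a b x t)) := by
      unfold uu
      have c1 : Continuous (fun t => f (pt a b z t)) := by fun_prop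
      have c2 : Continuous (fun t => f (pt a b x t)) := by fun_prop
      rw [intervalIntegral.integral_sub (c1.intervalIntegrable _ _) (c2.intervalIntegrable _ _)]
    have c3 : Continuous (fun t => |f (pt a b z t) - f (pt a b x t)|) := by fun_prop
    have c4 : Continuous (fun t => (z - x) * (|fderiv ℝ f (pt a b x t) (bb 0)| +
        S * |fderiv ℝ f (pt a b x t) (bb 1)| + ε * (1 + S))) := by fun_prop
    have c5 : Continuous (fun t => |fderiv ℝ f (pt a b x t) (bb 0)| +
        S * |fderiv ℝ f (pt a b x t) (bb 1)|) := by fun_prop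
    have c6 : Continuous (fun t => S * |fderiv ℝ f (pt a b x t) (bb 1)|) := by fun_prop
    rw [e]
    calc |∫ t in (0:ℝ)..1, (f (pt a b z t) - f (pt a b x t))| ≤
          ∫ t in (0:ℝ)..1, |f (pt a b z t) - f (pt a b x t)| :=
          intervalIntegral.abs_integral_le_integral_abs (by norm_num)
      _ ≤ ∫ t in (0:ℝ)..1, (z - x) * (|fderiv ℝ f (pt a b x t) (bb 0)| +
            S * |fderiv ℝ f (pt a b x t) (bb 1)| + ε * (1 + S)) :=
          intervalIntegral.integral_mono_on (by norm_num) (c3.intervalIntegrable _ _)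
            (c4.intervalIntegrable _ _) hpt
      _ = _ := by
          rw [intervalIntegral.integral_const_mul,
            intervalIntegral.integral_add (c5.intervalIntegrable _ _) (by simp),
            intervalIntegral.integral_add (k0.intervalIntegrable _ _) (c6.intervalIntegrable _ _),
            intervalIntegral.integral_const_mul]
          simp
  -- compare with G
  set A0 := ∫ t in (0:ℝ)..1, |fderiv ℝ f (pt a b x t) (bb 0)| with hA0
  set A1 := ∫ t in (0:ℝ)..1, |fderiv ℝ f (pt a b x t) (bb 1)| with hA1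
  have hA0n : 0 ≤ A0 := intervalIntegral.integral_nonneg (by norm_num) (fun _ _ => abs_nonneg _)
  have hA1n : 0 ≤ A1 := intervalIntegral.integral_nonneg (by norm_num) (fun _ _ => abs_nonneg _)
  have hX : A0 ^ 2 ≤ XX a b f x := by
    have := jensen_cont k0
    simp only [sq_abs] at this
    exact this
  have hY : A1 ^ 2 ≤ YY a b f x := by
    have := jensen_cont k1
    simp only [sq_abs] at this
    exact this
  have hAG : A0 + S * A1 ≤ G := by
    apply Real.le_sqrt_of_sq_le
    have e : (1 + 2 * TT M x) / hh a b x * EE a b f x =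
        (1 + 2 * S ^ 2) * (XX a b f x + YY a b f x / 2) := by
      unfold EE
      rw [hS2]
      field_simp
    rw [e]
    have h3 : (1 + 2 * S ^ 2) * (A0 ^ 2 + A1 ^ 2 / 2) ≤
        (1 + 2 * S ^ 2) * (XX a b f x + YY a b f x / 2) :=
      mul_le_mul_of_nonneg_left (by linarith) (by positivity)
    refine le_trans ?_ h3
    nlinarith [sq_nonneg (A1 - 2 * S * A0)]
  have hr' : G + ε * (1 + S) = r := by
    rw [hε]
    field_simp
    ring
  refine hI.trans ?_
  have : A0 + S * A1 + ε * (1 + S) ≤ r := by linarith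
  calc (z - x) * (A0 + S * A1 + ε * (1 + S)) ≤ (z - x) * r := mul_le_mul_of_nonneg_left this hpos.le
    _ = r * (z - x) := by ring

end Thin

end Pool.Agent.Helper88.Gap
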