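import Mathlib
import Pool.Agent.Helper88.Gap.Gen
import Pool.Agent.Helper88.Gap.Thin

open MeasureTheory Set Metric Filter Topology
open scoped Pointwise

noncomputable section

namespace Pool.Agent.Helper88.Gap

lemma scal_one : Measure.addHaarScalarFactor (volume : Measure (EuclideanSpace ℝ (Fin 1)))
    (μH[((1:ℕ):ℝ)] : Measure (EuclideanSpace ℝ (Fin 1))) = 1 := by
  have h1 := InnerProductSpace.euclideanHausdorffMeasure_eq_volume (V := ℝ)
  rw [Module.finrank_self, Measure.euclideanHausdorffMeasure_def] at h1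
  generalize Measure.addHaarScalarFactor (volume : Measure (EuclideanSpace ℝ (Fin 1)))
    (μH[((1:ℕ):ℝ)] : Measure (EuclideanSpace ℝ (Fin 1))) = c at h1 ⊢
  rw [Nat.cast_one, hausdorffMeasure_real] at h1
  have h2 := congrArg (fun m : Measure ℝ => m (Icc 0 1)) h1
  simp only [Measure.smul_apply, Real.volume_Icc, sub_zero, ENNReal.ofReal_one] at h2
  rw [ENNReal.smul_def, smul_eq_mul, mul_one] at h2
  exact ENNReal.coe_eq_one.mp h2

/-- the normalised one-dimensional Hausdorff measure is the Hausdorff measure -/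
lemma euc_one (X : Type*) [EMetricSpace X] [MeasurableSpace X] [BorelSpace X] :
    (Measure.euclideanHausdorffMeasure 1 : Measure X) = μH[(1:ℝ)] := by
  rw [Measure.euclideanHausdorffMeasure_def, scal_one, one_smul, Nat.cast_one]

/-- scaling map -/
lemma hom_cont (c : ℝ) : Continuous (fun p : En 2 => c • p) := continuous_const_smul c

lemma hom_emb {c : ℝ} (hc : 0 < c) : MeasurableEmbedding (fun p : En 2 => c • p) :=
  (Homeomorph.smulOfNeZero c hc.ne').measurableEmbedding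

/-- scaled relation of measures -/
structure Sc (μ μ' : Measure (En 2)) (c s : ℝ) : Prop where
  int : ∀ F : En 2 → ℝ, ∫ p, F p ∂μ' = s * ∫ p, F (c • p) ∂μ

lemma frontier_smul' {c : ℝ} (hc : 0 < c) (Ω : Set (En 2)) :
    (fun p : En 2 => c • p) '' frontier Ω = frontier ((fun p : En 2 => c • p) '' Ω) :=
  (Homeomorph.smulOfNeZero c hc.ne').image_frontier Ω

lemma sc_vol {c : ℝ} (hc : 0 < c) (Ω : Set (En 2)) :
    Sc (volume.restrict Ω) (volume.restrict ((fun p : En 2 => c • p) '' Ω)) c (c ^ 2) := by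
  refine ⟨fun F => ?_⟩
  have h := Measure.setIntegral_comp_smul_of_pos (volume : Measure (En 2)) F Ω hc
  have e : (fun p : En 2 => c • p) '' Ω = c • Ω := rfl
  rw [e, h]
  simp
  field_simp

lemma sc_surf {c : ℝ} (hc : 0 < c) (Ω : Set (En 2)) :
    Sc (surf Ω) (surf ((fun p : En 2 => c • p) '' Ω)) c c := by
  refine ⟨fun F => ?_⟩
  have hm : surf ((fun p : En 2 => c • p) '' Ω) =
      (Real.toNNReal c) • Measure.map (fun p : En 2 => c • p) (surf Ω) := by
    ext S hS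
    rw [surf, Measure.restrict_apply hS, Measure.smul_apply,
      Measure.map_apply (hom_cont c).measurable hS, surf,
      Measure.restrict_apply ((hom_cont c).measurable hS)]
    have e : S ∩ frontier ((fun p : En 2 => c • p) '' Ω) =
        c • ((fun p : En 2 => c • p) ⁻¹' S ∩ frontier Ω) := by
      rw [← frontier_smul' hc]
      ext q
      constructor
      · rintro ⟨h1, p, hp, rfl⟩
        exact ⟨p, ⟨h1, hp⟩, rfl⟩
      · rintro ⟨p, ⟨h1, hp⟩, rfl⟩
        exact ⟨h1, p, hp, rfl⟩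
    rw [e, Measure.hausdorffMeasure_smul₀ zero_le_one hc.ne']
    congr 1
    rw [NNReal.rpow_one]
    apply NNReal.eq
    rw [coe_nnnorm, Real.norm_of_nonneg hc.le, Real.coe_toNNReal c hc.le]
  rw [hm, integral_smul_nnreal_measure, (hom_emb hc).integral_map, NNReal.smul_def,
    Real.coe_toNNReal c hc.le, smul_eq_mul]

lemma hom_fderiv (c : ℝ) {v : En 2 → ℝ} (hv : ContDiff ℝ 1 v) (p : En 2) :
    ‖fderiv ℝ (fun q : En 2 => v (c • q)) p‖ ^ 2 = c ^ 2 * ‖fderiv ℝ v (c • p)‖ ^ 2 := by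
  have h1 := ((hv.differentiable (by norm_num)) (c • p)).hasFDerivAt
  have h2 : HasFDerivAt (fun q : En 2 => c • q) (c • ContinuousLinearMap.id ℝ (En 2)) p :=
    (hasFDerivAt_id p).const_smul c
  have h3 := (h1.comp p h2).fderiv
  have h4 : fderiv ℝ (fun q : En 2 => v (c • q)) p =
      c • fderiv ℝ v (c • p) := by
    rw [show (fun q : En 2 => v (c • q)) = v ∘ (fun q : En 2 => c • q) from rfl, h3]
    ext q
    simp
  rw [h4, norm_smul, mul_pow, Real.norm_eq_abs, sq_abs]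

section

variable {μ μ' ν ν' : Measure (En 2)} {c : ℝ}

lemma Nf_sc (h : Sc μ μ' c (c ^ 2)) (v : En 2 → ℝ) :
    Nf μ' v = c ^ 2 * Nf μ (fun p => v (c • p)) := h.int (fun p => v p ^ 2)

lemma Qf_sc (h : Sc μ μ' c (c ^ 2)) (h' : Sc ν ν' c c) (V : En 2 → ℝ) (α : ℝ)
    {v : En 2 → ℝ} (hv : ContDiff ℝ 1 v) :
    Qf μ' ν' V α v = Qf μ ν (fun p => c ^ 2 * V (c • p)) (α * c) (fun p => v (c • p)) := by
  unfold Qf
  rw [h.int, h'.int, ← integral_const_mul]
  congr 1
  · congr 1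
    funext p
    rw [hom_fderiv c hv]
    ring
  · ring

lemma lset_sc_sub (hc : 0 < c) (h : Sc μ μ' c (c ^ 2)) (h' : Sc ν ν' c c) (V : En 2 → ℝ)
    (α : ℝ) (k : ℕ) {r : ℝ} (hr : r ∈ lset μ' ν' V α k) :
    c ^ 2 * r ∈ lset μ ν (fun p => c ^ 2 * V (c • p)) (α * c) k := by
  obtain ⟨W, hk, hcd, hp, rfl⟩ := hr
  set E : (En 2 → ℝ) ≃ₗ[ℝ] (En 2 → ℝ) :=
    LinearEquiv.funCongrLeft ℝ ℝ (Homeomorph.smulOfNeZero c hc.ne' : En 2 ≃ₜ En 2).toEquiv with hE
  have hEa : ∀ v, E v = fun p => v (c • p) := fun v => rfl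
  have hc2 : 0 < c ^ 2 := by positivity
  refine ⟨W.map (E : (En 2 → ℝ) →ₗ[ℝ] (En 2 → ℝ)), ?_, ?_, ?_, ?_⟩
  · rw [LinearEquiv.finrank_map_eq, hk]
  · rintro _ ⟨v, hv, rfl⟩
    exact (hcd v hv).comp (contDiff_const_smul c)
  · rintro _ ⟨v, hv, rfl⟩ hne
    have h1 := Nf_sc h v
    have h2 := hp v hv (by
      rintro rfl
      exact hne (map_zero _))
    rw [h1] at h2
    exact (pos_iff_pos_of_mul_pos h2).mp hc2
  · rw [← smul_eq_mul, ← Real.sSup_smul_of_nonneg hc2.le]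
    congr 1
    ext q
    constructor
    · rintro ⟨_, ⟨v, hv, hv0, rfl⟩, rfl⟩
      refine ⟨E v, ⟨v, hv, rfl⟩, ?_, ?_⟩
      · intro h0
        exact hv0 (E.injective (h0.trans (map_zero _).symm))
      · have hN := hp v hv hv0
        simp only [smul_eq_mul]
        rw [hEa, Nf_sc h, Qf_sc h h' V α (hcd v hv)]
        field_simp
    · rintro ⟨_, ⟨v, hv, rfl⟩, hv0, rfl⟩
      have hv0' : v ≠ 0 := by
        rintro rfl
        exact hv0 (map_zero _)
      refine ⟨_, ⟨v, hv, hv0', rfl⟩, ?_⟩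
      simp only [smul_eq_mul]
      change _ = Qf μ ν (fun p => c ^ 2 * V (c • p)) (α * c) (fun p => v (c • p)) /
        Nf μ (fun p => v (c • p))
      rw [Nf_sc h, Qf_sc h h' V α (hcd v hv)]
      field_simp

end

lemma sc_inv {μ μ' : Measure (En 2)} {c s : ℝ} (hc : 0 < c) (hs : 0 < s) (h : Sc μ μ' c s) :
    Sc μ' μ c⁻¹ s⁻¹ := by
  refine ⟨fun F => ?_⟩
  rw [h.int]
  simp only [smul_smul, inv_mul_cancel₀ hc.ne', one_smul]
  field_simp

lemma lamf_sc {μ μ' ν ν' : Measure (En 2)} {c : ℝ} (hc : 0 < c) (h : Sc μ μ' c (c ^ 2))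
    (h' : Sc ν ν' c c) (V : En 2 → ℝ) (α : ℝ) (k : ℕ) :
    c ^ 2 * lamf μ' ν' V α k = lamf μ ν (fun p => c ^ 2 * V (c • p)) (α * c) k := by
  unfold lamf
  have hc2 : 0 < c ^ 2 := by positivity
  have e : lset μ ν (fun p => c ^ 2 * V (c • p)) (α * c) k = c ^ 2 • lset μ' ν' V α k := by
    ext r
    constructor
    · intro hr
      have h1 := lset_sc_sub (c := c⁻¹) (inv_pos.mpr hc) (by
        have := sc_inv hc hc2 h
        rwa [← inv_pow] at this) (sc_inv hc hc h') (fun p => c ^ 2 * V (c • p)) (α * c) k hr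
      refine ⟨c⁻¹ ^ 2 * r, ?_, ?_⟩
      · have e1 : (fun p : En 2 => c⁻¹ ^ 2 * (c ^ 2 * V (c • c⁻¹ • p))) = V := by
          funext p
          rw [smul_smul, mul_inv_cancel₀ hc.ne', one_smul]
          field_simp
        have e2 : α * c * c⁻¹ = α := by field_simp
        rw [e1, e2] at h1
        exact h1
      · simp only [smul_eq_mul]
        field_simp
    · rintro ⟨r, hr, rfl⟩
      exact lset_sc_sub hc h h' V α k hr
  rw [e, Real.sInf_smul_of_nonneg hc2.le, smul_eq_mul]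

end Pool.Agent.Helper88.Gap
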