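import Mathlib
import Pool.Agent.Helper88.Gap.Dini
import Pool.Agent.Helper88.Gap.Bal

open MeasureTheory Set Metric Filter Topology

noncomputable section

namespace Pool.Agent.Helper88.Gap

lemma slice_sq {g g' : ℝ → ℝ} (hg : ∀ t, HasDerivAt g (g' t) t) (hg' : Continuous g') :
    ∫ t in (0:ℝ)..1, g t ^ 2 ≤ (∫ t in (0:ℝ)..1, g' t ^ 2) + (∫ t in (0:ℝ)..1, g t) ^ 2 := by
  have gc : Continuous g := continuous_iff_continuousAt.mpr fun t => (hg t).continuousAt
  set u := ∫ t in (0:ℝ)..1, g t with hu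
  set K := ∫ t in (0:ℝ)..1, g' t ^ 2 with hK
  set L := ∫ t in (0:ℝ)..1, |g' t| with hL
  have hL0 : 0 ≤ L := intervalIntegral.integral_nonneg (by norm_num) (fun _ _ => abs_nonneg _)
  have hLK : L ^ 2 ≤ K := by
    have := jensen_cont (f := fun t => |g' t|) (by fun_prop)
    simpa [sq_abs] using this
  have habs : ∀ a b : ℝ, 0 ≤ a → a ≤ b → b ≤ 1 → |g b - g a| ≤ L := by
    intro a b ha hab hb
    have h1 := intervalIntegral.integral_eq_sub_of_hasDerivAt (a := a) (b := b)
      (fun t _ => hg t) (hg'.intervalIntegrable _ _)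
    rw [← h1]
    have h2 : |∫ t in a..b, g' t| ≤ ∫ t in a..b, |g' t| :=
      intervalIntegral.abs_integral_le_integral_abs hab
    refine h2.trans ?_
    apply intervalIntegral.integral_mono_interval ha hab hb
    · exact Eventually.of_forall fun _ => abs_nonneg _
    · exact Continuous.intervalIntegrable (by fun_prop) _ _
  have habs2 : ∀ s t : ℝ, s ∈ Icc (0:ℝ) 1 → t ∈ Icc (0:ℝ) 1 → |g s - g t| ≤ L := by
    intro s t hs ht
    rcases le_total s t with h | h
    · rw [abs_sub_comm]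
      exact habs s t hs.1 h ht.2
    · exact habs t s ht.1 h hs.2
  have hdev : ∀ s ∈ Icc (0:ℝ) 1, |g s - u| ≤ L := by
    intro s hs
    have e : g s - u = ∫ t in (0:ℝ)..1, (g s - g t) := by
      rw [intervalIntegral.integral_sub (by simp) (gc.intervalIntegrable _ _)]
      simp [hu]
    rw [e]
    have h1 : |∫ t in (0:ℝ)..1, (g s - g t)| ≤ ∫ t in (0:ℝ)..1, |g s - g t| :=
      intervalIntegral.abs_integral_le_integral_abs (by norm_num)
    have h2 : ∫ t in (0:ℝ)..1, |g s - g t| ≤ ∫ _t in (0:ℝ)..1, L := by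
      apply intervalIntegral.integral_mono_on (by norm_num)
        (Continuous.intervalIntegrable (by fun_prop) _ _) (by simp)
      intro t ht
      exact habs2 s t hs ht
    refine h1.trans (h2.trans (le_of_eq ?_))
    simp
  have e : ∫ t in (0:ℝ)..1, g t ^ 2 = (∫ t in (0:ℝ)..1, (g t - u) ^ 2) + u ^ 2 := by
    have : ∀ t, (g t - u) ^ 2 = g t ^ 2 - 2 * u * g t + u ^ 2 := by intro t; ring
    simp_rw [this]
    rw [intervalIntegral.integral_add (Continuous.intervalIntegrable (by fun_prop) _ _)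
      (by simp), intervalIntegral.integral_sub (Continuous.intervalIntegrable (by fun_prop) _ _)
      (Continuous.intervalIntegrable (by fun_prop) _ _), intervalIntegral.integral_const_mul,
      ← hu]
    simp
    ring
  have h2 : ∫ t in (0:ℝ)..1, (g t - u) ^ 2 ≤ ∫ _t in (0:ℝ)..1, L ^ 2 := by
    apply intervalIntegral.integral_mono_on (by norm_num)
      (Continuous.intervalIntegrable (by fun_prop) _ _) (by simp)
    intro t ht
    rw [← sq_abs]
    exact pow_le_pow_left₀ (abs_nonneg _) (hdev t ht) 2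
  have h3 : ∫ _t in (0:ℝ)..1, L ^ 2 = L ^ 2 := by simp
  linarith

lemma eq_zero_of_int {F : ℝ → ℝ} (hF : Continuous F) (h0 : ∀ x ∈ Ioo (0:ℝ) 1, 0 ≤ F x)
    (hi : ∫ x in Ioo (0:ℝ) 1, F x ≤ 0) : ∀ x ∈ Ioo (0:ℝ) 1, F x = 0 := by
  intro x hx
  by_contra hne
  have hpos : 0 < F x := lt_of_le_of_ne (h0 x hx) (Ne.symm hne)
  -- F ≥ 0 on the closure
  have h0' : ∀ y ∈ Icc (0:ℝ) 1, 0 ≤ F y := by
    have hcl : IsClosed {y | 0 ≤ F y} := isClosed_le continuous_const hF
    have hsub : closure (Ioo (0:ℝ) 1) ⊆ {y | 0 ≤ F y} := closure_minimal h0 hcl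
    rw [closure_Ioo (by norm_num)] at hsub
    exact hsub
  have := intervalIntegral.integral_pos (f := F) (a := 0) (b := 1) (by norm_num) hF.continuousOn
    (fun y hy => h0' y ⟨hy.1.le, hy.2⟩) ⟨x, ⟨hx.1.le, hx.2.le⟩, hpos⟩
  rw [intervalIntegral.integral_of_le (by norm_num), integral_Ioc_eq_integral_Ioo] at this
  linarith

/-- admissible two-dimensional spaces exist -/
lemma lset2_ne {n : ℕ} {μ ν : Measure (En n)} {V : En n → ℝ} {α : ℝ} {u w : En n → ℝ}
    (hu : ContDiff ℝ 1 u)
    (hw : ContDiff ℝ 1 w) (hp : ∀ s t : ℝ, s ^ 2 + t ^ 2 ≠ 0 → 0 < Nf μ (s • u + t • w)) :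
    (lset μ ν V α 2).Nonempty := by
  have hli : LinearIndependent ℝ ![u, w] := by
    rw [LinearIndependent.pair_iff]
    intro s t hst0
    by_contra hne
    have h1 : s ^ 2 + t ^ 2 ≠ 0 := by
      intro h
      apply hne
      constructor
      · nlinarith [sq_nonneg s, sq_nonneg t]
      · nlinarith [sq_nonneg s, sq_nonneg t]
    have := hp s t h1
    rw [hst0, Nf_zero] at this
    exact lt_irrefl _ this
  refine ⟨_, Submodule.span ℝ {u, w}, ?_, ?_, ?_, rfl⟩
  · have h1 := finrank_span_eq_card hli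
    have hr : Set.range ![u, w] = {u, w} := by
      ext v
      simp only [mem_range, Fin.exists_fin_two, Matrix.cons_val_zero, Matrix.cons_val_one,
        mem_insert_iff, mem_singleton_iff, eq_comm]
    rw [hr] at h1
    rw [h1]
    simp
  · intro v hv
    obtain ⟨s, t, rfl⟩ := Submodule.mem_span_pair.mp hv
    exact (contDiff_const.smul hu).add (contDiff_const.smul hw)
  · intro v hv hv0
    obtain ⟨s, t, rfl⟩ := Submodule.mem_span_pair.mp hv
    apply hp
    intro h
    apply hv0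
    have hs : s = 0 := by nlinarith [sq_nonneg s, sq_nonneg t]
    have ht : t = 0 := by nlinarith [sq_nonneg s, sq_nonneg t]
    rw [hs, ht]
    simp

namespace Thin

variable {Ω : Set (En 2)} {a b : ℝ → ℝ} {M : ℝ}

/-- functions of the first coordinate -/
lemma x_smooth {ψ : ℝ → ℝ} (hψ : ContDiff ℝ 1 ψ) : ContDiff ℝ 1 (fun p : En 2 => ψ (p 0)) :=
  hψ.comp (EuclideanSpace.proj 0 : En 2 →L[ℝ] ℝ).contDiff

lemma x_mass (T : Thin Ω a b M) {ψ : ℝ → ℝ} (hψ : Continuous ψ) :
    Nf (volume.restrict Ω) (fun p => ψ (p 0)) = ∫ x in Ioo (0:ℝ) 1, hh a b x * ψ x ^ 2 := by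
  have c0 := coord_cont 0
  unfold Nf
  rw [T.int (F := fun p => ψ (p 0) ^ 2) (by fun_prop)]
  congr 1
  funext x
  simp [hh]

lemma x_dirichlet (T : Thin Ω a b M) {ψ : ℝ → ℝ} (hψ : ContDiff ℝ 1 ψ) :
    Df (volume.restrict Ω) (fun p => ψ (p 0)) =
      ∫ x in Ioo (0:ℝ) 1, hh a b x * deriv ψ x ^ 2 := by
  have c0 := coord_cont 0
  have cd : Continuous (deriv ψ) := hψ.continuous_deriv (by norm_num)
  have e : ∀ p : En 2, ‖fderiv ℝ (fun p : En 2 => ψ (p 0)) p‖ ^ 2 = deriv ψ (p 0) ^ 2 := by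
    intro p
    have h1 : HasFDerivAt (fun p : En 2 => p 0) (EuclideanSpace.proj 0 : En 2 →L[ℝ] ℝ) p :=
      (EuclideanSpace.proj 0 : En 2 →L[ℝ] ℝ).hasFDerivAt
    have h2 := ((hψ.differentiable (by norm_num)) (p 0)).hasDerivAt
    have h3 := (h2.comp_hasFDerivAt p h1).fderiv
    have h4 : fderiv ℝ (fun p : En 2 => ψ (p 0)) p =
      deriv ψ (p 0) • (EuclideanSpace.proj 0 : En 2 →L[ℝ] ℝ) := h3
    rw [h4, normsq]
    simp [bb]
  unfold Df
  simp_rw [e]
  rw [T.int (F := fun p => deriv ψ (p 0) ^ 2) (by fun_prop)]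
  congr 1
  funext x
  simp [hh]

/-- the test inequality for functions of the first coordinate -/
lemma x_test (T : Thin Ω a b M) {α : ℝ} (hα : 0 ≤ α) {ψ : ℝ → ℝ} (hψ : ContDiff ℝ 1 ψ) {P : ℝ}
    (hP : ∀ x, |ψ x| ≤ P) :
    lamf (volume.restrict Ω) (surf Ω) (fun _ => 0) α 1 *
        (∫ x in Ioo (0:ℝ) 1, hh a b x * ψ x ^ 2) ≤
      (∫ x in Ioo (0:ℝ) 1, hh a b x * deriv ψ x ^ 2) + 2 * α * (∫ x in Ioo (0:ℝ) 1, ψ x ^ 2)
          + 4 * α * M * P ^ 2 := by
  have h1 := lam1_le' (ν := surf Ω) T.good (pot_zero _) hα (x_smooth hψ)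
  rw [Qf_eq T.good (pot_zero _) α (x_smooth hψ), T.x_mass hψ.continuous, T.x_dirichlet hψ] at h1
  have h2 : Pf (volume.restrict Ω) (fun _ => (0:ℝ)) (fun p : En 2 => ψ (p 0)) = 0 := by
    unfold Pf; simp
  have h3 := T.bdry_le hψ.continuous hP
  have h4 := mul_le_mul_of_nonneg_left h3 hα
  rw [h2] at h1
  have h5 : Nf (surf Ω) (fun p : En 2 => ψ (p 0)) = ∫ p, ψ (p 0) ^ 2 ∂(surf Ω) := rfl
  rw [h5] at h1
  linarith

lemma pos_h (T : Thin Ω a b M) {x : ℝ} (hx : x ∈ Ioo (0:ℝ) 1) : 0 < hh a b x := by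
  have := T.lt x hx
  unfold hh; linarith

lemma conc_h (T : Thin Ω a b M) : ConcaveOn ℝ (Icc 0 1) (hh a b) := T.cvb.sub T.cva

lemma area_ge (T : Thin Ω a b M) {x0 : ℝ} (hx0 : x0 ∈ Icc (0:ℝ) 1) (hatt : hh a b x0 = M) :
    M / 2 ≤ ∫ x in Ioo (0:ℝ) 1, hh a b x := by
  have hM0 := T.M0
  have hc := T.hh_cont
  -- h ≥ M * x / x0 on [0,x0], ≥ M (1-x)/(1-x0) on [x0,1]
  have e : ∫ x in Ioo (0:ℝ) 1, hh a b x = ∫ x in (0:ℝ)..1, hh a b x := by
    rw [intervalIntegral.integral_of_le (by norm_num), integral_Ioc_eq_integral_Ioo]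
  rw [e, ← intervalIntegral.integral_add_adjacent_intervals (b := x0)
    (hc.intervalIntegrable _ _) (hc.intervalIntegrable _ _)]
  have l1 : M * x0 / 2 ≤ ∫ x in (0:ℝ)..x0, hh a b x := by
    rcases hx0.1.eq_or_lt with h | h
    · rw [← h]; simp
    · have h1 : ∫ x in (0:ℝ)..x0, M / x0 * x ≤ ∫ x in (0:ℝ)..x0, hh a b x := by
        apply intervalIntegral.integral_mono_on h.le
          (Continuous.intervalIntegrable (by fun_prop) _ _) (hc.intervalIntegrable _ _)
        intro x hx
        have k := T.conc_h.2 (show (0:ℝ) ∈ Icc (0:ℝ) 1 from ⟨le_rfl, by norm_num⟩) hx0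
          (show 0 ≤ 1 - x / x0 by
            have : x / x0 ≤ 1 := (div_le_one h).mpr hx.2
            linarith) (show 0 ≤ x / x0 from div_nonneg hx.1 h.le)
          (show 1 - x / x0 + x / x0 = 1 by ring)
        simp only [smul_eq_mul, mul_zero, zero_add, hatt] at k
        have e1 : x / x0 * x0 = x := by field_simp
        rw [e1] at k
        have e2 : hh a b 0 = 0 := by unfold hh; rw [T.end0.1, T.end0.2]; ring
        rw [e2, mul_zero, zero_add] at k
        calc M / x0 * x = x / x0 * M := by ring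
          _ ≤ _ := k
      rw [intervalIntegral.integral_const_mul, integral_id] at h1
      refine le_trans (le_of_eq ?_) h1
      field_simp
      ring
  have l2 : M * (1 - x0) / 2 ≤ ∫ x in x0..1, hh a b x := by
    rcases hx0.2.eq_or_lt with h | h
    · rw [h]; simp
    · have hpos : 0 < 1 - x0 := by linarith
      have h1 : ∫ x in x0..1, M / (1 - x0) * (1 - x) ≤ ∫ x in x0..1, hh a b x := by
        apply intervalIntegral.integral_mono_on h.le
          (Continuous.intervalIntegrable (by fun_prop) _ _) (hc.intervalIntegrable _ _)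
        intro x hx
        have k := T.conc_h.2 hx0 (show (1:ℝ) ∈ Icc (0:ℝ) 1 from ⟨by norm_num, le_rfl⟩)
          (show 0 ≤ (1 - x) / (1 - x0) by apply div_nonneg _ hpos.le; linarith [hx.2])
          (show 0 ≤ (x - x0) / (1 - x0) by apply div_nonneg _ hpos.le; linarith [hx.1])
          (show (1 - x) / (1 - x0) + (x - x0) / (1 - x0) = 1 by field_simp; ring)
        simp only [smul_eq_mul, mul_one, hatt] at k
        have e1 : (1 - x) / (1 - x0) * x0 + (x - x0) / (1 - x0) = x := by field_simp; ring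
        rw [e1] at k
        have e2 : hh a b 1 = 0 := by unfold hh; rw [T.end1.1, T.end1.2]; ring
        rw [e2, mul_zero, add_zero] at k
        calc M / (1 - x0) * (1 - x) = (1 - x) / (1 - x0) * M := by ring
          _ ≤ _ := k
      have e3 : ∫ x in x0..1, M / (1 - x0) * (1 - x) = M * (1 - x0) / 2 := by
        rw [intervalIntegral.integral_const_mul, intervalIntegral.integral_sub (by simp)
          (by simp), integral_id]
        simp
        field_simp
        ring
      rw [e3] at h1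
      exact h1
  linarith

/-- lower bound for the gap of thin planar convex domains -/
theorem gap_ge (T : Thin Ω a b M) {x0 : ℝ} (hx0 : x0 ∈ Icc (0:ℝ) 1) (hatt : hh a b x0 = M)
    {α : ℝ} (hα : 0 < α) (hα1 : α ≤ 1 / 1000000)
    (hMα : M * (8 * α + 1 / 800 + 16 * α ^ 2) ≤ 1 / 5 * α) :
    lamf (volume.restrict Ω) (surf Ω) (fun _ => 0) α 1 + 1 / 800 ≤
      lamf (volume.restrict Ω) (surf Ω) (fun _ => 0) α 2 := by
  set μ := (volume : Measure (En 2)).restrict Ω with hμ
  set ν := surf Ω with hν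
  set lam := lamf μ ν (fun _ => 0) α 1 with hlam
  have hlam0 : 0 ≤ lam := lamf_nonneg T.good (pot_zero _) hα.le 1
  have hMpos : 0 < M := by
    have h1 : (1/2:ℝ) ∈ Ioo (0:ℝ) 1 := by norm_num
    exact lt_of_lt_of_le (T.pos_h h1) (T.hM _)
  have hM4 : M ≤ 1 / 4 := by
    have h1 : M * (1 / 800) ≤ 1 / 5 * α := by
      have : M * (1 / 800) ≤ M * (8 * α + 1 / 800 + 16 * α ^ 2) :=
        mul_le_mul_of_nonneg_left (by nlinarith [sq_nonneg α]) hMpos.le
      linarith
    linarith
  have chh := T.hh_cont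
  -- bound for lam
  have hlamM : lam * M ≤ 4 * α * (1 + 2 * M) := by
    have h1 := T.x_test (α := α) hα.le (ψ := fun _ => (1:ℝ)) contDiff_const (P := 1)
      (fun x => by simp)
    simp only [one_pow, mul_one, deriv_const, ne_eq, OfNat.ofNat_ne_zero, not_false_eq_true,
      zero_pow, mul_zero, integral_zero, zero_add] at h1
    have h2 := T.area_ge hx0 hatt
    have h3 : ∫ _x in Ioo (0:ℝ) 1, (1:ℝ) = 1 := by
      rw [setIntegral_const]; simp
    rw [h3] at h1
    have h4 := mul_le_mul_of_nonneg_left h2 hlam0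
    have h5 : lam * (∫ x in Ioo (0:ℝ) 1, hh a b x) ≤ 2 * α * 1 + 4 * α * M := h1
    nlinarith
  by_contra hcon
  rw [not_le] at hcon
  set Λ := lam + 1 / 800 with hΛ
  set mm := Λ + 16 * α ^ 2 with hmm
  have hΛ0 : 0 < Λ := by linarith
  have hmmM : mm * M ≤ 21 / 5 * α := by
    rw [hmm, hΛ]
    nlinarith
  have hmm0 : 0 < mm := by
    have := sq_nonneg α
    linarith
  have hΛM2 : Λ * M ^ 2 ≤ 1 / 8 := by
    have h1 : Λ * M ≤ mm * M := mul_le_mul_of_nonneg_right (by
      have := sq_nonneg α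
      linarith) hMpos.le
    have h2 : Λ * M ≤ 21 / 5 * α := h1.trans hmmM
    have h3 : Λ * M ^ 2 = (Λ * M) * M := by ring
    rw [h3]
    have h4 : (Λ * M) * M ≤ 21 / 5 * α * M := mul_le_mul_of_nonneg_right h2 hMpos.le
    nlinarith
  -- nonempty set of spaces
  have hx1 : ContDiff ℝ 1 (fun p : En 2 => p 0) := x_smooth (ψ := fun x => x) contDiff_id
  have hposN : ∀ s t : ℝ, s ^ 2 + t ^ 2 ≠ 0 →
      0 < Nf μ (s • (fun _ => (1:ℝ)) + t • (fun p : En 2 => p 0)) := by
    intro s t hst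
    have e : (s • (fun _ => (1:ℝ)) + t • (fun p : En 2 => p 0)) =
        fun p : En 2 => (fun x : ℝ => s + t * x) (p 0) := by
      funext p
      simp
    rw [e, hμ, T.x_mass (ψ := fun x : ℝ => s + t * x) (by fun_prop)]
    by_contra hneg
    rw [not_lt] at hneg
    have hz := eq_zero_of_int (F := fun x => hh a b x * (s + t * x) ^ 2) (by fun_prop)
      (fun x _ => mul_nonneg (T.h0 x) (sq_nonneg _)) hneg
    have z1 := hz (1/4) (by norm_num)
    have z2 := hz (1/2) (by norm_num)
    have p1 := T.pos_h (x := 1/4) (by norm_num)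
    have p2 := T.pos_h (x := 1/2) (by norm_num)
    have y1 : s + t * (1/4) = 0 := by
      have := (mul_eq_zero.mp z1).resolve_left p1.ne'
      exact pow_eq_zero_iff (two_ne_zero) |>.mp this
    have y2 : s + t * (1/2) = 0 := by
      have := (mul_eq_zero.mp z2).resolve_left p2.ne'
      exact pow_eq_zero_iff (two_ne_zero) |>.mp this
    have ht : t = 0 := by linarith
    have hs : s = 0 := by rw [ht] at y1; linarith
    apply hst
    rw [hs, ht]; norm_num
  have hne := lset2_ne (μ := μ) (ν := ν) (V := fun _ => 0) (α := α)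
    (contDiff_const (c := (1:ℝ))) hx1 hposN
  obtain ⟨f1, f2, hf1, hf2, hQ, hpos⟩ := gap_space (μ := μ) (ν := ν) T.good T.surf_good
    (pot_zero _) hα.le hne hcon
  -- the shifted inequality
  have hfC : ∀ s t : ℝ, ContDiff ℝ 1 (s • f1 + t • f2) := fun s t =>
    (contDiff_const.smul hf1).add (contDiff_const.smul hf2)
  set q : ℝ → ℝ := fun x => 2 * α - mm * hh a b x with hq
  have cq : Continuous q := by fun_prop
  have hlow : ∀ s t : ℝ, (∫ x in Ioo (0:ℝ) 1, EE a b (s • f1 + t • f2) x) +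
      (∫ x in Ioo (0:ℝ) 1, q x * uu a b (s • f1 + t • f2) x ^ 2) +
      1 / 8 * (∫ x in Ioo (0:ℝ) 1, hh a b x * YY a b (s • f1 + t • f2) x) ≤ 0 := by
    intro s t
    have h1 := T.lower (hfC s t) hα.le hΛ0.le hΛM2
    have h2 := hQ s t
    rw [Qf_eq T.good (pot_zero _) α (hfC s t)] at h2
    have h3 : Pf μ (fun _ => (0:ℝ)) (s • f1 + t • f2) = 0 := by
      unfold Pf; simp
    rw [h3] at h2
    linarith
  -- nondegeneracy
  have hnondeg : ∀ s t : ℝ, s ^ 2 + t ^ 2 ≠ 0 →
      ¬ ∀ x ∈ Ioo (0:ℝ) 1, q x ≤ 0 → uu a b (s • f1 + t • f2) x = 0 := by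
    intro s t hst hall
    set f := s • f1 + t • f2 with hf
    have hfc := hfC s t
    rw [← hf] at hfc
    have cu := T.uu_cont hfc.continuous
    have cE := T.EE_cont hfc
    have cY := T.YY_cont hfc
    have h1 := hlow s t
    rw [← hf] at h1
    have n1 : 0 ≤ ∫ x in Ioo (0:ℝ) 1, EE a b f x := integral_nonneg fun x => T.EE_nonneg f x
    have hqn : ∀ x ∈ Ioo (0:ℝ) 1, 0 ≤ q x * uu a b f x ^ 2 := by
      intro x hx
      rcases le_or_gt (q x) 0 with h | h
      · rw [hall x hx h]; simp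
      · exact mul_nonneg h.le (sq_nonneg _)
    have n2 : 0 ≤ ∫ x in Ioo (0:ℝ) 1, q x * uu a b f x ^ 2 :=
      setIntegral_nonneg measurableSet_Ioo hqn
    have hyn : ∀ x ∈ Ioo (0:ℝ) 1, 0 ≤ hh a b x * YY a b f x := fun x _ =>
      mul_nonneg (T.h0 x) (YY_nonneg f x)
    have n3 : 0 ≤ ∫ x in Ioo (0:ℝ) 1, hh a b x * YY a b f x :=
      setIntegral_nonneg measurableSet_Ioo hyn
    have z2 := eq_zero_of_int (F := fun x => q x * uu a b f x ^ 2) (by fun_prop) hqn (by linarith)
    have z3 := eq_zero_of_int (F := fun x => hh a b x * YY a b f x) (by fun_prop) hyn (by linarith)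
    have hu0 : ∀ x ∈ Ioo (0:ℝ) 1, uu a b f x = 0 := by
      intro x hx
      rcases le_or_gt (q x) 0 with h | h
      · exact hall x hx h
      · have := (mul_eq_zero.mp (z2 x hx)).resolve_left h.ne'
        exact pow_eq_zero_iff (two_ne_zero) |>.mp this
    have hY0 : ∀ x ∈ Ioo (0:ℝ) 1, YY a b f x = 0 := fun x hx =>
      (mul_eq_zero.mp (z3 x hx)).resolve_left (T.pos_h hx).ne'
    have hN := hpos s t hst
    rw [← hf] at hN
    have hN0 : Nf μ f ≤ 0 := by
      unfold Nf
      have hfcc := hfc.continuous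
      rw [hμ, T.int (F := fun p => f p ^ 2) (by fun_prop)]
      apply setIntegral_nonpos measurableSet_Ioo
      intro x hx
      have hd : Continuous (fderiv ℝ f) := hfc.continuous_fderiv (by norm_num)
      have hdiff : Differentiable ℝ f := hfc.differentiable (by norm_num)
      have hder : ∀ t, HasDerivAt (fun t => f (pt a b x t))
          (hh a b x * fderiv ℝ f (pt a b x t) (bb 1)) t := by
        intro t
        have h1 := (hdiff (pt a b x t)).hasFDerivAt
        have h2 : HasDerivAt (fun t => pt a b x t) (hh a b x • bb 1) t := by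
          have e : (fun t => pt a b x t) =
              fun t => (x • bb 0 + a x • bb 1) + t • (hh a b x • bb 1) := by
            funext t
            rw [pt, P2_lin]
            module
          rw [e]
          have := ((hasDerivAt_id t).smul_const (hh a b x • bb 1)).const_add
            (x • bb 0 + a x • bb 1)
          simpa using this
        have h3 := h1.comp_hasDerivAt t h2
        rw [map_smul, smul_eq_mul] at h3
        exact h3
      have hp := T.pt_cont
      have c2 : Continuous (fun t => pt a b x t) := hp.comp (Continuous.prodMk_right x)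
      have hs := slice_sq hder (by fun_prop)
      have eK : ∫ t in (0:ℝ)..1, (hh a b x * fderiv ℝ f (pt a b x t) (bb 1)) ^ 2 =
          hh a b x ^ 2 * YY a b f x := by
        unfold YY
        rw [← intervalIntegral.integral_const_mul]
        congr 1
        funext t
        ring
      have eu : ∫ t in (0:ℝ)..1, f (pt a b x t) = uu a b f x := rfl
      rw [eK, eu, hY0 x hx, hu0 x hx] at hs
      have : (∫ t in (0:ℝ)..1, f (P2 x (a x + (b x - a x) * t)) ^ 2) ≤ 0 := by
        refine le_trans (le_of_eq rfl) (hs.trans (le_of_eq (by ring)))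
      exact mul_nonpos_of_nonneg_of_nonpos (T.h0 x) this
    linarith
  -- the interval where q ≤ 0
  set I : Set ℝ := {x | x ∈ Icc (0:ℝ) 1 ∧ q x ≤ 0} with hI
  have hIcl : IsCompact I := isCompact_Icc.inter_right (isClosed_le cq continuous_const)
  have hq0 : 0 < q 0 := by
    rw [hq]; simp only
    unfold hh
    rw [T.end0.1, T.end0.2]
    linarith
  have hq1 : 0 < q 1 := by
    rw [hq]; simp only
    unfold hh
    rw [T.end1.1, T.end1.2]
    linarith
  have hIoo : ∀ x ∈ I, x ∈ Ioo (0:ℝ) 1 := by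
    intro x hx
    refine ⟨lt_of_le_of_ne hx.1.1 ?_, lt_of_le_of_ne hx.1.2 ?_⟩
    · rintro rfl
      linarith [hx.2]
    · rintro rfl
      linarith [hx.2]
  have hIne : I.Nonempty := by
    by_contra hemp
    rw [not_nonempty_iff_eq_empty] at hemp
    apply hnondeg 1 0 (by norm_num)
    intro x hx hqx
    have : x ∈ I := ⟨⟨hx.1.le, hx.2.le⟩, hqx⟩
    rw [hemp] at this
    exact absurd this (notMem_empty x)
  obtain ⟨x1, hx1I, hx1min⟩ := hIcl.exists_isLeast hIne
  obtain ⟨x2, hx2I, hx2max⟩ := hIcl.exists_isGreatest hIne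
  have hx12 : x1 ≤ x2 := hx1min hx2I
  have hconv : ∀ x y z, 0 < x → x ≤ y → y ≤ z → z < 1 → 2 * α ≤ mm * hh a b x →
      2 * α ≤ mm * hh a b z → 2 * α ≤ mm * hh a b y := by
    intro x y z hx hxy hyz hz hqx hqz
    have hc := T.conc_h.min_le_of_mem_Icc (x := x) (y := z) ⟨hx.le, by linarith⟩
      ⟨by linarith, hz.le⟩ ⟨hxy, hyz⟩
    rcases min_le_iff.mp hc with h | h
    · exact hqx.trans (mul_le_mul_of_nonneg_left h hmm0.le)
    · exact hqz.trans (mul_le_mul_of_nonneg_left h hmm0.le)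
  have hend : ∀ x ∈ Ioo (0:ℝ) 1, 2 * α ≤ mm * hh a b x →
      M ^ 2 / 36 ≤ x ∧ M ^ 2 / 36 ≤ 1 - x := by
    intro x hx hqx
    have hhpos := T.pos_h hx
    have h1 : 10 * M ≤ 21 * hh a b x := by
      have h4 : mm * M * (2 * α) ≤ 21 / 5 * α * (mm * hh a b x) := by
        have h5 : mm * M * (2 * α) ≤ 21 / 5 * α * (2 * α) :=
          mul_le_mul_of_nonneg_right hmmM (by positivity)
        have h6 : 21 / 5 * α * (2 * α) ≤ 21 / 5 * α * (mm * hh a b x) :=
          mul_le_mul_of_nonneg_left hqx (by positivity)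
        linarith
      have h7 : (mm * α) * (2 * M) ≤ (mm * α) * (21 / 5 * hh a b x) := by
        calc (mm * α) * (2 * M) = mm * M * (2 * α) := by ring
          _ ≤ 21 / 5 * α * (mm * hh a b x) := h4
          _ = _ := by ring
      have h8 := le_of_mul_le_mul_left h7 (by positivity)
      linarith
    have h2 : M ^ 2 ≤ (21 / 10) ^ 2 * hh a b x ^ 2 := by
      rw [← mul_pow]
      apply pow_le_pow_left₀ hMpos.le
      linarith
    obtain ⟨h3, h4⟩ := T.sq x hx
    have h3' : hh a b x ^ 2 ≤ 8 * x := h3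
    have h4' : hh a b x ^ 2 ≤ 8 * (1 - x) := h4
    constructor
    · nlinarith
    · nlinarith
  -- balanced function
  have cu1 := T.uu_cont hf1.continuous
  have cu2 := T.uu_cont hf2.continuous
  obtain ⟨s, t, m, xL, xR, P, hst, hL1, hLm, hmR, hR2, hm0, hLP, hRP, hle⟩ :=
    balanced cu1 cu2 hx12
  set f := s • f1 + t • f2 with hf
  have hfc := hfC s t
  rw [← hf] at hfc
  have huf : ∀ x, uu a b f x = s * uu a b f1 x + t * uu a b f2 x := by
    intro x
    have hp := T.pt_cont
    have c2 : Continuous (fun t => pt a b x t) := hp.comp (Continuous.prodMk_right x)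
    have k1 : Continuous (fun t => f1 (pt a b x t)) := hf1.continuous.comp c2
    have k2 : Continuous (fun t => f2 (pt a b x t)) := hf2.continuous.comp c2
    unfold uu
    rw [← intervalIntegral.integral_const_mul, ← intervalIntegral.integral_const_mul,
      ← intervalIntegral.integral_add ((k1.intervalIntegrable _ _).const_mul _)
        ((k2.intervalIntegrable _ _).const_mul _)]
    congr 1
  have hst' : s ^ 2 + t ^ 2 ≠ 0 := by rw [hst]; norm_num
  have hIcc : ∀ x ∈ Ioo (0:ℝ) 1, 2 * α ≤ mm * hh a b x → x ∈ Icc x1 x2 := by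
    intro x hx hqx
    have : x ∈ I := ⟨⟨hx.1.le, hx.2.le⟩, by rw [hq]; simp only; linarith⟩
    exact ⟨hx1min this, hx2max this⟩
  have hPle : ∀ x ∈ Ioo (0:ℝ) 1, 2 * α ≤ mm * hh a b x → |uu a b f x| ≤ P := by
    intro x hx hqx
    rw [huf]
    exact hle x (hIcc x hx hqx)
  have hP0 : 0 ≤ P := by rw [← hLP]; exact abs_nonneg _
  have hPpos : 0 < P := by
    rcases hP0.eq_or_lt with h | h
    · exfalso
      apply hnondeg s t hst'
      intro x hx hqx
      rw [← hf]
      have := hPle x hx (by rw [hq] at hqx; simp only at hqx; linarith)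
      rw [← h] at this
      exact abs_eq_zero.mp (le_antisymm this (abs_nonneg _))
    · exact h
  have hx10 := hIoo x1 hx1I
  have hx20 := hIoo x2 hx2I
  have hqx1 : 2 * α ≤ mm * hh a b x1 := by
    have := hx1I.2
    rw [hq] at this; simp only at this; linarith
  have hqx2 : 2 * α ≤ mm * hh a b x2 := by
    have := hx2I.2
    rw [hq] at this; simp only at this; linarith
  have hxL0 : 0 < xL := by linarith [hx10.1]
  have hxR1 : xR < 1 := by linarith [hx20.2]
  have hqL : 2 * α ≤ mm * hh a b xL := hconv x1 xL x2 hx10.1 hL1 (by linarith) hx20.2 hqx1 hqx2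
  have hqR : 2 * α ≤ mm * hh a b xR := hconv x1 xR x2 hx10.1 (by linarith) hR2 hx20.2 hqx1 hqx2
  have cE := T.EE_cont hfc
  have cuf := T.uu_cont hfc.continuous
  have cY := T.YY_cont hfc
  have hfinal := valley (α := α) (M := M) (μ := mm) (lam := lam) (P := P) (h := hh a b)
    (E := EE a b f) (u := uu a b f) hα hMpos hM4 chh (fun x hx => T.pos_h hx) T.hM T.h0 cE
    (T.EE_nonneg f) cuf (fun x y hx hxy hy => T.avg_ctl hfc hx hxy hy) (by
      have h1 := hlow s t
      rw [← hf] at h1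
      have n3 : 0 ≤ ∫ x in Ioo (0:ℝ) 1, hh a b x * YY a b f x :=
        setIntegral_nonneg measurableSet_Ioo (fun x _ => mul_nonneg (T.h0 x) (YY_nonneg f x))
      have : (∫ x in Ioo (0:ℝ) 1, EE a b f x) + (∫ x in Ioo (0:ℝ) 1, q x * uu a b f x ^ 2) ≤ 0 := by
        linarith
      exact this) hmmM (by
        have := sq_nonneg α
        linarith) hmm0 hconv hend hxL0 hLm hmR hxR1 hqL hqR (by rw [huf]; exact hm0)
      (by rw [huf]; exact hLP) (by rw [huf]; exact hRP) hPpos hPle (by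
        intro φ Γ s' t' hs' hst2 ht' hΓ0 hΓs ⟨B, hB⟩ hΓm hctl hφP
        exact steklov chh T.h0 T.hM hlam0 hα.le hP0 hs' ht' hΓ0 hΓs hB hΓm hctl hφP
          (fun ψ hψ hψP => T.x_test hα.le hψ hψP))
  have e1 : mm - lam = 1 / 800 + 16 * α ^ 2 := by rw [hmm, hΛ]; ring
  rw [e1] at hfinal
  have h16 : 16 * α ^ 2 ≤ 16 * (1 / 1000000) ^ 2 := by
    have := pow_le_pow_left₀ hα.le hα1 2
    linarith
  have : (1:ℝ) / 678 ≤ 1 / 800 + 16 * (1 / 1000000) ^ 2 + 73 * (1 / 1000000) := by linarith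
  norm_num at this

end Thin

end Pool.Agent.Helper88.Gap
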