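import Mathlib
import Pool.Agent.Helper88.Gap.Slice

open MeasureTheory Set Metric Filter Topology

noncomputable section

namespace Pool.Agent.Helper88.Gap

/-- slices of the closed hull -/
def sl (K : Set (En 2)) (x : ℝ) : Set ℝ := {y | P2 x y ∈ K}
def lo (K : Set (En 2)) (x : ℝ) : ℝ := sInf (sl K x)
def hi (K : Set (En 2)) (x : ℝ) : ℝ := sSup (sl K x)

/-- position data -/
structure Pos (Ω : Set (En 2)) : Prop where
  op : IsOpen Ω
  cv : Convex ℝ Ω
  ne : Ω.Nonempty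
  d0 : ∀ p ∈ closure Ω, dist p (P2 0 0) ≤ 1
  d1 : ∀ p ∈ closure Ω, dist p (P2 1 0) ≤ 1
  m0 : P2 0 0 ∈ closure Ω
  m1 : P2 1 0 ∈ closure Ω

namespace Pos

variable {Ω : Set (En 2)}

lemma b0 (h : Pos Ω) {p : En 2} (hp : p ∈ closure Ω) : p 0 ^ 2 + p 1 ^ 2 ≤ 1 := by
  have h1 := h.d0 p hp
  have h2 := dist2 p (P2 0 0)
  simp only [P2_0, P2_1, sub_zero] at h2
  rw [← h2]
  nlinarith [dist_nonneg (x := p) (y := P2 0 0)]

lemma b1 (h : Pos Ω) {p : En 2} (hp : p ∈ closure Ω) : (p 0 - 1) ^ 2 + p 1 ^ 2 ≤ 1 := by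
  have h1 := h.d1 p hp
  have h2 := dist2 p (P2 1 0)
  simp only [P2_0, P2_1, sub_zero] at h2
  rw [← h2]
  nlinarith [dist_nonneg (x := p) (y := P2 1 0)]

lemma x01 (h : Pos Ω) {p : En 2} (hp : p ∈ closure Ω) : p 0 ∈ Icc (0:ℝ) 1 := by
  have h1 := h.b0 hp
  have h2 := h.b1 hp
  constructor
  · nlinarith [sq_nonneg (p 1)]
  · nlinarith [sq_nonneg (p 1)]

lemma y0 (h : Pos Ω) {p : En 2} (hp : p ∈ closure Ω) : p 1 ^ 2 ≤ 2 * p 0 := by
  have h2 := h.b1 hp
  nlinarith [sq_nonneg (p 0)]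

lemma y1 (h : Pos Ω) {p : En 2} (hp : p ∈ closure Ω) : p 1 ^ 2 ≤ 2 * (1 - p 0) := by
  have h2 := h.b0 hp
  nlinarith [sq_nonneg (p 0 - 1)]

lemma base (h : Pos Ω) {x : ℝ} (hx : x ∈ Icc (0:ℝ) 1) : P2 x 0 ∈ closure Ω := by
  have hc := h.cv.closure
  have := hc h.m0 h.m1 (show 0 ≤ 1 - x by linarith [hx.2]) hx.1 (by ring)
  have e : (1 - x) • P2 0 0 + x • P2 1 0 = P2 x 0 := by
    ext i; fin_cases i <;> simp [P2]
  rwa [e] at this

lemma sl_sub (h : Pos Ω) (x : ℝ) : sl (closure Ω) x ⊆ Icc (-1) 1 := by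
  intro y hy
  have h1 := h.b0 hy
  simp only [P2_0, P2_1] at h1
  constructor <;> nlinarith [sq_nonneg x]

lemma sl_compact (h : Pos Ω) (x : ℝ) : IsCompact (sl (closure Ω) x) := by
  apply isCompact_Icc.of_isClosed_subset _ (h.sl_sub x)
  exact isClosed_closure.preimage (P2_cont' continuous_const continuous_id)

lemma sl_ne (h : Pos Ω) {x : ℝ} (hx : x ∈ Icc (0:ℝ) 1) : (sl (closure Ω) x).Nonempty :=
  ⟨0, h.base hx⟩

lemma sl_empty (h : Pos Ω) {x : ℝ} (hx : x ∉ Icc (0:ℝ) 1) : sl (closure Ω) x = ∅ := by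
  ext y
  simp only [mem_empty_iff_false, iff_false]
  intro hy
  exact hx (h.x01 hy)

lemma lo_mem (h : Pos Ω) {x : ℝ} (hx : x ∈ Icc (0:ℝ) 1) : P2 x (lo (closure Ω) x) ∈ closure Ω :=
  (h.sl_compact x).sInf_mem (h.sl_ne hx)
lemma hi_mem (h : Pos Ω) {x : ℝ} (hx : x ∈ Icc (0:ℝ) 1) : P2 x (hi (closure Ω) x) ∈ closure Ω :=
  (h.sl_compact x).sSup_mem (h.sl_ne hx)
lemma lo_le (h : Pos Ω) {x y : ℝ} (hy : P2 x y ∈ closure Ω) : lo (closure Ω) x ≤ y :=
  csInf_le (h.sl_compact x).bddBelow hy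
lemma le_hi (h : Pos Ω) {x y : ℝ} (hy : P2 x y ∈ closure Ω) : y ≤ hi (closure Ω) x :=
  le_csSup (h.sl_compact x).bddAbove hy
lemma lo_out (h : Pos Ω) {x : ℝ} (hx : x ∉ Icc (0:ℝ) 1) : lo (closure Ω) x = 0 := by
  rw [lo, h.sl_empty hx, Real.sInf_empty]
lemma hi_out (h : Pos Ω) {x : ℝ} (hx : x ∉ Icc (0:ℝ) 1) : hi (closure Ω) x = 0 := by
  rw [hi, h.sl_empty hx, Real.sSup_empty]

lemma lo_nonpos (h : Pos Ω) (x : ℝ) : lo (closure Ω) x ≤ 0 := by
  by_cases hx : x ∈ Icc (0:ℝ) 1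
  · exact h.lo_le (h.base hx)
  · rw [h.lo_out hx]
lemma hi_nonneg (h : Pos Ω) (x : ℝ) : 0 ≤ hi (closure Ω) x := by
  by_cases hx : x ∈ Icc (0:ℝ) 1
  · exact h.le_hi (h.base hx)
  · rw [h.hi_out hx]

lemma lo_sq (h : Pos Ω) (x : ℝ) : lo (closure Ω) x ^ 2 ≤ 2 * |x| ∧
    lo (closure Ω) x ^ 2 ≤ 2 * |1 - x| := by
  by_cases hx : x ∈ Icc (0:ℝ) 1
  · have h1 := h.y0 (h.lo_mem hx)
    have h2 := h.y1 (h.lo_mem hx)
    simp only [P2_0, P2_1] at h1 h2
    rw [abs_of_nonneg hx.1, abs_of_nonneg (sub_nonneg.mpr hx.2)]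
    exact ⟨h1, h2⟩
  · rw [h.lo_out hx]
    constructor
    · rw [zero_pow two_ne_zero]; positivity
    · rw [zero_pow two_ne_zero]; positivity

lemma hi_sq (h : Pos Ω) (x : ℝ) : hi (closure Ω) x ^ 2 ≤ 2 * |x| ∧
    hi (closure Ω) x ^ 2 ≤ 2 * |1 - x| := by
  by_cases hx : x ∈ Icc (0:ℝ) 1
  · have h1 := h.y0 (h.hi_mem hx)
    have h2 := h.y1 (h.hi_mem hx)
    simp only [P2_0, P2_1] at h1 h2
    rw [abs_of_nonneg hx.1, abs_of_nonneg (sub_nonneg.mpr hx.2)]
    exact ⟨h1, h2⟩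
  · rw [h.hi_out hx]
    constructor
    · rw [zero_pow two_ne_zero]; positivity
    · rw [zero_pow two_ne_zero]; positivity

lemma combo (x y x' y' s t : ℝ) : s • P2 x y + t • P2 x' y' = P2 (s * x + t * x') (s * y + t * y') := by
  ext i; fin_cases i <;> simp [P2]

lemma lo_conv (h : Pos Ω) : ConvexOn ℝ (Icc 0 1) (lo (closure Ω)) := by
  refine ⟨convex_Icc 0 1, ?_⟩
  intro x hx y hy s t hs ht hst
  simp only [smul_eq_mul]
  apply h.lo_le
  have := h.cv.closure (h.lo_mem hx) (h.lo_mem hy) hs ht hst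
  rwa [combo] at this

lemma hi_conc (h : Pos Ω) : ConcaveOn ℝ (Icc 0 1) (hi (closure Ω)) := by
  refine ⟨convex_Icc 0 1, ?_⟩
  intro x hx y hy s t hs ht hst
  simp only [smul_eq_mul]
  apply h.le_hi
  have := h.cv.closure (h.hi_mem hx) (h.hi_mem hy) hs ht hst
  rwa [combo] at this

/-- continuity from the square-root bounds -/
lemma cont_of {f : ℝ → ℝ} (hc : ContinuousOn f (Ioo 0 1)) (h0 : ∀ x, f x ^ 2 ≤ 2 * |x|)
    (h1 : ∀ x, f x ^ 2 ≤ 2 * |1 - x|) (ho : ∀ x, x ∉ Icc (0:ℝ) 1 → f x = 0) : Continuous f := by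
  rw [continuous_iff_continuousAt]
  intro x
  have key : ∀ (g : ℝ → ℝ) (x : ℝ), Continuous g → g x = 0 → (∀ y, f y ^ 2 ≤ 2 * |g y|) →
      ContinuousAt f x := by
    intro g x hg hgx hb
    have hfx : f x = 0 := by
      have := hb x
      rw [hgx, abs_zero, mul_zero] at this
      exact pow_eq_zero_iff two_ne_zero |>.mp (le_antisymm this (sq_nonneg _))
    rw [ContinuousAt, hfx]
    have hlim : Tendsto (fun y => √(2 * |g y|)) (𝓝 x) (𝓝 0) := by
      have : Continuous (fun y => √(2 * |g y|)) := by fun_prop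
      have h2 := this.tendsto x
      rw [hgx, abs_zero, mul_zero, Real.sqrt_zero] at h2
      exact h2
    apply squeeze_zero_norm _ hlim
    intro y
    rw [Real.norm_eq_abs]
    exact Real.abs_le_sqrt (hb y)
  rcases lt_trichotomy x 0 with hx | hx | hx
  · have : f =ᶠ[𝓝 x] fun _ => 0 := by
      filter_upwards [Iio_mem_nhds hx] with y hy
      exact ho y (fun h => absurd h.1 (not_le.mpr hy))
    exact this.continuousAt
  · exact key (fun y => y) x continuous_id hx h0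
  · rcases lt_trichotomy x 1 with hx1 | hx1 | hx1
    · exact hc.continuousAt (Ioo_mem_nhds hx hx1)
    · exact key (fun y => 1 - y) x (by fun_prop) (by linarith) h1
    · have : f =ᶠ[𝓝 x] fun _ => 0 := by
        filter_upwards [Ioi_mem_nhds hx1] with y hy
        exact ho y (fun h => absurd h.2 (not_le.mpr hy))
      exact this.continuousAt

lemma lo_cont (h : Pos Ω) : Continuous (lo (closure Ω)) := by
  apply cont_of
  · have := h.lo_conv.continuousOn_interior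
    rwa [interior_Icc] at this
  · exact fun x => (h.lo_sq x).1
  · exact fun x => (h.lo_sq x).2
  · exact fun x hx => h.lo_out hx

lemma hi_cont (h : Pos Ω) : Continuous (hi (closure Ω)) := by
  apply cont_of
  · have := h.hi_conc.continuousOn_interior
    rwa [interior_Icc] at this
  · exact fun x => (h.hi_sq x).1
  · exact fun x => (h.hi_sq x).2
  · exact fun x hx => h.hi_out hx

lemma exists_slice (h : Pos Ω) {x : ℝ} (hx : x ∈ Ioo (0:ℝ) 1) : ∃ q ∈ Ω, q 0 = x := by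
  obtain ⟨r, hr, hrd⟩ := Metric.mem_closure_iff.mp h.m0 x hx.1
  obtain ⟨r', hr', hrd'⟩ := Metric.mem_closure_iff.mp h.m1 (1 - x) (by linarith [hx.2])
  have e1 : r 0 < x := by
    have h1 := dist2 (P2 0 0) r
    simp only [P2_0, P2_1] at h1
    have h2 : dist (P2 0 0) r ^ 2 < x ^ 2 := pow_lt_pow_left₀ hrd dist_nonneg two_ne_zero
    nlinarith [sq_nonneg (0 - r 1), hx.1]
  have e2 : x < r' 0 := by
    have h1 := dist2 (P2 1 0) r'
    simp only [P2_0, P2_1] at h1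
    have h2 : dist (P2 1 0) r' ^ 2 < (1 - x) ^ 2 := pow_lt_pow_left₀ hrd' dist_nonneg two_ne_zero
    nlinarith [sq_nonneg (0 - r' 1), hx.2]
  have hd : 0 < r' 0 - r 0 := by linarith
  refine ⟨((r' 0 - x) / (r' 0 - r 0)) • r + ((x - r 0) / (r' 0 - r 0)) • r', ?_, ?_⟩
  · apply h.cv hr hr'
    · exact div_nonneg (by linarith) hd.le
    · exact div_nonneg (by linarith) hd.le
    · field_simp; ring
  · simp only [PiLp.add_apply, PiLp.smul_apply, smul_eq_mul]
    field_simp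
    ring

lemma near (h : Pos Ω) {p : En 2} (hp : p ∈ Ω) : ∃ δ > 0, P2 (p 0 - δ) (p 1) ∈ Ω ∧
    P2 (p 0 + δ) (p 1) ∈ Ω ∧ P2 (p 0) (p 1 - δ) ∈ Ω ∧ P2 (p 0) (p 1 + δ) ∈ Ω := by
  obtain ⟨δ, hδ, hb⟩ := Metric.isOpen_iff.mp h.op p hp
  have key : ∀ x y : ℝ, (x - p 0) ^ 2 + (y - p 1) ^ 2 = (δ / 2) ^ 2 → P2 x y ∈ Ω := by
    intro x y hxy
    apply hb
    rw [mem_ball]
    have h1 : dist (P2 x y) p ^ 2 = (δ / 2) ^ 2 := by
      rw [dist2, P2_0, P2_1, hxy]
    have h2 : dist (P2 x y) p = δ / 2 := by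
      have := (sq_eq_sq₀ dist_nonneg (by positivity)).mp h1
      exact this
    rw [h2]
    linarith
  refine ⟨δ / 2, by positivity, key _ _ (by ring), key _ _ (by ring), key _ _ (by ring),
    key _ _ (by ring)⟩

lemma mem_iff (h : Pos Ω) (p : En 2) : p ∈ Ω ↔ p 0 ∈ Ioo (0:ℝ) 1 ∧
    p 1 ∈ Ioo (lo (closure Ω) (p 0)) (hi (closure Ω) (p 0)) := by
  constructor
  · intro hp
    obtain ⟨δ, hδ, h1, h2, h3, h4⟩ := h.near hp
    have k1 := h.x01 (subset_closure h1)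
    have k2 := h.x01 (subset_closure h2)
    have k3 := h.lo_le (subset_closure h3)
    have k4 := h.le_hi (subset_closure h4)
    simp only [P2_0] at k1 k2
    exact ⟨⟨by linarith [k1.1], by linarith [k2.2]⟩, by linarith, by linarith⟩
  · rintro ⟨hx, hy1, hy2⟩
    obtain ⟨q, hq, hqx⟩ := h.exists_slice hx
    have hxc : p 0 ∈ Icc (0:ℝ) 1 := ⟨hx.1.le, hx.2.le⟩
    have hqi : q ∈ interior Ω := by rwa [h.op.interior_eq]
    have key : ∀ z : ℝ, P2 (p 0) z ∈ closure Ω → ∀ s t : ℝ, 0 < s → 0 < t → s + t = 1 →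
        s * q 1 + t * z = p 1 → p ∈ Ω := by
      intro z hz s t hs ht hst he
      have h1 := h.cv.combo_interior_closure_mem_interior hqi hz hs ht.le hst
      rw [h.op.interior_eq] at h1
      have e : s • q + t • P2 (p 0) z = p := by
        rw [← P2_eta q, combo, hqx, he]
        have : s * p 0 + t * p 0 = p 0 := by rw [← add_mul, hst, one_mul]
        rw [this, P2_eta]
      rwa [e] at h1
    rcases lt_trichotomy (p 1) (q 1) with h1 | h1 | h1
    · set a := lo (closure Ω) (p 0) with ha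
      have hd : 0 < q 1 - a := by linarith
      refine key a (h.lo_mem hxc) ((p 1 - a) / (q 1 - a)) ((q 1 - p 1) / (q 1 - a))
        (div_pos (by linarith) hd) (div_pos (by linarith) hd) ?_ ?_
      · field_simp; ring
      · field_simp; ring
    · have : p = q := by
        rw [← P2_eta p, ← P2_eta q, hqx, h1]
      rw [this]; exact hq
    · set a := hi (closure Ω) (p 0) with ha
      have hd : 0 < a - q 1 := by linarith
      refine key a (h.hi_mem hxc) ((a - p 1) / (a - q 1)) ((p 1 - q 1) / (a - q 1))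
        (div_pos (by linarith) hd) (div_pos (by linarith) hd) ?_ ?_
      · field_simp; ring
      · field_simp; ring

lemma thin (h : Pos Ω) : ∃ a b M x0, Thin Ω a b M ∧ x0 ∈ Icc (0:ℝ) 1 ∧ hh a b x0 = M := by
  set a := lo (closure Ω) with ha
  set b := hi (closure Ω) with hb
  have ca : Continuous a := h.lo_cont
  have cb : Continuous b := h.hi_cont
  obtain ⟨x0, hx0, hmax⟩ := isCompact_Icc.exists_isMaxOn (s := Icc (0:ℝ) 1) ⟨0, by simp⟩
    (f := hh a b) (by unfold hh; fun_prop)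
  refine ⟨a, b, hh a b x0, x0, ?_, hx0, rfl⟩
  have hout : ∀ x, x ∉ Ioo (0:ℝ) 1 → a x = 0 ∧ b x = 0 := by
    intro x hx
    by_cases hxc : x ∈ Icc (0:ℝ) 1
    · have hx01 : x = 0 ∨ x = 1 := by
        by_contra hne
        rw [not_or] at hne
        exact hx ⟨lt_of_le_of_ne hxc.1 (Ne.symm hne.1), lt_of_le_of_ne hxc.2 hne.2⟩
      rcases hx01 with rfl | rfl
      · have h1 := (h.lo_sq 0).1
        have h2 := (h.hi_sq 0).1
        rw [abs_zero, mul_zero] at h1 h2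
        exact ⟨pow_eq_zero_iff two_ne_zero |>.mp (le_antisymm h1 (sq_nonneg _)),
          pow_eq_zero_iff two_ne_zero |>.mp (le_antisymm h2 (sq_nonneg _))⟩
      · have h1 := (h.lo_sq 1).2
        have h2 := (h.hi_sq 1).2
        rw [sub_self, abs_zero, mul_zero] at h1 h2
        exact ⟨pow_eq_zero_iff two_ne_zero |>.mp (le_antisymm h1 (sq_nonneg _)),
          pow_eq_zero_iff two_ne_zero |>.mp (le_antisymm h2 (sq_nonneg _))⟩
    · exact ⟨h.lo_out hxc, h.hi_out hxc⟩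
  refine ⟨ca, cb, h.mem_iff, ?_, fun x hx => (hout x hx).1, fun x hx => (hout x hx).2,
    h.lo_nonpos, h.hi_nonneg, h.lo_conv, h.hi_conc, ?_, ?_⟩
  · intro x hx
    obtain ⟨q, hq, hqx⟩ := h.exists_slice hx
    have := ((h.mem_iff q).mp hq).2
    rw [hqx] at this
    linarith [this.1, this.2]
  · intro x
    by_cases hxc : x ∈ Icc (0:ℝ) 1
    · exact hmax hxc
    · have h1 := h.lo_out hxc
      have h2 := h.hi_out hxc
      rw [← ha] at h1
      rw [← hb] at h2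
      rw [h1, h2]
      unfold hh
      linarith [h.lo_nonpos x0, h.hi_nonneg x0]
  · intro x hx
    obtain ⟨h1, h2⟩ := h.lo_sq x
    obtain ⟨h3, h4⟩ := h.hi_sq x
    rw [abs_of_pos hx.1] at h1 h3
    rw [abs_of_pos (sub_pos.mpr hx.2)] at h2 h4
    rw [← ha] at h1 h2
    rw [← hb] at h3 h4
    constructor
    · nlinarith [sq_nonneg (b x + a x)]
    · nlinarith [sq_nonneg (b x + a x)]

end Pos

end Pool.Agent.Helper88.Gap
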