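import Mathlib
import Pool.Agent.Helper88.Gap.Iso
import Pool.Agent.Helper88.Gap.Norm
import Pool.Agent.Helper88.Gap.Low

open MeasureTheory Set Metric Filter Topology

noncomputable section

namespace Pool.Agent.Helper88.Gap

lemma exists_diam {X : Type*} [MetricSpace X] [ProperSpace X] {Ω : Set X} (hne : Ω.Nonempty) (hb : Bornology.IsBounded Ω) :
    ∃ P ∈ closure Ω, ∃ Q ∈ closure Ω, dist P Q = diam Ω ∧
      ∀ p ∈ closure Ω, ∀ q ∈ closure Ω, dist p q ≤ diam Ω := by
  have hc : IsCompact (closure Ω) := hb.isCompact_closure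
  have hcont : Continuous (fun r : X × X => dist r.1 r.2) := continuous_dist
  obtain ⟨r, hr, hmax⟩ := (hc.prod hc).exists_isMaxOn (hne.closure.prod hne.closure)
    hcont.continuousOn
  have h1 : ∀ p ∈ closure Ω, ∀ q ∈ closure Ω, dist p q ≤ diam Ω := by
    intro p hp q hq
    have := dist_le_diam_of_mem hc.isBounded hp hq
    rwa [diam_closure] at this
  rw [mem_prod] at hr
  refine ⟨r.1, hr.1, r.2, hr.2, le_antisymm (h1 _ hr.1 _ hr.2) ?_, h1⟩
  apply diam_le_of_forall_dist_le dist_nonneg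
  intro x hx y hy
  have hxy : (x, y) ∈ closure Ω ×ˢ closure Ω := ⟨subset_closure hx, subset_closure hy⟩
  exact (isMaxOn_iff.mp hmax) _ hxy

/-- a planar convex domain of diameter one in normal position -/
lemma exists_pos {Ω : Set (En 2)} (ho : IsOpen Ω) (hc : Convex ℝ Ω) (hne : Ω.Nonempty)
    (hb : Bornology.IsBounded Ω) (hd : diam Ω = 1) :
    ∃ (L : En 2 ≃ₗᵢ[ℝ] En 2) (P : En 2), Pos (tg L P '' Ω) := by
  obtain ⟨P, hP, Q, hQ, hPQ, hle⟩ := exists_diam hne hb
  rw [hd] at hPQ hle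
  have hn1 : ‖Q - P‖ = 1 := by rw [← dist_eq_norm, dist_comm]; exact hPQ
  have hn2 : ‖P2 1 0‖ = 1 := by
    have h1 := dist2 (P2 1 0) 0
    rw [dist_zero_right] at h1
    simp only [P2_0, P2_1] at h1
    have h2 : ‖P2 1 0‖ ^ 2 = 1 ^ 2 := by rw [h1]; simp
    exact (sq_eq_sq₀ (norm_nonneg _) (by norm_num)).mp h2
  obtain ⟨L, hL⟩ := exists_rigid (hn1.trans hn2.symm)
  refine ⟨L, P, ?_⟩
  have ecl : closure (tg L P '' Ω) = tg L P '' closure Ω :=
    ((tg L P).toHomeomorph.image_closure Ω).symm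
  have eP : tg L P P = P2 0 0 := by
    rw [tg_apply, sub_self, map_zero]
    ext i; fin_cases i <;> simp [P2]
  have eQ : tg L P Q = P2 1 0 := by rw [tg_apply, hL]
  refine ⟨(tg L P).toHomeomorph.isOpenMap Ω ho, ?_, hne.image _, ?_, ?_, ?_, ?_⟩
  · rintro _ ⟨x, hx, rfl⟩ _ ⟨y, hy, rfl⟩ s t hs ht hst
    refine ⟨s • x + t • y, hc hx hy hs ht hst, ?_⟩
    simp only [tg_apply]
    rw [← map_smul, ← map_smul, ← map_add]
    congr 1
    have : P = s • P + t • P := by rw [← add_smul, hst, one_smul]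
    rw [smul_sub, smul_sub]
    nth_rewrite 1 [this]
    abel
  · intro p hp
    rw [ecl] at hp
    obtain ⟨x, hx, rfl⟩ := hp
    rw [← eP, (tg L P).isometry.dist_eq]
    exact hle x hx P hP
  · intro p hp
    rw [ecl] at hp
    obtain ⟨x, hx, rfl⟩ := hp
    rw [← eQ, (tg L P).isometry.dist_eq]
    exact hle x hx Q hQ
  · rw [ecl, ← eP]; exact mem_image_of_mem _ hP
  · rw [ecl, ← eQ]; exact mem_image_of_mem _ hQ

/-- Thin planar convex domains of diameter one have gap at least `1/800`. -/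
theorem planar_gap {Ω : Set (En 2)} (ho : IsOpen Ω) (hc : Convex ℝ Ω) (hne : Ω.Nonempty)
    (hb : Bornology.IsBounded Ω) (hd : diam Ω = 1) {α : ℝ} (hα : 0 < α)
    (hα1 : α ≤ 1 / 1000000)
    (hvol : 2 * (volume Ω).toReal * (8 * α + 1 / 800 + 16 * α ^ 2) ≤ 1 / 5 * α) :
    lamf (volume.restrict Ω) (surf Ω) (fun _ => 0) α 1 + 1 / 800 ≤
      lamf (volume.restrict Ω) (surf Ω) (fun _ => 0) α 2 := by
  obtain ⟨L, P, hpos⟩ := exists_pos ho hc hne hb hd
  obtain ⟨a, b, M, x0, T, hx0, hatt⟩ := hpos.thin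
  have m1 := restrict_tg L P Ω
  have m2 := restrict_tg_haus L P Ω 1
  have e : ∀ k, lamf (volume.restrict Ω) (surf Ω) (fun _ => 0) α k =
      lamf (volume.restrict (tg L P '' Ω)) (surf (tg L P '' Ω)) (fun _ => 0) α k := by
    intro k
    exact lamf_tg m1 m2 (fun _ => 0) α k
  rw [e 1, e 2]
  apply T.gap_ge hx0 hatt hα hα1
  have hM : M ≤ 2 * (volume Ω).toReal := by
    have h1 := T.area_ge hx0 hatt
    have h2 := T.x_mass (ψ := fun _ => (1:ℝ)) continuous_const
    have h3 : (volume (tg L P '' Ω)) = volume Ω := by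
      have := (tg_vol L P).measure_preimage_emb (tg L P).toHomeomorph.measurableEmbedding
        (tg L P '' Ω)
      rw [← this, preimage_image_eq _ (tg L P).injective]
    have h4 : Nf (volume.restrict (tg L P '' Ω)) (fun _ => (1:ℝ)) = (volume Ω).toReal := by
      unfold Nf
      simp [Measure.real, h3]
    rw [h4] at h2
    simp only [one_pow, mul_one] at h2
    linarith
  have h5 : 0 ≤ 8 * α + 1 / 800 + 16 * α ^ 2 := by positivity
  exact (mul_le_mul_of_nonneg_right hM h5).trans hvol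

/-- segments are null sets of the plane -/
lemma seg_null (P Q : En 2) : volume (segment ℝ P Q) = 0 := by
  have h1 : segment ℝ P Q ⊆ (affineSpan ℝ {P, Q} : Set (En 2)) := by
    rw [← convexHull_pair]
    exact convexHull_subset_affineSpan _
  apply measure_mono_null h1
  apply Measure.addHaar_affineSubspace
  intro h
  have h2 := (collinear_pair ℝ P Q).finrank_le_one
  rw [← direction_affineSpan, h, AffineSubspace.direction_top, finrank_top] at h2
  simp at h2

/-- areas tend to zero along a sequence converging to a segment -/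
lemma vol_tendsto {Ω : ℕ → Set (En 2)} (hne : ∀ k, (Ω k).Nonempty)
    (hb : ∀ k, Bornology.IsBounded (Ω k)) {P Q : En 2}
    (h : Tendsto (fun k => hausdorffDist (Ω k) (segment ℝ P Q)) atTop (𝓝 0)) {ε : ℝ}
    (hε : 0 < ε) : ∀ᶠ k in atTop, (volume (Ω k)).toReal ≤ ε := by
  have hsc : IsCompact (segment ℝ P Q) := by
    rw [← convexHull_pair]
    exact (Set.toFinite ({P, Q} : Set (En 2))).isCompact_convexHull ℝ
  have hsne : (segment ℝ P Q).Nonempty := ⟨P, left_mem_segment ℝ P Q⟩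
  have ht := tendsto_measure_cthickening_of_isCompact (μ := (volume : Measure (En 2))) hsc
  rw [seg_null] at ht
  have h1 : ∀ᶠ r in 𝓝 (0:ℝ), volume (cthickening r (segment ℝ P Q)) < ENNReal.ofReal ε :=
    ht.eventually_lt_const (ENNReal.ofReal_pos.mpr hε)
  obtain ⟨δ, hδ, hδb⟩ := Metric.eventually_nhds_iff.mp h1
  have h2 : ∀ᶠ k in atTop, hausdorffDist (Ω k) (segment ℝ P Q) < δ / 2 :=
    h.eventually_lt_const (by positivity)
  filter_upwards [h2] with k hk
  have hfin : hausdorffEDist (Ω k) (segment ℝ P Q) ≠ ⊤ :=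
    hausdorffEDist_ne_top_of_nonempty_of_bounded (hne k) hsne (hb k) hsc.isBounded
  have hsub : Ω k ⊆ cthickening (δ / 2) (segment ℝ P Q) := by
    intro x hx
    obtain ⟨y, hy, hxy⟩ := exists_dist_lt_of_hausdorffDist_lt hx hk hfin
    exact mem_cthickening_of_dist_le x y _ _ hy hxy.le
  have h3 := hδb (y := δ / 2) (by
    rw [Real.dist_eq, sub_zero, abs_of_pos (by positivity)]
    linarith)
  exact ENNReal.toReal_le_of_le_ofReal hε.le ((measure_mono hsub).trans h3.le)

end Pool.Agent.Helper88.Gap
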