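import Mathlib
import Pool.Agent.Helper88.Gap.Deep
import Pool.Agent.Helper88.Gap.Seg
import Pool.Agent.Helper88.Gap.Scale

open MeasureTheory Set Metric Filter Topology
open scoped Pointwise

noncomputable section

namespace Pool.Agent.Helper88.Gap

lemma smul_img (c : ℝ) (Ω : Set (En 2)) : (fun p : En 2 => c • p) '' Ω = c • Ω := rfl

/-- the two first eigenvalues are ordered -/
lemma lam12 {μ ν : Measure (En 2)} (hμ : Good μ) (hν : Good ν) {V : En 2 → ℝ} (hV : Pot μ V)
    {α : ℝ} (hα : 0 ≤ α) (hne : (lset μ ν V α 2).Nonempty) :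
    lamf μ ν V α 1 ≤ lamf μ ν V α 2 := by
  apply le_csInf hne
  rintro r ⟨W, hW, hc, hp, rfl⟩
  have hbdd := rq_bdd (ν := ν) hμ hν hV hα hW hc hp
  have hWne : W ≠ ⊥ := by
    rintro rfl
    simp at hW
  obtain ⟨v, hvW, hv⟩ := Submodule.exists_mem_ne_zero_of_ne_bot hWne
  have hN := hp v hvW hv
  have h1 : lamf μ ν V α 1 ≤ Qf μ ν V α v / Nf μ v :=
    csInf_le (lset_bdd hμ hV hα 1) (lset1_mem (hc v hvW) hN)
  exact h1.trans (le_csSup hbdd ⟨v, hvW, hv, rfl⟩)

/-- thin planar convex domains of diameter `d` -/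
theorem planar_gap' {Ω : Set (En 2)} (ho : IsOpen Ω) (hc : Convex ℝ Ω) (hne : Ω.Nonempty)
    (hb : Bornology.IsBounded Ω) {d : ℝ} (hd0 : 0 < d) (hd : diam Ω = d) {α : ℝ} (hα : 0 < α)
    (hα1 : α * d ≤ 1 / 1000000)
    (hvol : 2 * ((volume Ω).toReal / d ^ 2) *
      (8 * (α * d) + 1 / 800 + 16 * (α * d) ^ 2) ≤ 1 / 5 * (α * d)) :
    lamf (volume.restrict Ω) (surf Ω) (fun _ => 0) α 1 + 1 / (800 * d ^ 2) ≤
      lamf (volume.restrict Ω) (surf Ω) (fun _ => 0) α 2 := by
  have hdi : 0 < d⁻¹ := inv_pos.mpr hd0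
  set Ω' : Set (En 2) := (fun p : En 2 => d⁻¹ • p) '' Ω with hΩ'
  have hback : (fun p : En 2 => d • p) '' Ω' = Ω := by
    rw [hΩ', image_image]
    simp only [smul_smul, mul_inv_cancel₀ hd0.ne', one_smul, image_id']
  have e : ∀ k, d ^ 2 * lamf (volume.restrict Ω) (surf Ω) (fun _ => 0) α k =
      lamf (volume.restrict Ω') (surf Ω') (fun _ => 0) (α * d) k := by
    intro k
    have h1 := sc_vol hd0 Ω'
    have h2 := sc_surf hd0 Ω'
    rw [hback] at h1 h2
    have h3 := lamf_sc hd0 h1 h2 (fun _ => 0) α k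
    simpa using h3
  have hvol' : (volume Ω').toReal = (volume Ω).toReal / d ^ 2 := by
    rw [hΩ', smul_img, Measure.addHaar_smul, ENNReal.toReal_mul,
      ENNReal.toReal_ofReal (abs_nonneg _)]
    simp
    field_simp
  have hp := planar_gap (Ω := Ω') ((Homeomorph.smulOfNeZero d⁻¹ hdi.ne').isOpenMap Ω ho)
    (hc.smul _) (hne.image _) (by rw [hΩ', smul_img]; exact hb.smul₀ _) (by
      rw [hΩ', smul_img, diam_smul₀, hd, Real.norm_of_nonneg hdi.le]
      field_simp) (α := α * d) (by positivity) hα1 (by rw [hvol']; exact hvol)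
  rw [← e 1, ← e 2] at hp
  have hd2 : 0 < d ^ 2 := by positivity
  have h4 : d ^ 2 * (lamf (volume.restrict Ω) (surf Ω) (fun _ => 0) α 1 + 1 / (800 * d ^ 2)) ≤
      d ^ 2 * lamf (volume.restrict Ω) (surf Ω) (fun _ => 0) α 2 := by
    have : d ^ 2 * (1 / (800 * d ^ 2)) = 1 / 800 := by field_simp
    rw [mul_add, this]
    exact hp
  exact le_of_mul_le_mul_left h4 hd2

/-- eventual lower bound along degenerating sequences -/
theorem seg_gap {Ω : ℕ → Set (En 2)} {d : ℝ} (hd0 : 0 < d)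
    (hΩ : ∀ k, IsOpen (Ω k) ∧ Convex ℝ (Ω k) ∧ (Ω k).Nonempty ∧ Bornology.IsBounded (Ω k) ∧
      diam (Ω k) = d) {P Q : En 2}
    (h : Tendsto (fun k => hausdorffDist (Ω k) (segment ℝ P Q)) atTop (𝓝 0))
    {α : ℝ} (hα : 0 < α) (hα1 : α * d ≤ 1 / 1000000) :
    ∀ᶠ k in atTop, 1 / (800 * d ^ 2) ≤ lamf (volume.restrict (Ω k)) (surf (Ω k)) (fun _ => 0) α 2 -
      lamf (volume.restrict (Ω k)) (surf (Ω k)) (fun _ => 0) α 1 := by
  have hd2 : 0 < d ^ 2 := by positivity
  have hαd : 0 < α * d := by positivity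
  set B := 8 * (α * d) + 1 / 800 + 16 * (α * d) ^ 2 with hB
  have hB0 : 0 < B := by positivity
  have hε : 0 < 1 / 5 * (α * d) * d ^ 2 / (2 * B) := by positivity
  filter_upwards [vol_tendsto (fun k => (hΩ k).2.2.1) (fun k => (hΩ k).2.2.2.1) h hε] with k hk
  obtain ⟨h1, h2, h3, h4, h5⟩ := hΩ k
  have := planar_gap' h1 h2 h3 h4 hd0 h5 hα hα1 (by
    rw [← hB]
    rw [le_div_iff₀ (by positivity)] at hk
    rw [div_eq_mul_inv]
    have e : 2 * ((volume (Ω k)).toReal * (d ^ 2)⁻¹) * B =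
      (volume (Ω k)).toReal * (2 * B) / d ^ 2 := by field_simp
    rw [e, div_le_iff₀ hd2]
    exact hk)
  linarith

/-- a planar convex domain of diameter `d` with a linear potential and a small gap -/
theorem small_gap {d α η : ℝ} (hd0 : 0 < d) (hα : 0 < α) (hη : 0 < η) :
    ∃ (Ω : Set (En 2)) (K : ℝ), IsOpen Ω ∧ Convex ℝ Ω ∧ Ω.Nonempty ∧ Bornology.IsBounded Ω ∧
      diam Ω = d ∧ 0 ≤ K ∧
      lamf (volume.restrict Ω) (surf Ω) (fun p => K * p 1) α 1 ≤
        lamf (volume.restrict Ω) (surf Ω) (fun p => K * p 1) α 2 ∧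
      lamf (volume.restrict Ω) (surf Ω) (fun p => K * p 1) α 2 -
        lamf (volume.restrict Ω) (surf Ω) (fun p => K * p 1) α 1 < η := by
  have hαd : 0 < α * d := by positivity
  obtain ⟨L, ε, κ, h, hdiam, hgap⟩ := deep hαd (η := η * d ^ 2 / 2) (by positivity)
  set H := Hs L ε κ with hH
  set K0 : ℝ := 8 * (α * d) / ε ^ 2 with hK0
  have hε := h.ε0
  have hK00 : 0 ≤ K0 := by positivity
  have hd2 : 0 < d ^ 2 := by positivity
  have e : ∀ k, d ^ 2 * lamf (volume.restrict ((fun p : En 2 => d • p) '' H))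
      (surf ((fun p : En 2 => d • p) '' H)) (fun p => K0 / d ^ 3 * p 1) α k =
      lamf (muH L ε κ) (surf H) (vp (α * d) ε) (α * d) k := by
    intro k
    have h3 := lamf_sc hd0 (sc_vol hd0 H) (sc_surf hd0 H) (fun p => K0 / d ^ 3 * p 1) α k
    rw [h3]
    have : (fun p : En 2 => d ^ 2 * (K0 / d ^ 3 * (d • p) 1)) = vp (α * d) ε := by
      funext p
      unfold vp
      rw [← hK0]
      simp only [PiLp.smul_apply, smul_eq_mul]
      field_simp
    rw [this]
    rfl
  have h12 : lamf (muH L ε κ) (surf H) (vp (α * d) ε) (α * d) 1 ≤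
      lamf (muH L ε κ) (surf H) (vp (α * d) ε) (α * d) 2 := by
    by_cases hne : (lset (muH L ε κ) (surf H) (vp (α * d) ε) (α * d) 2).Nonempty
    · exact lam12 h.good h.surf_good (h.pot hαd.le) hαd.le hne
    · exfalso
      apply hne
      have hx1 : ContDiff ℝ 1 (fun p : En 2 => p 0) := x0_contDiff
      have hN : ∀ f : ℝ → ℝ, Continuous f → Nf (muH L ε κ) (fun p => f (p 0)) =
          ∫ x in Ioo (-L) L, hb L ε κ x * f x ^ 2 := by
        intro f hf
        have c0 := coord_cont 0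
        unfold Nf muH
        rw [(h.int (F := fun p => f (p 0) ^ 2) (h.good _ (by fun_prop))).1]
        congr 1
        funext x
        simp
      refine lset2_ne (contDiff_const (c := (1:ℝ))) hx1 ?_
      intro s t hst
      have e0 : (s • (fun _ => (1:ℝ)) + t • (fun p : En 2 => p 0)) =
          fun p : En 2 => (fun x : ℝ => s + t * x) (p 0) := by
        funext p
        simp
      rw [e0, hN (fun x : ℝ => s + t * x) (by fun_prop)]
      have hL := h.L0
      have hsub : ∀ x ∈ Icc (-L) L, 0 ≤ hb L ε κ x * (s + t * x) ^ 2 := fun x hx =>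
        mul_nonneg (h.hb_pos (abs_le.mpr hx)).le (sq_nonneg _)
      have hcont : Continuous (fun x => hb L ε κ x * (s + t * x) ^ 2) := by
        have := hb_cont L ε κ
        fun_prop
      have hex : ∃ x ∈ Icc (-L) L, 0 < hb L ε κ x * (s + t * x) ^ 2 := by
        by_contra hno
        push Not at hno
        have z : ∀ x ∈ Icc (-L) L, s + t * x = 0 := by
          intro x hx
          have h1 := le_antisymm (hno x hx) (hsub x hx)
          have h2 := (mul_eq_zero.mp h1).resolve_left (h.hb_pos (abs_le.mpr hx)).ne'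
          exact pow_eq_zero_iff two_ne_zero |>.mp h2
        have z1 := z 0 ⟨by linarith, hL.le⟩
        have z2 := z L ⟨by linarith, le_rfl⟩
        rw [mul_zero, add_zero] at z1
        rw [z1, zero_add] at z2
        have z3 := (mul_eq_zero.mp z2).resolve_right hL.ne'
        apply hst
        rw [z1, z3]; norm_num
      obtain ⟨x, hx, hxp⟩ := hex
      have := intervalIntegral.integral_pos (f := fun x => hb L ε κ x * (s + t * x) ^ 2)
        (a := -L) (b := L) (by linarith) hcont.continuousOn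
        (fun y hy => hsub y ⟨hy.1.le, hy.2⟩) ⟨x, hx, hxp⟩
      rwa [intervalIntegral.integral_of_le (by linarith), integral_Ioc_eq_integral_Ioo] at this
  refine ⟨(fun p : En 2 => d • p) '' H, K0 / d ^ 3,
    (Homeomorph.smulOfNeZero d hd0.ne').isOpenMap H (Hs_isOpen L ε κ), h.convex.smul d,
    h.nonempty.image _, by rw [smul_img]; exact h.bounded.smul₀ _, ?_, by positivity, ?_, ?_⟩
  · rw [smul_img, diam_smul₀, hdiam, Real.norm_of_nonneg hd0.le, mul_one]
  · rw [← e 1, ← e 2] at h12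
    exact le_of_mul_le_mul_left h12 hd2
  · rw [← e 1, ← e 2] at hgap
    have : d ^ 2 * (lamf (volume.restrict ((fun p : En 2 => d • p) '' H))
        (surf ((fun p : En 2 => d • p) '' H)) (fun p => K0 / d ^ 3 * p 1) α 2 -
        lamf (volume.restrict ((fun p : En 2 => d • p) '' H))
        (surf ((fun p : En 2 => d • p) '' H)) (fun p => K0 / d ^ 3 * p 1) α 1) < d ^ 2 * η := by
      have : 0 < η * d ^ 2 / 2 := by positivity
      linarith
    exact lt_of_mul_lt_mul_left this hd2.le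

end Pool.Agent.Helper88.Gap
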